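import Pool.Agent.P.MP_f43029_ag.MatA

/-! Null-homotopic scalars.
Sketch. `nh_mask`: replace `h` by `h' i j = if ε i = ε j then 0 else h i j` and compare entries.
`nh_of_nilpotent`: `ν` commutes with `D` (because `D * D` is central); with
`P = ∑ j ∈ range N, y ^ (N-1-j) • (-ν) ^ j` one has `(y + ν) * P = y ^ N - (-ν) ^ N`
(`Commute.mul_geom_sum₂` or induction), and `h * P` is the homotopy. `nh_self`: the homotopy is
the part of `D` with rows of parity `-1`. `nh_flip`: from the blocks of `h` build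
`fromBlocks 0 (-h₁₂) h₂₁ 0`. `lift_mat`: mask, then choose preimages entrywise,
choosing `0` over entries with `ε i = ε j`. `MF.tens`: homotopies `h ⊗ₖ 1` with `h` masked. -/

set_option linter.unusedSectionVars false

open Finset Matrix
open scoped Kronecker

noncomputable section

universe u

namespace Pool.Agent.Theta

variable {T : Type*} [CommRing T]
variable {ι κ : Type*} [Fintype ι] [DecidableEq ι] [Fintype κ] [DecidableEq κ]

theorem Mat_eq {a b : ℤˣ} (h : a ≠ -1 * b) : a = b := by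
  rcases Int.units_eq_one_or a with rfl | rfl <;> rcases Int.units_eq_one_or b with rfl | rfl <;>
    simp at h ⊢

theorem Mat_ne (a : ℤˣ) : a ≠ -1 * a := by
  rcases Int.units_eq_one_or a with rfl | rfl <;> decide

theorem nh_mask {ε : ι → ℤˣ} {D : Matrix ι ι T} (hD : Od ε D) {c : T} (h : Nh D c) :
    ∃ h : Matrix ι ι T, Od ε h ∧ D * h + h * D = c • (1 : Matrix ι ι T) := by
  obtain ⟨h, hh⟩ := h
  have ho : Od ε (Matrix.of fun i j => if ε i = ε j then 0 else h i j) := fun i j hij =>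
    if_pos (Mat_eq hij)
  refine ⟨_, ho, ?_⟩
  ext i j
  by_cases e : ε i = ε j
  · rw [← hh]
    simp only [Matrix.add_apply, Matrix.mul_apply, of_apply]
    congr 1 <;> refine sum_congr rfl fun x _ => ?_
    · split_ifs with h1
      · rw [hD i x (by rw [e, h1]; exact Mat_ne _), zero_mul, zero_mul]
      · rfl
    · split_ifs with h1
      · rw [hD x j (by rw [← e, h1]; exact Mat_ne _), mul_zero, mul_zero]
      · rfl
  · have e' : ε i ≠ -1 * -1 * ε j := by simpa using e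
    rw [Matrix.add_apply, Par.mul hD ho i j e', Par.mul ho hD i j e', Matrix.smul_apply,
      one_apply_ne fun h => e (by rw [h]), smul_zero, add_zero]

theorem Nh.mul {D : Matrix ι ι T} {c : T} (h : Nh D c) (a : T) : Nh D (a * c) := by
  obtain ⟨h, hh⟩ := h
  exact ⟨a • h, by rw [Matrix.mul_smul, Matrix.smul_mul, ← smul_add, hh, mul_smul]⟩

theorem Nh.add {D : Matrix ι ι T} {c c' : T} (h : Nh D c) (h' : Nh D c') : Nh D (c + c') := by
  obtain ⟨h, hh⟩ := h
  obtain ⟨h', hh'⟩ := h'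
  refine ⟨h + h', ?_⟩
  rw [add_smul, ← hh, ← hh', mul_add, add_mul]
  abel

theorem Mat_map_one {T' : Type*} [CommRing T'] (e : T →+* T') (c : T) :
    (c • (1 : Matrix ι ι T)).map e = e c • (1 : Matrix ι ι T') := by
  ext i j
  simp only [Matrix.map_apply, Matrix.smul_apply, one_apply, smul_eq_mul]
  split_ifs <;> simp

theorem Nh.map {T' : Type*} [CommRing T'] {D : Matrix ι ι T} {c : T} (h : Nh D c)
    (e : T →+* T') : Nh (D.map e) (e c) := by
  obtain ⟨h, hh⟩ := h
  refine ⟨h.map e, ?_⟩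
  rw [← Matrix.map_mul, ← Matrix.map_mul, ← Matrix.map_add _ (map_add e), hh, Mat_map_one]

theorem Nh.transpose {D : Matrix ι ι T} {c : T} (h : Nh D c) : Nh Dᵀ c := by
  obtain ⟨h, hh⟩ := h
  refine ⟨hᵀ, ?_⟩
  rw [← transpose_mul, ← transpose_mul, ← transpose_add, add_comm, hh, transpose_smul,
    transpose_one]

theorem nh_self {ε : ι → ℤˣ} {D : Matrix ι ι T} (hD : Od ε D) {f : T}
    (hsq : D * D = f • (1 : Matrix ι ι T)) : Nh D f := by
  obtain ⟨P, hP⟩ : ∃ P : Matrix ι ι T, D * P + P * D = D := by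
    refine ⟨diagonal fun i => if ε i = 1 then 1 else 0, ?_⟩
    ext i j
    rw [Matrix.add_apply, mul_diagonal, diagonal_mul]
    by_cases e : ε i = -1 * ε j
    · rw [e]
      rcases Int.units_eq_one_or (ε j) with h | h <;> simp [h]
    · simp [hD i j e]
  refine ⟨P * D, ?_⟩
  rw [← hsq, ← mul_assoc]
  conv_rhs => arg 1; rw [← hP]
  rw [add_mul]

theorem nh_of_nilpotent {D h ν : Matrix ι ι T} {f y : T} (hsq : D * D = f • (1 : Matrix ι ι T))
    (hh : D * h + h * D = y • (1 : Matrix ι ι T) + ν) {N : ℕ} (hν : ν ^ N = 0) : Nh D (y ^ N) :=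
  by
  have c1 : Commute D (y • (1 : Matrix ι ι T)) := (Commute.one_right D).smul_right y
  have c2 : Commute D (-ν) := by
    have e : -ν = y • (1 : Matrix ι ι T) - (D * h + h * D) := by
      rw [hh]
      abel
    rw [e]
    refine c1.sub_right ?_
    rw [Commute, SemiconjBy, mul_add, add_mul, ← mul_assoc, mul_assoc h, hsq, ← mul_assoc,
      Matrix.smul_mul, Matrix.mul_smul, Matrix.one_mul, Matrix.mul_one, add_comm]
  have c3 : Commute (y • (1 : Matrix ι ι T)) (-ν) := (Commute.one_left _).smul_left y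
  obtain ⟨P, c4, hP⟩ : ∃ P : Matrix ι ι T, Commute D P ∧
      (y • (1 : Matrix ι ι T) - -ν) * P = (y • (1 : Matrix ι ι T)) ^ N - (-ν) ^ N :=
    ⟨_, Commute.sum_right _ _ _ fun i _ => (c1.pow_right i).mul_right (c2.pow_right _),
      c3.mul_geom_sum₂ N⟩
  refine ⟨h * P, ?_⟩
  rw [neg_pow, hν, mul_zero, sub_zero, smul_pow, one_pow, sub_neg_eq_add, ← hh] at hP
  rw [← hP, mul_assoc h, ← c4.eq, add_mul, mul_assoc, mul_assoc]

theorem nh_flip {a b : Type*} [Fintype a] [DecidableEq a] [Fintype b] [DecidableEq b]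
    {φ : Matrix a b T} {ψ : Matrix b a T} {c : T} (h : Nh (fromBlocks 0 φ ψ 0) c) :
    Nh (fromBlocks 0 φ (-ψ) 0) c := by
  obtain ⟨h, hh⟩ := h
  rw [← fromBlocks_toBlocks h, fromBlocks_multiply, fromBlocks_multiply, fromBlocks_add,
    ← fromBlocks_one, fromBlocks_smul, fromBlocks_inj] at hh
  refine ⟨fromBlocks 0 (-h.toBlocks₁₂) h.toBlocks₂₁ 0, ?_⟩
  rw [fromBlocks_multiply, fromBlocks_multiply, fromBlocks_add, ← fromBlocks_one, fromBlocks_smul,
    ← hh.1, ← hh.2.2.2]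
  simp

theorem Mat_lift {T' : Type*} [CommRing T'] (π : T' →+* T) (hπ : Function.Surjective π)
    {ε : ι → ℤˣ} {A : Matrix ι ι T} (hA : Od ε A) :
    ∃ B : Matrix ι ι T', Od ε B ∧ B.map π = A := by
  have key : ∀ i j, ∃ t, π t = A i j ∧ (A i j = 0 → t = 0) := fun i j => by
    by_cases h : A i j = 0
    · exact ⟨0, by rw [h, map_zero], fun _ => rfl⟩
    · exact (hπ (A i j)).imp fun t ht => ⟨ht, fun e => absurd e h⟩
  choose t h1 h2 using key
  exact ⟨Matrix.of t, fun i j h => h2 i j (hA i j h), Matrix.ext h1⟩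

theorem lift_mat {T' α : Type*} [CommRing T'] (π : T' →+* T) (hπ : Function.Surjective π)
    {ε : ι → ℤˣ} {D : Matrix ι ι T} (hD : Od ε D) {y : α → T} (h : ∀ i, Nh D (y i)) :
    ∃ (Dt : Matrix ι ι T') (ht : α → Matrix ι ι T'), Od ε Dt ∧ (∀ i, Od ε (ht i)) ∧
      Dt.map π = D ∧ ∀ i, (Dt * ht i + ht i * Dt).map π = y i • (1 : Matrix ι ι T) := by
  choose g g1 g2 using fun i => nh_mask hD (h i)
  choose ht h1 h2 using fun i => Mat_lift π hπ (g1 i)
  obtain ⟨Dt, d1, d2⟩ := Mat_lift π hπ hD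
  refine ⟨Dt, ht, d1, h1, d2, fun i => ?_⟩
  rw [Matrix.map_add _ (map_add π), Matrix.map_mul, Matrix.map_mul, d2, h2, g2]

variable {n : ℕ} {k : Type*} [Field k]

theorem MF.tens {ε : ι → ℤˣ} {ε' : κ → ℤˣ} {D : Matrix ι ι (PS n k)} {D' : Matrix κ κ (PS n k)}
    {f : PS n k} (h : MF ε D f) (h' : MF ε' D' (-f)) : MF (tE ε ε') (tD ε D D') 0 := by
  refine ⟨od_tD h.od h'.od, ?_, h.supp.imp fun N hN i => ?_⟩
  · rw [tD_mul_tD h.od, h.sq, h'.sq, smul_kronecker, kronecker_smul, one_kronecker_one,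
      ← add_smul, add_neg_cancel]
  · obtain ⟨g, g1, g2⟩ := nh_mask h.od (hN i)
    exact ⟨g ⊗ₖ 1, by rw [tD_comm_left D g1, g2, smul_kronecker, one_kronecker_one]⟩

theorem MF.transpose {ε : ι → ℤˣ} {D : Matrix ι ι (PS n k)} {f : PS n k} (h : MF ε D f) :
    MF (-ε) Dᵀ f :=
  ⟨od_transpose h.od, by rw [← transpose_mul, h.sq, transpose_smul, transpose_one],
    h.supp.imp fun _ hN i => (hN i).transpose⟩

theorem MF.neg {ε : ι → ℤˣ} {D : Matrix ι ι (PS n k)} {f : PS n k} (h : MF ε D f) :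
    MF (-ε) D f := ⟨od_neg h.od, h.sq, h.supp⟩

end Pool.Agent.Theta
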