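import Pool.Agent.P.MP_f43029_ag.BdB
import Pool.Agent.P.MP_f43029_ag.Mat

/-! Lifts give decaying Chern character forms.
Sketch. `adm`: expand `A * A - φ • 1 = (D*D - f).map + ∑ p, s p • (D h p + h p D - y p).map +
∑ p q, (s p * s q) • (h p * h q).map`. Let `d` bound the degrees in `t` of all entries of these
finitely many polynomial matrices and of `D`, `h p`; let `m > 0` be the minimum of `e - γ - r`,
`e + w - r`, `2 w + γ - r` (`h0`, `h1`, `h2`), `η = m / 2`, `τ = m / (2 (d+1))`. Use `toCoT_mem`,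
`toCoT_mem_ker`, `X_mem`, `Bd_mul`, `Bd_anti`, and `dec_ch` with `μ = -τ d - |w + γ|`.
`adm2`: `P = Fin n × Bool`, `f = 0`, `y p = C (X p.1 ^ N p)`. `adm1`: `P = Fin n`, constant
polynomials (`toCoT_C`). -/

open Finset Matrix
open scoped Kronecker

noncomputable section

universe u

namespace Pool.Agent.Theta

variable {n : ℕ} {k W K : Type*} [Field k] [CommRing W] [CommRing K] [Algebra ℚ K]
  (𝒟 : Datum k W K)
variable {ι κ : Type*} [Fintype ι] [DecidableEq ι] [Fintype κ] [DecidableEq κ]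

omit [Fintype κ] [DecidableEq κ] in
theorem adm_expand {C P : Type*} [CommRing C] [Fintype P] (D : Matrix ι ι C)
    (h : P → Matrix ι ι C) (f : C) (y s : P → C) :
    (D + ∑ p, s p • h p) * (D + ∑ p, s p • h p) - (f + ∑ p, s p * y p) • (1 : Matrix ι ι C) =
      (D * D - f • (1 : Matrix ι ι C)) +
        ∑ p, s p • (D * h p + h p * D - y p • (1 : Matrix ι ι C)) +
        ∑ p, ∑ q, (s p * s q) • (h p * h q) := by
  have e : (∑ p, s p • h p) * (∑ p, s p • h p) = ∑ p, ∑ q, (s p * s q) • (h p * h q) := by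
    rw [sum_mul_sum]
    exact sum_congr rfl fun p _ => sum_congr rfl fun q _ => smul_mul_smul_comm _ _ _ _
  rw [add_mul, mul_add, mul_add, e, mul_sum, sum_mul, add_smul, sum_smul]
  simp only [smul_sub, smul_add, sum_sub_distrib, sum_add_distrib, Matrix.mul_smul,
    Matrix.smul_mul, mul_smul]
  abel

omit [Fintype ι] in
theorem adm_map {C C' : Type*} [CommRing C] [CommRing C'] (T : C →+* C') (c : C) :
    (c • (1 : Matrix ι ι C)).map T = T c • (1 : Matrix ι ι C') := by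
  ext i j
  by_cases e : i = j <;> simp [Matrix.one_apply, e]

theorem adm_map1 {C C' : Type*} [CommRing C] [CommRing C'] (T : C →+* C') (D : Matrix ι ι C)
    (c : C) : (D * D - c • (1 : Matrix ι ι C)).map T =
      D.map T * D.map T - T c • (1 : Matrix ι ι C') := by
  rw [Matrix.map_sub _ (map_sub T), Matrix.map_mul, adm_map]

theorem adm_map2 {C C' : Type*} [CommRing C] [CommRing C'] (T : C →+* C') (D h : Matrix ι ι C)
    (c : C) : (D * h + h * D - c • (1 : Matrix ι ι C)).map T =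
      D.map T * h.map T + h.map T * D.map T - T c • (1 : Matrix ι ι C') := by
  rw [Matrix.map_sub _ (map_sub T), Matrix.map_add _ (map_add T), Matrix.map_mul, Matrix.map_mul,
    adm_map]

theorem adm {P : Type*} [Fintype P] (v : P → Fin n × Bool) (ε : ι → ℤˣ)
    (D : Matrix ι ι (Polynomial (PS n W))) (h : P → Matrix ι ι (Polynomial (PS n W)))
    (f : Polynomial (PS n W)) (y : P → Polynomial (PS n W))
    (hD : (D * D - f • (1 : Matrix ι ι _)).map (Polynomial.mapRingHom (redS 𝒟)) = 0)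
    (hh : ∀ p, (D * h p + h p * D - y p • (1 : Matrix ι ι _)).map
      (Polynomial.mapRingHom (redS 𝒟)) = 0) :
    Dec 𝒟 (ch 𝒟.u ε
      (D.map (toCoT 𝒟) + ∑ p, (MvPolynomial.X (some (v p)) : Co n K) • (h p).map (toCoT 𝒟))
      (toCoT 𝒟 f + ∑ p, MvPolynomial.X (some (v p)) * toCoT 𝒟 (y p))) := by
  obtain ⟨d1, b1⟩ := Finite.exists_le fun x : ι × ι => (D x.1 x.2).natDegree
  obtain ⟨d2, b2⟩ := Finite.exists_le fun x : P × ι × ι => (h x.1 x.2.1 x.2.2).natDegree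
  obtain ⟨d3, b3⟩ := Finite.exists_le fun x : ι × ι =>
    ((D * D - f • 1 : Matrix ι ι (Polynomial (PS n W))) x.1 x.2).natDegree
  obtain ⟨d4, b4⟩ := Finite.exists_le fun x : P × ι × ι =>
    ((D * h x.1 + h x.1 * D - y x.1 • 1 : Matrix ι ι (Polynomial (PS n W)))
      x.2.1 x.2.2).natDegree
  obtain ⟨d5, b5⟩ := Finite.exists_le fun x : P × P × ι × ι =>
    ((h x.1 * h x.2.1) x.2.2.1 x.2.2.2).natDegree
  obtain ⟨d, hd⟩ : ∃ d, d = d1 + d2 + d3 + d4 + d5 := ⟨_, rfl⟩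
  obtain ⟨m, m0, m1, m2, m3⟩ : ∃ m : ℝ, 0 < m ∧ m ≤ 𝒟.e - 𝒟.γ - 𝒟.r ∧ m ≤ 𝒟.e + 𝒟.w - 𝒟.r ∧
      m ≤ 2 * 𝒟.w + 𝒟.γ - 𝒟.r :=
    ⟨min (𝒟.e - 𝒟.γ - 𝒟.r) (min (𝒟.e + 𝒟.w - 𝒟.r) (2 * 𝒟.w + 𝒟.γ - 𝒟.r)),
      lt_min (sub_pos.2 𝒟.h0) (lt_min (sub_pos.2 𝒟.h1) (sub_pos.2 𝒟.h2)), min_le_left _ _,
      (min_le_right _ _).trans (min_le_left _ _), (min_le_right _ _).trans (min_le_right _ _)⟩
  obtain ⟨τ, t0, t1⟩ : ∃ τ : ℝ, 0 < τ ∧ τ * d ≤ m / 2 := by
    refine ⟨m / (2 * (d + 1)), by positivity, ?_⟩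
    rw [div_mul_eq_mul_div, div_le_div_iff₀ (by positivity) two_pos]
    nlinarith
  have hX : ∀ p, (MvPolynomial.X (some (v p)) : Co n K) ∈ Bd 𝒟 τ (𝒟.w + 𝒟.γ) := fun p =>
    X_mem 𝒟 τ (some (v p))
  refine dec_ch 𝒟 ε _ _ (η := m / 2) (μ := -(τ * d) - |𝒟.w + 𝒟.γ|) t0 (by positivity)
    (fun i j => ?_) fun i j => ?_
  · rw [adm_expand, ← adm_map1]
    simp only [← adm_map2]
    simp only [← Matrix.map_mul, Matrix.add_apply, Matrix.sum_apply,
      Matrix.smul_apply, smul_eq_mul, Matrix.map_apply]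
    refine add_mem (add_mem ?_ (sum_mem fun p _ => ?_)) (sum_mem fun p _ => sum_mem fun q _ => ?_)
    · refine Bd_anti 𝒟 τ ?_ (toCoT_mem_ker 𝒟 t0.le (d := d) ((b3 (i, j)).trans (by omega))
        (congrFun (congrFun hD i) j))
      linarith
    · refine Bd_anti 𝒟 τ ?_ (Bd_mul 𝒟 (hX p) (toCoT_mem_ker 𝒟 t0.le (d := d)
        ((b4 (p, i, j)).trans (by omega)) (congrFun (congrFun (hh p) i) j)))
      linarith
    · refine Bd_anti 𝒟 τ ?_ (Bd_mul 𝒟 (Bd_mul 𝒟 (hX p) (hX q)) (toCoT_mem 𝒟 t0.le (d := d)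
        ((b5 (p, q, i, j)).trans (by omega))))
      linarith
  · simp only [Matrix.add_apply, Matrix.sum_apply, Matrix.smul_apply, smul_eq_mul,
      Matrix.map_apply]
    refine add_mem ?_ (sum_mem fun p _ => ?_)
    · refine Bd_anti 𝒟 τ ?_ (toCoT_mem 𝒟 t0.le (d := d) ((b1 (i, j)).trans (by omega)))
      linarith [abs_nonneg (𝒟.w + 𝒟.γ)]
    · refine Bd_anti 𝒟 τ ?_ (Bd_mul 𝒟 (hX p)
        (toCoT_mem 𝒟 t0.le (d := d) ((b2 (p, i, j)).trans (by omega))))
      linarith [neg_abs_le (𝒟.w + 𝒟.γ)]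

theorem adm2 (ε : ι → ℤˣ) (D : Matrix ι ι (Polynomial (PS n W)))
    (h h' : Fin n → Matrix ι ι (Polynomial (PS n W))) (N N' : Fin n → ℕ)
    (hD : (D * D).map (Polynomial.mapRingHom (redS 𝒟)) = 0)
    (hh : ∀ i, (D * h i + h i * D).map (Polynomial.mapRingHom (redS 𝒟)) =
      (Polynomial.C (MvPowerSeries.X i ^ N i) : Polynomial (PS n k)) • (1 : Matrix ι ι _))
    (hh' : ∀ i, (D * h' i + h' i * D).map (Polynomial.mapRingHom (redS 𝒟)) =
      (Polynomial.C (MvPowerSeries.X i ^ N' i) : Polynomial (PS n k)) • (1 : Matrix ι ι _)) :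
    Dec 𝒟 (ch 𝒟.u ε (supc true (supc false (D.map (toCoT 𝒟)) fun i => (h i).map (toCoT 𝒟))
      fun i => (h' i).map (toCoT 𝒟)) (psi (N2 N N'))) := by
  have key := adm 𝒟 (P := Fin n × Bool) id ε D (fun p => cond p.2 (h' p.1) (h p.1)) 0
    (fun p => Polynomial.C (MvPowerSeries.X p.1 ^ N2 N N' p)) (by rw [zero_smul, sub_zero, hD])
    (by
      rintro ⟨i, b⟩
      rw [Matrix.map_sub _ (map_sub _), adm_map, Polynomial.coe_mapRingHom, Polynomial.map_C,
        map_pow, redS_X, sub_eq_zero]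
      cases b
      · exact hh i
      · exact hh' i)
  simp only [Fintype.sum_prod_type, Fintype.sum_bool, sum_add_distrib, map_zero, zero_add, id,
    toCoT_C, map_pow, toCo_X] at key
  rw [psi_N2]
  simp only [supc, psiB, map_pow]
  rw [add_assoc, add_comm (∑ i, (MvPolynomial.X (some (i, false)) : Co n K) • _),
    add_comm (∑ i, (MvPolynomial.X (some (i, false)) : Co n K) * _)]
  exact key

theorem adm1 {ε : ι → ℤˣ} {D : Matrix ι ι (PS n k)} (L : Lift 𝒟 ε D) (b : Bool) (f : PS n W)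
    (hD : D * D = redS 𝒟 f • (1 : Matrix ι ι (PS n k))) :
    Dec 𝒟 (ch 𝒟.u ε (L.A b) (toCo 𝒟 f + psiB b L.N)) := by
  have c1 : ∀ M : Matrix ι ι (PS n W), (M.map Polynomial.C).map (Polynomial.mapRingHom (redS 𝒟)) =
      (M.map (redS 𝒟)).map Polynomial.C := fun M => by
    ext i j : 2
    simp
  have c2 : ∀ M : Matrix ι ι (PS n W), (M.map Polynomial.C).map (toCoT 𝒟) = M.map (toCo 𝒟) :=
    fun M => Matrix.ext fun i j => toCoT_C 𝒟 _
  have key := adm 𝒟 (P := Fin n) (fun i => (i, b)) ε (L.Dt.map Polynomial.C)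
    (fun i => (L.ht i).map Polynomial.C) (Polynomial.C f)
    (fun i => Polynomial.C (MvPowerSeries.X i ^ L.N i))
    (by rw [← adm_map1, c1, adm_map1, L.redD, hD, sub_self, Matrix.map_zero _ (map_zero _)])
    (fun i => by
      rw [← adm_map2, c1, Matrix.map_sub _ (map_sub _), L.redh, adm_map, map_pow, redS_X, sub_self,
        Matrix.map_zero _ (map_zero _)])
  simp only [c2, toCoT_C, map_pow, toCo_X] at key
  simp only [Lift.A, supc, psiB, map_pow]
  exact key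

end Pool.Agent.Theta
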