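import Pool.Agent.P.MP_f43029_ag.Co

/-! The filtration on coefficients.
Sketch. `Bd_mul`: `MvPolynomial.coeff_mul`, `MvPowerSeries.coeff_mul`, `sum_mem`, `𝒟.mul_mem`; the
weight `∑ v, wt v * a v` is additive in `a`. `1 ∈ F 0` is `𝒟.io_mem 1`; natural multiples stay in
an additive subgroup. `toCoT g = ∑ i ∈ range (d+1), toCo (g.coeff i) * X none ^ i`
(`Polynomial.eval₂_eq_sum_range'`), `X none ^ i ∈ Bd τ (-τ i) ≤ Bd τ (-τ d)`. `der_mem`: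
`coeff_pdx` and `MvPolynomial.coeff_pderiv`. -/

open Finset Matrix
open scoped Kronecker

noncomputable section

universe u

namespace Pool.Agent.Theta

variable {n : ℕ} {k W K : Type*} [Field k] [CommRing W] [CommRing K] [Algebra ℚ K]
  (𝒟 : Datum k W K)

private theorem mem_iff {τ j : ℝ} {g : Co n K} : g ∈ Bd 𝒟 τ j ↔
    ∀ a b, MvPowerSeries.coeff b (MvPolynomial.coeff a g) ∈ 𝒟.F (j - ∑ v, wt 𝒟 τ v * a v) :=
  Iff.rfl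

private theorem wt_add (τ : ℝ) (a a' : Var n →₀ ℕ) :
    ∑ v, wt 𝒟 τ v * (a + a') v = ∑ v, wt 𝒟 τ v * a v + ∑ v, wt 𝒟 τ v * a' v := by
  simp only [Finsupp.add_apply, Nat.cast_add, mul_add, sum_add_distrib]

private theorem wt_single (τ : ℝ) (x : Var n) :
    ∑ v, wt 𝒟 τ v * (Finsupp.single x 1 : Var n →₀ ℕ) v = wt 𝒟 τ x := by
  rw [sum_eq_single x (fun v _ h => by rw [Finsupp.single_eq_of_ne h, Nat.cast_zero, mul_zero])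
    (fun h => absurd (mem_univ x) h), Finsupp.single_eq_same, Nat.cast_one, mul_one]

private theorem one_mem_F : (1 : K) ∈ 𝒟.F 0 := map_one 𝒟.io ▸ 𝒟.io_mem 1

private theorem succ_mem {j : ℝ} {x : K} (h : x ∈ 𝒟.F j) (m : ℕ) : x * ((m : K) + 1) ∈ 𝒟.F j := by
  rw [← Nat.cast_succ, mul_comm, ← nsmul_eq_mul]
  exact nsmul_mem h _

private theorem monomial_mem (τ : ℝ) {j : ℝ} (a : Var n →₀ ℕ) {g : PS n K}
    (h : ∀ b, MvPowerSeries.coeff b g ∈ 𝒟.F (j - ∑ v, wt 𝒟 τ v * a v)) :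
    (MvPolynomial.monomial a g : Co n K) ∈ Bd 𝒟 τ j := (mem_iff 𝒟).2 fun a' b => by
  rw [MvPolynomial.coeff_monomial]
  split_ifs with e
  · exact e ▸ h b
  · exact zero_mem _

private theorem C_mem (τ : ℝ) {j : ℝ} {g : PS n K} (h : ∀ b, MvPowerSeries.coeff b g ∈ 𝒟.F j) :
    (MvPolynomial.C g : Co n K) ∈ Bd 𝒟 τ j :=
  monomial_mem 𝒟 τ 0 (by simpa using h)

private theorem ite_mem {j : ℝ} {c : K} (h : c ∈ 𝒟.F j) (p : Prop) [Decidable p] :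
    (if p then c else 0) ∈ 𝒟.F j := by
  split_ifs
  · exact h
  · exact zero_mem _

theorem Bd_anti (τ : ℝ) {j j' : ℝ} (h : j ≤ j') : Bd (n := n) 𝒟 τ j' ≤ Bd 𝒟 τ j :=
  fun _ hg => (mem_iff 𝒟).2 fun a b => 𝒟.anti (sub_le_sub_right h _) ((mem_iff 𝒟).1 hg a b)

theorem Bd_tau {τ τ' : ℝ} (h : τ ≤ τ') (j : ℝ) : Bd (n := n) 𝒟 τ' j ≤ Bd 𝒟 τ j :=
  fun _ hg => (mem_iff 𝒟).2 fun a b => 𝒟.anti (sub_le_sub_left (sum_le_sum fun v _ =>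
    mul_le_mul_of_nonneg_right (by
      cases v
      · exact neg_le_neg h
      · exact le_rfl) (Nat.cast_nonneg _)) j) ((mem_iff 𝒟).1 hg a b)

theorem Bd_mul {τ j j' : ℝ} {a b : Co n K} (ha : a ∈ Bd 𝒟 τ j) (hb : b ∈ Bd 𝒟 τ j') :
    a * b ∈ Bd 𝒟 τ (j + j') := (mem_iff 𝒟).2 fun x y => by
  rw [MvPolynomial.coeff_mul, map_sum]
  refine sum_mem fun p hp => ?_
  rw [MvPowerSeries.coeff_mul, ← mem_antidiagonal.1 hp, wt_add, add_sub_add_comm]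
  exact sum_mem fun q _ => 𝒟.mul_mem ((mem_iff 𝒟).1 ha p.1 q.1) ((mem_iff 𝒟).1 hb p.2 q.2)

theorem cst_mem (τ : ℝ) {j : ℝ} {c : K} (h : c ∈ 𝒟.F j) : (cst c : Co n K) ∈ Bd 𝒟 τ j :=
  C_mem 𝒟 τ fun b => by
    rw [MvPowerSeries.algebraMap_apply, MvPowerSeries.coeff_C]
    exact ite_mem 𝒟 h _

theorem one_mem_Bd (τ : ℝ) : (1 : Co n K) ∈ Bd 𝒟 τ 0 :=
  map_one (cst : K →+* Co n K) ▸ cst_mem 𝒟 τ (one_mem_F 𝒟)

theorem X_mem (τ : ℝ) (v : Var n) : (MvPolynomial.X v : Co n K) ∈ Bd 𝒟 τ (wt 𝒟 τ v) :=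
  monomial_mem 𝒟 τ _ fun b => by
    rw [wt_single, sub_self, MvPowerSeries.coeff_one]
    exact ite_mem 𝒟 (one_mem_F 𝒟) _

theorem toCo_mem (τ : ℝ) (g : PS n W) : toCo 𝒟 g ∈ Bd 𝒟 τ 0 :=
  C_mem 𝒟 τ fun _ => 𝒟.io_mem _

theorem toCo_mem_ker (τ : ℝ) {g : PS n W} (h : redS 𝒟 g = 0) : toCo 𝒟 g ∈ Bd 𝒟 τ 𝒟.e :=
  C_mem 𝒟 τ fun b => 𝒟.ker_mem _ (congrArg (MvPowerSeries.coeff b) h)

private theorem toCoT_aux {τ e : ℝ} (hτ : 0 ≤ τ) {g : Polynomial (PS n W)} {d : ℕ}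
    (hd : g.natDegree ≤ d) (h : ∀ i, toCo 𝒟 (g.coeff i) ∈ Bd 𝒟 τ e) :
    toCoT 𝒟 g ∈ Bd 𝒟 τ (e - τ * d) := by
  have h1 : ∀ i : ℕ, (MvPolynomial.X none : Co n K) ^ i ∈ Bd 𝒟 τ (-(τ * i)) := fun i => by
    induction i with
    | zero => simpa using one_mem_Bd 𝒟 τ
    | succ i ih =>
      rw [pow_succ, show -(τ * ((i + 1 : ℕ) : ℝ)) = -(τ * i) + -τ by push_cast; ring]
      exact Bd_mul 𝒟 ih (X_mem 𝒟 τ none)
  rw [toCoT, Polynomial.coe_eval₂RingHom, Polynomial.eval₂_eq_sum_range' _ (Nat.lt_succ_of_le hd)]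
  refine sum_mem fun i hi => Bd_anti 𝒟 τ ?_ (Bd_mul 𝒟 (h i) (h1 i))
  have h2 : (i : ℝ) ≤ d := Nat.cast_le.2 (Nat.lt_succ_iff.1 (mem_range.1 hi))
  have h3 := mul_le_mul_of_nonneg_left h2 hτ
  linarith

theorem toCoT_mem {τ : ℝ} (hτ : 0 ≤ τ) {g : Polynomial (PS n W)} {d : ℕ} (hd : g.natDegree ≤ d) :
    toCoT 𝒟 g ∈ Bd 𝒟 τ (-(τ * d)) :=
  zero_sub (τ * d) ▸ toCoT_aux 𝒟 hτ hd fun _ => toCo_mem 𝒟 τ _

theorem toCoT_mem_ker {τ : ℝ} (hτ : 0 ≤ τ) {g : Polynomial (PS n W)} {d : ℕ}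
    (hd : g.natDegree ≤ d) (h : g.map (redS 𝒟) = 0) : toCoT 𝒟 g ∈ Bd 𝒟 τ (𝒟.e - τ * d) :=
  toCoT_aux 𝒟 hτ hd fun i => toCo_mem_ker 𝒟 τ (by
    rw [← Polynomial.coeff_map, h, Polynomial.coeff_zero])

theorem toCo_X (i : Fin n) :
    toCo 𝒟 (MvPowerSeries.X i : PS n W) = MvPolynomial.C (MvPowerSeries.X i) :=
  congrArg MvPolynomial.C (MvPowerSeries.map_X 𝒟.io i)

theorem toCoT_C (g : PS n W) : toCoT 𝒟 (Polynomial.C g) = toCo 𝒟 g :=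
  Polynomial.eval₂_C _ _

theorem psi_mem (τ : ℝ) (N : Fin n × Bool → ℕ) : (psi N : Co n K) ∈ Bd 𝒟 τ (𝒟.w + 𝒟.γ) := by
  have h : ∀ (b : Bool) (M : Fin n → ℕ), (psiB b M : Co n K) ∈ Bd 𝒟 τ (𝒟.w + 𝒟.γ) := fun b M =>
    sum_mem fun i _ => add_zero (𝒟.w + 𝒟.γ) ▸ Bd_mul 𝒟 (X_mem 𝒟 τ (some (i, b)))
      (C_mem 𝒟 τ fun _ => by
        rw [MvPowerSeries.coeff_X_pow]
        exact ite_mem 𝒟 (one_mem_F 𝒟) _)
  exact add_mem (h _ _) (h _ _)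

theorem der_mem {τ j : ℝ} (hτ : 0 ≤ τ) (v : Gen n) {g : Co n K} (h : g ∈ Bd 𝒟 τ j) :
    der v g ∈ Bd 𝒟 τ (j - |𝒟.w + 𝒟.γ|) := (mem_iff 𝒟).2 fun a b => by
  have h0 := abs_nonneg (𝒟.w + 𝒟.γ)
  cases v with
  | inl i =>
    change MvPowerSeries.coeff b (MvPolynomial.coeff a (pdx i g)) ∈ _
    rw [coeff_pdx, MvPowerSeries.coeff_pderiv]
    exact succ_mem 𝒟 (𝒟.anti (by linarith) ((mem_iff 𝒟).1 h a _)) _
  | inr x =>
    change MvPowerSeries.coeff b (MvPolynomial.coeff a (MvPolynomial.pderiv x g)) ∈ _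
    have h1 := (mem_iff 𝒟).1 h (a + Finsupp.single x 1) b
    have h2 : wt 𝒟 τ x ≤ |𝒟.w + 𝒟.γ| := by
      cases x
      · exact (neg_nonpos.2 hτ).trans h0
      · exact le_abs_self _
    rw [wt_add, wt_single] at h1
    rw [MvPolynomial.coeff_pderiv, ← Nat.cast_succ, mul_comm, ← nsmul_eq_mul, map_nsmul]
    exact nsmul_mem (𝒟.anti (by linarith) h1) _

theorem redS_surjective : Function.Surjective (redS (n := n) 𝒟) := fun g => by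
  choose s hs using 𝒟.red_surj
  exact ⟨fun b => s (g b), MvPowerSeries.ext fun b => hs _⟩

theorem redS_X (i : Fin n) : redS 𝒟 (MvPowerSeries.X i : PS n W) = MvPowerSeries.X i :=
  MvPowerSeries.map_X 𝒟.red i

theorem sub_toCo (pat : Var n → Mode) (g : PS n W) : sub pat (toCo 𝒟 g) = toCo 𝒟 g :=
  sub_C pat _

private theorem sub_toCoT (pat : Var n → Mode) {x : PS n W}
    (h : sub pat (MvPolynomial.X none : Co n K) = toCo 𝒟 x) (g : Polynomial (PS n W)) :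
    sub pat (toCoT 𝒟 g) = toCo 𝒟 (g.eval x) := by
  rw [toCoT, Polynomial.coe_eval₂RingHom, Polynomial.hom_eval₂, h,
    RingHom.ext (f := (sub pat).comp (toCo 𝒟)) (sub_toCo 𝒟 pat), Polynomial.eval₂_at_apply]

theorem sub_toCoT_zero {pat : Var n → Mode} (h : pat none = .zero) (g : Polynomial (PS n W)) :
    sub pat (toCoT 𝒟 g) = toCo 𝒟 (g.eval 0) :=
  sub_toCoT 𝒟 pat (by rw [sub_X, if_pos h, map_zero]) g

theorem sub_toCoT_one {pat : Var n → Mode} (h : pat none = .one) (g : Polynomial (PS n W)) :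
    sub pat (toCoT 𝒟 g) = toCo 𝒟 (g.eval 1) :=
  sub_toCoT 𝒟 pat (by rw [sub_X, h, if_neg (by decide), if_pos rfl, map_one]) g

end Pool.Agent.Theta
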