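import Pool.Agent.P.MP_f43029_ag.BdA

/-! The filtration on forms and decaying sequences.
Sketch. `BdO_mul`: `Gr.mul_apply`, the sign is `1` or `-1` (`sg_cases`),
`|T| + |J \\ T| = |J|`. `dO_mem`: `Gr.dd_apply`, `der_mem`. `dec_conv`: take the minimum of the
`τ` and of the `η`, the maximum of the `β`, and `c + c'`. -/

open Finset Matrix
open scoped Kronecker

noncomputable section

universe u

namespace Pool.Agent.Theta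

variable {n : ℕ} {k W K : Type*} [Field k] [CommRing W] [CommRing K] [Algebra ℚ K]
  (𝒟 : Datum k W K)

theorem BdO_mono {τ τ' β β' j j' : ℝ} (hτ : τ ≤ τ') (hβ : β' ≤ β) (hj : j ≤ j') :
    BdO (n := n) 𝒟 τ' β' j' ≤ BdO 𝒟 τ β j := by
  intro a ha T
  refine Bd_anti 𝒟 τ ?_ (Bd_tau 𝒟 hτ _ (ha T))
  have := mul_le_mul_of_nonneg_right hβ (Nat.cast_nonneg (α := ℝ) T.card)
  linarith

theorem BdO_mul {τ β j j' : ℝ} {a b : Om n K} (ha : a ∈ BdO 𝒟 τ β j) (hb : b ∈ BdO 𝒟 τ β j') :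
    a * b ∈ BdO 𝒟 τ β (j + j') := by
  intro J
  rw [Gr.mul_apply]
  refine sum_mem fun T hT => ?_
  rw [← zsmul_eq_mul]
  refine AddSubgroup.zsmul_mem _ (Bd_anti 𝒟 τ (le_of_eq ?_) (Bd_mul 𝒟 (ha T) (hb (J \ T)))) _
  rw [← card_sdiff_add_card_eq_card (mem_powerset.mp hT)]
  push_cast
  ring

theorem of0_mem {τ j : ℝ} (β : ℝ) {g : Co n K} (h : g ∈ Bd 𝒟 τ j) :
    (Gr.of0 g : Om n K) ∈ BdO 𝒟 τ β j := by
  intro J
  rw [Gr.of0_apply]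
  split_ifs with hJ
  · simpa [hJ] using h
  · exact zero_mem _

theorem smul_mem_BdO {τ β j j' : ℝ} {g : Co n K} {a : Om n K} (hg : g ∈ Bd 𝒟 τ j)
    (ha : a ∈ BdO 𝒟 τ β j') : g • a ∈ BdO 𝒟 τ β (j + j') := by
  rw [← Gr.of0_mul]
  exact BdO_mul 𝒟 (of0_mem 𝒟 β hg) ha

theorem dO_mem {τ β j : ℝ} (hτ : 0 ≤ τ) {a : Om n K} (ha : a ∈ BdO 𝒟 τ β j) :
    dO a ∈ BdO 𝒟 τ β (j + β - |𝒟.w + 𝒟.γ|) := by
  rw [dO, Gr.dd_eq]
  refine sum_mem fun i _ => ?_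
  have h1 : (Gr.gen i : Om n K) ∈ BdO 𝒟 τ β β := by
    intro J
    change (if J = {i} then (1 : Co n K) else 0) ∈ _
    split_ifs with hJ
    · simpa [hJ] using one_mem_Bd (n := n) 𝒟 τ
    · exact zero_mem _
  have h2 : (Gr.cmap (der i) a : Om n K) ∈ BdO 𝒟 τ β (j - |𝒟.w + 𝒟.γ|) := fun J =>
    Bd_anti 𝒟 τ (le_of_eq (by ring)) (der_mem 𝒟 hτ i (ha J))
  exact BdO_mono 𝒟 le_rfl le_rfl (le_of_eq (by ring)) (BdO_mul 𝒟 h1 h2)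

theorem proj_mem {τ β j : ℝ} (r : ℕ) {a : Om n K} (ha : a ∈ BdO 𝒟 τ β j) :
    Gr.proj r a ∈ BdO 𝒟 τ β j := by
  intro J
  rw [Gr.proj_apply]
  split_ifs
  · exact ha J
  · exact zero_mem _

theorem dec_conv {ω ω' : ℕ → Om n K} (h : Dec 𝒟 ω) (h' : Dec 𝒟 ω') : Dec 𝒟 (conv ω ω') := by
  obtain ⟨τ, β, η, c, h1, h2, h3, h4⟩ := h
  obtain ⟨τ', β', η', c', h1', -, h3', h4'⟩ := h'
  refine ⟨min τ τ', max β β', min η η', c + c', lt_min h1 h1', le_max_of_le_left h2,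
    lt_min h3 h3', fun m => sum_mem fun x hx => ?_⟩
  have e1 : (m : ℝ) = x.1 + x.2 := by
    rw [← Finset.HasAntidiagonal.mem_antidiagonal.mp hx, Nat.cast_add]
  have e2 := mul_le_mul_of_nonneg_right (min_le_left η η') (Nat.cast_nonneg (α := ℝ) x.1)
  have e3 := mul_le_mul_of_nonneg_right (min_le_right η η') (Nat.cast_nonneg (α := ℝ) x.2)
  refine BdO_mono 𝒟 le_rfl le_rfl ?_
    (BdO_mul 𝒟 (BdO_mono 𝒟 (min_le_left τ τ') (le_max_left β β') le_rfl (h4 x.1))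
      (BdO_mono 𝒟 (min_le_right τ τ') (le_max_right β β') le_rfl (h4' x.2)))
  rw [e1, mul_add]
  linarith

theorem dec_proj (r : ℕ) {ω : ℕ → Om n K} (h : Dec 𝒟 ω) : Dec 𝒟 fun m => Gr.proj r (ω m) := by
  obtain ⟨τ, β, η, c, h1, h2, h3, h4⟩ := h
  exact ⟨τ, β, η, c, h1, h2, h3, fun m => proj_mem 𝒟 r (h4 m)⟩

/-- Decay of the Chern character form. Choose `β ≥ 0` with
`γ + μ + β - |w + γ| ≥ γ + r + η`; the entries of `curv` lie in `BdO τ β (γ + r + η)`, those of its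
`m`-th power in `BdO τ β (m (γ + r + η))`, the scalar factor in `F (-γ m - r m)`. -/
theorem dec_ch {ι : Type*} [Fintype ι] [DecidableEq ι] (ε : ι → ℤˣ) (A : Matrix ι ι (Co n K))
    (φ : Co n K) {τ η μ : ℝ} (hτ : 0 < τ) (hη : 0 < η)
    (h2 : ∀ i j, (A * A - φ • (1 : Matrix ι ι (Co n K))) i j ∈ Bd 𝒟 τ (𝒟.γ + 𝒟.r + η))
    (h1 : ∀ i j, A i j ∈ Bd 𝒟 τ μ) : Dec 𝒟 (ch 𝒟.u ε A φ) := by
  obtain ⟨β, hβ, hβ'⟩ : ∃ β : ℝ, 0 ≤ β ∧ 𝒟.r + η - μ + |𝒟.w + 𝒟.γ| ≤ β :=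
    ⟨max 0 _, le_max_left _ _, le_max_right _ _⟩
  have h3 : ∀ i j, curv 𝒟.u ε A φ i j ∈ BdO 𝒟 τ β (𝒟.γ + 𝒟.r + η) := fun i j => by
    refine add_mem (of0_mem 𝒟 β (h2 i j)) (BdO_mono 𝒟 le_rfl le_rfl ?_
      (smul_mem_BdO 𝒟 (cst_mem 𝒟 τ 𝒟.u_mem)
        (AddSubgroup.zsmul_mem _ (dO_mem 𝒟 hτ.le (of0_mem 𝒟 β (h1 i j))) _)))
    linarith
  have h4 : ∀ (m : ℕ) i j, (curv 𝒟.u ε A φ ^ m) i j ∈ BdO 𝒟 τ β ((𝒟.γ + 𝒟.r + η) * m) := by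
    intro m
    induction m with
    | zero =>
      intro i j
      rw [pow_zero, Matrix.one_apply]
      split_ifs
      · simpa using of0_mem 𝒟 β (one_mem_Bd (n := n) 𝒟 τ)
      · exact zero_mem _
    | succ m ih =>
      intro i j
      rw [pow_succ, Matrix.mul_apply]
      refine sum_mem fun l _ => BdO_mono 𝒟 le_rfl le_rfl (le_of_eq ?_)
        (BdO_mul 𝒟 (ih i l) (h3 l j))
      push_cast
      ring
  have h5 : ∀ m : ℕ, (-((𝒟.u⁻¹ : Kˣ) : K)) ^ m ∈ 𝒟.F (-𝒟.γ * m) := by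
    intro m
    induction m with
    | zero => simpa using 𝒟.io_mem 1
    | succ m ih =>
      rw [pow_succ]
      refine 𝒟.anti (le_of_eq ?_) (𝒟.mul_mem ih (neg_mem 𝒟.uinv_mem))
      push_cast
      ring
  refine ⟨τ, β, η, 0, hτ, hβ, hη, fun m => BdO_mono 𝒟 le_rfl le_rfl (le_of_eq ?_)
    (smul_mem_BdO 𝒟 (cst_mem 𝒟 τ (𝒟.mul_mem (h5 m) (𝒟.invfact m)))
      (sum_mem fun i _ => AddSubgroup.zsmul_mem _ (h4 m i i) _))⟩
  ring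

end Pool.Agent.Theta
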