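import Pool.Agent.P.MP_f43029_ag.Co

/-! The integration functional: value on monomials and easy properties.
Sketch. `Lap_monomial` by unfolding (`Finsupp.liftAddHom_apply_single`; `monomial a g` is
`AddMonoidAlgebra.single a g`). All other statements are additive in `g`: reduce to monomials with
`MvPolynomial.induction_on'` or `g.as_sum`. For `Lap_sub`: `sub pat (monomial a c)` is `0` if some
variable of mode zero occurs in `a`, else the monomial with `a` filtered to the variables that are
not evaluated (`MvPolynomial.monomial_eq`, or induct on `a` with `Finsupp.induction_linear` after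
generalising to `Lap (sub (monomial a 1) * g)`); `wv zero 0 = 1`, `wv one j = 1`; the pole only
sees variables of mode lap. -/

open Finset Matrix
open scoped Kronecker

noncomputable section

universe u

namespace Pool.Agent.Theta

variable {n : ℕ} {K : Type*} [CommRing K] [Algebra ℚ K]

theorem Lap_monomial (u : Kˣ) (pat : Var n → Mode) (N : Fin n × Bool → ℕ) (a : Var n →₀ ℕ)
    (g : PS n K) : Lap u pat N (MvPolynomial.monomial a g) =
      (∏ v, wv u (pat v) (a v)) * res (pole pat N a) g :=   Finsupp.liftAddHom_apply_single (fun a : Var n →₀ ℕ =>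
    (AddMonoidHom.mulLeft (∏ v, wv u (pat v) (a v))).comp (res (pole pat N a))) a g

theorem Lap_cst_mul (u : Kˣ) (pat : Var n → Mode) (N : Fin n × Bool → ℕ) (c : K) (g : Co n K) :
    Lap u pat N (cst c * g) = c * Lap u pat N g := by
  induction g using MvPolynomial.induction_on' with
  | monomial a x =>
    rw [MvPolynomial.algebraMap_apply, MvPolynomial.C_mul_monomial, Lap_monomial, Lap_monomial,
      mul_left_comm]
    congr 1
    unfold res
    split_ifs
    · rw [MvPowerSeries.algebraMap_apply]
      exact MvPowerSeries.coeff_C_mul _ _ _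
    · simp
  | add p q hp hq => rw [mul_add, map_add, map_add, hp, hq, mul_add]

theorem Lap_zero_of_nopole (u : Kˣ) (pat : Var n → Mode) (N : Fin n × Bool → ℕ) (i : Fin n)
    (h : ∀ b, pat (some (i, b)) = .lap → N (i, b) = 0) (g : Co n K) : Lap u pat N g = 0 := by
  induction g using MvPolynomial.induction_on' with
  | monomial a x =>
    have h0 : pole pat N a i = 0 := sum_eq_zero fun b _ => by
      split_ifs with hb
      · rw [h b hb, zero_mul]
      · rfl
    rw [Lap_monomial, res, if_neg fun h' => h' i h0, AddMonoidHom.zero_apply, mul_zero]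
  | add p q hp hq => rw [map_add, hp, hq, add_zero]

theorem Lap_congr (u : Kˣ) (pat : Var n → Mode) {N N' : Fin n × Bool → ℕ}
    (h : ∀ x, pat (some x) = .lap → N x = N' x) (g : Co n K) :
    Lap u pat N g = Lap u pat N' g := by
  induction g using MvPolynomial.induction_on' with
  | monomial a x =>
    have h0 : pole pat N a = pole pat N' a := funext fun i => sum_congr rfl fun b _ => by
      split_ifs with hb
      · rw [h _ hb]
      · rfl
    rw [Lap_monomial, Lap_monomial, h0]
  | add p q hp hq => rw [map_add, map_add, hp, hq]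

omit [Algebra ℚ K] in
theorem LapA_sub (pat : Var n → Mode) (a : Var n →₀ ℕ) (c : PS n K) :
    sub pat (MvPolynomial.monomial a c : Co n K) = MvPolynomial.C c * ∏ v,
      (if pat v = .zero then 0 else if pat v = .one then 1 else MvPolynomial.X v) ^ a v := by
  rw [sub, MvPolynomial.eval₂Hom_monomial, Finsupp.prod_fintype _ _ fun _ => pow_zero _]

omit [Algebra ℚ K] in
theorem LapA_sub0 (pat : Var n → Mode) (a : Var n →₀ ℕ) (c : PS n K) {v : Var n}
    (h1 : pat v = .zero) (h2 : a v ≠ 0) : sub pat (MvPolynomial.monomial a c : Co n K) = 0 := by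
  rw [LapA_sub, prod_eq_zero (mem_univ v) (by rw [if_pos h1, zero_pow h2]), mul_zero]

omit [Algebra ℚ K] in
theorem LapA_sub1 (pat : Var n → Mode) (a : Var n →₀ ℕ) (c : PS n K)
    (h : ¬ ∃ v, pat v = .zero ∧ a v ≠ 0) : sub pat (MvPolynomial.monomial a c : Co n K) =
      MvPolynomial.monomial (a.filter fun v => pat v ≠ .zero ∧ pat v ≠ .one) c := by
  rw [LapA_sub, MvPolynomial.monomial_eq, Finsupp.prod_fintype _ _ fun _ => pow_zero _]
  refine congrArg _ (prod_congr rfl fun v _ => ?_)
  rw [Finsupp.filter_apply]
  by_cases h1 : pat v = .zero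
  · rw [not_not.mp fun h2 => h ⟨v, h1, h2⟩]
    simp
  · by_cases h2 : pat v = .one
    · simp [h2]
    · simp [h1, h2]

theorem Lap_sub (u : Kˣ) (pat : Var n → Mode) (N : Fin n × Bool → ℕ) (g : Co n K) :
    Lap u pat N (sub pat g) = Lap u pat N g := by
  induction g using MvPolynomial.induction_on' with
  | monomial a x =>
    by_cases h : ∃ v, pat v = .zero ∧ a v ≠ 0
    · obtain ⟨v, h1, h2⟩ := h
      rw [LapA_sub0 pat a x h1 h2, map_zero, Lap_monomial,
        prod_eq_zero (mem_univ v) (by rw [h1, wv, if_neg h2]), zero_mul]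
    · rw [LapA_sub1 pat a x h, Lap_monomial, Lap_monomial]
      congr 1
      · refine prod_congr rfl fun v _ => ?_
        rw [Finsupp.filter_apply]
        split_ifs with hv
        · rfl
        · by_cases h1 : pat v = .zero
          · rw [not_not.mp fun h2 => h ⟨v, h1, h2⟩]
          · rw [not_not.mp fun h2 => hv ⟨h1, h2⟩, wv, wv]
      · have h0 : pole pat N (a.filter fun v => pat v ≠ .zero ∧ pat v ≠ .one) = pole pat N a :=
          funext fun i => sum_congr rfl fun b _ => by
            split_ifs with hb
            · rw [Finsupp.filter_apply_pos]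
              rw [hb]
              decide
            · rfl
        rw [h0]
  | add p q hp hq => rw [map_add, map_add, map_add, hp, hq]

theorem Lap_one (u : Kˣ) (f : Fin n → Bool) :
    Lap u (patS f .zero) (fun _ => 1) (1 : Co n K) = (u : K) ^ n := by
  have h0 : pole (patS f .zero) (fun _ => 1) 0 = fun _ => 1 := funext fun i => by
    cases h : f i <;> simp [pole, patS, h]
  have h1 : (Finsupp.equivFunOnFinite.symm fun _ : Fin n => 1 - 1) = 0 := by
    ext i
    simp
  rw [MvPolynomial.one_def, Lap_monomial, h0, res, if_pos fun _ => one_ne_zero, h1,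
    LinearMap.toAddMonoidHom_coe, MvPowerSeries.coeff_zero_one, mul_one, Fintype.prod_option,
    Fintype.prod_prod_type, prod_congr rfl (g := fun _ => (u : K)) fun i _ => by
      cases h : f i <;> simp [patS, h, wv]]
  simp [patS, wv]

theorem rho_evO (u : Kˣ) (f : Fin n → Bool) (mt : Mode) (N : Fin n × Bool → ℕ)
    (ω : ℕ → Om n K) : rho u f mt N (fun m => evO (patS f mt) (ω m)) = rho u f mt N ω := by
  funext m
  rw [rho, rho, evO, Gr.ev_apply, if_pos (disjoint_killed f mt), Lap_sub]

theorem rho_congr (u : Kˣ) (f : Fin n → Bool) (mt : Mode) {N N' : Fin n × Bool → ℕ}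
    (h : ∀ i, N (i, f i) = N' (i, f i)) (ω : ℕ → Om n K) : rho u f mt N ω = rho u f mt N' ω := by
  funext m
  refine Lap_congr u _ (fun x hx => ?_) _
  obtain ⟨i, b⟩ := x
  have : b = f i := by
    by_contra hb
    simp [patS, hb] at hx
  rw [this, h]

/-- If the forms do not involve `t`, the mode of `t` is irrelevant. -/
theorem rho_one_eq_zero (u : Kˣ) (f : Fin n → Bool) (N : Fin n × Bool → ℕ) (ω : ℕ → Om n K)
    (h : ∀ m, evO (patS f .zero) (ω m) = ω m) : rho u f .one N ω = rho u f .zero N ω := by
  have key : ∀ g : Co n K, Lap u (patS f .one) N (sub (patS f .zero) g) =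
      Lap u (patS f .zero) N (sub (patS f .zero) g) := fun g => by
    induction g using MvPolynomial.induction_on' with
    | monomial a x =>
      by_cases h : ∃ v, patS f .zero v = .zero ∧ a v ≠ 0
      · obtain ⟨v, h1, h2⟩ := h
        rw [LapA_sub0 _ a x h1 h2, map_zero, map_zero]
      · rw [LapA_sub1 _ a x h, Lap_monomial, Lap_monomial]
        congr 1
        refine prod_congr rfl fun v _ => ?_
        cases v with
        | none => simp [patS, wv]
        | some x => rfl
    | add p q hp hq => simp only [map_add, hp, hq]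
  funext m
  rw [rho, rho, ← h m, evO, Gr.ev_apply, if_pos (disjoint_killed f .zero), key]

end Pool.Agent.Theta
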