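import Pool.Agent.P.MP_f43029_ag.BdB
import Pool.Agent.P.MP_f43029_ag.LapA

/-! The bound for the integration functional.
Sketch. Write `g` as the sum of its monomials (`g.as_sum`), `Lap_monomial`. The residue is a
coefficient or zero, so lies in `F (j - ∑ wt v * a v)`. Each weight `wv u (pat v) (a v)` lies in
`F (wt v * a v - c₀)` with `c₀ = |c - γ| + |c'|` (`c'` from `𝒟.invsucc τ`): mode zero gives `1`
(with `a v = 0`) or `0`; mode one occurs only for `none`, where `wt = -τ`; mode int uses `invsucc`;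
mode lap uses `fact`, `u_mem`. Multiply over all variables (`Finset.prod_induction`-style
induction). `tail_small`: `psi_mem`, `of0_mem`, `dO_mem`, `BdO_mul`, `smul_mem_BdO`, then
`η T → ∞`. -/

open Finset Matrix
open scoped Kronecker

noncomputable section

universe u

namespace Pool.Agent.Theta

variable {n : ℕ} {k W K : Type*} [Field k] [CommRing W] [CommRing K] [Algebra ℚ K]
  (𝒟 : Datum k W K)

private theorem one_mem_F {a : ℝ} (h : a ≤ 0) : (1 : K) ∈ 𝒟.F a :=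
  𝒟.anti h (by simpa using 𝒟.io_mem 1)

private theorem pow_mem_F {x : K} {a : ℝ} (h : x ∈ 𝒟.F a) (m : ℕ) : x ^ m ∈ 𝒟.F (a * m) := by
  induction m with
  | zero => simpa using one_mem_F 𝒟 le_rfl
  | succ m ih =>
    rw [pow_succ, Nat.cast_succ, mul_add_one]
    exact 𝒟.mul_mem ih h

private theorem prod_mem_F {α : Type*} (s : Finset α) {f : α → K} {b : α → ℝ}
    (h : ∀ v, f v ∈ 𝒟.F (b v)) : ∏ v ∈ s, f v ∈ 𝒟.F (∑ v ∈ s, b v) := by
  classical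
  induction s using Finset.induction_on with
  | empty => simpa using one_mem_F 𝒟 le_rfl
  | insert a s ha ih =>
    rw [prod_insert ha, sum_insert ha]
    exact 𝒟.mul_mem (h a) ih

private theorem wv_mem {τ : ℝ} (hτ : 0 < τ) : ∃ c₀ : ℝ, ∀ (pat : Var n → Mode), Good pat →
    ∀ (v : Var n) (a : ℕ), wv 𝒟.u (pat v) a ∈ 𝒟.F (wt 𝒟 τ v * a - c₀) := by
  obtain ⟨c', hc'⟩ := 𝒟.invsucc τ hτ
  refine ⟨|𝒟.c - 𝒟.γ| + |c'|, fun pat hpat v a => ?_⟩
  have h1 := abs_nonneg (𝒟.c - 𝒟.γ)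
  have h2 := abs_nonneg c'
  have h3 := le_abs_self (𝒟.c - 𝒟.γ)
  have h4 := le_abs_self c'
  have h5 : 0 ≤ τ * a := by positivity
  have z : wv 𝒟.u .zero a ∈ 𝒟.F (wt 𝒟 τ v * a - (|𝒟.c - 𝒟.γ| + |c'|)) := by
    rw [wv]
    split_ifs with h
    · exact one_mem_F 𝒟 (by rw [h, Nat.cast_zero, mul_zero]; linarith)
    · exact zero_mem _
  rcases v with _ | x
  · cases h : pat none with
    | zero => exact z
    | one => exact one_mem_F 𝒟 (by rw [wt]; linarith)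
    | int => exact 𝒟.anti (by rw [wt]; linarith) (hc' a)
    | lap => exact absurd h hpat.1
  · rcases hpat.2 x with h | h <;> rw [h]
    · exact z
    · refine 𝒟.anti ?_ (𝒟.mul_mem (𝒟.fact a) (pow_mem_F 𝒟 𝒟.u_mem (a + 1)))
      rw [wt]
      push_cast
      linarith

theorem Lap_mem {τ : ℝ} (hτ : 0 < τ) : ∃ c' : ℝ, ∀ (pat : Var n → Mode), Good pat →
    ∀ (N : Fin n × Bool → ℕ) (j : ℝ) (g : Co n K), g ∈ Bd 𝒟 τ j →
      Lap 𝒟.u pat N g ∈ 𝒟.F (j - c') := by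
  obtain ⟨c₀, h₀⟩ := wv_mem (n := n) 𝒟 hτ
  refine ⟨∑ _v : Var n, c₀, fun pat hpat N j g hg => ?_⟩
  rw [g.as_sum, map_sum]
  refine sum_mem fun a _ => ?_
  have h1 : res (pole pat N a) (MvPolynomial.coeff a g) ∈ 𝒟.F (j - ∑ v, wt 𝒟 τ v * a v) := by
    unfold res
    split_ifs
    · exact hg a _
    · exact zero_mem _
  rw [Lap_monomial]
  refine 𝒟.anti (le_of_eq ?_) (𝒟.mul_mem (prod_mem_F 𝒟 univ fun v => h₀ pat hpat v (a v)) h1)
  rw [sum_sub_distrib]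
  ring

theorem tail_small {ω : ℕ → Om n K} (h : Dec 𝒟 ω) {pat : Var n → Mode} (hpat : Good pat)
    (N : Fin n × Bool → ℕ) (J : Finset (Gen n)) (j : ℝ) : ∃ T₀ : ℕ, ∀ T, T₀ ≤ T →
      Lap 𝒟.u pat N (((cst ((𝒟.u⁻¹ : Kˣ) : K) : Co n K) • (dO (Gr.of0 (psi N : Co n K)) * ω T) : Om n K) J) ∈
        𝒟.F j := by
  obtain ⟨τ, β, η, c, hτ, -, hη, hω⟩ := h
  obtain ⟨c', hc'⟩ := Lap_mem (n := n) 𝒟 hτ
  obtain ⟨T₀, hT₀⟩ := exists_nat_ge
    ((j + c' + β * J.card + 𝒟.γ - (𝒟.w + 𝒟.γ + β - |𝒟.w + 𝒟.γ|) + c) / η)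
  refine ⟨T₀, fun T hT => 𝒟.anti ?_ (hc' pat hpat N _ _
    (smul_mem_BdO 𝒟 (cst_mem 𝒟 τ 𝒟.uinv_mem) (BdO_mul 𝒟
      (dO_mem 𝒟 hτ.le (of0_mem 𝒟 β (psi_mem 𝒟 τ N))) (hω T)) J))⟩
  have h1 := (div_le_iff₀ hη).1 (hT₀.trans (Nat.cast_le.2 hT))
  linarith

/-- A sequence with a single nonzero term `± u ^ n` is not torsion modulo null sequences. -/
theorem not_null (m₀ p : ℕ) (η : ℤˣ) (z : ℤ)
    (h : z • (fun m => if m = m₀ then ((η : ℤ) : K) * (𝒟.u : K) ^ p else 0) ∈ Null 𝒟) : z = 0 := by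
  refine 𝒟.sep z fun a => ?_
  obtain ⟨T₀, hT⟩ := h (a + 𝒟.γ * p)
  have h1 := hT (T₀ + (m₀ + 1)) (Nat.le_add_right _ _)
  simp only [Pi.smul_apply, ← smul_sum, sum_ite_eq', mem_range] at h1
  rw [if_pos (by omega)] at h1
  have h2 := 𝒟.mul_mem h1 (pow_mem_F 𝒟 𝒟.uinv_mem p)
  rw [zsmul_eq_mul, mul_assoc, mul_assoc, ← mul_pow, Units.mul_inv, one_pow, mul_one,
    show a + 𝒟.γ * p + -𝒟.γ * p = a by ring] at h2
  rcases Int.units_eq_one_or η with rfl | rfl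
  · simpa using h2
  · simpa using h2

end Pool.Agent.Theta
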