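import Pool.Agent.P.MP_f43029_ag.Mat

/-! Finiteness of homology.
Sketch. `finite_of_killed`: `H` is a finite module over the Noetherian local ring `R = PS n k`,
killed by a power of the maximal ideal (which is spanned by the variables, `span_X`); so it has
finite length over `R` (filter by powers of the maximal ideal, or `R ⧸ annihilator` is Artinian), and
`IsLocalRing.length_restrictScalars` (residue field `k`) gives finite length over `k`.
Alternatively: `H` is spanned over `k` by the finitely many `monomial m • g`, `m i < N`.
`span_X`: a series with zero constant coefficient is `∑ i, X i * g i` (sort monomials by the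
smallest variable that occurs). `finite_Hc`: `nh_mask` gives an odd homotopy `h`; for a cycle `z` of
parity `p`, `X i ^ N • z = D *ᵥ (h *ᵥ z)` with `h *ᵥ z` of parity `-p`. -/

open Finset Matrix
open scoped Kronecker

noncomputable section

universe u

namespace Pool.Agent.Theta

variable {n : ℕ} {k : Type*} [Field k] {ι β : Type*} [Fintype ι] [DecidableEq ι] [Fintype β]
  [DecidableEq β]

/-- A series without monomials in the box lies in the ideal of the powers of the variables. -/
theorem finH_mem_span (N : ℕ) (f : PS n k)
    (hf : ∀ e : Fin n →₀ ℕ, (∀ i, e i < N) → MvPowerSeries.coeff e f = 0) :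
    f ∈ Ideal.span (Set.range fun i : Fin n => (MvPowerSeries.X i ^ N : PS n k)) := by
  classical
  let g : Fin n → PS n k := fun i e =>
    if N ≤ e i ∧ ∀ j, j < i → e j < N then MvPowerSeries.coeff e f else 0
  have hg : ∀ i e, MvPowerSeries.coeff e (g i) =
      if N ≤ e i ∧ ∀ j, j < i → e j < N then MvPowerSeries.coeff e f else 0 := fun i e => rfl
  have hsum : f = ∑ i, g i := by
    ext e
    rw [map_sum]
    simp only [hg]
    by_cases he : ∀ i, e i < N
    · rw [hf e he]
      simp
    · push Not at he
      have hne : (univ.filter fun i => N ≤ e i).Nonempty := by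
        obtain ⟨i, hi⟩ := he
        exact ⟨i, by simpa using hi⟩
      set i0 := (univ.filter fun i => N ≤ e i).min' hne with hi0
      have h1 : N ≤ e i0 := by
        have := Finset.min'_mem _ hne
        simpa using this
      have h2 : ∀ j, j < i0 → e j < N := by
        intro j hj
        by_contra hc
        have : i0 ≤ j := Finset.min'_le _ _ (by simpa using hc)
        exact absurd hj (not_lt.2 this)
      rw [Finset.sum_eq_single i0]
      · rw [if_pos ⟨h1, h2⟩]
      · intro j _ hj
        rw [if_neg]
        rintro ⟨h3, h4⟩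
        rcases lt_or_gt_of_ne hj with h5 | h5
        · exact absurd (h2 j h5) (not_lt.2 h3)
        · exact absurd (h4 i0 h5) (not_lt.2 h1)
      · intro h
        exact absurd (mem_univ _) h
  rw [hsum]
  refine Ideal.sum_mem _ fun i _ => ?_
  have hd : (MvPowerSeries.X i : PS n k) ^ N ∣ g i := by
    rw [MvPowerSeries.X_pow_dvd_iff]
    intro m hm
    rw [hg, if_neg]
    rintro ⟨h3, -⟩
    exact absurd hm (not_lt.2 h3)
  obtain ⟨c, hc⟩ := hd
  rw [hc]
  exact Ideal.mul_mem_right _ _ (Ideal.subset_span ⟨i, rfl⟩)

theorem finH_mem_max (f : PS n k) :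
    f ∈ IsLocalRing.maximalIdeal (PS n k) ↔ MvPowerSeries.constantCoeff f = 0 := by
  rw [IsLocalRing.mem_maximalIdeal, mem_nonunits_iff, MvPowerSeries.isUnit_iff_constantCoeff,
    isUnit_iff_ne_zero, not_not]

theorem span_X (n : ℕ) (k : Type*) [Field k] :
    Ideal.span (Set.range fun i : Fin n => (MvPowerSeries.X i : PS n k)) =
      IsLocalRing.maximalIdeal (PS n k) := by
  apply le_antisymm
  · rw [Ideal.span_le]
    rintro _ ⟨i, rfl⟩
    simp only [SetLike.mem_coe, finH_mem_max, MvPowerSeries.constantCoeff_X]
  · intro f hf
    rw [finH_mem_max] at hf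
    have := finH_mem_span 1 f (by
      intro e he
      have h0 : e = 0 := by
        ext i
        have := he i
        simp only [Finsupp.coe_zero, Pi.zero_apply]
        omega
      rw [h0, MvPowerSeries.coeff_zero_eq_constantCoeff_apply, hf])
    simpa only [pow_one] using this

theorem finite_of_killed {H : Type*} [AddCommGroup H] [Module (PS n k) H] [Module k H]
    [IsScalarTower k (PS n k) H] [Module.Finite (PS n k) H] (N : ℕ)
    (h : ∀ (i : Fin n) (x : H), (MvPowerSeries.X i ^ N : PS n k) • x = 0) : Module.Finite k H := by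
  classical
  obtain ⟨s, hs⟩ := Module.Finite.fg_top (R := PS n k) (M := H)
  let bx : (Fin n → Fin N) → (Fin n →₀ ℕ) := fun a =>
    Finsupp.equivFunOnFinite.symm fun i => (a i : ℕ)
  have hbx : Function.Injective bx := by
    intro a b hab
    funext i
    have := congrArg (fun e : Fin n →₀ ℕ => e i) hab
    exact Fin.ext (by simpa [bx] using this)
  let gen : (Fin n → Fin N) × s → H := fun x =>
    (MvPowerSeries.monomial (bx x.1) (1 : k) : PS n k) • (x.2 : H)
  let V : Submodule k H := Submodule.span k (Set.range gen)
  have hkill : ∀ f ∈ Ideal.span (Set.range fun i : Fin n => (MvPowerSeries.X i ^ N : PS n k)),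
      ∀ x : H, f • x = 0 := by
    intro f hf
    refine Submodule.span_induction (p := fun f _ => ∀ x : H, f • x = 0) ?_ ?_ ?_ ?_ hf
    · rintro _ ⟨i, rfl⟩ x
      exact h i x
    · intro x
      exact zero_smul _ _
    · intro a b _ _ ha hb x
      rw [add_smul, ha, hb, add_zero]
    · intro a b _ hb x
      rw [smul_eq_mul, mul_smul, hb, smul_zero]
  have hV : ∀ x ∈ s, ∀ f : PS n k, f • x ∈ V := by
    intro x hx f
    let t : PS n k := ∑ a : Fin n → Fin N,
      MvPowerSeries.coeff (bx a) f • (MvPowerSeries.monomial (bx a) (1 : k) : PS n k)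
    have ht : f - t ∈ Ideal.span (Set.range fun i : Fin n => (MvPowerSeries.X i ^ N : PS n k)) := by
      apply finH_mem_span
      intro e he
      have hex : bx (fun i => ⟨e i, he i⟩) = e := by
        ext i
        simp [bx]
      rw [map_sub, map_sum, Finset.sum_eq_single (fun i => ⟨e i, he i⟩)]
      · rw [hex, map_smul, MvPowerSeries.coeff_monomial_same, smul_eq_mul, mul_one, sub_self]
      · intro b _ hb
        rw [map_smul, MvPowerSeries.coeff_monomial_ne, smul_zero]
        intro hc
        exact hb (hbx (hc.symm.trans hex.symm))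
      · intro hc
        exact absurd (mem_univ _) hc
    have h1 : f • x = t • x := by
      have := hkill _ ht x
      rwa [sub_smul, sub_eq_zero] at this
    rw [h1, Finset.sum_smul]
    refine V.sum_mem fun a _ => ?_
    rw [smul_assoc]
    exact V.smul_mem _ (Submodule.subset_span ⟨(a, ⟨x, hx⟩), rfl⟩)
  have htop : ∀ x : H, x ∈ V := by
    intro x
    have hx : x ∈ Submodule.span (PS n k) (s : Set H) := hs ▸ Submodule.mem_top
    have key : ∀ f : PS n k, f • x ∈ V := by
      refine Submodule.span_induction (p := fun x _ => ∀ f : PS n k, f • x ∈ V) ?_ ?_ ?_ ?_ hx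
      · intro y hy f
        exact hV y hy f
      · intro f
        rw [smul_zero]
        exact V.zero_mem
      · intro a b _ _ ha hb f
        rw [smul_add]
        exact V.add_mem (ha f) (hb f)
      · intro a b _ hb f
        rw [smul_smul]
        exact hb _
    simpa using key 1
  refine ⟨?_⟩
  have : V = ⊤ := eq_top_iff.2 fun x _ => htop x
  rw [← this]
  exact Submodule.fg_span (Set.finite_range gen)

theorem length_eq_finrank {H : Type*} [AddCommGroup H] [Module (PS n k) H] [Module k H]
    [IsScalarTower k (PS n k) H] [Module.Finite k H] :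
    Module.length (PS n k) H = Module.finrank k H := by
  have : IsLocalHom (algebraMap k (PS n k)) := ⟨fun a ha => by
    by_contra hc
    have h0 : a = 0 := by
      by_contra h0
      exact hc (isUnit_iff_ne_zero.2 h0)
    rw [h0, map_zero] at ha
    exact not_isUnit_zero ha⟩
  have h1 := IsLocalRing.length_restrictScalars k (PS n k) H
  have hsurj : Function.Surjective
      (algebraMap (IsLocalRing.ResidueField k) (IsLocalRing.ResidueField (PS n k))) := by
    intro y
    obtain ⟨f, rfl⟩ := IsLocalRing.residue_surjective y
    refine ⟨IsLocalRing.residue k (MvPowerSeries.constantCoeff f), ?_⟩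
    rw [IsLocalRing.ResidueField.algebraMap_residue]
    change IsLocalRing.residue (PS n k) (algebraMap k (PS n k) (MvPowerSeries.constantCoeff f)) = _
    rw [← sub_eq_zero, ← map_sub, IsLocalRing.residue_eq_zero_iff, finH_mem_max, map_sub,
      MvPowerSeries.algebraMap_apply]
    simp
  have h2 : Module.length (IsLocalRing.ResidueField k) (IsLocalRing.ResidueField (PS n k)) = 1 := by
    rw [Module.length_eq_of_surjective hsurj]
    exact Module.length_eq_one _ _
  rw [h2, mul_one] at h1
  rw [← h1, Module.length_eq_finrank]

theorem finite_Hc {ε : ι → ℤˣ} {D : Matrix ι ι (PS n k)} (h : MF ε D 0) (p : ℤˣ) :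
    Module.Finite k (Hc ε D p) := by
  obtain ⟨N, hN⟩ := h.supp
  refine finite_of_killed (n := n) N fun i x => ?_
  obtain ⟨g, hg, hgD⟩ := nh_mask h.od (hN i)
  obtain ⟨z, rfl⟩ := Submodule.Quotient.mk_surjective _ x
  rw [← Submodule.Quotient.mk_smul, Submodule.Quotient.mk_eq_zero]
  obtain ⟨z, hz1, hz2⟩ := z
  have hz2' : D *ᵥ z = 0 := by simpa using hz2
  refine ⟨g *ᵥ z, ?_, ?_⟩
  · intro a ha
    simp only [Matrix.mulVec, dotProduct]
    refine Finset.sum_eq_zero fun b _ => ?_
    by_cases hb : ε b = p
    · rw [hg a b (by rw [hb]; simpa using ha), zero_mul]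
    · rw [hz1 b hb, mul_zero]
  · have h3 : (D * g + g * D) *ᵥ z = (MvPowerSeries.X i ^ N : PS n k) • z := by
      rw [hgD, Matrix.smul_mulVec, Matrix.one_mulVec]
    rw [Matrix.add_mulVec, ← Matrix.mulVec_mulVec, ← Matrix.mulVec_mulVec, hz2',
      Matrix.mulVec_zero, add_zero] at h3
    simpa using h3

end Pool.Agent.Theta
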