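import Pool.Agent.P.MP_f43029_ag.Defs

/-! Lifting data in positive characteristic.
Sketch. `k' = AlgebraicClosure k` (perfect of characteristic `p`), `V = WittVector p k'` is a
discrete valuation ring with uniformiser `p` (`WittVector.isDiscreteValuationRing`,
`WittVector.irreducible`), of characteristic zero; `L = FractionRing V`, `W = WittVector p k`,
`red = WittVector.constantCoeff`, `io = algebraMap V L ∘ WittVector.map (algebraMap k k')`.
`F a = {x | ∃ y : V, x = (p : L) ^ ⌈a⌉ * algebraMap V L y}` (integer power in the field `L`).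
`e = 1`, `r = 1 / (p - 1)`, `w = (p + 1) / p ^ 2`, `c = 2`. An element with zero constant
coefficient is divisible by `p` in `V` (`WittVector.ker_constantCoeff` or
`WittVector.mem_span_p_iff_coeff_zero_eq_zero`). An integer prime to `p` is a unit of `V`. For
`m ≠ 0` write `m = p ^ v * m'` (`padicValNat`, `Nat.exists_eq_pow_mul_and_not_dvd`). `invfact`:
`(p - 1) * v (m !) ≤ m` (`sub_one_mul_padicValNat_factorial`). `fact`:
`v (a !) ≥ a / p + a / p ^ 2` (floors; Legendre `Nat.Prime.emultiplicity_factorial`/`padicValNat_factorial`,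
or the recursion `v ((p q)!) = q + v (q !)`). `invsucc`: `2 ^ v ≤ p ^ v ≤ a + 1`, so
`v ≤ log₂ (a+1) ≤ τ a + c'` (for instance `v ^ 2 ≤ 2 ^ (v+1)`, and `v ≤ τ v² / 4 + 1 / τ`). `sep`:
a nonzero integer is `p ^ v` times a unit, hence not divisible by `p ^ (v+1)` in `V`. -/

open Finset Matrix
open scoped Kronecker

noncomputable section

universe u

namespace Pool.Agent.Theta

section

variable (V L : Type*) [CommRing V] [Field L] [Algebra V L] (p : ℕ)

/-- The fractional ideals generated by the powers of `p`. -/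
def DatP_F (a : ℝ) : AddSubgroup L where
  carrier := {x | ∃ y : V, x = (p : L) ^ ⌈a⌉ * algebraMap V L y}
  add_mem' := by
    rintro _ _ ⟨y, rfl⟩ ⟨y', rfl⟩
    exact ⟨y + y', by rw [map_add, mul_add]⟩
  zero_mem' := ⟨0, by simp⟩
  neg_mem' := by
    rintro _ ⟨y, rfl⟩
    exact ⟨-y, by rw [map_neg, mul_neg]⟩

variable {V L p}

theorem DatP_mem (hp : (p : L) ≠ 0) {a : ℝ} {z : ℤ} (h : a ≤ z) (y : V) :
    (p : L) ^ z * algebraMap V L y ∈ DatP_F V L p a := by
  obtain ⟨d, rfl⟩ := Int.le.dest (Int.ceil_le.mpr h)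
  refine ⟨(p : V) ^ d * y, ?_⟩
  rw [zpow_add₀ hp, map_mul, map_pow, map_natCast, zpow_natCast, mul_assoc]

theorem DatP_inv (hp : p.Prime) (h0 : (p : L) ≠ 0) (hu : ∀ m : ℕ, ¬ p ∣ m → IsUnit (m : V))
    {n : ℕ} (hn : n ≠ 0) {a : ℝ} (h : ∀ e : ℕ, p ^ e ∣ n → a ≤ -e) :
    (n : L)⁻¹ ∈ DatP_F V L p a := by
  obtain ⟨e, m, hm, rfl⟩ := Nat.exists_eq_pow_mul_and_not_dvd hn p hp.ne_one
  obtain ⟨y, hy⟩ := (hu m hm).exists_right_inv
  have e1 : (m : L)⁻¹ = algebraMap V L y := by
    refine inv_eq_of_mul_eq_one_right ?_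
    rw [← map_natCast (algebraMap V L), ← map_mul, hy, map_one]
  have := DatP_mem h0 (a := a) (z := -(e : ℤ)) (by simpa using h e (Dvd.intro _ rfl)) y
  rwa [Nat.cast_mul, Nat.cast_pow, mul_inv, e1, ← zpow_natCast, ← _root_.zpow_neg]

theorem DatP_sq (v : ℕ) : v ^ 2 + 2 ≤ 2 * 2 ^ v := by
  induction v with
  | zero => simp
  | succ v ih =>
    have := Nat.lt_two_pow_self (n := v)
    rw [pow_succ 2]
    nlinarith

theorem DatP_div (a q : ℕ) (hq : 0 < q) : (a : ℝ) / q - 1 ≤ ((a / q : ℕ) : ℝ) := by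
  have h1 : a < q * (a / q + 1) := Nat.lt_mul_div_succ a hq
  have h2 : (0 : ℝ) < q := by exact_mod_cast hq
  have h3 : (a : ℝ) < q * (((a / q : ℕ) : ℝ) + 1) := by exact_mod_cast h1
  rw [sub_le_iff_le_add, div_le_iff₀ h2]
  linarith

theorem DatP_main {k W : Type*} [Field k] [CommRing W] [CharZero L] (hp : p.Prime)
    (hi : Function.Injective (algebraMap V L)) (hu : ∀ m : ℕ, ¬ p ∣ m → IsUnit (m : V))
    (hn : ¬ IsUnit (p : V)) (red : W →+* k) (hr : Function.Surjective red) (io : W →+* V)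
    (hk : ∀ x, red x = 0 → (p : V) ∣ io x) : Nonempty (PreDatum k W L) := by
  have h0 : (p : L) ≠ 0 := Nat.cast_ne_zero.mpr hp.ne_zero
  have h2 : (2 : ℝ) ≤ p := by exact_mod_cast hp.two_le
  have h1 : (0 : ℝ) < p - 1 := by linarith
  have hr1 : 1 / ((p : ℝ) - 1) ≤ 1 := by
    rw [div_le_one h1]
    linarith
  have hw : (0 : ℝ) < (p + 1) / p ^ 2 := by positivity
  refine ⟨{
    red := red
    red_surj := hr
    io := (algebraMap V L).comp io
    F := DatP_F V L p
    anti := ?_
    mul_mem := ?_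
    io_mem := fun x => ⟨io x, by simp⟩
    e := 1
    r := 1 / (p - 1)
    w := (p + 1) / p ^ 2
    c := 2
    ker_mem := ?_
    invfact := ?_
    fact := ?_
    invsucc := ?_
    h1 := by linarith
    h02 := ?_
    sep := ?_ }⟩
  · rintro a b hab _ ⟨y, rfl⟩
    exact DatP_mem h0 (hab.trans (Int.le_ceil b)) y
  · rintro a b _ _ ⟨y, rfl⟩ ⟨y', rfl⟩
    rw [mul_mul_mul_comm, ← zpow_add₀ h0, ← map_mul]
    refine DatP_mem h0 ?_ _
    rw [Int.cast_add]
    exact add_le_add (Int.le_ceil a) (Int.le_ceil b)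
  · intro x hx
    obtain ⟨y, hy⟩ := hk x hx
    exact ⟨y, by simp [hy]⟩
  · intro m
    rw [map_inv₀, map_natCast]
    refine DatP_inv hp h0 hu m.factorial_ne_zero fun e he => ?_
    have : Fact p.Prime := ⟨hp⟩
    have h3 : e ≤ padicValNat p m.factorial := (padicValNat_dvd_iff_le m.factorial_ne_zero).mp he
    have h4 : (p - 1) * e ≤ m :=
      (Nat.mul_le_mul_left _ h3).trans ((sub_one_mul_padicValNat_factorial m).le.trans
        (Nat.sub_le _ _))
    have h5 : ((p : ℝ) - 1) * e ≤ m := by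
      have : (((p - 1 : ℕ) : ℝ)) * e ≤ m := by exact_mod_cast h4
      rwa [Nat.cast_sub hp.one_le, Nat.cast_one] at this
    rw [neg_le_neg_iff, one_div, inv_mul_eq_div, le_div_iff₀ h1]
    linarith
  · intro a
    have h3 : p ^ (a / p + a / p ^ 2) ∣ a.factorial := by
      rw [hp.pow_dvd_factorial_iff (b := Nat.log p a + 3) (by omega)]
      have : ∑ i ∈ ({1, 2} : Finset ℕ), a / p ^ i ≤ ∑ i ∈ Ico 1 (Nat.log p a + 3), a / p ^ i := by
        refine sum_le_sum_of_subset fun i hi => ?_
        simp only [mem_insert, mem_singleton] at hi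
        rw [mem_Ico]
        omega
      simpa using this
    obtain ⟨y, hy⟩ := h3
    have h4 := DatP_div a p hp.pos
    have h5 := DatP_div a (p ^ 2) (pow_pos hp.pos 2)
    have h6 := DatP_mem h0 (a := (p + 1) / p ^ 2 * a - 2) (z := ((a / p + a / p ^ 2 : ℕ) : ℤ)) (by
      have e : ((p : ℝ) + 1) / p ^ 2 * a = a / p + a / p ^ 2 := by field_simp
      rw [Int.cast_natCast, Nat.cast_add, e]
      rw [Nat.cast_pow] at h5
      linarith) (y : V)
    rw [zpow_natCast, map_natCast] at h6
    rwa [hy, Nat.cast_mul, Nat.cast_pow]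
  · intro τ hτ
    refine ⟨1 / (2 * τ), fun a => ?_⟩
    rw [map_inv₀, map_add, map_natCast, map_one, ← Nat.cast_succ]
    refine DatP_inv hp h0 hu a.succ_ne_zero fun e he => ?_
    have h3 : 2 ^ e ≤ a + 1 :=
      (Nat.pow_le_pow_left hp.two_le e).trans (Nat.le_of_dvd a.succ_pos he)
    have h4 : e ^ 2 ≤ 2 * a := by
      have := DatP_sq e
      omega
    have h5 : (e : ℝ) ^ 2 ≤ 2 * a := by exact_mod_cast h4
    have h6 : (e : ℝ) - τ * a ≤ 1 / (2 * τ) := by
      rw [le_div_iff₀ (by positivity)]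
      nlinarith [sq_nonneg (τ * e - 1), mul_le_mul_of_nonneg_left h5 (sq_nonneg τ)]
    linarith
  · rcases hp.two_le.eq_or_lt with h | h
    · rw [← h]
      norm_num
    · have h3 : (3 : ℝ) ≤ p := by exact_mod_cast h
      have h4 : 1 / ((p : ℝ) - 1) ≤ 1 / 2 := one_div_le_one_div_of_le two_pos (by linarith)
      linarith
  · intro z hz
    by_contra hz0
    obtain ⟨e, m, hm, he⟩ := Nat.exists_eq_pow_mul_and_not_dvd (Int.natAbs_ne_zero.mpr hz0) p
      hp.ne_one
    have h3 : ((z.natAbs : ℕ) : L) ∈ DatP_F V L p ((e + 1 : ℕ) : ℝ) := by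
      rcases Int.natAbs_eq z with h | h
      · have := hz ((e + 1 : ℕ) : ℝ)
        rwa [h, Int.cast_natCast] at this
      · have := neg_mem (hz ((e + 1 : ℕ) : ℝ))
        rwa [h, Int.cast_neg, neg_neg, Int.cast_natCast] at this
    obtain ⟨y, hy⟩ := h3
    rw [he, Int.ceil_natCast, zpow_natCast, Nat.cast_mul, Nat.cast_pow, pow_succ, mul_assoc] at hy
    have h4 : (m : V) = p * y := hi (by
      rw [map_mul, map_natCast, map_natCast]
      exact mul_left_cancel₀ (pow_ne_zero e h0) hy)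
    exact hn (isUnit_of_mul_isUnit_left (h4 ▸ hu m hm))

end

theorem preDatum_charP (k : Type u) [Field k] (p : ℕ) [Fact p.Prime] [CharP k p] :
    ∃ (W L : Type u) (_ : CommRing W) (_ : CommRing L) (_ : Algebra ℚ L),
      Nonempty (PreDatum k W L) := by
  have hp : p.Prime := Fact.out
  let V := WittVector p (AlgebraicClosure k)
  have hu : ∀ m : ℕ, ¬ p ∣ m → IsUnit (m : V) := fun m hm =>
    WittVector.isUnit_of_coeff_zero_ne_zero _ fun h => hm (by
      rw [← CharP.cast_eq_zero_iff (AlgebraicClosure k) p,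
        ← map_natCast (WittVector.constantCoeff (p := p))]
      exact h)
  have hn : ¬ IsUnit (p : V) := fun h => by
    have := h.map WittVector.constantCoeff
    rw [map_natCast, CharP.cast_eq_zero] at this
    exact not_isUnit_zero this
  have : CharZero V := charZero_of_inj_zero fun n h => by
    by_contra h0
    obtain ⟨e, m, hm, rfl⟩ := Nat.exists_eq_pow_mul_and_not_dvd h0 p hp.ne_one
    rw [Nat.cast_mul, Nat.cast_pow] at h
    exact mul_ne_zero (pow_ne_zero e (WittVector.p_nonzero p _)) (hu m hm).ne_zero h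
  have : CharZero (FractionRing V) :=
    charZero_of_injective_algebraMap (IsFractionRing.injective V (FractionRing V))
  refine ⟨WittVector p k, FractionRing V, inferInstance, inferInstance, inferInstance,
    DatP_main hp (IsFractionRing.injective V (FractionRing V)) hu hn WittVector.constantCoeff
      (WittVector.constantCoeff_surjective p) (WittVector.map (algebraMap k (AlgebraicClosure k)))
      fun x hx => ?_⟩
  rw [← Ideal.mem_span_singleton, WittVector.mem_span_p_iff_coeff_zero_eq_zero,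
    WittVector.map_coeff]
  exact (congrArg _ hx).trans (map_zero _)

end Pool.Agent.Theta
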