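import Pool.Agent.P.MP_f43029_ag.DatL
import Pool.Agent.P.MP_f43029_ag.DatP

/-! Existence of lifting data.
Sketch. Characteristic zero: `W = L = k`, `red = io = id`, `F a = if a ≤ 0 then ⊤ else ⊥`,
`e = 1`, `r = w = c = 0`. In general split on `ringChar k` (`CharP.exists`,
`CharP.char_is_prime_or_zero`). -/

open Finset Matrix
open scoped Kronecker

noncomputable section

universe u

namespace Pool.Agent.Theta

theorem preDatum_charZero (k : Type u) [Field k] [CharZero k] : Nonempty (PreDatum k k k) := by
  have key : ∀ (a : ℝ) (x : k), x ∈ (if a ≤ 0 then ⊤ else ⊥ : AddSubgroup k) ↔ a ≤ 0 ∨ x = 0 := by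
    intro a x
    split_ifs with h <;> simp [h]
  refine ⟨{
    red := RingHom.id k
    red_surj := Function.surjective_id
    io := RingHom.id k
    F := fun a => if a ≤ 0 then ⊤ else ⊥
    anti := fun {a b} hab x hx => (key _ _).2 (((key _ _).1 hx).imp_left hab.trans)
    mul_mem := fun {a b x y} hx hy => (key _ _).2 ?_
    io_mem := fun x => (key _ _).2 (Or.inl le_rfl)
    e := 1
    r := 0
    w := 0
    c := 0
    ker_mem := fun x hx => (key _ _).2 (Or.inr hx)
    invfact := fun m => (key _ _).2 (Or.inl (by simp))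
    fact := fun a => (key _ _).2 (Or.inl (by simp))
    invsucc := fun τ hτ => ⟨0, fun a => (key _ _).2 (Or.inl ?_)⟩
    h1 := by norm_num
    h02 := by norm_num
    sep := fun z hz => ?_ }⟩
  · rcases (key _ _).1 hx with h1 | h1
    · rcases (key _ _).1 hy with h2 | h2
      · exact Or.inl (add_nonpos h1 h2)
      · exact Or.inr (by rw [h2, mul_zero])
    · exact Or.inr (by rw [h1, zero_mul])
  · have : 0 ≤ τ * a := by positivity
    linarith
  · rcases (key _ _).1 (hz 1) with h | h
    · exact absurd h (by norm_num)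
    · exact_mod_cast h

theorem exists_datum (k : Type u) [Field k] :
    ∃ (W K : Type u) (_ : CommRing W) (_ : CommRing K) (_ : Algebra ℚ K),
      Nonempty (Datum k W K) := by
  obtain ⟨p, hp⟩ := CharP.exists k
  rcases CharP.char_is_prime_or_zero k p with h | h
  · have : Fact p.Prime := ⟨h⟩
    obtain ⟨W, L, _, _, _, ⟨Q⟩⟩ := preDatum_charP k p
    exact ⟨W, LaurentPolynomial L, _, _, _, datum_of_preDatum Q⟩
  · subst h
    have : CharZero k := CharP.charP_to_charZero k
    obtain ⟨Q⟩ := preDatum_charZero k
    exact ⟨k, LaurentPolynomial k, _, _, _, datum_of_preDatum Q⟩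

end Pool.Agent.Theta
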