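import Pool.Agent.P.MP_f43029_ag.ChernA

/-! Functoriality of the Chern character form.
Sketch. Compute `curv` in each case. Block sums: `curv = fromBlocks G 0 0 G'`,
`Matrix.fromBlocks_diagonal_pow`. Reindexing: `Matrix.reindexAlgEquiv`/`submatrix_mul_equiv`.
`ch_neg`: `curv u (-ε) A φ = G.map inv` (`RingHom.mapMatrix`), the diagonal entries of `G ^ m` are even
(`curv_pow_apply_eq_zero`). `ch_transpose`: `curv u (-ε) Aᵀ φ = Gᵀ` (odd `A`), and
`τ Y = (Y.map rev)ᵀ` reverses products (`Gr.rev_mul`), `τ G = Gᵀ`, so `Gᵀ ^ m = τ (G ^ m)`.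
`ch_evO`: `evO` is a ring hom, `evO_dO_of0`, `evO_smul`, `sub_cst`. -/

open Finset Matrix
open scoped Kronecker

noncomputable section

universe u

namespace Pool.Agent.Theta

variable {n : ℕ} {K : Type*} [CommRing K] [Algebra ℚ K]
variable {ι κ : Type*} [Fintype ι] [DecidableEq ι] [Fintype κ] [DecidableEq κ]

private theorem fromBlocks_pow {T : Type*} [Ring T] (G : Matrix ι ι T) (G' : Matrix κ κ T) (m : ℕ) :
    fromBlocks G 0 0 G' ^ m = fromBlocks (G ^ m) 0 0 (G' ^ m) := by
  induction m with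
  | zero => simp
  | succ m ih => rw [pow_succ, ih, fromBlocks_multiply]; simp [pow_succ]

theorem ch_fromBlocks (u : Kˣ) (ε : ι → ℤˣ) (ε' : κ → ℤˣ) (A : Matrix ι ι (Co n K))
    (A' : Matrix κ κ (Co n K)) (φ : Co n K) (m : ℕ) :
    ch u (Sum.elim ε ε') (fromBlocks A 0 0 A') φ m = ch u ε A φ m + ch u ε' A' φ m := by
  have e : curv u (Sum.elim ε ε') (fromBlocks A 0 0 A') φ =
      fromBlocks (curv u ε A φ) 0 0 (curv u ε' A' φ) := by
    unfold curv
    rw [fromBlocks_multiply]
    ext1 i j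
    rcases i with i | i <;> rcases j with j | j <;> simp [one_apply]
  simp only [ch, e, fromBlocks_pow, str, Fintype.sum_sum_type, smul_add, Sum.elim_inl,
    Sum.elim_inr, fromBlocks_apply₁₁, fromBlocks_apply₂₂]

theorem ch_reindex (u : Kˣ) (e : ι ≃ κ) (ε : κ → ℤˣ) (A : Matrix κ κ (Co n K)) (φ : Co n K) :
    ch u (ε ∘ e) (A.submatrix e e) φ = ch u ε A φ := by
  have e1 : curv u (ε ∘ e) (A.submatrix e e) φ = (curv u ε A φ).submatrix e e := by
    unfold curv
    rw [submatrix_mul_equiv]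
    ext1 i j
    simp [one_apply]
  have e2 : ∀ (G : Matrix κ κ (Om n K)) (m : ℕ), G.submatrix e e ^ m = (G ^ m).submatrix e e := by
    intro G m
    induction m with
    | zero => simp
    | succ m ih => rw [pow_succ, ih, submatrix_mul_equiv, pow_succ]
  funext m
  simp only [ch, e1, e2, str]
  congr 1
  exact Equiv.sum_comp e fun j => (ε j : ℤ) • (curv u ε A φ ^ m) j j

theorem ch_neg (u : Kˣ) {ε : ι → ℤˣ} {A : Matrix ι ι (Co n K)} (hA : Od ε A) (φ : Co n K) (m : ℕ) :
    ch u (-ε) A φ m = -ch u ε A φ m := by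
  have e1 : curv u (-ε) A φ = (Gr.inv : Om n K →+* Om n K).mapMatrix (curv u ε A φ) := by
    ext1 i j
    simp only [curv, RingHom.mapMatrix_apply, map_apply, Matrix.add_apply, of_apply, map_add,
      Gr.inv_of0, Gr.inv_smul, map_zsmul, dO, Gr.inv_of_deg_one (Gr.proj_one_dd_of0 _ _),
      Pi.neg_apply, Units.val_neg, neg_smul, smul_neg]
  unfold ch
  rw [e1, ← map_pow (Gr.inv : Om n K →+* Om n K).mapMatrix]
  simp only [str, RingHom.mapMatrix_apply, map_apply, inv_curv_pow u hA,
    Int.units_mul_self, Units.val_one, one_smul, Pi.neg_apply, Units.val_neg, neg_smul,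
    sum_neg_distrib, smul_neg]

theorem ch_transpose (u : Kˣ) {ε : ι → ℤˣ} {A : Matrix ι ι (Co n K)} (hA : Od ε A) (φ : Co n K)
    (m : ℕ) : ch u (-ε) Aᵀ φ m = -Gr.rev (ch u ε A φ m) := by
  set G := curv u ε A φ with hG
  have hrev : ∀ i j, Gr.rev (G i j) = G i j := by
    intro i j
    simp only [hG, curv, map_apply, Matrix.add_apply, of_apply, map_add, Gr.rev_of0, Gr.rev_smul,
      map_zsmul, dO, Gr.rev_of_deg_one (Gr.proj_one_dd_of0 _ _)]
  have e1 : curv u (-ε) Aᵀ φ = Gᵀ := by
    ext1 i j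
    simp only [hG, curv, ← transpose_mul, map_apply, Matrix.add_apply, of_apply, transpose_apply,
      Matrix.sub_apply, Matrix.smul_apply, one_apply, Pi.neg_apply, eq_comm (a := i)]
    congr 2
    by_cases h : ε j = -1 * ε i
    · rw [h]
      simp
    · rw [hA j i h]
      simp
  have e2 : ∀ m : ℕ, Gᵀ ^ m = ((G ^ m).map Gr.rev)ᵀ := by
    intro m
    induction m with
    | zero =>
      ext1 i j
      by_cases h : i = j
      · subst h
        simp [Gr.rev_one]
      · simp [one_apply, h, Ne.symm h]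
    | succ m ih =>
      rw [pow_succ, ih, pow_succ']
      ext1 i j
      simp only [Matrix.mul_apply, transpose_apply, map_apply, map_sum, Gr.rev_mul, hrev]
  simp only [ch, e1, e2, str, ← hG, transpose_apply, map_apply, Gr.rev_smul, map_sum, map_zsmul,
    Pi.neg_apply, Units.val_neg, neg_smul, sum_neg_distrib, smul_neg]

theorem ch_evO (u : Kˣ) (pat : Var n → Mode) (ε : ι → ℤˣ) (A : Matrix ι ι (Co n K)) (φ : Co n K)
    (m : ℕ) : evO pat (ch u ε A φ m) = ch u ε (A.map (sub pat)) (sub pat φ) m := by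
  have e1 : curv u ε (A.map (sub pat)) (sub pat φ) = (evO pat).mapMatrix (curv u ε A φ) := by
    ext1 i j
    simp only [curv, RingHom.mapMatrix_apply, ← Matrix.map_mul, map_apply, Matrix.add_apply,
      of_apply, map_add, evO_of0, evO_smul, map_zsmul, evO_dO_of0, sub_cst, Matrix.sub_apply,
      Matrix.smul_apply, map_sub, smul_eq_mul, map_mul, one_apply]
    split_ifs <;> simp
  unfold ch
  rw [e1, ← map_pow (evO pat : Om n K →+* Om n K).mapMatrix]
  simp only [str, evO_smul, sub_cst, map_sum, map_zsmul,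
    RingHom.mapMatrix_apply, map_apply]

theorem od_supc {ε : ι → ℤˣ} (b : Bool) {D : Matrix ι ι (Co n K)}
    {h : Fin n → Matrix ι ι (Co n K)} (hD : Od ε D) (hh : ∀ i, Od ε (h i)) :
    Od ε (supc b D h) :=
  hD.add (Par.sum _ fun i _ => (hh i).smul _)

theorem supc_map_self (b : Bool) (mt : Mode) (D : Matrix ι ι (Co n K))
    (h : Fin n → Matrix ι ι (Co n K)) : (supc b D h).map (sub (patS (fun _ => b) mt)) =
      supc b (D.map (sub (patS (fun _ => b) mt))) fun i =>
        (h i).map (sub (patS (fun _ => b) mt)) := by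
  ext1 i j
  simp [supc, Matrix.sum_apply, sub_X, patS]

theorem supc_map_not (b : Bool) (mt : Mode) (D : Matrix ι ι (Co n K))
    (h : Fin n → Matrix ι ι (Co n K)) : (supc (!b) D h).map (sub (patS (fun _ => b) mt)) =
      D.map (sub (patS (fun _ => b) mt)) := by
  ext1 i j
  simp [supc, Matrix.sum_apply, sub_X, patS]

end Pool.Agent.Theta
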