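import Pool.Agent.P.MP_f43029_ag.ChernA

/-! Closedness of the Chern character form.
Sketch. Write `G = curv u ε A φ`, `Γ = Gam (Om n K) ε` (diagonal, central entries), `A₀ = A.map of0`.
Call a matrix `Y` of forms totally even if `Y i j J = 0` unless `ε i * ε j = (-1) ^ |J|`; such
matrices are closed under sums and products, contain `1` and `G` (here `A` odd is used), satisfy
`Y.map inv = Γ * Y * Γ`, and have even diagonal entries. Put `δ Y = Γ * Y.map dO`. Then
`δ (Y * Z) = δ Y * Z + Γ * Y.map inv * Γ * δ Z` (`Gr.dd_mul`). `G = A₀ * A₀ - φ + u δ A₀`;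
`δ (δ A₀) = 0` (`Gr.dd_dd`), `δ (A₀ * A₀) = δ A₀ * A₀ - A₀ * δ A₀` (since `Γ A₀ Γ = -A₀`), so
`u δ G = G * A₀ - A₀ * G - u Γ dφ` (Bianchi). `dO (str ε Y) = trace (δ Y)`,
`δ (G ^ (m+1)) = ∑ G ^ a * δ G * G ^ b`; `u δ (G ^ (m+1)) = G^(m+1) * A₀ - A₀ * G^(m+1) -
(m+1) u (Γ dφ) G ^ m` by induction on `m`, since `Γ dφ` commutes with `G`
(`Gr.comm_of_deg_one`). `trace (Y * A₀) = trace (A₀ * Y)` as the entries of `A₀` are central.
Cancel the unit `u`; `dO (c • ω) = c • dO ω` for constants (`Gr.dd_smul`, `der_cst`). -/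

open Finset Matrix
open scoped Kronecker

noncomputable section

universe u

namespace Pool.Agent.Theta

variable {n : ℕ} {K : Type*} [CommRing K] [Algebra ℚ K]
variable {ι κ : Type*} [Fintype ι] [DecidableEq ι] [Fintype κ] [DecidableEq κ]

private theorem chernD_pow {M : Type*} [Ring M] (D : M → M) (G a w : M)
    (hD : ∀ m : ℕ, D (G ^ m * G) = D (G ^ m) * G + G ^ m * D G)
    (hB : D G = G * a - a * G - w) (hw : w * G = G * w) (m : ℕ) :
    D (G ^ (m + 1)) = G ^ (m + 1) * a - a * G ^ (m + 1) - (m + 1) • (w * G ^ m) := by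
  induction m with
  | zero => simpa using hB
  | succ m ih =>
    have hc : G ^ (m + 1) * w = w * G ^ (m + 1) := ((Commute.pow_right hw (m + 1)).eq).symm
    have h1 : w * G ^ m * G = w * G ^ (m + 1) := by rw [mul_assoc, ← pow_succ]
    rw [pow_succ G (m + 1), hD, ih, hB, succ_nsmul _ (m + 1), mul_sub, mul_sub, sub_mul, sub_mul,
      hc, smul_mul_assoc, h1, mul_assoc, mul_assoc, mul_assoc]
    abel

section Abs

variable {C R : Type*} [CommRing C] [Ring R] [Algebra C R]

/-- The twisted entrywise derivative. -/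
private def chernD_del (d : R →+ R) (c : C) (ε : ι → ℤˣ) (Y : Matrix ι ι R) :
    Matrix ι ι R := Matrix.of fun i j => c • ((ε i : ℤ) • d (Y i j))

omit [Fintype ι] [DecidableEq ι] in
private theorem chernD_del_add (d : R →+ R) (c : C) (ε : ι → ℤˣ) (Y Z : Matrix ι ι R) :
    chernD_del d c ε (Y + Z) = chernD_del d c ε Y + chernD_del d c ε Z := by
  ext1 i j
  simp [chernD_del, smul_add]

omit [Fintype ι] [DecidableEq ι] in
private theorem chernD_del_sub (d : R →+ R) (c : C) (ε : ι → ℤˣ) (Y Z : Matrix ι ι R) :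
    chernD_del d c ε (Y - Z) = chernD_del d c ε Y - chernD_del d c ε Z := by
  ext1 i j
  simp [chernD_del, smul_sub]

omit [DecidableEq ι] in
private theorem chernD_del_mul {d : R →+ R} {σ : R → R}
    (hmul : ∀ a b, d (a * b) = d a * b + σ a * d b) (c : C) (ε : ι → ℤˣ) (Y Y' Z : Matrix ι ι R)
    (h : ∀ i j, ((ε i * ε j : ℤˣ) : ℤ) • σ (Y i j) = Y' i j) :
    chernD_del d c ε (Y * Z) = chernD_del d c ε Y * Z + Y' * chernD_del d c ε Z := by
  ext1 i j
  simp only [chernD_del, Matrix.of_apply, Matrix.add_apply, Matrix.mul_apply, map_sum, smul_sum,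
    ← sum_add_distrib]
  refine sum_congr rfl fun l _ => ?_
  rw [hmul, ← h i l, smul_add, smul_add, smul_mul_assoc, smul_mul_assoc, mul_smul_comm,
    mul_smul_comm, smul_mul_assoc, smul_smul (ε l : ℤ), ← Units.val_mul]
  have : ε l * (ε i * ε l) = ε i := by
    rw [mul_comm (ε i), ← mul_assoc, Int.units_mul_self, one_mul]
  rw [this]

private theorem chernD_abs {d : R →+ R} {σ : R → R}
    (hmul : ∀ a b, d (a * b) = d a * b + σ a * d b) (hdd : ∀ a, d (d a) = 0) {c c' : C}
    (hcc : c' * c = 1) (hc : ∀ a, d (c • a) = c • d a)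
    (hσ : ∀ x : C, σ (algebraMap C R x) = algebraMap C R x) {φ : C}
    (hφ : ∀ b, d (algebraMap C R φ) * b = σ b * d (algebraMap C R φ)) {ε : ι → ℤˣ}
    {A : Matrix ι ι C} (hA : Od ε A) (G : Matrix ι ι R)
    (hG : G = (A * A - φ • (1 : Matrix ι ι C)).map (algebraMap C R) +
      Matrix.of fun i j => c • ((ε i : ℤ) • d (algebraMap C R (A i j))))
    (hinv : ∀ (m : ℕ) i j, σ ((G ^ m) i j) = ((ε i * ε j : ℤˣ) : ℤ) • (G ^ m) i j) (m : ℕ) :
    d (∑ i, (ε i : ℤ) • (G ^ (m + 1)) i i) =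
      -((m + 1) • (d (algebraMap C R φ) * ∑ i, (ε i : ℤ) • (G ^ m) i i)) := by
  obtain ⟨a, ha⟩ : ∃ a : Matrix ι ι R, a = A.map (algebraMap C R) := ⟨_, rfl⟩
  obtain ⟨w, hw⟩ : ∃ w : Matrix ι ι R,
    w = diagonal fun i => c • ((ε i : ℤ) • d (algebraMap C R φ)) := ⟨_, rfl⟩
  have h1 : (φ • (1 : Matrix ι ι C)).map (algebraMap C R) = φ • (1 : Matrix ι ι R) := by
    ext1 i j
    by_cases h : i = j
    · subst h
      simp [Algebra.algebraMap_eq_smul_one]
    · simp [Matrix.one_apply_ne h]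
  have hG' : G = a * a - φ • (1 : Matrix ι ι R) + chernD_del d c ε a := by
    rw [hG, Matrix.map_sub _ (map_sub _), Matrix.map_mul, h1, ha]
    rfl
  have hee : ∀ i j, ((ε i * ε j : ℤˣ) : ℤ) * ((ε i * ε j : ℤˣ) : ℤ) = 1 := fun i j => by
    rw [← Units.val_mul, Int.units_mul_self, Units.val_one]
  have hD : ∀ m : ℕ, chernD_del d c ε (G ^ m * G) =
      chernD_del d c ε (G ^ m) * G + G ^ m * chernD_del d c ε G := fun m =>
    chernD_del_mul hmul c ε _ _ _ fun i j => by
      rw [hinv m i j, smul_smul, hee, one_smul]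
  have haa : chernD_del d c ε (a * a) = chernD_del d c ε a * a + (-a) * chernD_del d c ε a :=
    chernD_del_mul hmul c ε _ _ _ fun i j => by
      rw [ha, Matrix.neg_apply, Matrix.map_apply, hσ]
      by_cases h : ε i = -1 * ε j
      · rw [h, mul_assoc, Int.units_mul_self]
        simp
      · rw [hA i j h]
        simp
  have hp : chernD_del d c ε (φ • (1 : Matrix ι ι R)) = w := by
    ext1 i j
    by_cases h : i = j
    · subst h
      simp [chernD_del, hw, Algebra.algebraMap_eq_smul_one]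
    · simp [chernD_del, hw, Matrix.one_apply_ne h, diagonal_apply_ne _ h]
  have hdel : chernD_del d c ε (chernD_del d c ε a) = 0 := by
    ext1 i j
    simp only [chernD_del, Matrix.of_apply, hc, map_zsmul, hdd, smul_zero, Matrix.zero_apply]
  have hB : chernD_del d c ε G = G * a - a * G - w := by
    rw [hG', chernD_del_add, chernD_del_sub, haa, hp, hdel]
    simp only [add_mul, sub_mul, mul_add, mul_sub, smul_mul_assoc, mul_smul_comm, one_mul, mul_one,
      mul_assoc, neg_mul]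
    abel
  have hwG : w * G = G * w := by
    ext1 i j
    have e2 := hinv 1 i j
    rw [pow_one] at e2
    rw [hw, diagonal_mul, mul_diagonal, smul_mul_assoc, smul_mul_assoc, hφ, e2, mul_smul_comm,
      mul_smul_comm, smul_mul_assoc, smul_smul (ε i : ℤ), ← Units.val_mul, ← mul_assoc,
      Int.units_mul_self, one_mul]
  have h := congrArg trace (chernD_pow (chernD_del d c ε) G a w hD hB hwG m)
  have ht : trace (w * G ^ m) = c • (d (algebraMap C R φ) * ∑ i, (ε i : ℤ) • (G ^ m) i i) := by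
    simp only [hw, trace, Matrix.diag, diagonal_mul, mul_sum, smul_sum, smul_mul_assoc,
      mul_smul_comm]
  have ht2 : ∀ Y : Matrix ι ι R, trace (chernD_del d c ε Y) = c • d (∑ i, (ε i : ℤ) • Y i i) :=
    fun Y => by
      simp only [chernD_del, trace, Matrix.diag, Matrix.of_apply, map_sum, map_zsmul, smul_sum]
  have ht3 : ∀ Y : Matrix ι ι R, trace (Y * a) = trace (a * Y) := fun Y => by
    simp only [ha, trace, Matrix.diag, Matrix.mul_apply, Matrix.map_apply, Algebra.commutes]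
    exact sum_comm
  rw [ht2, trace_sub, trace_sub, ht3, sub_self, zero_sub, trace_smul, ht, smul_comm,
    ← smul_neg] at h
  have h2 := congrArg (fun x => c' • x) h
  simpa only [smul_smul, hcc, one_smul] using h2

private theorem chernD_arith {K : Type*} [CommRing K] [Algebra ℚ K] (f : K →+* C) (v : K) (m : ℕ)
    (x y : R) :
    f ((-v) ^ (m + 1) * algebraMap ℚ K ((((m + 1).factorial : ℕ) : ℚ)⁻¹)) •
        -((m + 1) • (x * y)) =
      f v • (x * f ((-v) ^ m * algebraMap ℚ K (((m.factorial : ℕ) : ℚ)⁻¹)) • y) := by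
  rw [mul_smul_comm, smul_smul, ← Nat.cast_smul_eq_nsmul C, ← neg_smul, smul_smul,
    ← map_natCast f, ← map_neg, ← map_mul, ← map_mul]
  have hq : algebraMap ℚ K ((((m + 1).factorial : ℕ) : ℚ)⁻¹) * ((m + 1 : ℕ) : K) =
      algebraMap ℚ K (((m.factorial : ℕ) : ℚ)⁻¹) := by
    rw [← map_natCast (algebraMap ℚ K), ← map_mul, Nat.factorial_succ]
    have h1 : ((m + 1 : ℕ) : ℚ) ≠ 0 := by positivity
    rw [Nat.cast_mul, mul_inv, mul_right_comm, inv_mul_cancel₀ h1, one_mul]
  rw [← hq]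
  refine congrArg (fun z : K => f z • (x * y)) ?_
  ring

end Abs

theorem closed_ch (u : Kˣ) {ε : ι → ℤˣ} {A : Matrix ι ι (Co n K)} (hA : Od ε A) (φ : Co n K) :
    Closed u φ (ch u ε A φ) := by
  have e : ∀ (c : K) (ω : Om n K), dO ((cst c : Co n K) • ω) = (cst c : Co n K) • dO ω :=
    fun c ω => Gr.dd_smul isDer_der (fun v => der_cst v c) ω
  have hu : (cst ((u⁻¹ : Kˣ) : K) : Co n K) * cst (u : K) = 1 := by
    rw [← map_mul, Units.inv_mul, map_one]
  refine ⟨?_, fun m => ?_⟩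
  · have e1 : dO (1 : Om n K) = 0 := Gr.dd_one isDer_der
    rw [ch, e, pow_zero (curv u ε A φ), str, map_sum, sum_eq_zero, smul_zero]
    intro i _
    rw [Matrix.one_apply_eq, map_zsmul, e1, smul_zero]
  · have h : dO (str ε (curv u ε A φ ^ (m + 1))) =
        -((m + 1) • (dO (Gr.of0 φ) * str ε (curv u ε A φ ^ m))) :=
      chernD_abs (C := Co n K) (R := Om n K) (d := dO) (σ := Gr.inv)
        (Gr.dd_mul (isDer_der (n := n) (K := K))) (Gr.dd_dd (isDer_der (n := n) (K := K))) hu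
        (e (u : K)) Gr.inv_of0 (Gr.comm_of_deg_one (Gr.proj_one_dd_of0 _ φ)) hA (curv u ε A φ) rfl
        (inv_curv_pow u hA φ) m
    rw [ch, ch, e, h]
    exact chernD_arith (cst : K →+* Co n K) _ m _ _

end Pool.Agent.Theta
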