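import Pool.Agent.P.MP_f43029_ag.StokesA

/-! Moving the Laplace variables from one family to the other.
Sketch. `s_step`: let `f' = update f i true`, `J = insert (inr (some (i,true))) (JX n ∪ JV f)`,
`pat = update (patS f .zero) (some (i,true)) .lap`. In `stokes` the terms `inl j` vanish
(`Lap_der_inl`), the terms `inr (some (j, f j))`, `j ≠ i`, vanish (`Lap_der_lap`,
`Lap_zero_of_nopole` at index `j`); `g = inr (some (i,true))` gives `-sg • rho f`
(`update pat (some (i,true)) zero = patS f zero`, `J.erase g = JX ∪ JV f`), and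
`g = inr (some (i,false))` gives `-sg' • rho f'`. The signs do not depend on `ω`, `N`.
`s_move`: induction on a finite set `I` for `f = fun j => decide (j ∈ I)`. -/

open Finset Matrix
open scoped Kronecker

noncomputable section

universe u

namespace Pool.Agent.Theta

variable {n : ℕ} {k W K : Type*} [Field k] [CommRing W] [CommRing K] [Algebra ℚ K]
  (𝒟 : Datum k W K)

theorem s_step (f : Fin n → Bool) (i : Fin n) (hi : f i = false) : ∃ η : ℤˣ,
    ∀ (N : Fin n × Bool → ℕ) (ω : ℕ → Om n K), Closed 𝒟.u (psi N) ω → Dec 𝒟 ω →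
      rho 𝒟.u f .zero N ω - (η : ℤ) • rho 𝒟.u (Function.update f i true) .zero N ω ∈ Null 𝒟 := by
  classical
  set g₁ : Gen n := Sum.inr (some (i, true)) with hg₁
  set g₀ : Gen n := Sum.inr (some (i, false)) with hg₀
  set J₀ : Finset (Gen n) := JX n ∪ JV f with hJ₀
  set J : Finset (Gen n) := insert g₁ J₀ with hJ
  set pat : Var n → Mode := Function.update (patS f .zero) (some (i, true)) .lap with hpat
  have hg₁J : g₁ ∉ J₀ := by
    simp only [hJ₀, hg₁, JX, JV, mem_union, mem_image, mem_univ, true_and, not_or, not_exists]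
    refine ⟨fun x h => by simp at h, fun x h => ?_⟩
    simp only [Sum.inr.injEq, Option.some.injEq, Prod.mk.injEq] at h
    rw [h.1, hi] at h
    simp at h
  have hg₀J : g₀ ∈ J₀ := by
    simp only [hJ₀, hg₀, JX, JV, mem_union, mem_image, mem_univ, true_and]
    exact Or.inr ⟨i, by rw [hi]⟩
  have he₁ : J.erase g₁ = J₀ := erase_insert hg₁J
  have he₀ : J.erase g₀ = JX n ∪ JV (Function.update f i true) := by
    ext x
    simp only [hJ, hJ₀, hg₀, hg₁, JX, JV, mem_erase, mem_insert, mem_union, mem_image, mem_univ,
      true_and]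
    rcases x with x | _ | ⟨j, b⟩
    · simp
    · simp
    · by_cases hj : j = i
      · subst hj
        cases b <;> simp [hi]
      · simp [hj, Function.update_of_ne hj]
  have hgood : Good pat := by
    refine ⟨by simp [hpat, patS], fun x => ?_⟩
    by_cases hx : x = (i, true)
    · subst hx
      simp [hpat]
    · have : (some x : Var n) ≠ some (i, true) := fun h => hx (Option.some.inj h)
      rw [hpat, Function.update_of_ne this]
      simp only [patS]
      split_ifs <;> simp
  have hp₁ : Function.update pat (some (i, true)) .zero = patS f .zero := by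
    rw [hpat, Function.update_idem, Function.update_eq_self_iff]
    simp [patS, hi]
  have hp₀ : Function.update pat (some (i, false)) .zero =
      patS (Function.update f i true) .zero := by
    funext v
    rcases v with _ | ⟨j, b⟩
    · simp [hpat, patS]
    · by_cases hj : j = i
      · subst hj
        cases b <;> simp [hpat, patS]
      · have h1 : (some (j, b) : Var n) ≠ some (i, false) := by simp [hj]
        have h2 : (some (j, b) : Var n) ≠ some (i, true) := by simp [hj]
        rw [Function.update_of_ne h1, hpat, Function.update_of_ne h2]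
        simp [patS, Function.update_of_ne hj]
  obtain ⟨η, hη⟩ : ∃ η : ℤˣ, (η : ℤ) = -(sg {g₁} J₀ * sg {g₀} (J.erase g₀)) := by
    rcases sg_cases {g₁} J₀ with h | h <;> rcases sg_cases {g₀} (J.erase g₀) with h' | h' <;>
      rw [h, h']
    exacts [⟨-1, by simp⟩, ⟨1, by simp⟩, ⟨1, by simp⟩, ⟨-1, by simp⟩]
  refine ⟨η, fun N ω hc hd => ?_⟩
  have key := (Null 𝒟).zsmul_mem (stokes 𝒟 hc hd hgood J) (-sg {g₁} J₀)
  convert key using 1
  funext m
  simp only [Pi.sub_apply, Pi.smul_apply]
  rw [hJ, sum_insert hg₁J, ← hJ, he₁, ← add_sum_erase _ _ hg₀J, sum_eq_zero, add_zero,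
    Lap_der_lap 𝒟.u N (x := (i, true)) (by simp [hpat]),
    Lap_der_lap 𝒟.u N (x := (i, false)) (by simp [hpat, patS, hi]), hp₁, hp₀, hη]
  · simp only [rho, ← hJ₀, ← he₀, smul_add, smul_neg, neg_smul, neg_neg, smul_smul, neg_mul,
      sg_mul_self, one_smul, neg_add_rev, sub_neg_eq_add]
  · intro g hg
    rw [mem_erase, hJ₀, mem_union] at hg
    rcases hg with ⟨hne, hg | hg⟩
    · obtain ⟨j, -, rfl⟩ := mem_image.mp hg
      rw [Lap_der_inl 𝒟.u hgood, smul_zero]
    · obtain ⟨j, -, rfl⟩ := mem_image.mp hg
      have hj : j ≠ i := by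
        rintro rfl
        exact hne (by rw [hg₀, hi])
      have h2 : ∀ b, (some (j, b) : Var n) ≠ some (i, true) := by simp [hj]
      rw [Lap_der_lap 𝒟.u N (x := (j, f j))
        (by rw [hpat, Function.update_of_ne (h2 _)]; simp [patS]),
        Lap_zero_of_nopole 𝒟.u _ N j, neg_zero, smul_zero]
      intro b hb
      exfalso
      by_cases hbf : b = f j
      · subst hbf
        simp at hb
      · have h3 : (some (j, b) : Var n) ≠ some (j, f j) := by simp [hbf]
        rw [Function.update_of_ne h3, hpat, Function.update_of_ne (h2 _)] at hb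
        simp [patS, hbf] at hb

theorem s_move : ∃ η : ℤˣ,
    ∀ (N : Fin n × Bool → ℕ) (ω : ℕ → Om n K), Closed 𝒟.u (psi N) ω → Dec 𝒟 ω →
      rho 𝒟.u (fun _ => false) .zero N ω - (η : ℤ) • rho 𝒟.u (fun _ => true) .zero N ω ∈
        Null 𝒟 := by
  classical
  have key : ∀ I : Finset (Fin n), ∃ η : ℤˣ,
      ∀ (N : Fin n × Bool → ℕ) (ω : ℕ → Om n K), Closed 𝒟.u (psi N) ω → Dec 𝒟 ω →
        rho 𝒟.u (fun _ => false) .zero N ω -
          (η : ℤ) • rho 𝒟.u (fun j => decide (j ∈ I)) .zero N ω ∈ Null 𝒟 := by
    intro I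
    induction I using Finset.induction_on with
    | empty => exact ⟨1, fun N ω _ _ => by simp⟩
    | insert i I hi ih =>
      obtain ⟨η, hη⟩ := ih
      obtain ⟨η', hη'⟩ := s_step 𝒟 (fun j => decide (j ∈ I)) i (by simpa using hi)
      have e : Function.update (fun j => decide (j ∈ I)) i true =
          fun j => decide (j ∈ insert i I) := by
        funext j
        by_cases hj : j = i
        · subst hj
          simp
        · simp [Function.update_of_ne hj, hj]
      refine ⟨η * η', fun N ω hc hd => ?_⟩
      have := (Null 𝒟).add_mem (hη N ω hc hd) ((Null 𝒟).zsmul_mem (hη' N ω hc hd) η)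
      rw [e] at this
      convert this using 1
      rw [smul_sub, smul_smul, Units.val_mul]
      abel
  obtain ⟨η, hη⟩ := key univ
  exact ⟨η, by simpa using hη⟩

end Pool.Agent.Theta
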