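import Pool.Agent.P.MP_f43029_ag.Adm
import Pool.Agent.P.MP_f43029_ag.ChernC
import Pool.Agent.P.MP_f43029_ag.ChernD
import Pool.Agent.P.MP_f43029_ag.StokesB

/-! Invariance of the index sequence in families.
Sketch. Let `ω = ch u ε A (psi (N2 N N))` with `A = supc true (supc false D h) h` (all mapped by `toCoT`), closed by
`closed_ch` (`od_supc`), decaying by `adm2`. Use `t_move` with `f = false`. By `rho_evO`, `ch_evO`, `supc_map_not`,
`supc_map_self`, `psi_N2`, `sub_psiB_self`, `sub_psiB_not`, `sub_toCoT_zero`, `sub_toCoT_one`, `rho_congr`, the sequence for mode zero is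
`L₀.seq` and the one for mode one is `rho false one _ (ch (L₁.A false) _)`, which is `L₁.seq` by `rho_one_eq_zero`
(`ch_evO`, `sub_toCo`). -/

open Finset Matrix
open scoped Kronecker

noncomputable section

universe u

namespace Pool.Agent.Theta

variable {n : ℕ} {k W K : Type*} [Field k] [CommRing W] [CommRing K] [Algebra ℚ K]
  (𝒟 : Datum k W K)
variable {ι κ : Type*} [Fintype ι] [DecidableEq ι] [Fintype κ] [DecidableEq κ]

private theorem evO_fam (u : Kˣ) (mt : Mode) (ε : ι → ℤˣ) (D : Matrix ι ι (Co n K))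
    (h : Fin n → Matrix ι ι (Co n K)) (N : Fin n → ℕ) :
    (fun m => evO (patS (fun _ => false) mt)
      (ch u ε (supc true (supc false D h) h) (psi (N2 N N)) m)) =
    ch u ε (supc false (D.map (sub (patS (fun _ => false) mt))) fun i =>
      (h i).map (sub (patS (fun _ => false) mt))) (psiB false N) := by
  funext m
  have e1 := supc_map_not false mt (supc false D h) h
  have e2 := sub_psiB_not (K := K) false mt N
  simp only [Bool.not_false] at e1 e2
  rw [ch_evO, e1, supc_map_self, psi_N2, map_add, sub_psiB_self, e2, add_zero]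

private theorem evO_lift {ε : ι → ℤˣ} {D : Matrix ι ι (PS n k)} (L : Lift 𝒟 ε D) (m : ℕ) :
    evO (patS (fun _ => false) .zero) (ch 𝒟.u ε (L.A false) (psiB false L.N) m) =
      ch 𝒟.u ε (L.A false) (psiB false L.N) m := by
  have e : ∀ M : Matrix ι ι (PS n W),
      (M.map (toCo 𝒟)).map (sub (patS (fun _ => false) .zero)) = M.map (toCo 𝒟) := by
    intro M
    ext1 i j
    simp only [Matrix.map_apply]
    exact sub_toCo 𝒟 _ _
  rw [ch_evO, sub_psiB_self, Lift.A, supc_map_self]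
  simp only [e]

theorem seq_fam {ε : ι → ℤˣ} {D₀ D₁ : Matrix ι ι (PS n k)} (L₀ : Lift 𝒟 ε D₀) (L₁ : Lift 𝒟 ε D₁)
    (D : Matrix ι ι (Polynomial (PS n W))) (h : Fin n → Matrix ι ι (Polynomial (PS n W)))
    (hod : Od ε D) (hodh : ∀ i, Od ε (h i)) (hN : L₁.N = L₀.N)
    (hD : (D * D).map (Polynomial.mapRingHom (redS 𝒟)) = 0)
    (hh : ∀ i, (D * h i + h i * D).map (Polynomial.mapRingHom (redS 𝒟)) =
      (Polynomial.C (MvPowerSeries.X i ^ L₀.N i) : Polynomial (PS n k)) • (1 : Matrix ι ι _))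
    (h₀ : L₀.Dt = D.map (Polynomial.evalRingHom 0))
    (h₀' : ∀ i, L₀.ht i = (h i).map (Polynomial.evalRingHom 0))
    (h₁ : L₁.Dt = D.map (Polynomial.evalRingHom 1))
    (h₁' : ∀ i, L₁.ht i = (h i).map (Polynomial.evalRingHom 1)) :
    L₁.seq - L₀.seq ∈ Null 𝒟 := by
  have hA : Od ε (supc true (supc false (D.map (toCoT 𝒟)) fun i => (h i).map (toCoT 𝒟))
      fun i => (h i).map (toCoT 𝒟)) :=
    od_supc true (od_supc false (Par.map hod _) fun i => Par.map (hodh i) _)
      fun i => Par.map (hodh i) _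
  have key := t_move 𝒟 (closed_ch 𝒟.u hA (psi (N2 L₀.N L₀.N)))
    (adm2 𝒟 ε D h h L₀.N L₀.N hD hh hh) (fun _ => false)
  have m0 : ∀ M : Matrix ι ι (Polynomial (PS n W)),
      (M.map (toCoT 𝒟)).map (sub (patS (fun _ => false) .zero)) =
        (M.map (Polynomial.evalRingHom 0)).map (toCo 𝒟) := by
    intro M
    ext1 i j
    simp only [Matrix.map_apply, Polynomial.coe_evalRingHom]
    exact sub_toCoT_zero 𝒟 rfl _
  have m1 : ∀ M : Matrix ι ι (Polynomial (PS n W)),
      (M.map (toCoT 𝒟)).map (sub (patS (fun _ => false) .one)) =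
        (M.map (Polynomial.evalRingHom 1)).map (toCo 𝒟) := by
    intro M
    ext1 i j
    simp only [Matrix.map_apply, Polynomial.coe_evalRingHom]
    exact sub_toCoT_one 𝒟 rfl _
  have e0 : rho 𝒟.u (fun _ => false) .zero (N2 L₀.N L₀.N)
      (ch 𝒟.u ε (supc true (supc false (D.map (toCoT 𝒟)) fun i => (h i).map (toCoT 𝒟))
        fun i => (h i).map (toCoT 𝒟)) (psi (N2 L₀.N L₀.N))) = L₀.seq := by
    rw [← rho_evO, evO_fam, Lift.seq, Lift.A, h₀]
    simp only [m0, h₀']
    exact rho_congr _ _ _ (fun _ => rfl) _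
  have e1 : rho 𝒟.u (fun _ => false) .one (N2 L₀.N L₀.N)
      (ch 𝒟.u ε (supc true (supc false (D.map (toCoT 𝒟)) fun i => (h i).map (toCoT 𝒟))
        fun i => (h i).map (toCoT 𝒟)) (psi (N2 L₀.N L₀.N))) = L₁.seq := by
    rw [← rho_evO, evO_fam, Lift.seq, ← rho_one_eq_zero _ _ _ _ (evO_lift 𝒟 L₁), Lift.A, h₁, hN]
    simp only [m1, h₁']
    exact rho_congr _ _ _ (fun _ => rfl) _
  rwa [e0, e1] at key

end Pool.Agent.Theta
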