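import Pool.Agent.P.MP_f43029_ag.RhoS
import Pool.Agent.P.MP_f43029_ag.RhoT

/-! Independence of the index sequence from the lift.
Sketch. `seq_indep`: the triple `(L.N, L'.Dt, L.ht)` is a lift `L''` (the reduction of `Dt * ht + ht * Dt` only depends on the
reductions); connect `L` and `L''` by `seq_fam` for the family `C Dt + X • C (Dt' - Dt)` (its reduction is the
constant family `D`) and `L''`, `L'` by `seq_two`. `rhoQ_eq`: `dif_pos`, `QuotientAddGroup.eq`. -/

open Finset Matrix
open scoped Kronecker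

noncomputable section

universe u

namespace Pool.Agent.Theta

variable {n : ℕ} {k W K : Type*} [Field k] [CommRing W] [CommRing K] [Algebra ℚ K]
  (𝒟 : Datum k W K)
variable {ι κ : Type*} [Fintype ι] [DecidableEq ι] [Fintype κ] [DecidableEq κ]

omit [Fintype ι] [DecidableEq ι] in
private theorem map_red_C (M : Matrix ι ι (PS n W)) :
    (M.map Polynomial.C).map (Polynomial.mapRingHom (redS 𝒟)) =
      (M.map (redS 𝒟)).map Polynomial.C :=
  Matrix.ext fun _ _ => Polynomial.map_C _

theorem seq_indep {ε : ι → ℤˣ} {D : Matrix ι ι (PS n k)} (hD : D * D = 0) (L L' : Lift 𝒟 ε D) :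
    L.seq - L'.seq ∈ Null 𝒟 := by
  have hh : ∀ i, D * (L.ht i).map (redS 𝒟) + (L.ht i).map (redS 𝒟) * D =
      (MvPowerSeries.X i ^ L.N i : PS n k) • (1 : Matrix ι ι (PS n k)) := fun i => by
    rw [← L.redh i, Matrix.map_add _ (map_add _), Matrix.map_mul, Matrix.map_mul, L.redD]
  let L'' : Lift 𝒟 ε D := ⟨L.N, L'.Dt, L.ht, L'.od, L.odh, L'.redD, fun i => by
    rw [Matrix.map_add _ (map_add _), Matrix.map_mul, Matrix.map_mul, L'.redD, hh]⟩
  let F : Matrix ι ι (Polynomial (PS n W)) := Matrix.of fun i j =>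
    Polynomial.C (L.Dt i j) + Polynomial.X * Polynomial.C (L'.Dt i j - L.Dt i j)
  have hF : F.map (Polynomial.mapRingHom (redS 𝒟)) = D.map Polynomial.C := by
    ext i j : 1
    have h1 : redS 𝒟 (L.Dt i j) = D i j := congrFun (congrFun L.redD i) j
    have h2 : redS 𝒟 (L'.Dt i j) = D i j := congrFun (congrFun L'.redD i) j
    simp [F, h1, h2]
  have k1 := seq_fam 𝒟 L L'' F (fun i => (L.ht i).map Polynomial.C)
    (fun i j h => by simp [F, L.od i j h, L'.od i j h]) (fun i => (L.odh i).map Polynomial.C) rfl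
    (by rw [Matrix.map_mul, hF, ← Matrix.map_mul, hD, Matrix.map_zero _ (map_zero _)])
    (fun i => by
      rw [Matrix.map_add _ (map_add _), Matrix.map_mul, Matrix.map_mul, hF, map_red_C,
        ← Matrix.map_mul, ← Matrix.map_mul, ← Matrix.map_add _ (map_add _), hh]
      ext a b : 1
      by_cases h : a = b <;> simp [Matrix.one_apply, h])
    (by ext i j : 1; simp [F]) (fun i => by ext a b : 1; simp)
    (by ext i j : 1; simp [F, L'']) (fun i => by ext a b : 1; simp [L''])
  have k2 := sub_mem (seq_two 𝒟 hD L'' L' rfl) k1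
  rwa [sub_sub_sub_cancel_left] at k2

theorem rhoQ_eq {ι : Type} [Fintype ι] [DecidableEq ι] {ε : ι → ℤˣ} {D : Matrix ι ι (PS n k)}
    (hD : D * D = 0) (L : Lift 𝒟 ε D) : rhoQ 𝒟 ι ε D = QuotientAddGroup.mk L.seq := by
  rw [rhoQ, dif_pos ⟨L⟩, QuotientAddGroup.eq, neg_add_eq_sub]
  exact seq_indep 𝒟 hD _ _

end Pool.Agent.Theta
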