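import Pool.Agent.P.MP_f43029_ag.NormA
import Pool.Agent.P.MP_f43029_ag.RhoA

/-! One supported complex has an index of infinite order.
Sketch. `koszul_ch univ`; the complex is `D.map (redS 𝒟)` with the lift `N = 1`, `Dt = D`,
`ht = h` (`redS_X`). Its sequence is `± u ^ n` at `m = 2 n` and zero elsewhere (`Lap_one`); use
`rhoQ_eq` and `not_null`. -/

open Finset Matrix
open scoped Kronecker

noncomputable section

universe u

namespace Pool.Agent.Theta

variable {n : ℕ} {k W K : Type*} [Field k] [CommRing W] [CommRing K] [Algebra ℚ K]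
  (𝒟 : Datum k W K)

theorem exists_nontorsion : ∃ (ι : Type) (_ : Fintype ι) (_ : DecidableEq ι) (ε : ι → ℤˣ)
    (D : Matrix ι ι (PS n k)), MF ε D 0 ∧ ∀ z : ℤ, z • rhoQ 𝒟 ι ε D = 0 → z = 0 := by
  obtain ⟨ι, i1, i2, ε, D, h, η, hD, hh, hsq, hX, -, hch⟩ := koszul_ch (n := n) 𝒟 univ
  have hred : ∀ i, (D * h i + h i * D).map (redS 𝒟) =
      (MvPowerSeries.X i ^ 1 : PS n k) • (1 : Matrix ι ι (PS n k)) := by
    intro i
    rw [hX i (mem_univ i), pow_one]
    ext a b : 2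
    rw [Matrix.map_apply, Matrix.smul_apply, Matrix.smul_apply, smul_eq_mul, smul_eq_mul, map_mul,
      redS_X, Matrix.one_apply, Matrix.one_apply]
    split_ifs <;> simp
  have h0 : D.map (redS 𝒟) * D.map (redS 𝒟) = 0 := by
    rw [← Matrix.map_mul, hsq, Matrix.map_zero _ (map_zero _)]
  let L : Lift 𝒟 ε (D.map (redS 𝒟)) := ⟨fun _ => 1, D, h, hD, hh, rfl, hred⟩
  have hseq : L.seq = fun m => if m = 2 * n then ((η : ℤ) : K) * (𝒟.u : K) ^ n else 0 := by
    funext m
    have h1 : psiB false L.N = ∑ i : Fin n, (MvPolynomial.X (some (i, false)) *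
        MvPolynomial.C (MvPowerSeries.X i) : Co n K) := by
      simp only [psiB, L, pow_one]
    have h2 := hch m
    rw [card_univ, Fintype.card_fin] at h2
    rw [Lift.seq, rho, h1]
    change Lap _ _ (fun _ => 1) (ch 𝒟.u ε
      (supc false (D.map (toCo 𝒟)) fun i => (h i).map (toCo 𝒟)) _ m _) = _
    rw [h2]
    split_ifs
    · have h3 : (Gr.bas (JX n ∪ JV fun _ => false) : Om n K) (JX n ∪ JV fun _ => false) = 1 :=
        if_pos rfl
      rw [Gr.zsmul_apply, map_zsmul, ← Lap_one 𝒟.u fun _ => false, ← h3, zsmul_eq_mul]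
      rfl
    · rw [Gr.zero_apply, map_zero]
  refine ⟨ι, i1, i2, ε, D.map (redS 𝒟), ⟨Par.map hD _, by rw [h0, zero_smul], 1, fun i =>
    ⟨(h i).map (redS 𝒟), ?_⟩⟩, fun z hz => ?_⟩
  · rw [← Matrix.map_mul, ← Matrix.map_mul, ← Matrix.map_add _ (map_add _), hred]
  · rw [rhoQ_eq 𝒟 h0 L, ← QuotientAddGroup.mk_zsmul, QuotientAddGroup.eq_zero_iff, hseq] at hz
    exact not_null 𝒟 _ _ η z hz

end Pool.Agent.Theta
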