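import Pool.Agent.P.MP_f43029_ag.ProdA

/-! Vanishing and duality for the index of a tensor product.
Sketch. Choose lifts (`lift_exists`) and `ft` with `redS ft = f`. By `tens_seq` and `conv_proj`
(`closed_ch`, `ev_ch`, `adm1`, `psi_N2`; the support hypotheses by `ch_evO`, `supc_map_self`,
`sub_toCo`, `sub_psiB_self`) the index is the class of `rho (conv (proj n c) c')`. For odd `n`,
`Gr.proj_of_ev_odd`. For even `n`, the transposed matrices form a lift `Lᵀ` of `(-ε, Dᵀ)` with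
`Lᵀ.A false = (L.A false)ᵀ`; `ch_transpose`, `Gr.proj_rev` and `(-1) ^ (n.choose 2) = (-1) ^ (n / 2)`
for even `n` (`Nat.choose_two_right`). -/

open Finset Matrix
open scoped Kronecker

noncomputable section

universe u

namespace Pool.Agent.Theta

variable {n : ℕ} {k W K : Type*} [Field k] [CommRing W] [CommRing K] [Algebra ℚ K]
  (𝒟 : Datum k W K)
variable {ι κ : Type} [Fintype ι] [DecidableEq ι] [Fintype κ] [DecidableEq κ]

private theorem od_A {ι : Type} [Fintype ι] [DecidableEq ι] {ε : ι → ℤˣ} {D : Matrix ι ι (PS n k)}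
    (L : Lift 𝒟 ε D) (b : Bool) : Od ε (L.A b) :=
  od_supc b (L.od.map (toCo 𝒟)) fun i => (L.odh i).map (toCo 𝒟)

private theorem ev_A {ι : Type} [Fintype ι] [DecidableEq ι] {ε : ι → ℤˣ} {D : Matrix ι ι (PS n k)}
    (L : Lift 𝒟 ε D) (b : Bool) (f : PS n W) (m : ℕ) :
    evO (patS (fun _ => b) .zero) (ch 𝒟.u ε (L.A b) (toCo 𝒟 f + psiB b L.N) m) =
      ch 𝒟.u ε (L.A b) (toCo 𝒟 f + psiB b L.N) m := by
  have e : ∀ M : Matrix ι ι (PS n W), (M.map (toCo 𝒟)).map (sub (patS (fun _ => b) .zero)) =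
      M.map (toCo 𝒟) := fun M => Matrix.ext fun i j => sub_toCo 𝒟 _ (M i j)
  rw [ch_evO, map_add, sub_toCo, sub_psiB_self, Lift.A, supc_map_self]
  simp only [e]

private theorem tens_proj {ε : ι → ℤˣ} {ε' : κ → ℤˣ} {D : Matrix ι ι (PS n k)}
    {D' : Matrix κ κ (PS n k)} (L : Lift 𝒟 ε D) (L' : Lift 𝒟 ε' D') (f : PS n W)
    (hD : D * D = redS 𝒟 f • (1 : Matrix ι ι (PS n k)))
    (hD' : D' * D' = redS 𝒟 (-f) • (1 : Matrix κ κ (PS n k))) :
    rhoQ 𝒟 (ι × κ) (tE ε ε') (tD ε D D') = QuotientAddGroup.mk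
      (rho 𝒟.u (fun _ => false) .zero (N2 L.N L'.N)
        (conv (fun m => Gr.proj n (ch 𝒟.u ε (L.A false) (toCo 𝒟 f + psiB false L.N) m))
          (ch 𝒟.u ε' (L'.A true) (toCo 𝒟 (-f) + psiB true L'.N)))) := by
  rw [tens_seq 𝒟 L L' f hD hD', QuotientAddGroup.eq_iff_sub_mem]
  refine conv_proj 𝒟 ?_ (closed_ch _ (od_A 𝒟 L _) _) (closed_ch _ (od_A 𝒟 L' _) _)
    (ev_ch _ (od_A 𝒟 L _) _) (adm1 𝒟 L _ f hD) (adm1 𝒟 L' _ (-f) hD') (ev_A 𝒟 L _ _)
    (ev_A 𝒟 L' _ _)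
  rw [psi_N2, map_neg]
  ring

private theorem rho_zsmul (u : Kˣ) (f : Fin n → Bool) (mt : Mode) (N : Fin n × Bool → ℕ) (z : ℤ)
    (a c : ℕ → Om n K) : rho u f mt N (conv (fun m => z • a m) c) = z • rho u f mt N (conv a c) := by
  funext m
  simp only [rho, conv, smul_mul_assoc, ← Finset.smul_sum, Gr.zsmul_apply, map_zsmul,
    Pi.smul_apply]

private theorem lifts {ι : Type} [Fintype ι] [DecidableEq ι] {ε : ι → ℤˣ} {D : Matrix ι ι (PS n k)}
    {f : PS n k} (h : MF ε D f) : Nonempty (Lift 𝒟 ε D) := by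
  obtain ⟨N, hN⟩ := h.supp
  exact ⟨(lift_exists 𝒟 h.od (fun _ => N) hN).choose⟩

theorem rhoQ_tens_odd {ε : ι → ℤˣ} {ε' : κ → ℤˣ} {D : Matrix ι ι (PS n k)}
    {D' : Matrix κ κ (PS n k)} {f : PS n k} (h : MF ε D f) (h' : MF ε' D' (-f)) (hn : Odd n) :
    rhoQ 𝒟 (ι × κ) (tE ε ε') (tD ε D D') = 0 := by
  obtain ⟨L⟩ := lifts 𝒟 h
  obtain ⟨L'⟩ := lifts 𝒟 h'
  obtain ⟨g, rfl⟩ := redS_surjective 𝒟 f
  rw [tens_proj 𝒟 L L' g h.sq (by rw [map_neg]; exact h'.sq)]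
  have e := rho_zsmul 𝒟.u (fun _ => false) .zero (N2 L.N L'.N) 0 0
    (ch 𝒟.u ε' (L'.A true) (toCo 𝒟 (-g) + psiB true L'.N))
  rw [zero_smul] at e
  simp only [Gr.proj_of_ev_odd (ev_ch _ (od_A 𝒟 L _) _ _) hn]
  exact congrArg QuotientAddGroup.mk e

theorem rhoQ_tens_even {ε : ι → ℤˣ} {ε' : κ → ℤˣ} {D : Matrix ι ι (PS n k)}
    {D' : Matrix κ κ (PS n k)} {f : PS n k} (h : MF ε D f) (h' : MF ε' D' (-f)) (hn : Even n) :
    rhoQ 𝒟 (ι × κ) (tE (-ε) ε') (tD (-ε) Dᵀ D') =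
      (-(-1 : ℤ) ^ (n / 2)) • rhoQ 𝒟 (ι × κ) (tE ε ε') (tD ε D D') := by
  obtain ⟨L⟩ := lifts 𝒟 h
  obtain ⟨L'⟩ := lifts 𝒟 h'
  obtain ⟨g, rfl⟩ := redS_surjective 𝒟 f
  let T : Lift 𝒟 (-ε) Dᵀ :=
    { N := L.N
      Dt := L.Dtᵀ
      ht := fun i => (L.ht i)ᵀ
      od := od_transpose L.od
      odh := fun i => od_transpose (L.odh i)
      redD := congrArg Matrix.transpose L.redD
      redh := fun i => by
        rw [← transpose_mul, ← transpose_mul, ← transpose_add, add_comm, Matrix.transpose_map,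
          L.redh, transpose_smul, transpose_one] }
  have eA : T.A false = (L.A false)ᵀ := by
    simp only [T, Lift.A, supc, transpose_add, transpose_sum, transpose_smul, Matrix.transpose_map]
  have eN : T.N = L.N := rfl
  have ez : (-1 : ℤ) ^ n.choose 2 = (-1) ^ (n / 2) := by
    obtain ⟨r, rfl⟩ := hn
    rcases r with _ | r
    · rfl
    · have e1 : (r + 1 + (r + 1)).choose 2 = 2 * (r * (r + 1)) + (r + 1) := by
        rw [Nat.choose_two_right, show r + 1 + (r + 1) - 1 = 2 * r + 1 by omega]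
        exact Nat.div_eq_of_eq_mul_left two_pos (by ring)
      rw [e1, show (r + 1 + (r + 1)) / 2 = r + 1 by omega, pow_add, pow_mul]
      simp
  rw [tens_proj 𝒟 L L' g h.sq (by rw [map_neg]; exact h'.sq),
    tens_proj 𝒟 T L' g h.transpose.sq (by rw [map_neg]; exact h'.sq), ← QuotientAddGroup.mk_zsmul,
    ← rho_zsmul, eA, eN]
  simp only [ch_transpose _ (od_A 𝒟 L _), map_neg, Gr.proj_rev, ez, neg_smul]

end Pool.Agent.Theta
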