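import Pool.Agent.P.MP_f43029_ag.RhoA

/-! The functional `rhoQ` is an index function.
Sketch. Always evaluate through `rhoQ_eq` on a convenient lift (`lift_exists` with a constant
`N`; for block sums take a common `N` using `Nh.mul`). Reindex: transport the lift by
`submatrix e e`, `ch_reindex`. Sum: block sums of lifts, `ch_fromBlocks`, `rho` is additive.
Shift: the same matrices lift `(-ε, D)` (`od_neg`), `ch_neg`. Contractible: `N = 0` and
`Lap_zero_of_nopole` at an index `i : Fin n`. Family: `lift_mat` for the surjection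
`Polynomial.mapRingHom (redS 𝒟)` (`Polynomial.map_surjective`, `redS_surjective`), evaluate at
`0` and `1` to get lifts (`Polynomial.eval_map`-type commutation), `seq_fam`. -/

open Finset Matrix
open scoped Kronecker

noncomputable section

universe u

namespace Pool.Agent.Theta

variable {n : ℕ} {k W K : Type*} [Field k] [CommRing W] [CommRing K] [Algebra ℚ K]
  (𝒟 : Datum k W K)

section aux

variable {ι κ : Type} [Fintype ι] [DecidableEq ι] [Fintype κ] [DecidableEq κ]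

private theorem mf_sq {ε : ι → ℤˣ} {D : Matrix ι ι (PS n k)} (h : MF ε D 0) : D * D = 0 := by
  rw [h.sq, zero_smul]

private theorem mf_lift {ε : ι → ℤˣ} {D : Matrix ι ι (PS n k)} (h : MF ε D 0) :
    ∃ N₀ : ℕ, ∀ M : ℕ, ∃ L : Lift 𝒟 ε D, L.N = fun _ => M + N₀ := by
  obtain ⟨N₀, hN⟩ := h.supp
  exact ⟨N₀, fun M => lift_exists 𝒟 h.od _ fun i => by
    rw [pow_add]
    exact (hN i).mul _⟩

omit [Fintype ι] [DecidableEq ι] [Fintype κ] [DecidableEq κ] in
private theorem od_blocks {T : Type*} [Zero T] {ε : ι → ℤˣ} {ε' : κ → ℤˣ} {A : Matrix ι ι T}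
    {A' : Matrix κ κ T} (h : Od ε A) (h' : Od ε' A') : Od (Sum.elim ε ε') (fromBlocks A 0 0 A') := by
  rintro (i | i) (j | j) hij
  · exact h i j hij
  · rfl
  · rfl
  · exact h' i j hij

private theorem rho_reindex (e : ι ≃ κ) (ε : κ → ℤˣ) (D : Matrix κ κ (PS n k)) (h : MF ε D 0) :
    rhoQ 𝒟 ι (ε ∘ e) (D.submatrix e e) = rhoQ 𝒟 κ ε D := by
  obtain ⟨N₀, hN⟩ := mf_lift 𝒟 h
  obtain ⟨L, -⟩ := hN 0
  let L' : Lift 𝒟 (ε ∘ e) (D.submatrix e e) :=
    { N := L.N
      Dt := L.Dt.submatrix e e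
      ht := fun i => (L.ht i).submatrix e e
      od := fun i j hij => L.od _ _ hij
      odh := fun a i j hij => L.odh a _ _ hij
      redD := congrArg (fun A => A.submatrix e e) L.redD
      redh := fun a => by
        rw [submatrix_mul_equiv, submatrix_mul_equiv, ← submatrix_one_equiv e]
        exact congrArg (fun A => A.submatrix e e) (L.redh a) }
  have hA : L'.A false = (L.A false).submatrix e e := by
    ext1 i j
    simp only [Lift.A, supc, Matrix.add_apply, Matrix.sum_apply, submatrix_apply]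
    rfl
  rw [rhoQ_eq 𝒟 (mf_sq h) L, rhoQ_eq 𝒟 (by rw [submatrix_mul_equiv, mf_sq h]; rfl) L', Lift.seq,
    hA, ch_reindex]
  rfl

private theorem rho_sum (ε : ι → ℤˣ) (D : Matrix ι ι (PS n k)) (ε' : κ → ℤˣ)
    (D' : Matrix κ κ (PS n k)) (h : MF ε D 0) (h' : MF ε' D' 0) :
    rhoQ 𝒟 (ι ⊕ κ) (Sum.elim ε ε') (fromBlocks D 0 0 D') = rhoQ 𝒟 ι ε D + rhoQ 𝒟 κ ε' D' := by
  obtain ⟨N₀, hN⟩ := mf_lift 𝒟 h
  obtain ⟨N₁, hN'⟩ := mf_lift 𝒟 h'
  obtain ⟨L, hL⟩ := hN N₁
  obtain ⟨L', hL'⟩ := hN' N₀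
  have e : L'.N = L.N := by rw [hL, hL', add_comm]
  let L'' : Lift 𝒟 (Sum.elim ε ε') (fromBlocks D 0 0 D') :=
    { N := L.N
      Dt := fromBlocks L.Dt 0 0 L'.Dt
      ht := fun i => fromBlocks (L.ht i) 0 0 (L'.ht i)
      od := od_blocks L.od L'.od
      odh := fun a => od_blocks (L.odh a) (L'.odh a)
      redD := by
        rw [fromBlocks_map, L.redD, L'.redD, Matrix.map_zero _ (map_zero _),
          Matrix.map_zero _ (map_zero _)]
      redh := fun a => by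
        rw [fromBlocks_multiply, fromBlocks_multiply, fromBlocks_add, fromBlocks_map,
          ← fromBlocks_one, fromBlocks_smul]
        simp only [Matrix.mul_zero, Matrix.zero_mul, add_zero, zero_add, smul_zero]
        rw [L.redh, L'.redh, e, Matrix.map_zero _ (map_zero _), Matrix.map_zero _ (map_zero _)] }
  have hA : L''.A false = fromBlocks (L.A false) 0 0 (L'.A false) := by
    ext1 (i | i) (j | j) <;> simp [L'', Lift.A, supc, Matrix.sum_apply]
  rw [rhoQ_eq 𝒟 (mf_sq h) L, rhoQ_eq 𝒟 (mf_sq h') L',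
    rhoQ_eq 𝒟 (by simp [fromBlocks_multiply, mf_sq h, mf_sq h']) L'', ← QuotientAddGroup.mk_add]
  congr 1
  funext m
  simp only [Lift.seq, rho, hA, ch_fromBlocks, Gr.add_apply, map_add, Pi.add_apply, e]
  rfl

private theorem rho_shift (ε : ι → ℤˣ) (D : Matrix ι ι (PS n k)) (h : MF ε D 0) :
    rhoQ 𝒟 ι (-ε) D = -rhoQ 𝒟 ι ε D := by
  obtain ⟨N₀, hN⟩ := mf_lift 𝒟 h
  obtain ⟨L, -⟩ := hN 0
  let L' : Lift 𝒟 (-ε) D :=
    ⟨L.N, L.Dt, L.ht, od_neg L.od, fun a => od_neg (L.odh a), L.redD, L.redh⟩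
  have hA : Od ε (L.A false) := od_supc false (L.od.map _) fun a => (L.odh a).map _
  rw [rhoQ_eq 𝒟 (mf_sq h) L, rhoQ_eq 𝒟 (mf_sq h) L', ← QuotientAddGroup.mk_neg]
  congr 1
  funext m
  change Lap _ _ _ (ch 𝒟.u (-ε) (L.A false) (psiB false L.N) m _) = _
  rw [ch_neg _ hA, Gr.neg_apply, map_neg]
  rfl

private theorem rho_contr (hn : 0 < n) (ε : ι → ℤˣ) (D : Matrix ι ι (PS n k)) (h : Od ε D)
    (h2 : D * D = 0) (h1 : Nh D 1) : rhoQ 𝒟 ι ε D = 0 := by
  obtain ⟨L, hL⟩ := lift_exists 𝒟 h (fun _ => 0) fun i => by rwa [pow_zero]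
  have e : L.seq = 0 := funext fun m =>
    Lap_zero_of_nopole _ _ _ ⟨0, hn⟩ (fun b _ => congrFun hL _) _
  rw [rhoQ_eq 𝒟 h2 L, e, QuotientAddGroup.mk_zero]

private theorem rho_family (ε : ι → ℤˣ) (D : Matrix ι ι (Polynomial (PS n k))) (h : Od ε D)
    (h2 : D * D = 0) (h1 : ∃ N : ℕ, ∀ i, Nh D (Polynomial.C (MvPowerSeries.X i ^ N))) :
    rhoQ 𝒟 ι ε (D.map (Polynomial.evalRingHom 0)) =
      rhoQ 𝒟 ι ε (D.map (Polynomial.evalRingHom 1)) := by
  obtain ⟨N, hN⟩ := h1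
  obtain ⟨Dt, ht, o1, o2, r1, r2⟩ := lift_mat (Polynomial.mapRingHom (redS 𝒟))
    (Polynomial.map_surjective _ (redS_surjective 𝒟)) h hN
  have key : ∀ (c : PS n W) (A : Matrix ι ι (Polynomial (PS n W))),
      (A.map (Polynomial.evalRingHom c)).map (redS 𝒟) =
        (A.map (Polynomial.mapRingHom (redS 𝒟))).map (Polynomial.evalRingHom (redS 𝒟 c)) := by
    intro c A
    ext1 i j
    simp only [map_apply, Polynomial.coe_evalRingHom, Polynomial.coe_mapRingHom,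
      Polynomial.eval_map, Polynomial.eval₂_at_apply]
  have hL : ∀ (c : PS n W) (c' : PS n k), redS 𝒟 c = c' →
      ∃ L : Lift 𝒟 ε (D.map (Polynomial.evalRingHom c')), L.N = (fun _ => N) ∧
        L.Dt = Dt.map (Polynomial.evalRingHom c) ∧
          ∀ i, L.ht i = (ht i).map (Polynomial.evalRingHom c) := by
    rintro c _ rfl
    refine ⟨⟨fun _ => N, Dt.map (Polynomial.evalRingHom c),
      fun i => (ht i).map (Polynomial.evalRingHom c), o1.map _, fun i => (o2 i).map _,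
      by rw [key, r1], fun a => ?_⟩, rfl, rfl, fun _ => rfl⟩
    rw [← Matrix.map_mul, ← Matrix.map_mul, ← Matrix.map_add _ (map_add _), key, r2]
    ext1 i j
    by_cases hij : i = j <;> simp [one_apply, hij]
  have hsq : ∀ c : PS n k,
      D.map (Polynomial.evalRingHom c) * D.map (Polynomial.evalRingHom c) = 0 := fun c => by
    rw [← Matrix.map_mul, h2, Matrix.map_zero _ (map_zero _)]
  obtain ⟨L₀, a0, b0, c0⟩ := hL 0 0 (map_zero _)
  obtain ⟨L₁, a1, b1, c1⟩ := hL 1 1 (map_one _)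
  rw [rhoQ_eq 𝒟 (hsq 0) L₀, rhoQ_eq 𝒟 (hsq 1) L₁, QuotientAddGroup.eq, neg_add_eq_sub]
  refine seq_fam 𝒟 L₀ L₁ Dt ht o1 o2 (a1.trans a0.symm) ?_ (fun i => ?_) b0 c0 b1 c1
  · rw [Matrix.map_mul, r1, h2]
  · rw [r2, a0]

end aux

theorem isIndex_rhoQ (hn : 0 < n) : IsIndex (n := n) (k := k) (rhoQ 𝒟) where
  reindex _ _ _ _ _ _ := rho_reindex 𝒟
  sum _ _ _ _ _ _ := rho_sum 𝒟
  shift _ _ _ := rho_shift 𝒟
  contr _ _ _ := rho_contr 𝒟 hn
  family _ _ _ := rho_family 𝒟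

end Pool.Agent.Theta
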