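import Pool.Agent.P.MP_f43029_ag.Index
import Pool.Agent.P.MP_f43029_ag.ProdB
import Pool.Agent.P.MP_f43029_ag.NormB
import Pool.Agent.P.MP_f43029_ag.RhoB
import Pool.Agent.P.MP_f43029_ag.Dat

/-! Vanishing and duality for Euler characteristics of tensor products.
Sketch. `exists_datum`; `ρ = rhoQ 𝒟` is an index function; `κ₀ = ρ (eL n) (Kos n k)` has infinite
order by `exists_nontorsion` and `IsIndex.eq_chi` (if `z • κ₀ = 0` then `z • ρ D₀ = 0`). Apply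
`eq_chi` to `MF.tens`, `MF.transpose`, and use `rhoQ_tens_odd`, `rhoQ_tens_even`. -/

open Finset Matrix
open scoped Kronecker

noncomputable section

universe u

namespace Pool.Agent.Theta

variable {n : ℕ} {k : Type u} [Field k] {ι κ : Type} [Fintype ι] [DecidableEq ι] [Fintype κ]
  [DecidableEq κ]

private theorem exists_index (n : ℕ) (hn : 0 < n) {W K : Type u} [CommRing W] [CommRing K]
    [Algebra ℚ K] (𝒟 : Datum k W K) (z : ℤ)
    (hz : z • rhoQ 𝒟 (Finset (Fin n)) (eL n) (Kos n k) = 0) : z = 0 := by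
  obtain ⟨ι, _, _, ε, D, hD, h⟩ := exists_nontorsion (n := n) 𝒟
  refine h z ?_
  rw [(isIndex_rhoQ 𝒟 hn).eq_chi hD, smul_comm, hz, smul_zero]

theorem chi_tens_odd {ε : ι → ℤˣ} {ε' : κ → ℤˣ} {D : Matrix ι ι (PS n k)}
    {D' : Matrix κ κ (PS n k)} {f : PS n k} (h : MF ε D f) (h' : MF ε' D' (-f)) (hn : Odd n) :
    chi (tE ε ε') (tD ε D D') = 0 := by
  obtain ⟨W, K, _, _, _, ⟨𝒟⟩⟩ := exists_datum k
  refine exists_index n hn.pos 𝒟 _ ?_
  rw [← (isIndex_rhoQ 𝒟 hn.pos).eq_chi (h.tens h')]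
  exact rhoQ_tens_odd 𝒟 h h' hn

theorem chi_tens_even {ε : ι → ℤˣ} {ε' : κ → ℤˣ} {D : Matrix ι ι (PS n k)}
    {D' : Matrix κ κ (PS n k)} {f : PS n k} (h : MF ε D f) (h' : MF ε' D' (-f)) (hn : Even n)
    (h0 : 0 < n) : chi (tE (-ε) ε') (tD (-ε) Dᵀ D') =
      -(-1 : ℤ) ^ (n / 2) * chi (tE ε ε') (tD ε D D') := by
  obtain ⟨W, K, _, _, _, ⟨𝒟⟩⟩ := exists_datum k
  rw [← sub_eq_zero]
  refine exists_index n h0 𝒟 _ ?_
  rw [sub_smul, mul_smul, ← (isIndex_rhoQ 𝒟 h0).eq_chi (h.tens h'),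
    ← (isIndex_rhoQ 𝒟 h0).eq_chi (h.transpose.tens h'), rhoQ_tens_even 𝒟 h h' hn, sub_self]

end Pool.Agent.Theta
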