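import Pool.Agent.P.MP_f43029_ag.CAMain
import Pool.Agent.P.MP_f43029_ag.Star
import Pool.Agent.P.MP_f43029_ag.FinH

/-!
The theorem on matrix factorizations in the conventions of the commutative algebra side.
-/

set_option autoImplicit false

namespace Pool.Agent.P.MP_f43029_ag

open Matrix

/-- A parity as a unit of the integers. -/
def un (b : Bool) : ℤˣ := if b then -1 else 1

theorem un_val (b : Bool) : ((un b : ℤˣ) : ℤ) = sg b := by cases b <;> rfl

theorem un_not (b : Bool) : un (!b) = -un b := by cases b <;> simp [un]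

theorem un_xor (a b : Bool) : un (xor a b) = un a * un b := by cases a <;> cases b <;> simp [un]

theorem un_inj {a b : Bool} : un a = un b ↔ a = b := by cases a <;> cases b <;> simp [un]

variable {k : Type} [Field k] {D N : ℕ} {ι ι' : Type} [Fintype ι] [DecidableEq ι] [Fintype ι']
  [DecidableEq ι']

theorem IsObj.toMF {f : MvPowerSeries (Fin D) k} {p : ι → Bool}
    {E : Matrix ι ι (MvPowerSeries (Fin D) k)} (h : IsObj (fun j => MvPowerSeries.X j) N f p E) :
    Theta.MF (fun i => un (p i)) E f := by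
  obtain ⟨h₁, h₂, g, -, h₄⟩ := h
  refine ⟨fun i j hij => h₁ i j ?_, h₂, N, fun j => ⟨g j, h₄ j⟩⟩
  revert hij
  cases p i <;> cases p j <;> simp [un]

omit [Fintype ι] [Fintype ι'] in
theorem tD_eq {T : Type} [CommRing T] (p : ι → Bool) (E : Matrix ι ι T) (F : Matrix ι' ι' T) :
    Theta.tD (fun i => un (p i)) E F = tens p E F := by
  simp only [Theta.tD, tens, Theta.Gam, SM, un_val]

omit [Fintype ι] [DecidableEq ι] [Fintype ι'] [DecidableEq ι'] in
theorem tE_eq (p : ι → Bool) (p' : ι' → Bool) :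
    Theta.tE (fun i => un (p i)) (fun i => un (p' i)) = fun x => un (tpar p p' x) := by
  funext x
  simp only [Theta.tE, tpar, un_xor]

omit [Fintype ι] [DecidableEq ι] in
theorem Cp_eq (T : Type) [CommRing T] (p : ι → Bool) (b : Bool) :
    Theta.Cp T T (fun i => un (p i)) (un b) = parSub T T p b := by
  ext v
  change (∀ i, un (p i) ≠ un b → v i = 0) ↔ ∀ i, p i ≠ b → v i = 0
  simp only [ne_eq, un_inj]

theorem chi_eq {p : ι → Bool} {E : Matrix ι ι (MvPowerSeries (Fin D) k)}
    (h : Theta.MF (fun i => un (p i)) E 0) : chi p E = Theta.chi (fun i => un (p i)) E := by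
  have key : ∀ b, (Module.length (MvPowerSeries (Fin D) k) (Hb p E b)).toNat =
      Module.finrank k (Theta.Hc (fun i => un (p i)) E (un b)) := by
    intro b
    have hZ : Theta.Zc (fun i => un (p i)) E (un b) = Zb p E b := by
      rw [Theta.Zc, Zb, Cp_eq, inf_comm]
    have hB : Theta.Bc (fun i => un (p i)) E (un b) = Bb p E b := by
      rw [Theta.Bc, Bb, ← un_not, Cp_eq]
    have := Theta.finite_Hc h (un b)
    obtain ⟨e⟩ := sq_equiv (Z := Zb p E b) (B := Bb p E b)
      (Z' := Theta.Zc (fun i => un (p i)) E (un b)) (B' := Theta.Bc (fun i => un (p i)) E (un b))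
      LinearMap.id (fun v hv => hZ ▸ hv) (fun v hv => hB ▸ hv) (fun v _ hv => hB ▸ hv)
      (fun v hv => ⟨v, hZ ▸ hv, by simp⟩)
    rw [e.length_eq, Theta.length_eq_finrank, ENat.toNat_natCast]
  rw [chi, key, key]
  rfl

theorem mfThm : MFThm := by
  intro k _ D N f ι₁ ι₂ _ _ _ _ p₁ p₂ E F hE hF
  have h₁ := hE.toMF.tens hF.toMF
  have h₂ := hE.transpose.toMF.tens hF.toMF
  rw [tD_eq, tE_eq] at h₁ h₂
  rw [chi_eq h₁, chi_eq h₂, ← tD_eq, ← tE_eq, ← tD_eq, ← tE_eq]
  refine ⟨fun hD => Theta.chi_tens_odd hE.toMF hF.toMF hD, fun hD h0 => ?_⟩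
  have : (fun i => un (!p₁ i)) = -fun i => un (p₁ i) := funext fun i => un_not _
  rw [this]
  exact Theta.chi_tens_even hE.toMF hF.toMF hD h0

end Pool.Agent.P.MP_f43029_ag
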