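import Pool.Agent.P.MP_f43029_ag.CATens

/-!
Matrix factorizations reduced modulo `f`: periodic resolution, dual module, homotopies.
-/

set_option autoImplicit false

namespace Pool.Agent.P.MP_f43029_ag

open Matrix

variable {R B : Type} [CommRing R] [CommRing B] [Algebra R B] {r : ℕ} {f : R}
  {a b : Matrix (Fin r) (Fin r) R}

/-- Reduction of vectors. -/
def mapV (R B : Type) [CommRing R] [CommRing B] [Algebra R B] (r : ℕ) :
    (Fin r → R) →ₗ[R] (Fin r → B) :=
  (Algebra.linearMap R B).compLeft (Fin r)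

theorem mapV_apply (v : Fin r → R) (i : Fin r) : mapV R B r v i = algebraMap R B (v i) := rfl

theorem mapV_mulVec (a : Matrix (Fin r) (Fin r) R) (v : Fin r → R) :
    mapV R B r (a *ᵥ v) = a.map (algebraMap R B) *ᵥ mapV R B r v := by
  ext i
  simp [mapV_apply, mulVec, dotProduct]

theorem mapV_surj (hs : Function.Surjective (algebraMap R B)) :
    Function.Surjective (mapV R B r) := by
  intro w
  choose v hv using fun i => hs (w i)
  exact ⟨v, funext hv⟩

theorem mapV_eq_zero (hk : ∀ x, algebraMap R B x = 0 ↔ f ∣ x) {v : Fin r → R} :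
    mapV R B r v = 0 ↔ ∃ w : Fin r → R, v = f • w := by
  constructor
  · intro h
    choose w hw using fun i => (hk (v i)).mp (congrFun h i)
    exact ⟨w, funext hw⟩
  · rintro ⟨w, rfl⟩
    ext i
    exact (hk _).mpr ⟨w i, rfl⟩

theorem mulVec_inj [IsDomain R] (hf : f ≠ 0) {ι : Type} [Fintype ι] [DecidableEq ι]
    {a b : Matrix ι ι R} (hba : b * a = f • (1 : Matrix ι ι R)) (v : ι → R) (h : a *ᵥ v = 0) :
    v = 0 := by
  have := congrArg (b *ᵥ ·) h
  simp only [mulVec_mulVec, hba, mulVec_zero, smul_mulVec, one_mulVec] at this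
  exact (smul_eq_zero.mp this).resolve_left hf

theorem exact_bar [IsDomain R] (hf : f ≠ 0) (hs : Function.Surjective (algebraMap R B))
    (hk : ∀ x, algebraMap R B x = 0 ↔ f ∣ x)
    (hab : a * b = f • (1 : Matrix (Fin r) (Fin r) R))
    (hba : b * a = f • (1 : Matrix (Fin r) (Fin r) R)) :
    Function.Exact (b.map (algebraMap R B)).mulVecLin (a.map (algebraMap R B)).mulVecLin := by
  intro w
  obtain ⟨v, rfl⟩ := mapV_surj (r := r) hs w
  rw [mulVecLin_apply, ← mapV_mulVec, mapV_eq_zero hk]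
  constructor
  · rintro ⟨u, hu⟩
    refine ⟨mapV R B r u, ?_⟩
    rw [mulVecLin_apply, ← mapV_mulVec]
    congr 1
    rw [eq_comm, ← sub_eq_zero]
    refine mulVec_inj hf hba _ ?_
    rw [mulVec_sub, hu, mulVec_mulVec, hab, smul_mulVec, one_mulVec, sub_self]
  · rintro ⟨u, hu⟩
    obtain ⟨u, rfl⟩ := mapV_surj (r := r) hs u
    rw [mulVecLin_apply, ← mapV_mulVec, ← sub_eq_zero, ← map_sub, mapV_eq_zero hk] at hu
    obtain ⟨w, hw⟩ := hu
    refine ⟨u - a *ᵥ w, ?_⟩
    rw [← sub_sub_cancel (b *ᵥ u) v, hw, mulVec_sub, mulVec_mulVec, hab, smul_mulVec, one_mulVec,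
      mulVec_smul, smul_sub]

variable {X : Type} [AddCommGroup X] [Module B X] [Module R X] [IsScalarTower R B X]

theorem cover_toB (hs : Function.Surjective (algebraMap R B)) (q : (Fin r → R) →ₗ[R] X)
    (hq : Function.Surjective q) (hker : LinearMap.ker q = LinearMap.range a.mulVecLin) :
    ∃ q' : (Fin r → B) →ₗ[B] X, (∀ v, q' (mapV R B r v) = q v) ∧ Function.Surjective q' ∧
      Function.Exact (a.map (algebraMap R B)).mulVecLin q' := by
  let q' : (Fin r → B) →ₗ[B] X := Fintype.linearCombination B fun i => q (Pi.single i 1)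
  have h1 : ∀ v, q' (mapV R B r v) = q v := by
    intro v
    conv_rhs => rw [pi_eq_sum_univ' v, map_sum]
    simp [q', Fintype.linearCombination_apply, mapV_apply]
  refine ⟨q', h1, fun x => ?_, fun w => ?_⟩
  · obtain ⟨v, rfl⟩ := hq x
    exact ⟨_, h1 v⟩
  · obtain ⟨v, rfl⟩ := mapV_surj (r := r) hs w
    rw [h1, ← LinearMap.mem_ker, hker]
    constructor
    · rintro ⟨u, rfl⟩
      exact ⟨mapV R B r u, (mapV_mulVec a u).symm⟩
    · rintro ⟨u, hu⟩
      obtain ⟨u, rfl⟩ := mapV_surj (r := r) hs u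
      rw [← hker, LinearMap.mem_ker, ← h1, ← hu, mulVecLin_apply, ← mapV_mulVec, h1,
        ← LinearMap.mem_ker, hker]
      exact ⟨u, rfl⟩

theorem cover_toR (hs : Function.Surjective (algebraMap R B))
    (hk : ∀ x, algebraMap R B x = 0 ↔ f ∣ x) (hab : a * b = f • (1 : Matrix (Fin r) (Fin r) R))
    (q' : (Fin r → B) →ₗ[B] X) (hq : Function.Surjective q')
    (hex : Function.Exact (a.map (algebraMap R B)).mulVecLin q') :
    ∃ q : (Fin r → R) →ₗ[R] X, Function.Surjective q ∧
      LinearMap.ker q = LinearMap.range a.mulVecLin := by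
  refine ⟨q'.restrictScalars R ∘ₗ mapV R B r, hq.comp (mapV_surj hs), ?_⟩
  ext v
  rw [LinearMap.mem_ker, LinearMap.comp_apply, LinearMap.restrictScalars_apply, hex]
  constructor
  · rintro ⟨u, hu⟩
    obtain ⟨u, rfl⟩ := mapV_surj (r := r) hs u
    rw [mulVecLin_apply, ← mapV_mulVec, ← sub_eq_zero, ← map_sub, mapV_eq_zero hk] at hu
    obtain ⟨w, hw⟩ := hu
    refine ⟨u - b *ᵥ w, ?_⟩
    rw [mulVecLin_apply, mulVec_sub, mulVec_mulVec, hab, smul_mulVec, one_mulVec, ← hw,
      sub_sub_cancel]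
  · rintro ⟨u, rfl⟩
    exact ⟨mapV R B r u, (mapV_mulVec a u).symm⟩

omit [Module R X] [IsScalarTower R B X] in
theorem exists_emb {a b : Matrix (Fin r) (Fin r) B} (hab : Function.Exact a.mulVecLin b.mulVecLin)
    (q : (Fin r → B) →ₗ[B] X) (hq : Function.Surjective q) (hex : Function.Exact a.mulVecLin q) :
    ∃ j : X →ₗ[B] (Fin r → B), (∀ v, j (q v) = b *ᵥ v) ∧ Function.Injective j := by
  have h : LinearMap.ker q = LinearMap.ker b.mulVecLin := by
    rw [LinearMap.exact_iff.mp hab, LinearMap.exact_iff.mp hex]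
  let j : X →ₗ[B] (Fin r → B) := (LinearMap.ker q).liftQ b.mulVecLin h.le ∘ₗ
    (q.quotKerEquivOfSurjective hq).symm.toLinearMap
  have hj : ∀ v, j (q v) = b *ᵥ v := by
    intro v
    simp [j]
  refine ⟨j, hj, (injective_iff_map_eq_zero j).mpr fun x hx => ?_⟩
  obtain ⟨v, rfl⟩ := hq x
  rw [hj] at hx
  rw [← LinearMap.mem_ker, h]
  exact hx

omit [Module R X] [IsScalarTower R B X] in
theorem dual_cover {a b : Matrix (Fin r) (Fin r) B} (hab : Function.Exact a.mulVecLin b.mulVecLin)
    (h₁ : Function.Exact aᵀ.mulVecLin bᵀ.mulVecLin) (h₂ : Function.Exact bᵀ.mulVecLin aᵀ.mulVecLin)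
    (q : (Fin r → B) →ₗ[B] X) (hq : Function.Surjective q) (hex : Function.Exact a.mulVecLin q) :
    ∃ q' : (Fin r → B) →ₗ[B] Module.Dual B X, Function.Surjective q' ∧
      Function.Exact aᵀ.mulVecLin q' := by
  obtain ⟨j, hj, -⟩ := exists_emb hab q hq hex
  let q' : (Fin r → B) →ₗ[B] Module.Dual B X := j.dualMap ∘ₗ (dotProductBilin B B)
  have hq' : ∀ w v, q' w (q v) = (bᵀ *ᵥ w) ⬝ᵥ v := by
    intro w v
    simp [q', hj, dotProduct_mulVec, mulVec_transpose]
  refine ⟨q', fun φ => ?_, fun w => ?_⟩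
  · have hφ : ∀ v, φ (q v) = (fun i => φ (q (Pi.single i 1))) ⬝ᵥ v := by
      intro v
      conv_lhs => rw [pi_eq_sum_univ' v, map_sum, map_sum]
      simp [dotProduct, mul_comm]
    obtain ⟨w, hw⟩ := (h₂ fun i => φ (q (Pi.single i 1))).mp (by
      ext i
      have := hφ (a *ᵥ Pi.single i 1)
      rw [show q (a *ᵥ Pi.single i 1) = 0 from hex.apply_apply_eq_zero _, map_zero,
        dotProduct_mulVec, dotProduct_single, mul_one] at this
      rw [mulVecLin_apply, mulVec_transpose]
      exact this.symm)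
    refine ⟨w, LinearMap.ext fun x => ?_⟩
    obtain ⟨v, rfl⟩ := hq x
    rw [hq', hφ, ← hw, mulVecLin_apply]
  · rw [← h₁ w, mulVecLin_apply]
    constructor
    · intro h
      ext i
      have := hq' w (Pi.single i 1)
      rw [h, dotProduct_single, mul_one] at this
      exact this.symm
    · intro h
      refine LinearMap.ext fun x => ?_
      obtain ⟨v, rfl⟩ := hq x
      rw [hq', h, zero_dotProduct, LinearMap.zero_apply]

omit [Module R X] [IsScalarTower R B X] in
theorem extAnn_periodic {a b : Matrix (Fin r) (Fin r) B}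
    (hab : Function.Exact a.mulVecLin b.mulVecLin) (hba : Function.Exact b.mulVecLin a.mulVecLin)
    (q : (Fin r → B) →ₗ[B] X) (hq : Function.Surjective q) (hex : Function.Exact a.mulVecLin q)
    {u : B} (n : ℕ) (h : ExtAnn B X (2 * n + 1) u) : ExtAnn B X 1 u := by
  obtain ⟨j, hj, hinj⟩ := exists_emb hab q hq hex
  induction n with
  | zero => exact h
  | succ n ih =>
    refine ih ?_
    have h1 : ExtAnn B (LinearMap.range a.mulVecLin) (2 * n + 1 + 1) u :=
      ExtAnn.down (LinearMap.range a.mulVecLin).subtype q (Submodule.subtype_injective _) hq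
        (by rw [LinearMap.exact_iff, Submodule.range_subtype]; exact LinearMap.exact_iff.mp hex) h
    refine ExtAnn.down j a.mulVecLin.rangeRestrict hinj a.mulVecLin.surjective_rangeRestrict ?_ h1
    rw [LinearMap.exact_iff, LinearMap.ker_rangeRestrict, LinearMap.exact_iff.mp hba]
    ext w
    constructor
    · rintro ⟨v, rfl⟩
      exact ⟨q v, hj v⟩
    · rintro ⟨x, rfl⟩
      obtain ⟨v, rfl⟩ := hq x
      exact ⟨v, (hj v).symm⟩

omit [Module R X] [IsScalarTower R B X] in
theorem homotopy_of_extAnn [IsDomain R] (hf : f ≠ 0) (hs : Function.Surjective (algebraMap R B))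
    (hk : ∀ x, algebraMap R B x = 0 ↔ f ∣ x)
    (hab : a * b = f • (1 : Matrix (Fin r) (Fin r) R))
    (hba : b * a = f • (1 : Matrix (Fin r) (Fin r) R))
    (q : (Fin r → B) →ₗ[B] X) (hq : Function.Surjective q)
    (hex : Function.Exact (a.map (algebraMap R B)).mulVecLin q) {u : R} (n : ℕ)
    (h : ExtAnn B X (2 * n + 1) (algebraMap R B u)) :
    ∃ p q : Matrix (Fin r) (Fin r) R, a * q + p * b = u • (1 : Matrix (Fin r) (Fin r) R) ∧
      b * p + q * a = u • (1 : Matrix (Fin r) (Fin r) R) := by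
  obtain ⟨σ, hσ⟩ := (extAnn_periodic (exact_bar hf hs hk hba hab) (exact_bar hf hs hk hab hba)
    q hq hex n h).lift q hq
  choose g hg using fun i j => hs (LinearMap.toMatrix' (σ ∘ₗ q) i j)
  have hG : ∀ v, (Matrix.of g).map (algebraMap R B) *ᵥ v = σ (q v) := by
    intro v
    have : (Matrix.of g).map (algebraMap R B) = LinearMap.toMatrix' (σ ∘ₗ q) := by
      ext i j; exact hg i j
    rw [this, LinearMap.toMatrix'_mulVec, LinearMap.comp_apply]
  refine homotopy_of_lift (G := Matrix.of g) hf hab hba ?_ ?_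
  · have : ∀ j, ∃ w : Fin r → R, (Matrix.of g * a) *ᵥ Pi.single j 1 = f • w := by
      intro j
      rw [← mapV_eq_zero hk, ← mulVec_mulVec, mapV_mulVec, mapV_mulVec, hG,
        show q (a.map (algebraMap R B) *ᵥ _) = 0 from hex.apply_apply_eq_zero _, map_zero]
    choose w hw using this
    refine ⟨Matrix.of fun i j => w j i, ?_⟩
    ext i j
    simpa using congrFun (hw j) i
  · have : ∀ j, ∃ w : Fin r → R,
        (u • (1 : Matrix (Fin r) (Fin r) R) - Matrix.of g) *ᵥ Pi.single j 1 = a *ᵥ w := by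
      intro j
      obtain ⟨v, hv⟩ := (hex (mapV R B r
        ((u • (1 : Matrix (Fin r) (Fin r) R) - Matrix.of g) *ᵥ Pi.single j 1))).mp (by
          have h1 := LinearMap.congr_fun hσ (q (mapV R B r (Pi.single j 1)))
          rw [LinearMap.comp_apply, LinearMap.smul_apply, LinearMap.id_apply] at h1
          rw [sub_mulVec, map_sub, map_sub, mapV_mulVec (Matrix.of g), hG, h1, smul_mulVec,
            one_mulVec, map_smul, ← algebraMap_smul B u, map_smul, sub_self])
      obtain ⟨v, rfl⟩ := mapV_surj (r := r) hs v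
      rw [mulVecLin_apply, ← mapV_mulVec, ← sub_eq_zero, ← map_sub, mapV_eq_zero hk] at hv
      obtain ⟨w, hw⟩ := hv
      refine ⟨v - b *ᵥ w, ?_⟩
      rw [mulVec_sub, mulVec_mulVec, hab, smul_mulVec, one_mulVec, ← hw, sub_sub_cancel]
    choose w hw using this
    refine ⟨Matrix.of fun i j => w j i, ?_⟩
    ext i j
    have := congrFun (hw j) i
    rw [mulVec_single_one] at this
    exact this

end Pool.Agent.P.MP_f43029_ag
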