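import Mathlib

/-!
Maximal Cohen-Macaulay modules and Hochster's theta function.
-/

set_option autoImplicit false

namespace Pool.Agent.P.MP_f43029_ag

open CategoryTheory

/-- `M` is a maximal Cohen-Macaulay module over the local ring `A`: it is finitely generated and
there is an `M`-regular sequence in the maximal ideal whose length is `dim A`
(the zero module is allowed). -/
def IsMCM (A : Type) [CommRing A] [IsLocalRing A] (M : Type) [AddCommGroup M] [Module A M] :
    Prop :=
  Module.Finite A M ∧ ∃ rs : List A, (rs.length : WithBot ℕ∞) = ringKrullDim A ∧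
    (∀ r ∈ rs, r ∈ IsLocalRing.maximalIdeal A) ∧ RingTheory.Sequence.IsWeaklyRegular M rs

/-- `theta A M N = length Tor_2 (M, N) - length Tor_1 (M, N)`. -/
noncomputable def theta (A : Type) [CommRing A] (M N : ModuleCat.{0} A) : ℤ :=
  ((Module.length A (((Tor (ModuleCat.{0} A) 2).obj M).obj N)).toNat : ℤ) -
    ((Module.length A (((Tor (ModuleCat.{0} A) 1).obj M).obj N)).toNat : ℤ)

end Pool.Agent.P.MP_f43029_ag
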