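import Pool.Agent.P.MP_f43029_ag.CABar
import Pool.Agent.P.MP_f43029_ag.CADefs

/-!
The theta function is the Euler characteristic of a tensor product of matrix factorizations.
-/

set_option autoImplicit false

namespace Pool.Agent.P.MP_f43029_ag

open Matrix IsLocalRing TensorProduct

/-- Parity on `Fin r ⊕ Fin r`. -/
def bp (r : ℕ) : Fin r ⊕ Fin r → Bool := Sum.elim (fun _ => false) (fun _ => true)

section

variable {R : Type} [CommRing R] {r n : ℕ}

theorem blocks_odd (a b : Matrix (Fin r) (Fin r) R) :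
    OddM (bp r) (bp r) (fromBlocks 0 a b 0) := by
  rintro (i | i) (j | j) h <;> simp_all [bp]

theorem blocks_sq {f : R} {a b : Matrix (Fin r) (Fin r) R}
    (hab : a * b = f • (1 : Matrix (Fin r) (Fin r) R))
    (hba : b * a = f • (1 : Matrix (Fin r) (Fin r) R)) :
    fromBlocks 0 a b 0 * fromBlocks 0 a b 0 =
      f • (1 : Matrix (Fin r ⊕ Fin r) (Fin r ⊕ Fin r) R) := by
  rw [fromBlocks_multiply, ← fromBlocks_one, fromBlocks_smul]
  simp [hab, hba]

theorem blocks_obj {D N : ℕ} {x : Fin D → R} {f : R} {a b : Matrix (Fin r) (Fin r) R}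
    (hab : a * b = f • (1 : Matrix (Fin r) (Fin r) R))
    (hba : b * a = f • (1 : Matrix (Fin r) (Fin r) R))
    (h : ∀ j, ∃ p q : Matrix (Fin r) (Fin r) R,
      a * q + p * b = x j ^ N • (1 : Matrix (Fin r) (Fin r) R) ∧
      b * p + q * a = x j ^ N • (1 : Matrix (Fin r) (Fin r) R)) :
    IsObj x N f (bp r) (fromBlocks 0 a b 0) := by
  choose p q h₁ h₂ using h
  refine ⟨blocks_odd a b, blocks_sq hab hba, fun j => fromBlocks 0 (p j) (q j) 0,
    fun j => blocks_odd _ _, fun j => ?_⟩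
  rw [fromBlocks_multiply, fromBlocks_multiply, fromBlocks_add, ← fromBlocks_one, fromBlocks_smul]
  simp [h₁, h₂]

theorem IsObj.transpose {ι : Type} [Fintype ι] [DecidableEq ι] {D N : ℕ} {x : Fin D → R} {f : R}
    {p : ι → Bool} {E : Matrix ι ι R} (h : IsObj x N f p E) :
    IsObj x N f (fun i => !p i) Eᵀ := by
  obtain ⟨h₁, h₂, g, h₃, h₄⟩ := h
  refine ⟨fun i j hij => h₁ j i (by simpa using hij.symm), ?_, fun j => (g j)ᵀ,
    fun l i j hij => h₃ l j i (by simpa using hij.symm), fun j => ?_⟩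
  · rw [← transpose_mul, h₂, transpose_smul, transpose_one]
  · rw [← transpose_mul, ← transpose_mul, ← transpose_add, add_comm, h₄, transpose_smul,
      transpose_one]

theorem IsObj.mono {ι : Type} [Fintype ι] [DecidableEq ι] {D N N' : ℕ} {x : Fin D → R} {f : R}
    {p : ι → Bool} {E : Matrix ι ι R} (h : IsObj x N f p E) (hN : N ≤ N') : IsObj x N' f p E := by
  obtain ⟨h₁, h₂, g, h₃, h₄⟩ := h
  refine ⟨h₁, h₂, fun j => x j ^ (N' - N) • g j, fun l i j hij => by simp [h₃ l i j hij],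
    fun j => ?_⟩
  rw [Matrix.mul_smul, Matrix.smul_mul, ← smul_add, h₄, smul_smul, ← pow_add,
    Nat.sub_add_cancel hN]

variable {X : Type} [AddCommGroup X] [Module R X]

theorem actM_blocks (c e : Matrix (Fin n) (Fin n) R) (u : Fin n ⊕ Fin n → X) :
    actM X (fromBlocks 0 c (-e) 0) u =
      Sum.elim (actM X c fun i => u (Sum.inr i)) (-actM X e fun i => u (Sum.inl i)) := by
  ext (i | i) <;> simp [actM_apply, Fintype.sum_sum_type]

theorem blocks_homology_false (c e : Matrix (Fin n) (Fin n) R) :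
    Nonempty ((↥(LinearMap.ker (actM X (fromBlocks 0 c (-e) 0)) ⊓ parSub R X (bp n) false) ⧸
      ((parSub R X (bp n) (!false)).map (actM X (fromBlocks 0 c (-e) 0))).submoduleOf
        (LinearMap.ker (actM X (fromBlocks 0 c (-e) 0)) ⊓ parSub R X (bp n) false)) ≃ₗ[R]
      Hml (actM X c) (actM X e)) := by
  refine sq_equiv (LinearMap.funLeft R X Sum.inl) ?_ ?_ ?_ ?_
  · rintro v ⟨h, -⟩
    have h' : actM X (fromBlocks 0 c (-e) 0) v = 0 := h
    rw [actM_blocks] at h'
    ext i
    exact neg_eq_zero.mp (congrFun h' (Sum.inr i))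
  · rintro _ ⟨u, -, rfl⟩
    exact ⟨fun i => u (Sum.inr i), by rw [actM_blocks]; rfl⟩
  · rintro v ⟨-, hv⟩ ⟨y, hy⟩
    refine ⟨Sum.elim 0 y, ?_, ?_⟩
    · rintro (i | i) hi <;> simp_all [bp]
    · rw [actM_blocks]
      ext (i | i)
      · exact congrFun hy i
      · rw [hv (Sum.inr i) (by simp [bp])]
        simp [actM_apply]
  · intro y hy
    refine ⟨Sum.elim y 0, ⟨?_, ?_⟩, ?_⟩
    · change actM X _ _ = 0
      rw [actM_blocks]
      ext (i | i)
      · simp [actM_apply]
      · exact neg_eq_zero.mpr (congrFun hy i)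
    · rintro (i | i) hi <;> simp_all [bp]
    · exact ⟨0, by ext i; simp⟩

theorem blocks_homology_true (c e : Matrix (Fin n) (Fin n) R) :
    Nonempty ((↥(LinearMap.ker (actM X (fromBlocks 0 c (-e) 0)) ⊓ parSub R X (bp n) true) ⧸
      ((parSub R X (bp n) (!true)).map (actM X (fromBlocks 0 c (-e) 0))).submoduleOf
        (LinearMap.ker (actM X (fromBlocks 0 c (-e) 0)) ⊓ parSub R X (bp n) true)) ≃ₗ[R]
      Hml (actM X e) (actM X c)) := by
  refine sq_equiv (LinearMap.funLeft R X Sum.inr) ?_ ?_ ?_ ?_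
  · rintro v ⟨h, -⟩
    have h' : actM X (fromBlocks 0 c (-e) 0) v = 0 := h
    rw [actM_blocks] at h'
    ext i
    exact congrFun h' (Sum.inl i)
  · rintro _ ⟨u, -, rfl⟩
    exact ⟨-fun i => u (Sum.inl i), by rw [actM_blocks, map_neg]; rfl⟩
  · rintro v ⟨-, hv⟩ ⟨y, hy⟩
    refine ⟨Sum.elim (-y) 0, ?_, ?_⟩
    · rintro (i | i) hi <;> simp_all [bp]
    · rw [actM_blocks]
      ext (i | i)
      · rw [hv (Sum.inl i) (by simp [bp])]
        simp [actM_apply]
      · have := congrFun hy i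
        simpa [actM_apply] using this
  · intro y hy
    refine ⟨Sum.elim 0 y, ⟨?_, ?_⟩, ?_⟩
    · change actM X _ _ = 0
      rw [actM_blocks]
      ext (i | i)
      · exact congrFun hy i
      · simp [actM_apply]
    · rintro (i | i) hi <;> simp_all [bp]
    · exact ⟨0, by ext i; simp⟩

theorem cover_inl {a b : Matrix (Fin r) (Fin r) R} (q : (Fin r → R) →ₗ[R] X)
    (hker : LinearMap.ker q = LinearMap.range a.mulVecLin) (v : Fin r ⊕ Fin r → R) :
    (q ∘ₗ LinearMap.funLeft R R Sum.inl) v = 0 ↔ ∃ u ∈ parSub R R (bp r) true,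
      ∃ w ∈ parSub R R (bp r) true, v = u + fromBlocks 0 a b 0 *ᵥ w := by
  rw [LinearMap.comp_apply, ← LinearMap.mem_ker, hker]
  constructor
  · rintro ⟨y, hy⟩
    refine ⟨Sum.elim 0 (fun i => v (Sum.inr i)), ?_, Sum.elim 0 y, ?_, ?_⟩
    · rintro (i | i) hi <;> simp_all [bp]
    · rintro (i | i) hi <;> simp_all [bp]
    · rw [fromBlocks_mulVec]
      ext (i | i)
      · simpa using (congrFun hy i).symm
      · simp
  · rintro ⟨u, hu, w, -, rfl⟩
    refine ⟨fun i => w (Sum.inr i), ?_⟩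
    ext i
    rw [fromBlocks_mulVec]
    simp [hu (Sum.inl i) (by simp [bp]), Function.comp_def]

theorem cover_inr {a b : Matrix (Fin r) (Fin r) R} (q : (Fin r → R) →ₗ[R] X)
    (hker : LinearMap.ker q = LinearMap.range a.mulVecLin) (v : Fin r ⊕ Fin r → R) :
    (q ∘ₗ LinearMap.funLeft R R Sum.inr) v = 0 ↔ ∃ u ∈ parSub R R (fun i => !bp r i) true,
      ∃ w ∈ parSub R R (fun i => !bp r i) true, v = u + fromBlocks 0 b a 0 *ᵥ w := by
  rw [LinearMap.comp_apply, ← LinearMap.mem_ker, hker]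
  constructor
  · rintro ⟨y, hy⟩
    refine ⟨Sum.elim (fun i => v (Sum.inl i)) 0, ?_, Sum.elim y 0, ?_, ?_⟩
    · rintro (i | i) hi <;> simp_all [bp]
    · rintro (i | i) hi <;> simp_all [bp]
    · rw [fromBlocks_mulVec]
      ext (i | i)
      · simp
      · simpa using (congrFun hy i).symm
  · rintro ⟨u, hu, w, -, rfl⟩
    refine ⟨fun i => w (Sum.inl i), ?_⟩
    ext i
    rw [fromBlocks_mulVec]
    simp [hu (Sum.inr i) (by simp [bp]), Function.comp_def]

end

theorem exists_model (R B : Type) [CommRing R] [CommRing B] [Algebra R B] (X : Type)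
    [AddCommGroup X] [Module B X] :
    ∃ (Y : Type) (_ : AddCommGroup Y) (_ : Module B Y) (_ : Module R Y) (_ : IsScalarTower R B Y),
      Nonempty (X ≃ₗ[B] Y) := by
  let : Module R X := Module.compHom X (algebraMap R B)
  exact ⟨X, inferInstance, inferInstance, inferInstance,
    IsScalarTower.of_algebraMap_smul fun _ _ => rfl, ⟨LinearEquiv.refl _ _⟩⟩

theorem theta_eq_chi {A R B : Type} [CommRing A] [CommRing R] [CommRing B] [IsLocalRing A]
    [IsLocalRing B] [IsDomain R] [Algebra A B] [Module.Flat A B] [Algebra R B] {f : R} (hf : f ≠ 0)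
    (hm : (maximalIdeal A).map (algebraMap A B) = maximalIdeal B)
    (hs : Function.Surjective (algebraMap R B)) (hk : ∀ x, algebraMap R B x = 0 ↔ f ∣ x)
    (X N : ModuleCat.{0} A) {r n : ℕ} {a b : Matrix (Fin r) (Fin r) R}
    {c e : Matrix (Fin n) (Fin n) R}
    (hab : a * b = f • (1 : Matrix (Fin r) (Fin r) R))
    (hba : b * a = f • (1 : Matrix (Fin r) (Fin r) R))
    (hce : c * e = f • (1 : Matrix (Fin n) (Fin n) R))
    (hec : e * c = f • (1 : Matrix (Fin n) (Fin n) R))
    (q : (Fin r → B) →ₗ[B] B ⊗[A] X) (hq : Function.Surjective q)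
    (hqa : Function.Exact (a.map (algebraMap R B)).mulVecLin q)
    (ρ : (Fin n → B) →ₗ[B] B ⊗[A] N) (hρ : Function.Surjective ρ)
    (hρc : Function.Exact (c.map (algebraMap R B)).mulVecLin ρ) :
    theta A X N = chi (tpar (bp r) (bp n)) (tens (bp r) (fromBlocks 0 a b 0)
      (fromBlocks 0 c (-e) 0)) ∧
    theta A X N = chi (tpar (fun i => !bp r i) (bp n)) (tens (fun i => !bp r i)
      (fromBlocks 0 b a 0) (fromBlocks 0 c (-e) 0)) := by
  obtain ⟨Y, _, _, _, _, ⟨φ⟩⟩ := exists_model R B (B ⊗[A] X)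
  obtain ⟨h₁, h₂⟩ := length_tor hm hs X N c e ρ ⟨inferInstance, inferInstance, inferInstance,
    inferInstance, hρ, hρc, exact_bar hf hs hk hce hec, exact_bar hf hs hk hec hce⟩ Y φ
  obtain ⟨q', hq', hker⟩ := cover_toR hs hk hab (φ.toLinearMap ∘ₗ q) (φ.surjective.comp hq)
    (LinearEquiv.postcomp_exact_iff_exact.mpr hqa)
  have hF : fromBlocks 0 c (-e) 0 * fromBlocks 0 c (-e) 0 =
      (-f) • (1 : Matrix (Fin n ⊕ Fin n) (Fin n ⊕ Fin n) R) :=
    blocks_sq (by rw [Matrix.mul_neg, hce, neg_smul]) (by rw [Matrix.neg_mul, hec, neg_smul])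
  have H₁ := tens_homology (blocks_odd a b) (blocks_odd c (-e)) (blocks_sq hab hba) hF
    (mulVec_inj hf (blocks_sq hab hba)) (q' ∘ₗ LinearMap.funLeft R R Sum.inl)
    (hq'.comp (LinearMap.funLeft_surjective_of_injective R R _ Sum.inl_injective))
    (cover_inl q' hker)
  have H₂ := tens_homology (p₁ := fun i => !bp r i)
    (fun i j h => blocks_odd b a i j (by simpa using h)) (blocks_odd c (-e)) (blocks_sq hba hab) hF
    (mulVec_inj hf (blocks_sq hba hab)) (q' ∘ₗ LinearMap.funLeft R R Sum.inr)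
    (hq'.comp (LinearMap.funLeft_surjective_of_injective R R _ Sum.inr_injective))
    (cover_inr q' hker)
  constructor
  · rw [theta, chi, h₁, h₂, (H₁ false).some.length_eq, (H₁ true).some.length_eq,
      LinearEquiv.length_eq (blocks_homology_false (X := Y) c e).some,
      LinearEquiv.length_eq (blocks_homology_true (X := Y) c e).some]
  · rw [theta, chi, h₁, h₂, (H₂ false).some.length_eq, (H₂ true).some.length_eq,
      LinearEquiv.length_eq (blocks_homology_false (X := Y) c e).some,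
      LinearEquiv.length_eq (blocks_homology_true (X := Y) c e).some]

end Pool.Agent.P.MP_f43029_ag
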