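import Pool.Agent.P.MP_f43029_ag.CAPow

/-!
Cohen's structure theorem for hypersurfaces containing a field.
-/

set_option autoImplicit false

namespace Pool.Agent.P.MP_f43029_ag

open IsLocalRing Polynomial

theorem exists_section_charP (p : ℕ) [hp : Fact p.Prime] {B L : Type} [CommRing B] [Field L]
    [CharP B p] (π : B →+* L) (hs : Function.Surjective π)
    (hsq : ∀ x, π x = 0 → x * x = 0) : ∃ g : L →+* B, ∀ x, π (g x) = x := by
  let T : Set (Subring B) := {S | (∀ x ∈ S, π x = 0 → x = 0) ∧ ∀ b, b ^ p ∈ S}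
  have h0 : (frobenius B p).range ∈ T := by
    refine ⟨?_, fun b => ⟨b, rfl⟩⟩
    rintro _ ⟨b, rfl⟩ hb
    rw [frobenius_def] at hb ⊢
    rw [map_pow] at hb
    obtain ⟨q, hq⟩ := Nat.exists_eq_add_of_le hp.out.two_le
    rw [hq, pow_add, pow_two, hsq b (pow_eq_zero_iff hp.out.ne_zero |>.mp hb), zero_mul]
  obtain ⟨S, -, hS⟩ := zorn_le_nonempty₀ T (fun c hc hch y hy => by
    refine ⟨sSup c, ⟨fun x hx => ?_, fun b => le_sSup hy ((hc hy).2 b)⟩, fun z hz => le_sSup hz⟩
    obtain ⟨S, hS, hx⟩ := (Subring.mem_sSup_of_directedOn ⟨y, hy⟩ hch.directedOn).mp hx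
    exact (hc hS).1 x hx) _ h0
  have hsurj : ∀ a : L, ∃ s ∈ S, π s = a := by
    intro a
    by_contra ha
    obtain ⟨b, rfl⟩ := hs a
    let K : Subfield L :=
      { S.map π with
        inv_mem' := by
          rintro _ ⟨s, hs', rfl⟩
          obtain ⟨t, ht⟩ := hs (π s)⁻¹
          obtain ⟨q, hq⟩ := Nat.exists_eq_add_of_le hp.out.one_le
          refine ⟨s ^ q * t ^ p, S.mul_mem (S.pow_mem hs' q) (hS.prop.2 t), ?_⟩
          change π _ = (π s)⁻¹
          rcases eq_or_ne (π s) 0 with h | h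
          · rw [map_mul, map_pow, map_pow, ht, h, inv_zero, zero_pow hp.out.ne_zero, mul_zero]
          · rw [map_mul, map_pow, map_pow, ht, hq, pow_add, pow_one, mul_left_comm, ← mul_pow,
              mul_inv_cancel₀ h, one_pow, mul_one] }
    let ρ : S →+* K := (π.comp S.subtype).codRestrict K fun s => ⟨s.1, s.2, rfl⟩
    have hρ : Function.Injective ρ := (injective_iff_map_eq_zero ρ).mpr fun s h =>
      Subtype.ext (hS.prop.1 s.1 s.2 (congrArg Subtype.val h))
    have : CharP L p := by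
      have : Nontrivial B := π.domain_nontrivial
      exact (CharP.charP_iff_prime_eq_zero hp.out).mpr (by
        rw [← map_natCast π, CharP.cast_eq_zero, map_zero])
    let c : S := ⟨b ^ p, hS.prop.2 b⟩
    have hirr : Irreducible (X ^ p - C (ρ c)) := by
      refine X_pow_sub_C_irreducible_of_prime hp.out fun z hz => ha ?_
      obtain ⟨z, s, hs', rfl⟩ := z
      refine ⟨s, hs', frobenius_inj L p ?_⟩
      rw [frobenius_def, frobenius_def, ← map_pow π b]
      exact congrArg Subtype.val hz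
    have hmon : (X ^ p - C c : S[X]).Monic := monic_X_pow_sub_C c hp.out.ne_zero
    have hmin : X ^ p - C (ρ c) = minpoly K (π b) :=
      minpoly.eq_of_irreducible_of_monic hirr (by
        rw [map_sub, map_pow, aeval_X, aeval_C, ← map_pow π b]
        exact sub_self _) (monic_X_pow_sub_C _ hp.out.ne_zero)
    have hT : (aeval (R := S) b).toRingHom.range ∈ T := by
      refine ⟨?_, fun x => ⟨C ⟨x ^ p, hS.prop.2 x⟩, aeval_C _ _⟩⟩
      rintro _ ⟨q, rfl⟩ hq
      have h1 : aeval (π b) (q.map ρ) = 0 := by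
        rw [← hq, aeval_def, eval₂_map]
        change _ = π (aeval b q)
        rw [aeval_def, hom_eval₂]
        rfl
      have h2 := minpoly.dvd K (π b) h1
      rw [← hmin] at h2
      have h3 : X ^ p - C (ρ c) = (X ^ p - C c : S[X]).map ρ := by simp
      rw [h3, map_dvd_map ρ hρ hmon] at h2
      obtain ⟨w, rfl⟩ := h2
      change aeval b _ = 0
      rw [map_mul, map_sub, map_pow, aeval_X, aeval_C]
      change (b ^ p - b ^ p) * _ = 0
      rw [sub_self, zero_mul]
    exact ha ⟨b, hS.le_of_ge hT (fun x hx => ⟨C ⟨x, hx⟩, aeval_C _ _⟩) ⟨X, aeval_X _⟩, rfl⟩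
  let e : S ≃+* L := RingEquiv.ofBijective (π.comp S.subtype)
    ⟨(injective_iff_map_eq_zero _).mpr fun s h => Subtype.ext (hS.prop.1 s.1 s.2 h),
      fun a => by
        obtain ⟨s, h, h'⟩ := hsurj a
        exact ⟨⟨s, h⟩, h'⟩⟩
  exact ⟨S.subtype.comp e.symm.toRingHom, fun x => e.apply_symm_apply x⟩

theorem formallySmooth_zmod (p : ℕ) [Fact p.Prime] (L : Type) [Field L] [Algebra (ZMod p) L] :
    Algebra.FormallySmooth (ZMod p) L := by
  let φ : MvPolynomial L (ZMod p) →ₐ[ZMod p] L := MvPolynomial.aeval id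
  have hφ : Function.Surjective φ := fun x => ⟨MvPolynomial.X x, MvPolynomial.aeval_X _ _⟩
  have hs : Function.Surjective φ.kerSquareLift := fun x => by
    obtain ⟨y, rfl⟩ := hφ x
    exact ⟨Ideal.Quotient.mk _ y, rfl⟩
  have : Nontrivial (MvPolynomial L (ZMod p) ⧸ RingHom.ker φ.toRingHom ^ 2) :=
    φ.kerSquareLift.toRingHom.domain_nontrivial
  have : CharP (MvPolynomial L (ZMod p) ⧸ RingHom.ker φ.toRingHom ^ 2) p :=
    charP_of_injective_algebraMap (algebraMap (ZMod p) _).injective p
  obtain ⟨g, hg⟩ := exists_section_charP p φ.kerSquareLift.toRingHom hs fun x hx => by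
    obtain ⟨y, rfl⟩ := Ideal.Quotient.mk_surjective x
    rw [← map_mul, Ideal.Quotient.eq_zero_iff_mem, pow_two]
    exact Ideal.mul_mem_mul hx hx
  exact Algebra.FormallySmooth.of_split φ
    { g with commutes' := fun r => RingHom.congr_fun (RingHom.ext_zmod (g.comp (algebraMap _ _))
      (algebraMap _ _)) r } (AlgHom.ext hg)

theorem formallySmooth_rat (L : Type) [Field L] [Algebra ℚ L] : Algebra.FormallySmooth ℚ L := by
  obtain ⟨s, hs⟩ := exists_isTranscendenceBasis ℚ L
  have := hs.isAlgebraic_field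
  have : CharZero L := algebraRat.charZero L
  exact .of_algebraicIndependent_of_isSeparable hs.1

theorem exists_coeff_field (F B : Type) [Field F] [CommRing B] [IsLocalRing B] [Algebra F B]
    [IsAdicComplete (maximalIdeal B) B] :
    ∃ g : ResidueField B →+* B, ∀ x, residue B (g x) = x := by
  have key : ∀ (K : Type) [Field K] [Algebra K B], Algebra.FormallySmooth K (ResidueField B) →
      ∃ g : ResidueField B →+* B, ∀ x, residue B (g x) = x := by
    intro K _ _ h
    obtain ⟨g, hg⟩ := Algebra.FormallySmooth.exists_mkₐ_comp_eq_of_isAdicComplete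
      (I := maximalIdeal B) (AlgHom.id K (ResidueField B))
    exact ⟨g.toRingHom, AlgHom.congr_fun hg⟩
  obtain ⟨p, hp⟩ := CharP.exists F
  rcases CharP.char_is_prime_or_zero F p with h | rfl
  · have := Fact.mk h
    let : Algebra (ZMod p) B := ((algebraMap F B).comp (ZMod.castHom dvd_rfl F)).toAlgebra
    exact key (ZMod p) (formallySmooth_zmod p _)
  · have := CharP.charP_to_charZero F
    let : Algebra ℚ B := ((algebraMap F B).comp (algebraMap ℚ F)).toAlgebra
    exact key ℚ (formallySmooth_rat _)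

theorem exists_pow_surj (F B : Type) [Field F] [CommRing B] [IsLocalRing B] [Algebra F B]
    [IsAdicComplete (maximalIdeal B) B] {n : ℕ} (x : Fin n → B)
    (hx : Ideal.span (Set.range x) = maximalIdeal B) :
    ∃ φ : MvPowerSeries (Fin n) (ResidueField B) →+* B, Function.Surjective φ ∧
      ∀ i, φ (MvPowerSeries.X i) = x i := by
  obtain ⟨g, hg⟩ := exists_coeff_field F B
  let P := MvPolynomial (Fin n) (ResidueField B)
  let : Algebra P B := (MvPolynomial.eval₂Hom g x).toAlgebra
  have hle : MvPolynomial.idealOfVars (Fin n) (ResidueField B) ≤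
      (maximalIdeal B).comap (algebraMap P B) := by
    rw [MvPolynomial.idealOfVars, Ideal.span_le]
    rintro _ ⟨i, rfl⟩
    change MvPolynomial.eval₂Hom g x (MvPolynomial.X i) ∈ maximalIdeal B
    rw [MvPolynomial.eval₂Hom_X', ← hx]
    exact Ideal.subset_span ⟨i, rfl⟩
  have hle' : ∀ m, MvPolynomial.idealOfVars (Fin n) (ResidueField B) ^ m ≤
      (maximalIdeal B ^ m).comap (Algebra.ofId P B) := fun m =>
    (Ideal.pow_right_mono hle m).trans (Ideal.le_comap_pow _ m)
  let φ : MvPowerSeries (Fin n) (ResidueField B) →ₐ[P] B :=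
    IsAdicComplete.liftAlgHom (maximalIdeal B) (fun m =>
      (Ideal.quotientMapₐ _ (Algebra.ofId P B) (hle' m)).comp
        (MvPowerSeries.truncTotalAlgHom (Fin n) (ResidueField B) m)) (fun {l m} h => by
      ext q
      change Ideal.Quotient.mk _ (algebraMap P B (q.truncTotal m)) =
        Ideal.Quotient.mk _ (algebraMap P B (q.truncTotal l))
      rw [Ideal.Quotient.eq, ← map_sub]
      exact hle' l (MvPowerSeries.truncTotal_sub_truncTotal_mem_pow_idealOfVars h le_rfl q))
  have hX : ∀ i, φ (MvPowerSeries.X i) = x i := fun i => by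
    have := φ.commutes (MvPolynomial.X i)
    rw [← MvPolynomial.coe_X]
    exact this.trans (MvPolynomial.eval₂Hom_X' _ _ _)
  have hC : ∀ a, φ (MvPowerSeries.C a) = g a := fun a => by
    have := φ.commutes (MvPolynomial.C a)
    rw [← MvPolynomial.coe_C]
    exact this.trans (MvPolynomial.eval₂Hom_C _ _ _)
  have hmap : (Ideal.span (Set.range MvPowerSeries.X)).map φ.toRingHom = maximalIdeal B := by
    rw [Ideal.map_span, ← Set.range_comp, ← hx]
    congr 2
    exact funext hX
  refine ⟨φ.toRingHom, surjective_of_mk_map_comp_surjective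
    (I := Ideal.span (Set.range MvPowerSeries.X)) _ (haus := by rw [hmap]; infer_instance) ?_, hX⟩
  intro y
  obtain ⟨y, rfl⟩ := Ideal.Quotient.mk_surjective y
  refine ⟨MvPowerSeries.C (residue B y), Ideal.Quotient.eq.mpr ?_⟩
  rw [hmap, ← residue_eq_zero_iff, map_sub]
  exact sub_eq_zero.mpr ((congrArg _ (hC _)).trans (hg _))

theorem koszul_lift {R S B : Type} [CommRing R] [CommRing S] [CommRing B] (ψ : R →+* B)
    (φ : S →+* B) (hφ : Function.Surjective φ) (n : ℕ) : ∀ (y : Fin n → R) (x : Fin n → S),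
    (∀ i, φ (x i) = ψ (y i)) →
    (∀ i a, a * y i ∈ Ideal.span (y '' {j | j < i}) → a ∈ Ideal.span (y '' {j | j < i})) →
    ∀ a : Fin n → R, ∑ i, a i * y i = 0 →
    ∃ σ : Fin n → S, (∀ i, φ (σ i) = ψ (a i)) ∧ ∑ i, σ i * x i = 0 := by
  induction n with
  | zero => exact fun y x _ _ a _ => ⟨0, fun i => i.elim0, by simp⟩
  | succ n ih =>
    intro y x hxy hreg a ha
    rw [Fin.sum_univ_castSucc] at ha
    have himg : ∀ i : Fin n, y '' {j | j < i.castSucc} =
        (fun j : Fin n => y j.castSucc) '' {j | j < i} := by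
      intro i
      ext z
      constructor
      · rintro ⟨j, hj, rfl⟩
        obtain ⟨j, rfl⟩ := Fin.exists_castSucc_eq.mpr (Fin.ne_last_of_lt hj)
        exact ⟨j, Fin.castSucc_lt_castSucc_iff.mp hj, rfl⟩
      · rintro ⟨j, hj, rfl⟩
        exact ⟨j.castSucc, Fin.castSucc_lt_castSucc_iff.mpr hj, rfl⟩
    have hlast : y '' {j | j < Fin.last n} = Set.range fun j : Fin n => y j.castSucc := by
      ext z
      constructor
      · rintro ⟨j, hj, rfl⟩
        obtain ⟨j, rfl⟩ := Fin.exists_castSucc_eq.mpr (Fin.ne_last_of_lt hj)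
        exact ⟨j, rfl⟩
      · rintro ⟨j, rfl⟩
        exact ⟨j.castSucc, Fin.castSucc_lt_last j, rfl⟩
    have h1 := hreg (Fin.last n) (a (Fin.last n)) (by
      rw [hlast, ← neg_eq_iff_add_eq_zero.mpr ha, Ideal.neg_mem_iff]
      exact Ideal.mem_span_range_iff_exists_fun.mpr ⟨_, rfl⟩)
    rw [hlast] at h1
    obtain ⟨c, hc⟩ := Ideal.mem_span_range_iff_exists_fun.mp h1
    choose γ hγ using fun i => hφ (ψ (c i))
    obtain ⟨σ, hσ, hσ'⟩ := ih (fun j => y j.castSucc) (fun j => x j.castSucc) (fun j => hxy _)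
      (fun i b hb => by rw [← himg] at hb ⊢; exact hreg _ b hb)
      (fun j => a j.castSucc + c j * y (Fin.last n)) (by
        rw [← ha, ← hc, Finset.sum_mul, ← Finset.sum_add_distrib]
        exact Finset.sum_congr rfl fun j _ => by ring)
    refine ⟨Fin.snoc (fun j => σ j - γ j * x (Fin.last n)) (∑ j, γ j * x j.castSucc), ?_, ?_⟩
    · intro i
      refine Fin.lastCases ?_ (fun j => ?_) i
      · simp [← hc, hγ, hxy]
      · simp [hσ, hγ, hxy]
    · rw [Fin.sum_univ_castSucc]
      simp only [Fin.snoc_castSucc, Fin.snoc_last]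
      rw [← hσ', Finset.sum_mul, ← Finset.sum_add_distrib]
      exact Finset.sum_congr rfl fun j _ => by ring

theorem cohen (F B R : Type) [Field F] [CommRing B] [IsLocalRing B] [Algebra F B]
    [IsAdicComplete (maximalIdeal B) B] [CommRing R] [IsRegularLocalRing R] (f : R) (hf : f ≠ 0)
    (hfm : f ∈ maximalIdeal R) (e : B ≃+* R ⧸ Ideal.span {f}) :
    ∃ (k : Type) (_ : Field k) (n : ℕ) (g : MvPowerSeries (Fin n) k),
      g ≠ 0 ∧ g ∈ maximalIdeal (MvPowerSeries (Fin n) k) ∧
      Nonempty (B ≃+* MvPowerSeries (Fin n) k ⧸ Ideal.span {g}) := by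
  obtain ⟨s, hs, hm⟩ := Submodule.FG.exists_span_finset_card_eq_spanFinrank
    (IsNoetherian.noetherian (maximalIdeal R))
  have hd := IsRegularLocalRing.spanFinrank_maximalIdeal (R := R)
  obtain ⟨hdom, rs, hreg, hrs, -⟩ := regseq_of_gens s.card R s le_rfl hm (by rw [hs, hd])
  let ψ : R →+* B := e.symm.toRingHom.comp (Ideal.Quotient.mk _)
  have hψ : Function.Surjective ψ := e.symm.surjective.comp Ideal.Quotient.mk_surjective
  have hk : ∀ x, ψ x = 0 ↔ f ∣ x := fun x => by
    change e.symm (Ideal.Quotient.mk _ x) = 0 ↔ _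
    rw [map_eq_zero_iff _ e.symm.injective, Ideal.Quotient.eq_zero_iff_mem,
      Ideal.mem_span_singleton]
  let y : Fin rs.length → R := rs.get
  have hy : Ideal.span (Set.range y) = maximalIdeal R := by
    rw [← hrs, Set.range_list_get]
  obtain ⟨φ, hφ, hX⟩ := exists_pow_surj F B (fun i => ψ (y i)) (by
    rw [← map_maximalIdeal_of_surjective ψ hψ, ← hy, Ideal.map_span, ← Set.range_comp]
    rfl)
  have hkos := koszul_lift ψ φ hφ rs.length y MvPowerSeries.X hX fun i a ha => by
    have h1 : Ideal.span (y '' {j | j < i}) = Ideal.ofList (rs.take i) • ⊤ := by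
      rw [smul_eq_mul, Ideal.mul_top]
      congr 1
      ext z
      constructor
      · rintro ⟨j, hj, rfl⟩
        exact List.mem_take_iff_getElem.mpr ⟨j, lt_min hj j.2, rfl⟩
      · intro hz
        obtain ⟨j, hj, rfl⟩ := List.mem_take_iff_getElem.mp hz
        exact ⟨⟨j, (lt_min_iff.mp hj).2⟩, (lt_min_iff.mp hj).1, rfl⟩
    rw [h1] at ha ⊢
    rw [← Submodule.Quotient.mk_eq_zero] at ha ⊢
    refine (hreg.regular_mod_prev i i.2).right_eq_zero_of_smul ?_
    rw [mul_comm] at ha
    exact ha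
  obtain ⟨r, hr⟩ := Ideal.mem_span_range_iff_exists_fun.mp (hy ▸ hfm)
  choose ρ hρ using fun i => hφ (ψ (r i))
  have hker : RingHom.ker φ ≤ maximalIdeal _ := le_maximalIdeal (RingHom.ker_ne_top φ)
  have hg : ∑ i, ρ i * MvPowerSeries.X i ∈ RingHom.ker φ := by
    rw [RingHom.mem_ker, ← (hk f).mpr dvd_rfl, ← hr]
    simp [hρ, hX]
  have heq : RingHom.ker φ = Ideal.span {∑ i, ρ i * MvPowerSeries.X i} := by
    refine le_antisymm (Submodule.le_of_le_smul_of_le_jacobson_bot (IsNoetherian.noetherian _)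
      (maximalIdeal_le_jacobson ⊥) fun g hg' => ?_) (by rwa [Ideal.span_singleton_le_iff_mem])
    obtain ⟨t, ht⟩ := Ideal.mem_span_range_iff_exists_fun.mp
      ((span_X_eq (k := ResidueField B) rs.length).ge (hker hg'))
    choose a ha using fun i => hψ (φ (t i))
    obtain ⟨c, hc⟩ := (hk (∑ i, a i * y i)).mp (by
      rw [← RingHom.mem_ker.mp hg', ← ht]
      simp [ha, hX])
    obtain ⟨σ, hσ, hσ'⟩ := hkos (fun i => a i - c * r i) (by
      simp only [sub_mul, Finset.sum_sub_distrib, mul_assoc, ← Finset.mul_sum, hr, hc]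
      ring)
    obtain ⟨γ, hγ⟩ := hφ (ψ c)
    have h2 : g = γ * ∑ i, ρ i * MvPowerSeries.X i +
        ∑ i, MvPowerSeries.X i * (t i - γ * ρ i - σ i) := by
      rw [← ht, ← add_zero (∑ i, t i * _), ← neg_zero, ← hσ', Finset.mul_sum,
        ← Finset.sum_neg_distrib, ← Finset.sum_add_distrib, ← Finset.sum_add_distrib]
      exact Finset.sum_congr rfl fun i _ => by ring
    rw [h2]
    refine Submodule.add_mem_sup (Ideal.mul_mem_left _ _ (Ideal.mem_span_singleton_self _))
      (Ideal.sum_mem _ fun i _ => Submodule.smul_mem_smul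
        ((mem_max_iff _).mpr (MvPowerSeries.constantCoeff_X i)) ?_)
    rw [RingHom.mem_ker]
    simp [hσ, ha, hγ, hρ]
  refine ⟨ResidueField B, inferInstance, rs.length, _, fun h0 => ?_, hker hg,
    ⟨(RingHom.quotientKerEquivOfSurjective hφ).symm.trans (Ideal.quotEquivOfEq heq)⟩⟩
  rw [h0, Ideal.span_singleton_eq_bot.mpr rfl, ← RingHom.injective_iff_ker_eq_bot] at heq
  have h1 := ringKrullDim_quotient_span_singleton_succ_eq_ringKrullDim_of_mem_nonZeroDivisors
    (mem_nonZeroDivisors_of_ne_zero hf) hfm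
  rw [← ringKrullDim_eq_of_ringEquiv e,
    ← ringKrullDim_eq_of_ringEquiv (RingEquiv.ofBijective φ ⟨heq, hφ⟩), dim_pow, ← hd] at h1
  have h2 : (maximalIdeal R).spanFinrank ≤ rs.length := by
    rw [← hy]
    refine (Submodule.spanFinrank_span_le_ncard_of_finite (Set.finite_range y)).trans ?_
    rw [← Set.image_univ]
    exact (Set.ncard_image_le Set.finite_univ).trans (by simp [Set.ncard_univ])
  have h3 : rs.length + 1 = (maximalIdeal R).spanFinrank := by exact_mod_cast h1
  omega

end Pool.Agent.P.MP_f43029_ag
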