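import Pool.Agent.P.MP_f43029_ag.CAMain

/-!
The two Tor modules in the definition of theta have finite length.
-/

set_option autoImplicit false

namespace Pool.Agent.P.MP_f43029_ag

open Matrix IsLocalRing TensorProduct CategoryTheory

theorem length_ne_top_of_killed {R : Type} [CommRing R] [IsLocalRing R] [IsNoetherianRing R]
    (H : Type) [AddCommGroup H] [Module R H] [Module.Finite R H] (I : Ideal R)
    (hI : maximalIdeal R ≤ I.radical) (h : ∀ x ∈ I, ∀ y : H, x • y = 0) :
    Module.length R H ≠ ⊤ := by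
  have ht : Module.IsTorsionBySet R H I := fun y x => h x.1 x.2 y
  let := ht.module
  have := ht.isScalarTower (S := R)
  have : Ring.KrullDimLE 0 (R ⧸ I) := by
    refine Ring.KrullDimLE.mk₀ fun P hP => ?_
    have h1 : (P.comap (Ideal.Quotient.mk I)).IsPrime := Ideal.comap_isPrime _ _
    have h2 : I ≤ P.comap (Ideal.Quotient.mk I) := fun x hx => by
      rw [Ideal.mem_comap, Ideal.Quotient.eq_zero_iff_mem.mpr hx]
      exact P.zero_mem
    have h3 : maximalIdeal R ≤ P.comap (Ideal.Quotient.mk I) :=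
      hI.trans (h1.radical_le_iff.mpr h2)
    have h4 : (P.comap (Ideal.Quotient.mk I)).IsMaximal := by
      rw [← (maximalIdeal.isMaximal R).eq_of_le h1.ne_top h3]
      infer_instance
    have h5 := (Ideal.map_eq_top_or_isMaximal_of_surjective (Ideal.Quotient.mk I)
      Ideal.Quotient.mk_surjective h4)
    rw [Ideal.map_comap_of_surjective _ Ideal.Quotient.mk_surjective] at h5
    exact h5.resolve_left hP.ne_top
  have : IsArtinianRing (R ⧸ I) := IsNoetherianRing.isArtinianRing_of_krullDimLE_zero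
  have : Module.Finite (R ⧸ I) H := Module.Finite.of_restrictScalars_finite R _ _
  rw [Module.length_eq_of_surjective (S := R) (R := R ⧸ I) Ideal.Quotient.mk_surjective,
    Module.length_ne_top_iff]
  exact ((IsArtinianRing.tfae (R ⧸ I) H).out 0 3).mp this

theorem actM_mul {R ι : Type} [CommRing R] [Fintype ι] {X : Type} [AddCommGroup X] [Module R X]
    (F G : Matrix ι ι R) (u : ι → X) : actM X F (actM X G u) = actM X (F * G) u := by
  ext i
  simp only [actM_apply, Matrix.mul_apply, Finset.smul_sum, Finset.sum_smul, smul_smul]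
  exact Finset.sum_comm

theorem hml_killed {R ι : Type} [CommRing R] [Fintype ι] [DecidableEq ι] {X : Type}
    [AddCommGroup X] [Module R X] {c e p p' : Matrix ι ι R} {x : R}
    (h : c * p' + p * e = x • (1 : Matrix ι ι R)) (y : Hml (actM X c) (actM X e)) : x • y = 0 := by
  obtain ⟨⟨y, hy⟩, rfl⟩ := Submodule.Quotient.mk_surjective _ y
  rw [← Submodule.Quotient.mk_smul, Submodule.Quotient.mk_eq_zero]
  refine ⟨actM X p' y, ?_⟩
  have h1 : actM X (p * e) y = 0 := by rw [← actM_mul, LinearMap.mem_ker.mp hy, map_zero]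
  have h2 : actM X (c * p') y + actM X (p * e) y = x • y := by
    ext i
    simp only [Pi.add_apply, actM_apply, ← Finset.sum_add_distrib, ← add_smul, ← Matrix.add_apply,
      h]
    simp [Matrix.one_apply]
  rw [actM_mul, ← add_zero (actM X (c * p') y), ← h1, h2]
  rfl

theorem tor_finite (A : Type) [CommRing A] [IsLocalRing A] [IsNoetherianRing A]
    (hA : ∃ (k : Type) (_ : Field k) (n : ℕ) (f : MvPowerSeries (Fin n) k),
      f ≠ 0 ∧ f ∈ maximalIdeal (MvPowerSeries (Fin n) k) ∧
      Nonempty (AdicCompletion (maximalIdeal A) A ≃+* MvPowerSeries (Fin n) k ⧸ Ideal.span {f}))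
    (hiso : ∀ (p : Ideal A) [p.IsPrime], p ≠ maximalIdeal A →
      IsRegularLocalRing (Localization.AtPrime p))
    (X N : ModuleCat.{0} A) [Module.Finite A X] (hN : IsMCM A N) :
    Module.length A (((Tor (ModuleCat.{0} A) 1).obj X).obj N) ≠ ⊤ ∧
      Module.length A (((Tor (ModuleCat.{0} A) 2).obj X).obj N) ≠ ⊤ := by
  obtain ⟨k, _, D, f, hf, -, ⟨φ₀⟩⟩ := hA
  let B := AdicCompletion (maximalIdeal A) A
  let R := MvPowerSeries (Fin D) k
  let : Algebra R B := (φ₀.symm.toRingHom.comp (Ideal.Quotient.mk _)).toAlgebra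
  have : IsNoetherianRing B := isNoetherianRing_of_ringEquiv _ φ₀.symm
  have hs : Function.Surjective (algebraMap R B) :=
    φ₀.symm.surjective.comp Ideal.Quotient.mk_surjective
  have hk : ∀ x, algebraMap R B x = 0 ↔ f ∣ x := fun x => by
    change φ₀.symm (Ideal.Quotient.mk _ x) = 0 ↔ _
    rw [map_eq_zero_iff _ φ₀.symm.injective, Ideal.Quotient.eq_zero_iff_mem,
      Ideal.mem_span_singleton]
  have hm := (AdicCompletion.maximalIdeal_eq_map (R := A)).symm
  have : IsDomain R := NoZeroDivisors.to_isDomain _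
  obtain ⟨n, c, e, ρ, N₂, hce, hec, hρ, hρc, h₂⟩ := mcm_data hf hm hs hk hiso N hN
  obtain ⟨Y, _, _, _, _, ⟨φ⟩⟩ := exists_model R B (B ⊗[A] X)
  have : Module.Finite B Y := Module.Finite.equiv φ
  have : Module.Finite R B := Module.Finite.of_surjective (Algebra.linearMap R B) hs
  have : Module.Finite R Y := Module.Finite.trans B Y
  obtain ⟨t₁, t₂⟩ := length_tor hm hs X N c e ρ ⟨inferInstance, inferInstance, inferInstance,
    inferInstance, hρ, hρc, exact_bar hf hs hk hce hec, exact_bar hf hs hk hec hce⟩ Y φ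
  have key : ∀ (H : Type) [AddCommGroup H] [Module R H] [Module.Finite R H],
      (∀ j, ∀ y : H, (MvPowerSeries.X j : R) ^ N₂ • y = 0) → Module.length R H ≠ ⊤ := by
    intro H _ _ _ h
    refine length_ne_top_of_killed H (Module.annihilator R H) ?_
      fun x hx => Module.mem_annihilator.mp hx
    rw [← span_X_eq, Ideal.span_le]
    rintro _ ⟨j, rfl⟩
    exact ⟨N₂, Module.mem_annihilator.mpr (h j)⟩
  rw [t₁, t₂]
  refine ⟨key _ fun j y => ?_, key _ fun j y => ?_⟩
  · obtain ⟨p, p', -, h⟩ := h₂ j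
    exact hml_killed h y
  · obtain ⟨p, p', h, -⟩ := h₂ j
    exact hml_killed h y

end Pool.Agent.P.MP_f43029_ag
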