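import Mathlib

/-!
A Noetherian local ring whose maximal ideal is generated by a regular sequence of length `n`
has global dimension at most `n`; regular local rings are of this kind.
-/

set_option autoImplicit false

namespace Pool.Agent.P.MP_f43029_ag

open CategoryTheory IsLocalRing RingTheory.Sequence

theorem pd_of_equiv {S : Type} [CommRing S] {M N : Type} [AddCommGroup M] [Module S M]
    [AddCommGroup N] [Module S N] (e : M ≃ₗ[S] N) (n : ℕ)
    (h : HasProjectiveDimensionLT (ModuleCat.of S M) n) :
    HasProjectiveDimensionLT (ModuleCat.of S N) n :=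
  hasProjectiveDimensionLT_of_iso e.toModuleIso n

theorem shortExact_of {S : Type} [CommRing S] {N₁ N₂ N₃ : Type} [AddCommGroup N₁] [Module S N₁]
    [AddCommGroup N₂] [Module S N₂] [AddCommGroup N₃] [Module S N₃]
    (f : N₁ →ₗ[S] N₂) (g : N₂ →ₗ[S] N₃) (hf : Function.Injective f) (hg : Function.Surjective g)
    (hfg : Function.Exact f g) :
    (ModuleCat.shortComplexOfCompEqZero f g hfg.linearMap_comp_eq_zero).ShortExact :=
  ModuleCat.shortComplex_shortExact _ hfg hf hg

theorem gldim {S : Type} [CommRing S] [IsLocalRing S] [IsNoetherianRing S] (rs : List S)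
    (reg : IsWeaklyRegular S rs) (hm : Ideal.ofList rs = maximalIdeal S)
    (M : Type) [AddCommGroup M] [Module S M] [Module.Finite S M] :
    HasProjectiveDimensionLT (ModuleCat.of S M) (rs.length + 1) := by
  have hk : HasProjectiveDimensionLT (ModuleCat.of S (S ⧸ maximalIdeal S)) (rs.length + 1) := by
    have h1 := ModuleCat.projectiveDimension_quotient_eq_add_length_of_isWeaklyRegular
      (ModuleCat.of S S) rs reg (fun r hr => hm ▸ Ideal.subset_span hr)
    rw [ModuleCat.projectiveDimension_eq_zero_of_projective (ModuleCat.of S S), zero_add] at h1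
    have h2 := (projectiveDimension_le_iff _ _).mp h1.le
    refine pd_of_equiv (Submodule.quotEquivOfEq _ _ ?_) _ h2
    rw [hm]; simp
  have key : ∀ I : Ideal S, ∀ (N : Type) [AddCommGroup N] [Module S N] [Module.Finite S N],
      I ≤ Module.annihilator S N → HasProjectiveDimensionLT (ModuleCat.of S N) (rs.length + 1) := by
    intro I
    induction I using WellFoundedGT.induction with
    | ind I ih =>
    intro N _ _ hN
    induction hN using IsNoetherianRing.induction_on_isQuotientEquivQuotientPrime S with
    | subsingleton N =>
      intro _
      have : Limits.IsZero (ModuleCat.of S N) := ModuleCat.isZero_of_subsingleton _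
      have := this.hasProjectiveDimensionLT_zero
      exact hasProjectiveDimensionLT_of_ge _ 0 _ (Nat.zero_le _)
    | quotient N p e =>
      intro hI
      refine pd_of_equiv e.symm _ ?_
      have hIp : I ≤ p.1 := by
        rw [e.annihilator_eq, Ideal.annihilator_quotient] at hI
        exact hI
      by_cases hp : p.1 = maximalIdeal S
      · rw [hp]; exact hk
      · have hlt : p.1 < maximalIdeal S := lt_of_le_of_ne (le_maximalIdeal p.2.ne_top) hp
        obtain ⟨x, hxm, hxp⟩ := SetLike.exists_of_lt hlt
        have hreg : IsSMulRegular (S ⧸ p.1) x := by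
          intro a b hab
          obtain ⟨a, rfl⟩ := Ideal.Quotient.mk_surjective a
          obtain ⟨b, rfl⟩ := Ideal.Quotient.mk_surjective b
          have : Ideal.Quotient.mk p.1 (x * a) = Ideal.Quotient.mk p.1 (x * b) := hab
          rw [Ideal.Quotient.eq] at this ⊢
          rw [← mul_sub] at this
          exact (p.2.mem_or_mem this).resolve_left hxp
        have h1 := ModuleCat.projectiveDimension_quotSMulTop_eq_succ_of_isSMulRegular
          (ModuleCat.of S (S ⧸ p.1)) x hreg hxm
        have h2 := ih (p.1 ⊔ Ideal.span {x}) (lt_of_le_of_lt hIp (by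
          refine lt_of_le_of_ne le_sup_left fun h => hxp ?_
          rw [h]; exact Ideal.mem_sup_right (Ideal.subset_span rfl)))
          (QuotSMulTop x (S ⧸ p.1)) (by
            refine sup_le ?_ ?_
            · intro a ha
              rw [Module.mem_annihilator]
              intro m
              obtain ⟨m, rfl⟩ := Submodule.Quotient.mk_surjective _ m
              obtain ⟨m, rfl⟩ := Ideal.Quotient.mk_surjective m
              rw [← Submodule.Quotient.mk_smul]
              have : a • Ideal.Quotient.mk p.1 m = 0 :=
                Ideal.Quotient.eq_zero_iff_mem.mpr (p.1.mul_mem_right m ha)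
              rw [this, Submodule.Quotient.mk_zero]
            · rw [Ideal.span_le, Set.singleton_subset_iff]
              exact QuotSMulTop.mem_annihilator _ x)
        have h3 := (projectiveDimension_le_iff _ _).mpr h2
        refine (projectiveDimension_le_iff _ _).mp (le_trans ?_ (h1 ▸ h3))
        exact le_add_of_nonneg_right zero_le_one
    | exact N₁ N₂ N₃ f g hf hg hfg h₁ h₃ =>
      intro hI
      exact (shortExact_of f g hf hg hfg).hasProjectiveDimensionLT_X₂ _
        (h₁ (hI.trans (f.annihilator_le_of_injective hf)))
        (h₃ (hI.trans (g.annihilator_le_of_surjective hg)))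
  exact key ⊥ M bot_le

end Pool.Agent.P.MP_f43029_ag
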