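import Pool.Agent.P.MP_f43029_ag.CAStab

/-!
Homology of three-term complexes of modules: invariance under homotopy equivalence, flat base
change, and comparison of partially given projective resolutions.
-/

set_option autoImplicit false

namespace Pool.Agent.P.MP_f43029_ag

open TensorProduct

section

variable {S : Type} [CommRing S] {U V W U' V' W' : Type} [AddCommGroup U] [Module S U]
  [AddCommGroup V] [Module S V] [AddCommGroup W] [Module S W] [AddCommGroup U'] [Module S U']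
  [AddCommGroup V'] [Module S V'] [AddCommGroup W'] [Module S W']

/-- `ker f / range g`. -/
abbrev Hml (g : U →ₗ[S] V) (f : V →ₗ[S] W) : Type :=
  LinearMap.ker f ⧸ (LinearMap.range g).submoduleOf (LinearMap.ker f)

/-- Map induced on subquotients. -/
def sqMap {Z B : Submodule S V} {Z' B' : Submodule S V'} (α : V →ₗ[S] V')
    (hZ : ∀ v ∈ Z, α v ∈ Z') (hB : ∀ v ∈ B, α v ∈ B') :
    (Z ⧸ B.submoduleOf Z) →ₗ[S] (Z' ⧸ B'.submoduleOf Z') :=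
  Submodule.mapQ _ _ (α.restrict hZ) fun v hv => hB v hv

theorem sq_equiv {Z B : Submodule S V} {Z' B' : Submodule S V'} (α : V →ₗ[S] V')
    (hZ : ∀ v ∈ Z, α v ∈ Z') (hB : ∀ v ∈ B, α v ∈ B')
    (hinj : ∀ v ∈ Z, α v ∈ B' → v ∈ B) (hsurj : ∀ v' ∈ Z', ∃ v ∈ Z, α v - v' ∈ B') :
    Nonempty ((Z ⧸ B.submoduleOf Z) ≃ₗ[S] (Z' ⧸ B'.submoduleOf Z')) := by
  refine ⟨LinearEquiv.ofBijective (sqMap α hZ hB) ⟨?_, ?_⟩⟩
  · rw [injective_iff_map_eq_zero]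
    intro x hx
    obtain ⟨x, rfl⟩ := Submodule.Quotient.mk_surjective _ x
    rw [sqMap, Submodule.mapQ_apply, Submodule.Quotient.mk_eq_zero] at hx
    exact (Submodule.Quotient.mk_eq_zero _).mpr (hinj x x.2 hx)
  · intro y
    obtain ⟨y, rfl⟩ := Submodule.Quotient.mk_surjective _ y
    obtain ⟨v, hv, h⟩ := hsurj y y.2
    refine ⟨Submodule.Quotient.mk ⟨v, hv⟩, ?_⟩
    rw [sqMap, Submodule.mapQ_apply, Submodule.Quotient.eq]
    exact h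

theorem hml_equiv_of_homotopy {g : U →ₗ[S] V} {f : V →ₗ[S] W} {g' : U' →ₗ[S] V'} {f' : V' →ₗ[S] W'}
    (α₂ : U →ₗ[S] U') (α₁ : V →ₗ[S] V') (α₀ : W →ₗ[S] W')
    (β₂ : U' →ₗ[S] U) (β₁ : V' →ₗ[S] V) (β₀ : W' →ₗ[S] W)
    (h₁ : α₁ ∘ₗ g = g' ∘ₗ α₂) (h₂ : α₀ ∘ₗ f = f' ∘ₗ α₁)
    (h₃ : β₁ ∘ₗ g' = g ∘ₗ β₂) (h₄ : β₀ ∘ₗ f' = f ∘ₗ β₁)
    (s : V →ₗ[S] U) (s' : W →ₗ[S] V) (hs : β₁ ∘ₗ α₁ - LinearMap.id = g ∘ₗ s + s' ∘ₗ f)
    (t : V' →ₗ[S] U') (t' : W' →ₗ[S] V') (ht : α₁ ∘ₗ β₁ - LinearMap.id = g' ∘ₗ t + t' ∘ₗ f') :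
    Nonempty (Hml g f ≃ₗ[S] Hml g' f') := by
  refine sq_equiv α₁ (fun v hv => ?_) ?_ (fun v hv h => ?_) (fun v hv => ⟨β₁ v, ?_, ?_⟩)
  · have := LinearMap.congr_fun h₂ v
    simp only [LinearMap.comp_apply, LinearMap.mem_ker] at this hv ⊢
    rw [← this, hv, map_zero]
  · rintro _ ⟨u, rfl⟩
    exact ⟨α₂ u, (LinearMap.congr_fun h₁ u).symm⟩
  · obtain ⟨u, hu⟩ := h
    have h5 := LinearMap.congr_fun hs v
    have h6 := LinearMap.congr_fun h₃ u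
    simp only [LinearMap.comp_apply, LinearMap.mem_ker, LinearMap.sub_apply, LinearMap.add_apply,
      LinearMap.id_apply] at h5 h6 hv
    rw [hv, map_zero, add_zero, ← hu, h6] at h5
    exact ⟨β₂ u - s v, by rw [map_sub, ← h5, sub_sub_cancel]⟩
  · have := LinearMap.congr_fun h₄ v
    simp only [LinearMap.comp_apply, LinearMap.mem_ker] at this hv ⊢
    rw [← this, hv, map_zero]
  · have h5 := LinearMap.congr_fun ht v
    simp only [LinearMap.comp_apply, LinearMap.mem_ker, LinearMap.sub_apply, LinearMap.add_apply,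
      LinearMap.id_apply] at h5 hv
    rw [hv, map_zero, add_zero] at h5
    exact ⟨t v, h5.symm⟩

theorem hml_congr {g : U →ₗ[S] V} {f : V →ₗ[S] W} {g' : U' →ₗ[S] V'} {f' : V' →ₗ[S] W'}
    (α₂ : U ≃ₗ[S] U') (α₁ : V ≃ₗ[S] V') (α₀ : W ≃ₗ[S] W')
    (h₁ : ∀ u, α₁ (g u) = g' (α₂ u)) (h₂ : ∀ v, α₀ (f v) = f' (α₁ v)) :
    Nonempty (Hml g f ≃ₗ[S] Hml g' f') := by
  refine sq_equiv α₁.toLinearMap (fun v hv => ?_) ?_ (fun v _ h => ?_)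
    (fun v hv => ⟨α₁.symm v, ?_, by simp⟩)
  · simp only [LinearMap.mem_ker, LinearEquiv.coe_coe] at hv ⊢
    rw [← h₂, hv, map_zero]
  · rintro _ ⟨u, rfl⟩
    exact ⟨α₂ u, (h₁ u).symm⟩
  · obtain ⟨u, hu⟩ := h
    refine ⟨α₂.symm u, α₁.injective ?_⟩
    rw [h₁, LinearEquiv.apply_symm_apply, hu]; rfl
  · simp only [LinearMap.mem_ker] at hv ⊢
    apply α₀.injective
    rw [h₂, LinearEquiv.apply_symm_apply, hv, map_zero]

theorem hml_baseChange (B : Type) [CommRing B] [Algebra S B] [Module.Flat S B]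
    (g : U →ₗ[S] V) (f : V →ₗ[S] W) (hfg : f ∘ₗ g = 0) :
    Nonempty (B ⊗[S] Hml g f ≃ₗ[B] Hml (g.baseChange B) (f.baseChange B)) := by
  let g' : U →ₗ[S] LinearMap.ker f := g.codRestrict _ fun u => LinearMap.congr_fun hfg u
  let π : LinearMap.ker f →ₗ[S] Hml g f := Submodule.mkQ _
  have hπ : Function.Exact g' π := by
    intro x
    constructor
    · intro hx
      obtain ⟨u, hu⟩ := (Submodule.Quotient.mk_eq_zero _).mp hx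
      exact ⟨u, Subtype.ext hu⟩
    · rintro ⟨u, rfl⟩
      exact (Submodule.Quotient.mk_eq_zero _).mpr ⟨u, rfl⟩
  have h1 : Function.Exact (g'.baseChange B) (π.baseChange B) :=
    lTensor_exact B hπ (Submodule.mkQ_surjective _)
  have h2 : Function.Surjective (π.baseChange B) :=
    LinearMap.lTensor_surjective B (Submodule.mkQ_surjective _)
  have h3 : Function.Injective ((LinearMap.ker f).subtype.baseChange B) :=
    Module.Flat.lTensor_preserves_injective_linearMap _ (Submodule.subtype_injective _)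
  have h4 : Function.Exact ((LinearMap.ker f).subtype.baseChange B) (f.baseChange B) :=
    Module.Flat.lTensor_exact B (LinearMap.exact_subtype_ker_map f)
  have h5 : ∀ u, (LinearMap.ker f).subtype.baseChange B (g'.baseChange B u) = g.baseChange B u := by
    intro u
    rw [← LinearMap.comp_apply, ← LinearMap.baseChange_comp]; rfl
  let j : B ⊗[S] LinearMap.ker f →ₗ[B] Hml (g.baseChange B) (f.baseChange B) :=
    Submodule.mkQ _ ∘ₗ ((LinearMap.ker f).subtype.baseChange B).codRestrict _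
      fun x => h4.apply_apply_eq_zero x
  have hj : Function.Surjective j := by
    intro y
    obtain ⟨y, rfl⟩ := Submodule.Quotient.mk_surjective _ y
    obtain ⟨x, hx⟩ := (h4 y.1).mp y.2
    exact ⟨x, congrArg Submodule.Quotient.mk (Subtype.ext hx)⟩
  have hk : LinearMap.ker (π.baseChange B) = LinearMap.ker j := by
    ext x
    rw [LinearMap.mem_ker, h1 x, LinearMap.mem_ker]
    constructor
    · rintro ⟨u, rfl⟩
      exact (Submodule.Quotient.mk_eq_zero _).mpr ⟨u, (h5 u).symm⟩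
    · intro hx
      obtain ⟨u, hu⟩ := (Submodule.Quotient.mk_eq_zero _).mp hx
      exact ⟨u, h3 ((h5 u).trans hu)⟩
  exact ⟨((π.baseChange B).quotKerEquivOfSurjective h2).symm ≪≫ₗ Submodule.quotEquivOfEq _ _ hk ≪≫ₗ
    j.quotKerEquivOfSurjective hj⟩

theorem lift_of_exact [Module.Projective S U] {g' : U' →ₗ[S] V'} {f' : V' →ₗ[S] W'}
    (hex : Function.Exact g' f') (h : U →ₗ[S] V') (hh : f' ∘ₗ h = 0) :
    ∃ l : U →ₗ[S] U', g' ∘ₗ l = h := by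
  obtain ⟨l, hl⟩ := Module.projective_lifting_property g'.rangeRestrict
    (h.codRestrict _ fun u => (hex _).mp (LinearMap.congr_fun hh u)) g'.surjective_rangeRestrict
  exact ⟨l, LinearMap.ext fun u => congrArg Subtype.val (LinearMap.congr_fun hl u)⟩

end

/-- The first four terms of a projective resolution. -/
structure IsRes {S : Type} [CommRing S] {N P₀ P₁ P₂ P₃ : Type} [AddCommGroup N] [Module S N]
    [AddCommGroup P₀] [Module S P₀] [AddCommGroup P₁] [Module S P₁] [AddCommGroup P₂] [Module S P₂]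
    [AddCommGroup P₃] [Module S P₃] (π : P₀ →ₗ[S] N) (d₁ : P₁ →ₗ[S] P₀) (d₂ : P₂ →ₗ[S] P₁)
    (d₃ : P₃ →ₗ[S] P₂) : Prop where
  p₀ : Module.Projective S P₀
  p₁ : Module.Projective S P₁
  p₂ : Module.Projective S P₂
  p₃ : Module.Projective S P₃
  surj : Function.Surjective π
  e₀ : Function.Exact d₁ π
  e₁ : Function.Exact d₂ d₁
  e₂ : Function.Exact d₃ d₂

section

variable {S : Type} [CommRing S] {N P₀ P₁ P₂ P₃ Q₀ Q₁ Q₂ Q₃ : Type} [AddCommGroup N] [Module S N]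
  [AddCommGroup P₀] [Module S P₀] [AddCommGroup P₁] [Module S P₁] [AddCommGroup P₂] [Module S P₂]
  [AddCommGroup P₃] [Module S P₃] [AddCommGroup Q₀] [Module S Q₀] [AddCommGroup Q₁] [Module S Q₁]
  [AddCommGroup Q₂] [Module S Q₂] [AddCommGroup Q₃] [Module S Q₃]
  {π : P₀ →ₗ[S] N} {d₁ : P₁ →ₗ[S] P₀} {d₂ : P₂ →ₗ[S] P₁} {d₃ : P₃ →ₗ[S] P₂}
  {ρ : Q₀ →ₗ[S] N} {e₁ : Q₁ →ₗ[S] Q₀} {e₂ : Q₂ →ₗ[S] Q₁} {e₃ : Q₃ →ₗ[S] Q₂}

theorem IsRes.exists_map (hP : IsRes π d₁ d₂ d₃) (hQ : IsRes ρ e₁ e₂ e₃) :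
    ∃ (α₀ : P₀ →ₗ[S] Q₀) (α₁ : P₁ →ₗ[S] Q₁) (α₂ : P₂ →ₗ[S] Q₂) (α₃ : P₃ →ₗ[S] Q₃),
      ρ ∘ₗ α₀ = π ∧ α₀ ∘ₗ d₁ = e₁ ∘ₗ α₁ ∧ α₁ ∘ₗ d₂ = e₂ ∘ₗ α₂ ∧ α₂ ∘ₗ d₃ = e₃ ∘ₗ α₃ := by
  have := hP.p₀; have := hP.p₁; have := hP.p₂; have := hP.p₃
  obtain ⟨α₀, h₀⟩ := Module.projective_lifting_property ρ π hQ.surj
  obtain ⟨α₁, h₁⟩ := lift_of_exact hQ.e₀ (α₀ ∘ₗ d₁) (by
    rw [← LinearMap.comp_assoc, h₀, hP.e₀.linearMap_comp_eq_zero])
  obtain ⟨α₂, h₂⟩ := lift_of_exact hQ.e₁ (α₁ ∘ₗ d₂) (by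
    rw [← LinearMap.comp_assoc, h₁, LinearMap.comp_assoc, hP.e₁.linearMap_comp_eq_zero,
      LinearMap.comp_zero])
  obtain ⟨α₃, h₃⟩ := lift_of_exact hQ.e₂ (α₂ ∘ₗ d₃) (by
    rw [← LinearMap.comp_assoc, h₂, LinearMap.comp_assoc, hP.e₂.linearMap_comp_eq_zero,
      LinearMap.comp_zero])
  exact ⟨α₀, α₁, α₂, α₃, h₀, h₁.symm, h₂.symm, h₃.symm⟩

theorem IsRes.exists_homotopy (hP : IsRes π d₁ d₂ d₃) {γ₀ : P₀ →ₗ[S] P₀} {γ₁ : P₁ →ₗ[S] P₁}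
    {γ₂ : P₂ →ₗ[S] P₂} (h₀ : π ∘ₗ γ₀ = π) (h₁ : γ₀ ∘ₗ d₁ = d₁ ∘ₗ γ₁) (h₂ : γ₁ ∘ₗ d₂ = d₂ ∘ₗ γ₂) :
    ∃ (s₀ : P₀ →ₗ[S] P₁) (s₁ : P₁ →ₗ[S] P₂) (s₂ : P₂ →ₗ[S] P₃),
      γ₁ - LinearMap.id = d₂ ∘ₗ s₁ + s₀ ∘ₗ d₁ ∧ γ₂ - LinearMap.id = d₃ ∘ₗ s₂ + s₁ ∘ₗ d₂ := by
  have := hP.p₀; have := hP.p₁; have := hP.p₂
  obtain ⟨s₀, k₀⟩ := lift_of_exact hP.e₀ (γ₀ - LinearMap.id) (by
    rw [LinearMap.comp_sub, h₀, LinearMap.comp_id, sub_self])
  obtain ⟨s₁, k₁⟩ := lift_of_exact hP.e₁ (γ₁ - LinearMap.id - s₀ ∘ₗ d₁) (by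
    rw [LinearMap.comp_sub, LinearMap.comp_sub, ← h₁, ← LinearMap.comp_assoc, k₀,
      LinearMap.sub_comp, LinearMap.comp_id, LinearMap.id_comp, sub_self])
  obtain ⟨s₂, k₂⟩ := lift_of_exact hP.e₂ (γ₂ - LinearMap.id - s₁ ∘ₗ d₂) (by
    rw [LinearMap.comp_sub, LinearMap.comp_sub, ← h₂, ← LinearMap.comp_assoc, k₁,
      LinearMap.sub_comp, LinearMap.sub_comp, LinearMap.comp_id, LinearMap.id_comp,
      LinearMap.comp_assoc, hP.e₁.linearMap_comp_eq_zero, LinearMap.comp_zero, sub_zero, sub_self])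
  exact ⟨s₀, s₁, s₂, by rw [k₁, sub_add_cancel], by rw [k₂, sub_add_cancel]⟩

theorem IsRes.hml_equiv (hP : IsRes π d₁ d₂ d₃) (hQ : IsRes ρ e₁ e₂ e₃) (X : Type)
    [AddCommGroup X] [Module S X] :
    Nonempty (Hml (d₂.lTensor X) (d₁.lTensor X) ≃ₗ[S] Hml (e₂.lTensor X) (e₁.lTensor X)) ∧
    Nonempty (Hml (d₃.lTensor X) (d₂.lTensor X) ≃ₗ[S] Hml (e₃.lTensor X) (e₂.lTensor X)) := by
  obtain ⟨α₀, α₁, α₂, α₃, a₀, a₁, a₂, a₃⟩ := hP.exists_map hQ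
  obtain ⟨β₀, β₁, β₂, β₃, b₀, b₁, b₂, b₃⟩ := hQ.exists_map hP
  obtain ⟨s₀, s₁, s₂, hs₁, hs₂⟩ := hP.exists_homotopy (γ₀ := β₀ ∘ₗ α₀) (γ₁ := β₁ ∘ₗ α₁)
    (γ₂ := β₂ ∘ₗ α₂) (by rw [← LinearMap.comp_assoc, b₀, a₀])
    (by rw [LinearMap.comp_assoc, a₁, ← LinearMap.comp_assoc, b₁, LinearMap.comp_assoc])
    (by rw [LinearMap.comp_assoc, a₂, ← LinearMap.comp_assoc, b₂, LinearMap.comp_assoc])
  obtain ⟨t₀, t₁, t₂, ht₁, ht₂⟩ := hQ.exists_homotopy (γ₀ := α₀ ∘ₗ β₀) (γ₁ := α₁ ∘ₗ β₁)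
    (γ₂ := α₂ ∘ₗ β₂) (by rw [← LinearMap.comp_assoc, a₀, b₀])
    (by rw [LinearMap.comp_assoc, b₁, ← LinearMap.comp_assoc, a₁, LinearMap.comp_assoc])
    (by rw [LinearMap.comp_assoc, b₂, ← LinearMap.comp_assoc, a₂, LinearMap.comp_assoc])
  constructor
  · refine hml_equiv_of_homotopy (α₂.lTensor X) (α₁.lTensor X) (α₀.lTensor X) (β₂.lTensor X)
      (β₁.lTensor X) (β₀.lTensor X) ?_ ?_ ?_ ?_ (s₁.lTensor X) (s₀.lTensor X) ?_ (t₁.lTensor X)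
      (t₀.lTensor X) ?_ <;>
    simp only [← LinearMap.lTensor_comp, ← LinearMap.lTensor_id X, ← LinearMap.lTensor_sub,
      ← LinearMap.lTensor_add, a₁, a₂, b₁, b₂, hs₁, ht₁]
  · refine hml_equiv_of_homotopy (α₃.lTensor X) (α₂.lTensor X) (α₁.lTensor X) (β₃.lTensor X)
      (β₂.lTensor X) (β₁.lTensor X) ?_ ?_ ?_ ?_ (s₂.lTensor X) (s₁.lTensor X) ?_ (t₂.lTensor X)
      (t₁.lTensor X) ?_ <;>
    simp only [← LinearMap.lTensor_comp, ← LinearMap.lTensor_id X, ← LinearMap.lTensor_sub,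
      ← LinearMap.lTensor_add, a₃, a₂, b₃, b₂, hs₂, ht₂]

theorem IsRes.baseChange (hP : IsRes π d₁ d₂ d₃) (B : Type) [CommRing B] [Algebra S B]
    [Module.Flat S B] :
    IsRes (π.baseChange B) (d₁.baseChange B) (d₂.baseChange B) (d₃.baseChange B) :=
  have := hP.p₀; have := hP.p₁; have := hP.p₂; have := hP.p₃
  ⟨inferInstance, inferInstance, inferInstance, inferInstance,
    LinearMap.lTensor_surjective B hP.surj, Module.Flat.lTensor_exact B hP.e₀,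
    Module.Flat.lTensor_exact B hP.e₁, Module.Flat.lTensor_exact B hP.e₂⟩

end

end Pool.Agent.P.MP_f43029_ag
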