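import Pool.Agent.P.MP_f43029_ag.CAPow

/-!
A maximal Cohen-Macaulay module over `R / (f)` is the cokernel of a matrix factorization of `f`,
and an element whose action factors through the free cover acts null-homotopically on it.
-/

set_option autoImplicit false

namespace Pool.Agent.P.MP_f43029_ag

open CategoryTheory IsLocalRing RingTheory.Sequence Matrix

theorem exists_mf_of_pd {R : Type} [CommRing R] [IsDomain R] [IsLocalRing R] [IsNoetherianRing R]
    (f : R) (hf : f ≠ 0) (L : Type) [AddCommGroup L] [Module R L] [Module.Finite R L]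
    (hfL : ∀ y : L, f • y = 0) (hpd : HasProjectiveDimensionLT (ModuleCat.of R L) 2) :
    ∃ (r : ℕ) (a b : Matrix (Fin r) (Fin r) R) (q : (Fin r → R) →ₗ[R] L),
      a * b = f • (1 : Matrix (Fin r) (Fin r) R) ∧ b * a = f • (1 : Matrix (Fin r) (Fin r) R) ∧
      Function.Surjective q ∧ LinearMap.ker q = LinearMap.range a.mulVecLin := by
  obtain ⟨r, q, hq⟩ := Module.Finite.exists_fin' R L
  have hS := shortExact_of (LinearMap.ker q).subtype q (Submodule.subtype_injective _) hq
    (LinearMap.exact_subtype_ker_map q)
  have h1 : HasProjectiveDimensionLT (ModuleCat.of R (LinearMap.ker q)) 1 :=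
    (hS.hasProjectiveDimensionLT_X₃_iff 0
      (inferInstanceAs (Projective (ModuleCat.of R (Fin r → R))))).mp hpd
  have h2 : Module.Projective R (LinearMap.ker q) :=
    (IsProjective.iff_projective (R := R) (LinearMap.ker q)).mpr
      (projective_iff_hasProjectiveDimensionLT_one.mpr h1)
  have h3 : Module.Free R (LinearMap.ker q) := Module.free_of_flat_of_isLocalRing
  let m : (Fin r → R) →ₗ[R] LinearMap.ker q :=
    LinearMap.codRestrict _ (f • LinearMap.id) fun v => by simp [hfL]
  have hm : Function.Injective m := by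
    intro u v huv
    have : f • u = f • v := congrArg Subtype.val huv
    exact smul_right_injective _ hf this
  have hr : Module.finrank R (LinearMap.ker q) = r := by
    refine le_antisymm ?_ ?_
    · simpa using LinearMap.finrank_le_finrank_of_injective
        (Submodule.subtype_injective (LinearMap.ker q))
    · simpa using LinearMap.finrank_le_finrank_of_injective hm
  let β := Module.finBasisOfFinrankEq R (LinearMap.ker q) hr
  let α : (Fin r → R) →ₗ[R] (Fin r → R) :=
    (LinearMap.ker q).subtype ∘ₗ β.equivFun.symm.toLinearMap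
  let γ : (Fin r → R) →ₗ[R] (Fin r → R) := β.equivFun.toLinearMap ∘ₗ m
  have hαγ : α ∘ₗ γ = f • LinearMap.id := by
    refine LinearMap.ext fun v => ?_
    simp only [α, γ, LinearMap.comp_apply, LinearEquiv.coe_coe, LinearEquiv.symm_apply_apply]
    rfl
  have hα : Function.Injective α := (Submodule.subtype_injective _).comp β.equivFun.symm.injective
  have hγα : γ ∘ₗ α = f • LinearMap.id := by
    refine LinearMap.ext fun v => hα ?_
    have := LinearMap.congr_fun hαγ (α v)
    simpa using this
  refine ⟨r, LinearMap.toMatrix' α, LinearMap.toMatrix' γ, q, ?_, ?_, hq, ?_⟩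
  · rw [← LinearMap.toMatrix'_comp, hαγ, map_smul, LinearMap.toMatrix'_id]
  · rw [← LinearMap.toMatrix'_comp, hγα, map_smul, LinearMap.toMatrix'_id]
  · rw [← Matrix.toLin'_apply', Matrix.toLin'_toMatrix']
    simp only [α]
    rw [LinearMap.range_comp, LinearEquiv.range, Submodule.map_top, Submodule.range_subtype]

theorem pd_of_mcm {k : Type} [Field k] {D : ℕ} (L : Type) [AddCommGroup L]
    [Module (MvPowerSeries (Fin D) k) L] [Module.Finite (MvPowerSeries (Fin D) k) L]
    (rs : List (MvPowerSeries (Fin D) k)) (reg : IsWeaklyRegular L rs)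
    (hmem : ∀ r ∈ rs, r ∈ maximalIdeal (MvPowerSeries (Fin D) k)) (hlen : rs.length + 1 = D) :
    HasProjectiveDimensionLT (ModuleCat.of (MvPowerSeries (Fin D) k) L) 2 := by
  rcases subsingleton_or_nontrivial L with h | h
  · have : Limits.IsZero (ModuleCat.of (MvPowerSeries (Fin D) k) L) :=
      ModuleCat.isZero_of_subsingleton _
    have := this.hasProjectiveDimensionLT_zero
    exact hasProjectiveDimensionLT_of_ge _ 0 _ (Nat.zero_le _)
  · have h1 := ModuleCat.projectiveDimension_quotient_eq_add_length_of_isWeaklyRegular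
      (ModuleCat.of (MvPowerSeries (Fin D) k) L) rs reg hmem
    have h2 := (projectiveDimension_le_iff _ _).mpr
      (pd_pow (k := k) (n := D) (L ⧸ Ideal.ofList rs • (⊤ : Submodule (MvPowerSeries (Fin D) k) L)))
    rw [h1] at h2
    refine (projectiveDimension_le_iff _ 1).mp ?_
    refine (ENat.WithBot.add_le_add_natCast_right_iff (c := rs.length)).mp (h2.trans ?_)
    rw [← Nat.cast_add]
    exact_mod_cast (by omega)

/-- If multiplication by `u` on `coker a` lifts to the free cover modulo `f`, then `u` is
null-homotopic on the matrix factorization. -/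
theorem homotopy_of_lift {R : Type} [CommRing R] [IsDomain R] {r : ℕ} {f u : R} (hf : f ≠ 0)
    {a b G : Matrix (Fin r) (Fin r) R} (hab : a * b = f • (1 : Matrix (Fin r) (Fin r) R))
    (hba : b * a = f • (1 : Matrix (Fin r) (Fin r) R))
    (h1 : ∃ p : Matrix (Fin r) (Fin r) R, G * a = f • p)
    (h2 : ∃ q : Matrix (Fin r) (Fin r) R, u • (1 : Matrix (Fin r) (Fin r) R) - G = a * q) :
    ∃ p q : Matrix (Fin r) (Fin r) R, a * q + p * b = u • (1 : Matrix (Fin r) (Fin r) R) ∧
      b * p + q * a = u • (1 : Matrix (Fin r) (Fin r) R) := by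
  obtain ⟨p, hp⟩ := h1
  obtain ⟨q, hq⟩ := h2
  have hG : G = p * b := by
    refine smul_right_injective _ hf ?_
    have := congrArg (· * b) hp
    simp only [Matrix.mul_assoc, hab, Matrix.mul_smul, Matrix.mul_one, Matrix.smul_mul] at this
    exact this
  have h3 : a * q + p * b = u • (1 : Matrix (Fin r) (Fin r) R) := by
    rw [← hq, ← hG, sub_add_cancel]
  refine ⟨p, q, h3, smul_right_injective _ hf ?_⟩
  have := congrArg (fun X => b * X * a) h3
  simp only [Matrix.mul_add, Matrix.add_mul, Matrix.mul_smul, Matrix.smul_mul, Matrix.mul_one,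
    hba] at this
  rw [← Matrix.mul_assoc b a q, hba, Matrix.mul_assoc b, Matrix.mul_assoc p, hba] at this
  simp only [Matrix.mul_smul, Matrix.smul_mul, Matrix.mul_one, Matrix.one_mul] at this
  simp only [smul_add]
  rw [add_comm, this, smul_comm]

end Pool.Agent.P.MP_f43029_ag
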