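import Pool.Agent.P.MP_f43029_ag.CABlock

/-!
Reduction of the duality for the theta function to the theorem on matrix factorizations.
-/

set_option autoImplicit false

namespace Pool.Agent.P.MP_f43029_ag

open Matrix IsLocalRing TensorProduct RingTheory.Sequence

section

variable {A B k : Type} [CommRing A] [CommRing B] [Field k] [IsLocalRing A] [IsLocalRing B]
  [IsNoetherianRing A] [IsNoetherianRing B] [Algebra A B] [Module.Flat A B] {D : ℕ}
  [Algebra (MvPowerSeries (Fin D) k) B] {f : MvPowerSeries (Fin D) k}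

theorem dim_succ (hf : f ≠ 0) (hm : (maximalIdeal A).map (algebraMap A B) = maximalIdeal B)
    (hs : Function.Surjective (algebraMap (MvPowerSeries (Fin D) k) B))
    (hk : ∀ x, algebraMap (MvPowerSeries (Fin D) k) B x = 0 ↔ f ∣ x) :
    ringKrullDim A + 1 = D := by
  have h1 : RingHom.ker (algebraMap (MvPowerSeries (Fin D) k) B) = Ideal.span {f} := by
    ext x
    rw [RingHom.mem_ker, hk, Ideal.mem_span_singleton]
  have hfm : f ∈ maximalIdeal (MvPowerSeries (Fin D) k) := by
    intro hu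
    have := hu.map (algebraMap (MvPowerSeries (Fin D) k) B)
    rw [(hk f).mpr dvd_rfl] at this
    exact not_isUnit_zero this
  rw [dim_eq_of_flat hm, ← ringKrullDim_eq_of_ringEquiv (RingHom.quotientKerEquivOfSurjective hs),
    h1, ringKrullDim_quotient_span_singleton_succ_eq_ringKrullDim_of_mem_nonZeroDivisors
      (mem_nonZeroDivisors_of_ne_zero hf) hfm, dim_pow]

theorem mcm_data (hf : f ≠ 0) (hm : (maximalIdeal A).map (algebraMap A B) = maximalIdeal B)
    (hs : Function.Surjective (algebraMap (MvPowerSeries (Fin D) k) B))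
    (hk : ∀ x, algebraMap (MvPowerSeries (Fin D) k) B x = 0 ↔ f ∣ x)
    (hiso : ∀ (p : Ideal A) [p.IsPrime], p ≠ maximalIdeal A →
      IsRegularLocalRing (Localization.AtPrime p))
    (M : Type) [AddCommGroup M] [Module A M] (hM : IsMCM A M) :
    ∃ (r : ℕ) (a b : Matrix (Fin r) (Fin r) (MvPowerSeries (Fin D) k))
      (q : (Fin r → B) →ₗ[B] B ⊗[A] M) (N : ℕ),
      a * b = f • (1 : Matrix (Fin r) (Fin r) (MvPowerSeries (Fin D) k)) ∧
      b * a = f • (1 : Matrix (Fin r) (Fin r) (MvPowerSeries (Fin D) k)) ∧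
      Function.Surjective q ∧
      Function.Exact (a.map (algebraMap (MvPowerSeries (Fin D) k) B)).mulVecLin q ∧
      ∀ j, ∃ p p' : Matrix (Fin r) (Fin r) (MvPowerSeries (Fin D) k),
        a * p' + p * b = (MvPowerSeries.X j : MvPowerSeries (Fin D) k) ^ N •
          (1 : Matrix (Fin r) (Fin r) (MvPowerSeries (Fin D) k)) ∧
        b * p + p' * a = (MvPowerSeries.X j : MvPowerSeries (Fin D) k) ^ N •
          (1 : Matrix (Fin r) (Fin r) (MvPowerSeries (Fin D) k)) := by
  have : IsDomain (MvPowerSeries (Fin D) k) := NoZeroDivisors.to_isDomain _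
  obtain ⟨hfin, rs, hlen, hmem, hreg⟩ := hM
  obtain ⟨Y, _, _, _, _, ⟨φ⟩⟩ := exists_model (MvPowerSeries (Fin D) k) B (B ⊗[A] M)
  have : Module.Finite B Y := Module.Finite.equiv φ
  have : Module.Finite (MvPowerSeries (Fin D) k) B :=
    Module.Finite.of_surjective (Algebra.linearMap (MvPowerSeries (Fin D) k) B) hs
  have : Module.Finite (MvPowerSeries (Fin D) k) Y := Module.Finite.trans B Y
  obtain ⟨rs', hrs'⟩ := List.map_surjective_iff.mpr hs (rs.map (algebraMap A B))
  have hreg' : IsWeaklyRegular Y rs' := by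
    rw [← isWeaklyRegular_map_algebraMap_iff B, hrs', ← φ.isWeaklyRegular_congr]
    exact IsWeaklyRegular.of_flat_of_isBaseChange (TensorProduct.isBaseChange A M B) hreg
  have hmem' : ∀ x ∈ rs', x ∈ maximalIdeal (MvPowerSeries (Fin D) k) := by
    intro x hx hu
    have h1 : algebraMap (MvPowerSeries (Fin D) k) B x ∈ rs.map (algebraMap A B) :=
      hrs' ▸ List.mem_map_of_mem hx
    obtain ⟨y, hy, h2⟩ := List.mem_map.mp h1
    have h3 : algebraMap A B y ∈ maximalIdeal B := hm ▸ Ideal.mem_map_of_mem _ (hmem y hy)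
    rw [h2] at h3
    exact h3 (hu.map _)
  have hD := dim_succ hf hm hs hk
  have hlen' : rs'.length + 1 = D := by
    have h1 := congrArg List.length hrs'
    rw [List.length_map, List.length_map] at h1
    rw [← hlen, ← h1] at hD
    exact_mod_cast hD
  obtain ⟨r, a, b, q, hab, hba, hq, hker⟩ := exists_mf_of_pd f hf Y
    (fun y => by rw [← algebraMap_smul B, (hk f).mpr dvd_rfl, zero_smul])
    (pd_of_mcm Y rs' hreg' hmem' hlen')
  obtain ⟨q', -, hq', hex⟩ := cover_toB hs q hq hker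
  have hq'' : Function.Surjective (φ.symm.toLinearMap ∘ₗ q') := φ.symm.surjective.comp hq'
  have hex' : Function.Exact (a.map (algebraMap (MvPowerSeries (Fin D) k) B)).mulVecLin
      (φ.symm.toLinearMap ∘ₗ q') := LinearEquiv.postcomp_exact_iff_exact.mpr hex
  obtain ⟨N, hN⟩ := exists_pow_extAnn_of_isolated B (2 * rs.length)
    (by rw [← hlen]; exact_mod_cast (by omega)) hiso M
  refine ⟨r, a, b, _, N, hab, hba, hq'', hex', fun j => ?_⟩
  refine homotopy_of_extAnn hf hs hk hab hba _ hq'' hex' rs.length (hN _ ?_)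
  rw [Ideal.map_pow, hm, map_pow]
  refine Ideal.pow_mem_pow ?_ N
  rw [← map_maximalIdeal_of_surjective _ hs]
  exact Ideal.mem_map_of_mem _ ((mem_max_iff _).mpr (MvPowerSeries.constantCoeff_X j))

theorem core (H : MFThm) (hD₀ : 0 < D) (hf : f ≠ 0)
    (hm : (maximalIdeal A).map (algebraMap A B) = maximalIdeal B)
    (hs : Function.Surjective (algebraMap (MvPowerSeries (Fin D) k) B))
    (hk : ∀ x, algebraMap (MvPowerSeries (Fin D) k) B x = 0 ↔ f ∣ x)
    (hiso : ∀ (p : Ideal A) [p.IsPrime], p ≠ maximalIdeal A →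
      IsRegularLocalRing (Localization.AtPrime p))
    (M N : ModuleCat.{0} A) (hM : IsMCM A M) (hN : IsMCM A N) :
    (Even D → theta A M N + (-1) ^ (D / 2) * theta A (ModuleCat.of A (Module.Dual A M)) N = 0) ∧
    (Odd D → theta A M N = 0 ∧ theta A (ModuleCat.of A (Module.Dual A M)) N = 0) := by
  have : IsDomain (MvPowerSeries (Fin D) k) := NoZeroDivisors.to_isDomain _
  obtain ⟨r, a, b, q, N₁, hab, hba, hq, hex, h₁⟩ := mcm_data hf hm hs hk hiso M hM
  obtain ⟨n, c, e, ρ, N₂, hce, hec, hρ, hρc, h₂⟩ := mcm_data hf hm hs hk hiso N hN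
  have hE := (blocks_obj hab hba h₁).mono (le_max_left N₁ N₂)
  have hF := (blocks_obj (f := -f) (a := c) (b := -e) (N := N₂) (x := fun j => MvPowerSeries.X j)
    (by rw [Matrix.mul_neg, hce, neg_smul]) (by rw [Matrix.neg_mul, hec, neg_smul]) (fun j => by
      obtain ⟨p, p', h₃, h₄⟩ := h₂ j
      exact ⟨-p, p', by rw [neg_mul_neg, h₃], by rw [neg_mul_neg, h₄]⟩)).mono (le_max_right N₁ N₂)
  have hab' : aᵀ * bᵀ = f • (1 : Matrix (Fin r) (Fin r) (MvPowerSeries (Fin D) k)) := by
    rw [← transpose_mul, hba, transpose_smul, transpose_one]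
  have hba' : bᵀ * aᵀ = f • (1 : Matrix (Fin r) (Fin r) (MvPowerSeries (Fin D) k)) := by
    rw [← transpose_mul, hab, transpose_smul, transpose_one]
  obtain ⟨q', hq', hex'⟩ := dual_cover (exact_bar hf hs hk hba hab)
    (exact_bar hf hs hk hba' hab') (exact_bar hf hs hk hab' hba') q hq hex
  have := hM.1
  have : Module.FinitePresentation A M := Module.finitePresentation_of_finite A M
  let ψ : B ⊗[A] Module.Dual A M ≃ₗ[B] Module.Dual B (B ⊗[A] M) :=
    (Module.FinitePresentation.isBaseChange_map A M A B).equiv ≪≫ₗ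
      LinearEquiv.congrRight (AlgebraTensorModule.rid A B B)
  have t₁ := (theta_eq_chi hf hm hs hk M N hab hba hce hec q hq hex ρ hρ hρc).1
  have t₂ := (theta_eq_chi hf hm hs hk (ModuleCat.of A (Module.Dual A M)) N hab' hba' hce hec
    (ψ.symm.toLinearMap ∘ₗ q') (ψ.symm.surjective.comp hq')
    (LinearEquiv.postcomp_exact_iff_exact.mpr hex') ρ hρ hρc).2
  have hT : (fromBlocks 0 a b 0)ᵀ = fromBlocks 0 bᵀ aᵀ 0 := by
    rw [fromBlocks_transpose, transpose_zero]
  rw [← hT] at t₂
  rw [t₁, t₂]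
  refine ⟨fun hD => ?_, fun hD => ⟨(H k D _ f _ _ _ _ _ _ hE hF).1 hD,
    (H k D _ f _ _ _ _ _ _ hE.transpose hF).1 hD⟩⟩
  rw [(H k D _ f _ _ _ _ _ _ hE hF).2 hD hD₀, ← mul_assoc, mul_neg, ← mul_pow]
  simp

end

theorem main_of_MFThm (H : MFThm) (A : Type) [CommRing A] [IsLocalRing A] [IsNoetherianRing A]
    (hA : ∃ (k : Type) (_ : Field k) (n : ℕ) (f : MvPowerSeries (Fin n) k),
      f ≠ 0 ∧ f ∈ maximalIdeal (MvPowerSeries (Fin n) k) ∧
      Nonempty (AdicCompletion (maximalIdeal A) A ≃+* MvPowerSeries (Fin n) k ⧸ Ideal.span {f}))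
    (hiso : ∀ (p : Ideal A) [p.IsPrime], p ≠ maximalIdeal A →
      IsRegularLocalRing (Localization.AtPrime p))
    (d : ℕ) (hd : ringKrullDim A = d) (M N : ModuleCat.{0} A) (hM : IsMCM A M) (hN : IsMCM A N) :
    (Odd d →
      theta A M N + (-1) ^ ((d + 1) / 2) * theta A (ModuleCat.of A (Module.Dual A M)) N = 0) ∧
    (Even d → theta A M N = 0 ∧ theta A (ModuleCat.of A (Module.Dual A M)) N = 0) := by
  obtain ⟨k, _, D, f, hf, -, ⟨e⟩⟩ := hA
  let : Algebra (MvPowerSeries (Fin D) k) (AdicCompletion (maximalIdeal A) A) :=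
    (e.symm.toRingHom.comp (Ideal.Quotient.mk _)).toAlgebra
  have : IsNoetherianRing (AdicCompletion (maximalIdeal A) A) :=
    isNoetherianRing_of_ringEquiv _ e.symm
  have hs : Function.Surjective
      (algebraMap (MvPowerSeries (Fin D) k) (AdicCompletion (maximalIdeal A) A)) :=
    e.symm.surjective.comp Ideal.Quotient.mk_surjective
  have hk : ∀ x, algebraMap (MvPowerSeries (Fin D) k) (AdicCompletion (maximalIdeal A) A) x = 0 ↔
      f ∣ x := fun x => by
    change e.symm (Ideal.Quotient.mk _ x) = 0 ↔ _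
    rw [map_eq_zero_iff _ e.symm.injective, Ideal.Quotient.eq_zero_iff_mem,
      Ideal.mem_span_singleton]
  have hm := (AdicCompletion.maximalIdeal_eq_map (R := A)).symm
  have hD := dim_succ hf hm hs hk
  rw [hd] at hD
  obtain rfl : d + 1 = D := by exact_mod_cast hD
  obtain ⟨h₁, h₂⟩ := core H (Nat.succ_pos d) hf hm hs hk hiso M N hM hN
  exact ⟨fun h => h₁ h.add_one, fun h => h₂ h.add_one⟩

end Pool.Agent.P.MP_f43029_ag
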