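import Pool.Agent.P.MP_f43029_ag.CARegLoc

/-!
The power series ring over a field is a regular local ring whose dimension is the number of
variables.
-/

set_option autoImplicit false

namespace Pool.Agent.P.MP_f43029_ag

open CategoryTheory IsLocalRing MvPowerSeries

theorem mem_span_X {k : Type} [CommRing k] (n : ℕ) (p : MvPowerSeries (Fin n) k)
    (h : constantCoeff p = 0) : p ∈ Ideal.span (Set.range (X : Fin n → MvPowerSeries (Fin n) k)) := by
  induction n with
  | zero =>
    have : p = 0 := by
      ext d
      rw [Subsingleton.elim d 0]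
      simpa using h
    rw [this]; exact zero_mem _
  | succ n ih =>
    have h1 := PowerSeries.eq_X_mul_shift_add_const (finSuccEquiv k n p)
    have h2 : constantCoeff (PowerSeries.constantCoeff (finSuccEquiv k n p)) = 0 := by
      rw [← coeff_zero_eq_constantCoeff_apply, ← PowerSeries.coeff_zero_eq_constantCoeff_apply,
        coeff_coeff_finSuccEquiv]
      simpa using h
    have h3 := ih _ h2
    have h4 := congrArg (finSuccEquiv k n).symm h1
    rw [AlgEquiv.symm_apply_apply, map_add, map_mul, ← finSuccEquiv_X_zero,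
      AlgEquiv.symm_apply_apply] at h4
    rw [h4]
    refine add_mem (Ideal.mul_mem_right _ _ (Ideal.subset_span ⟨0, rfl⟩)) ?_
    have h5 := Ideal.mem_map_of_mem
      ((finSuccEquiv k n).symm.toRingHom.comp PowerSeries.C) h3
    rw [Ideal.map_span] at h5
    refine Ideal.span_mono ?_ h5
    rintro _ ⟨_, ⟨j, rfl⟩, rfl⟩
    refine ⟨j.succ, ?_⟩
    change _ = (finSuccEquiv k n).symm (PowerSeries.C (X j))
    rw [← finSuccEquiv_X_succ, AlgEquiv.symm_apply_apply]

theorem mem_max_iff {k : Type} [Field k] {n : ℕ} (p : MvPowerSeries (Fin n) k) :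
    p ∈ maximalIdeal (MvPowerSeries (Fin n) k) ↔ constantCoeff p = 0 := by
  rw [mem_maximalIdeal, mem_nonunits_iff, isUnit_iff_constantCoeff, isUnit_iff_ne_zero, not_not]

theorem span_X_eq {k : Type} [Field k] (n : ℕ) :
    Ideal.span (Set.range (X : Fin n → MvPowerSeries (Fin n) k)) =
      maximalIdeal (MvPowerSeries (Fin n) k) := by
  refine le_antisymm ?_ fun p hp => mem_span_X n p ((mem_max_iff p).mp hp)
  rw [Ideal.span_le]
  rintro _ ⟨j, rfl⟩
  exact (mem_max_iff _).mpr (constantCoeff_X j)

theorem le_dim_pow (k : Type) [Field k] (n : ℕ) :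
    (n : WithBot ℕ∞) ≤ ringKrullDim (MvPowerSeries (Fin n) k) := by
  induction n with
  | zero => exact ringKrullDim_nonneg_of_nontrivial
  | succ n ih =>
    rw [ringKrullDim_eq_of_ringEquiv (finSuccEquiv k n).toRingEquiv, Nat.cast_add, Nat.cast_one]
    exact le_trans (by gcongr) ringKrullDim_succ_le_ringKrullDim_powerseries

theorem spanFinrank_pow_le (k : Type) [Field k] (n : ℕ) :
    (maximalIdeal (MvPowerSeries (Fin n) k)).spanFinrank ≤ n := by
  rw [← span_X_eq]
  have h1 := Submodule.spanFinrank_span_le_ncard_of_finite (R := MvPowerSeries (Fin n) k)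
    (Set.finite_range (X : Fin n → MvPowerSeries (Fin n) k))
  refine h1.trans ?_
  rw [← Set.image_univ]
  exact (Set.ncard_image_le Set.finite_univ).trans (by simp [Set.ncard_univ])

theorem dim_pow (k : Type) [Field k] (n : ℕ) :
    ringKrullDim (MvPowerSeries (Fin n) k) = n :=
  le_antisymm ((ringKrullDim_le_spanFinrank_maximalIdeal _).trans
    (by exact_mod_cast spanFinrank_pow_le k n)) (le_dim_pow k n)

theorem regular_pow (k : Type) [Field k] (n : ℕ) : IsRegularLocalRing (MvPowerSeries (Fin n) k) :=
  IsRegularLocalRing.of_spanFinrank_maximalIdeal_le _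
    (le_trans (by exact_mod_cast spanFinrank_pow_le k n) (le_dim_pow k n))

theorem pd_pow {k : Type} [Field k] {n : ℕ} (M : Type) [AddCommGroup M]
    [Module (MvPowerSeries (Fin n) k) M] [Module.Finite (MvPowerSeries (Fin n) k) M] :
    HasProjectiveDimensionLT (ModuleCat.of (MvPowerSeries (Fin n) k) M) (n + 1) :=
  haveI := regular_pow k n
  pd_of_regularLocal n (dim_pow k n).le M

/-- A flat local map whose closed fibre is the residue field preserves the dimension. -/
theorem dim_eq_of_flat {A B : Type} [CommRing A] [CommRing B] [IsLocalRing A] [IsLocalRing B]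
    [IsNoetherianRing A] [IsNoetherianRing B] [Algebra A B] [Module.Flat A B]
    (h : (maximalIdeal A).map (algebraMap A B) = maximalIdeal B) :
    ringKrullDim A = ringKrullDim B := by
  have hl : (maximalIdeal B).LiesOver (maximalIdeal A) := by
    refine ⟨(maximalIdeal.isMaximal A).eq_of_le (Ideal.IsPrime.ne_top inferInstance) ?_⟩
    rw [← h]; exact Ideal.le_comap_map
  have h1 := Ideal.height_eq_height_add_of_liesOver_of_hasGoingDown (maximalIdeal A)
    (maximalIdeal B)
  rw [← maximalIdeal_height_eq_ringKrullDim, ← maximalIdeal_height_eq_ringKrullDim, h1]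
  have h2 : (maximalIdeal B).map (Ideal.Quotient.mk ((maximalIdeal A).map (algebraMap A B))) = ⊥ := by
    rw [h, Ideal.map_quotient_self]
  have : Nontrivial (B ⧸ (maximalIdeal A).map (algebraMap A B)) :=
    Ideal.Quotient.nontrivial_iff.mpr (by rw [h]; exact Ideal.IsPrime.ne_top inferInstance)
  rw [h2, Ideal.height_bot, add_zero]

end Pool.Agent.P.MP_f43029_ag
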