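import Pool.Agent.P.MP_f43029_ag.CAMF

/-!
On an isolated singularity a power of the maximal ideal kills the high `Ext` groups of every finite
module, also after a flat base change.
-/

set_option autoImplicit false

namespace Pool.Agent.P.MP_f43029_ag

open CategoryTheory Abelian IsLocalRing TensorProduct

/-- `u` kills `Ext ^ n (L, -)`. -/
def ExtAnn (S L : Type) [CommRing S] [AddCommGroup L] [Module S L] (n : ℕ) (u : S) : Prop :=
  ∀ (Y : ModuleCat.{0} S) (e : Ext (ModuleCat.of S L) Y n), u • e = 0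

section

variable {S : Type} [CommRing S] {N₁ N₂ N₃ : Type} [AddCommGroup N₁] [Module S N₁]
  [AddCommGroup N₂] [Module S N₂] [AddCommGroup N₃] [Module S N₃]

theorem ExtAnn.up [Module.Projective S N₂] (f : N₁ →ₗ[S] N₂) (g : N₂ →ₗ[S] N₃)
    (hf : Function.Injective f) (hg : Function.Surjective g) (hfg : Function.Exact f g)
    {n : ℕ} {u : S} (h : ExtAnn S N₁ n u) : ExtAnn S N₃ (n + 1) u := by
  intro Y e
  have hS := shortExact_of f g hf hg hfg
  have : Projective (ModuleCat.shortComplexOfCompEqZero f g hfg.linearMap_comp_eq_zero).X₂ :=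
    inferInstanceAs (Projective (ModuleCat.of S N₂))
  obtain ⟨x, rfl⟩ := Ext.contravariant_sequence_exact₃ hS Y e
    (Ext.eq_zero_of_projective _) (add_comm 1 n)
  rw [← Ext.comp_smul, h Y x, Ext.comp_zero]

theorem ExtAnn.down [Module.Projective S N₂] (f : N₁ →ₗ[S] N₂) (g : N₂ →ₗ[S] N₃)
    (hf : Function.Injective f) (hg : Function.Surjective g) (hfg : Function.Exact f g)
    {n : ℕ} {u : S} (h : ExtAnn S N₃ (n + 2) u) : ExtAnn S N₁ (n + 1) u := by
  intro Y e
  have hS := shortExact_of f g hf hg hfg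
  have : Projective (ModuleCat.shortComplexOfCompEqZero f g hfg.linearMap_comp_eq_zero).X₂ :=
    inferInstanceAs (Projective (ModuleCat.of S N₂))
  obtain ⟨x, hx⟩ := Ext.contravariant_sequence_exact₁ hS Y (u • e) (add_comm 1 (n + 1))
    (by rw [Ext.comp_smul]; exact h Y _)
  rw [← hx, Ext.eq_zero_of_projective x, Ext.comp_zero]

theorem ExtAnn.of_factor [Module.Projective S N₂] (α : N₁ →ₗ[S] N₂) (β : N₂ →ₗ[S] N₁) {u : S}
    (h : β ∘ₗ α = u • LinearMap.id) (n : ℕ) : ExtAnn S N₁ (n + 1) u := by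
  intro Y e
  have h1 : ModuleCat.ofHom α ≫ ModuleCat.ofHom β = u • 𝟙 (ModuleCat.of S N₁) := by
    ext x
    exact LinearMap.congr_fun h x
  have : Projective (ModuleCat.of S N₂) := inferInstance
  rw [← Ext.mk₀_id_comp e, ← Ext.smul_comp, ← Ext.mk₀_smul, ← h1, ← Ext.mk₀_comp_mk₀,
    Ext.comp_assoc_of_second_deg_zero,
    Ext.eq_zero_of_projective ((Ext.mk₀ (ModuleCat.ofHom β)).comp e (zero_add _)), Ext.comp_zero]

theorem ExtAnn.lift (g : N₂ →ₗ[S] N₃) (hg : Function.Surjective g) {u : S}
    (h : ExtAnn S N₃ 1 u) : ∃ σ : N₃ →ₗ[S] N₂, g ∘ₗ σ = u • LinearMap.id := by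
  have hS := shortExact_of (LinearMap.ker g).subtype g (Submodule.subtype_injective _) hg
    (LinearMap.exact_subtype_ker_map g)
  obtain ⟨x, hx⟩ := Ext.covariant_sequence_exact₃ (ModuleCat.of S N₃) hS
    (Ext.mk₀ (u • 𝟙 (ModuleCat.of S N₃))) (zero_add 1) (by
      rw [Ext.mk₀_smul, Ext.smul_comp]
      exact h _ _)
  obtain ⟨σ, rfl⟩ := (Ext.mk₀_bijective _ _).2 x
  rw [Ext.mk₀_comp_mk₀, (Ext.mk₀_bijective _ _).1.eq_iff] at hx
  exact ⟨σ.hom, congrArg ModuleCat.Hom.hom hx⟩

theorem ExtAnn.mem_span {n : ℕ} {s : Set S} (h : ∀ u ∈ s, ExtAnn S N₁ n u) {u : S}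
    (hu : u ∈ Ideal.span s) : ExtAnn S N₁ n u := by
  induction hu using Submodule.span_induction with
  | mem x hx => exact h x hx
  | zero => intro Y e; rw [zero_smul]
  | add x y _ _ hx hy => intro Y e; rw [add_smul, hx Y e, hy Y e, add_zero]
  | smul a x _ hx => intro Y e; rw [smul_eq_mul, mul_smul, hx Y e, smul_zero]

end

theorem baseChange_ses {A : Type} (S : Type) [CommRing A] [CommRing S] [Algebra A S]
    [Module.Flat A S] {N₁ N₂ N₃ : Type} [AddCommGroup N₁] [Module A N₁]
    [AddCommGroup N₂] [Module A N₂] [AddCommGroup N₃] [Module A N₃]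
    (f : N₁ →ₗ[A] N₂) (g : N₂ →ₗ[A] N₃) (hf : Function.Injective f) (hg : Function.Surjective g)
    (hfg : Function.Exact f g) :
    Function.Injective (f.baseChange S) ∧ Function.Surjective (g.baseChange S) ∧
      Function.Exact (f.baseChange S) (g.baseChange S) :=
  ⟨Module.Flat.lTensor_preserves_injective_linearMap f hf, LinearMap.lTensor_surjective S hg,
    lTensor_exact S hfg hg⟩

theorem exists_pow_factor {A : Type} [CommRing A] [IsLocalRing A] [IsNoetherianRing A]
    {L P : Type} [AddCommGroup L] [Module A L] [Module.Finite A L] [AddCommGroup P] [Module A P]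
    (q : P →ₗ[A] L) (hq : Function.Surjective q)
    (h : ∀ (p : Ideal A) [p.IsPrime], p ≠ maximalIdeal A →
      Module.Projective (Localization.AtPrime p) (Localization.AtPrime p ⊗[A] L)) :
    ∃ N : ℕ, ∀ u ∈ maximalIdeal A ^ N, ∃ g : L →ₗ[A] P, q ∘ₗ g = u • LinearMap.id := by
  let J : Ideal A :=
    { carrier := {u | ∃ g : L →ₗ[A] P, q ∘ₗ g = u • LinearMap.id}
      add_mem' := by
        rintro _ _ ⟨g, hg⟩ ⟨g', hg'⟩
        exact ⟨g + g', by rw [LinearMap.comp_add, hg, hg', add_smul]⟩
      zero_mem' := ⟨0, by simp⟩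
      smul_mem' := by
        rintro c _ ⟨g, hg⟩
        exact ⟨c • g, by rw [LinearMap.comp_smul, hg, smul_eq_mul, mul_smul]⟩ }
  have : Module.FinitePresentation A L := Module.finitePresentation_of_finite A L
  have hJ : maximalIdeal A ≤ J.radical := by
    rw [Ideal.radical_eq_sInf]
    refine le_sInf ?_
    rintro p ⟨hJp, hp⟩
    by_contra hne
    have := h p (fun he => hne he.ge)
    obtain ⟨σ, hσ⟩ := Module.projective_lifting_property (q.baseChange (Localization.AtPrime p))
      LinearMap.id (LinearMap.lTensor_surjective _ hq)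
    obtain ⟨g, s, hg⟩ := Module.FinitePresentation.exists_lift_of_isLocalizedModule p.primeCompl
      (TensorProduct.mk A (Localization.AtPrime p) P 1)
      (σ.restrictScalars A ∘ₗ TensorProduct.mk A (Localization.AtPrime p) L 1)
    obtain ⟨s', hs'⟩ := Module.Finite.exists_smul_of_comp_eq_of_isLocalizedModule p.primeCompl
      (TensorProduct.mk A (Localization.AtPrime p) L 1) (q ∘ₗ g) ((s : A) • LinearMap.id) (by
        ext x
        have h1 := congrArg (q.baseChange (Localization.AtPrime p)) (LinearMap.congr_fun hg x)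
        have h2 := LinearMap.congr_fun hσ ((1 : Localization.AtPrime p) ⊗ₜ[A] x)
        simp only [LinearMap.comp_apply, mk_apply, LinearMap.baseChange_tmul, LinearMap.smul_apply,
          LinearMap.restrictScalars_apply, Submonoid.smul_def, LinearMap.map_smul_of_tower,
          LinearMap.id_apply] at h1 h2 ⊢
        rw [h1, h2])
    refine (s' * s).2 (hJp ⟨(s' : A) • g, ?_⟩)
    rw [LinearMap.comp_smul, Submonoid.coe_mul, mul_smul]
    exact hs'
  obtain ⟨N, hN⟩ := Ideal.exists_pow_le_of_le_radical_of_fg hJ (IsNoetherian.noetherian _)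
  exact ⟨N, fun u hu => hN hu⟩

theorem exists_pow_extAnn {A : Type} (B : Type) [CommRing A] [IsLocalRing A] [IsNoetherianRing A]
    [CommRing B] [Algebra A B] [Module.Flat A B] (n : ℕ) :
    ∀ (L : Type) [AddCommGroup L] [Module A L] [Module.Finite A L],
    (∀ (p : Ideal A) [p.IsPrime], p ≠ maximalIdeal A → HasProjectiveDimensionLT
      (ModuleCat.of (Localization.AtPrime p) (Localization.AtPrime p ⊗[A] L)) (n + 1)) →
    ∃ N : ℕ, ∀ u ∈ (maximalIdeal A ^ N).map (algebraMap A B), ExtAnn B (B ⊗[A] L) (n + 1) u := by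
  induction n with
  | zero =>
    intro L _ _ _ h
    obtain ⟨r, q, hq⟩ := Module.Finite.exists_fin' A L
    obtain ⟨N, hN⟩ := exists_pow_factor q hq (fun p _ hp =>
      (IsProjective.iff_projective (R := Localization.AtPrime p) _).mpr
        (projective_iff_hasProjectiveDimensionLT_one.mpr (h p hp)))
    refine ⟨N, fun u hu => ExtAnn.mem_span ?_ hu⟩
    rintro _ ⟨v, hv, rfl⟩
    obtain ⟨g, hg⟩ := hN v hv
    refine ExtAnn.of_factor (g.baseChange B) (q.baseChange B) ?_ 0
    rw [← LinearMap.baseChange_comp, hg, LinearMap.baseChange_smul, LinearMap.baseChange_id,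
      algebraMap_smul]
  | succ n ih =>
    intro L _ _ _ h
    obtain ⟨r, q, hq⟩ := Module.Finite.exists_fin' A L
    obtain ⟨N, hN⟩ := ih (LinearMap.ker q) (fun p _ hp => by
      obtain ⟨h1, h2, h3⟩ := baseChange_ses (Localization.AtPrime p) (LinearMap.ker q).subtype q
        (Submodule.subtype_injective _) hq (LinearMap.exact_subtype_ker_map q)
      exact ((shortExact_of _ _ h1 h2 h3).hasProjectiveDimensionLT_X₃_iff n
        (inferInstanceAs (Projective (ModuleCat.of (Localization.AtPrime p)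
          (Localization.AtPrime p ⊗[A] (Fin r → A)))))).mp (h p hp))
    obtain ⟨h1, h2, h3⟩ := baseChange_ses B (LinearMap.ker q).subtype q
      (Submodule.subtype_injective _) hq (LinearMap.exact_subtype_ker_map q)
    exact ⟨N, fun u hu => ExtAnn.up _ _ h1 h2 h3 (hN u hu)⟩

theorem exists_pow_extAnn_of_isolated {A : Type} (B : Type) [CommRing A] [IsLocalRing A]
    [IsNoetherianRing A] [CommRing B] [Algebra A B] [Module.Flat A B] (n : ℕ)
    (hd : ringKrullDim A ≤ n)
    (hiso : ∀ (p : Ideal A) [p.IsPrime], p ≠ maximalIdeal A →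
      IsRegularLocalRing (Localization.AtPrime p))
    (L : Type) [AddCommGroup L] [Module A L] [Module.Finite A L] :
    ∃ N : ℕ, ∀ u ∈ (maximalIdeal A ^ N).map (algebraMap A B), ExtAnn B (B ⊗[A] L) (n + 1) u := by
  refine exists_pow_extAnn B n L fun p _ hp => ?_
  have := hiso p hp
  refine pd_of_regularLocal n (le_trans ?_ hd) _
  rw [IsLocalization.AtPrime.ringKrullDim_eq_height p]
  exact Ideal.height_le_ringKrullDim_of_ne_top (Ideal.IsPrime.ne_top inferInstance)

end Pool.Agent.P.MP_f43029_ag
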