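import Mathlib

/-!
Interface between the commutative algebra side and the Chern character side.
A `Z/2`-graded free module is an index type `ι` with a parity `p : ι → Bool` (`false` = even).
-/

set_option autoImplicit false

namespace Pool.Agent.P.MP_f43029_ag

open Matrix Kronecker

/-- A matrix is odd if it only joins indices of different parity. -/
def OddM {ι ι' α : Type} [Zero α] (p : ι → Bool) (p' : ι' → Bool) (X : Matrix ι ι' α) : Prop :=
  ∀ i j, p i = p' j → X i j = 0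

/-- The sign of a parity. -/
def sg (b : Bool) : ℤ := if b then -1 else 1

/-- The sign matrix of a parity. -/
def SM (α : Type) [Ring α] {ι : Type} [DecidableEq ι] (p : ι → Bool) : Matrix ι ι α :=
  diagonal fun i => ((sg (p i) : ℤ) : α)

/-- Parity on a tensor product. -/
def tpar {ι₁ ι₂ : Type} (p₁ : ι₁ → Bool) (p₂ : ι₂ → Bool) : ι₁ × ι₂ → Bool :=
  fun x => xor (p₁ x.1) (p₂ x.2)

/-- Differential of the tensor product: `X₁ ⊗ 1 + S ⊗ X₂`. -/
def tens {α ι₁ ι₂ : Type} [CommRing α] [DecidableEq ι₁] [DecidableEq ι₂] (p₁ : ι₁ → Bool)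
    (X₁ : Matrix ι₁ ι₁ α) (X₂ : Matrix ι₂ ι₂ α) : Matrix (ι₁ × ι₂) (ι₁ × ι₂) α :=
  X₁ ⊗ₖ (1 : Matrix ι₂ ι₂ α) + SM α p₁ ⊗ₖ X₂

/-- A matrix factorization of `f` on which every `x j ^ N` is null-homotopic. -/
structure IsObj {α ι : Type} [CommRing α] [Fintype ι] [DecidableEq ι] {D : ℕ} (x : Fin D → α)
    (N : ℕ) (f : α) (p : ι → Bool) (X : Matrix ι ι α) : Prop where
  odd : OddM p p X
  sq : X * X = f • (1 : Matrix ι ι α)
  supp : ∃ h : Fin D → Matrix ι ι α, (∀ j, OddM p p (h j)) ∧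
    ∀ j, X * h j + h j * X = (x j ^ N) • (1 : Matrix ι ι α)

/-- Vectors supported on the indices of parity `b`. -/
def parSub (R : Type) [CommRing R] {ι : Type} (M : Type) [AddCommGroup M] [Module R M]
    (p : ι → Bool) (b : Bool) : Submodule R (ι → M) where
  carrier := {v | ∀ i, p i ≠ b → v i = 0}
  add_mem' := fun hu hv i hi => by simp [hu i hi, hv i hi]
  zero_mem' := fun _ _ => rfl
  smul_mem' := fun c v hv i hi => by simp [hv i hi]

/-- Cycles of parity `b`. -/
def Zb {R ι : Type} [CommRing R] [Fintype ι] (p : ι → Bool) (X : Matrix ι ι R) (b : Bool) :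
    Submodule R (ι → R) :=
  LinearMap.ker X.mulVecLin ⊓ parSub R R p b

/-- Boundaries of parity `b`. -/
def Bb {R ι : Type} [CommRing R] [Fintype ι] (p : ι → Bool) (X : Matrix ι ι R) (b : Bool) :
    Submodule R (ι → R) :=
  (parSub R R p (!b)).map X.mulVecLin

/-- Homology in parity `b`. -/
abbrev Hb {R ι : Type} [CommRing R] [Fintype ι] (p : ι → Bool) (X : Matrix ι ι R) (b : Bool) :
    Type :=
  Zb p X b ⧸ (Bb p X b).submoduleOf (Zb p X b)

/-- Euler characteristic `length H_even - length H_odd`. -/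
noncomputable def chi {R ι : Type} [CommRing R] [Fintype ι] (p : ι → Bool) (X : Matrix ι ι R) :
    ℤ :=
  ((Module.length R (Hb p X false)).toNat : ℤ) - ((Module.length R (Hb p X true)).toNat : ℤ)

/-- The theorem on matrix factorizations over `k[[x_1, ..., x_D]]`. -/
def MFThm : Prop :=
  ∀ (k : Type) [Field k] (D N : ℕ) (f : MvPowerSeries (Fin D) k)
    (ι₁ ι₂ : Type) [Fintype ι₁] [DecidableEq ι₁] [Fintype ι₂] [DecidableEq ι₂]
    (p₁ : ι₁ → Bool) (p₂ : ι₂ → Bool)
    (E : Matrix ι₁ ι₁ (MvPowerSeries (Fin D) k)) (F : Matrix ι₂ ι₂ (MvPowerSeries (Fin D) k)),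
    IsObj (fun j => MvPowerSeries.X j) N f p₁ E → IsObj (fun j => MvPowerSeries.X j) N (-f) p₂ F →
    (Odd D → chi (tpar p₁ p₂) (tens p₁ E F) = 0) ∧
    (Even D → 0 < D → chi (tpar (fun i => !p₁ i) p₂) (tens (fun i => !p₁ i) Eᵀ F) =
      -(-1) ^ (D / 2) * chi (tpar p₁ p₂) (tens p₁ E F))

end Pool.Agent.P.MP_f43029_ag
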