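import Pool.Agent.P.MP_f43029_ag.CATor
import Pool.Agent.P.MP_f43029_ag.Iface

/-!
The homology of the tensor product of two matrix factorizations is the homology of the second one
with coefficients in the cokernel of the first one.
-/

set_option autoImplicit false

namespace Pool.Agent.P.MP_f43029_ag

open Matrix Kronecker

variable {R : Type} [CommRing R] {ι₁ ι₂ : Type} [Fintype ι₁] [DecidableEq ι₁] [Fintype ι₂]
  [DecidableEq ι₂] {p₁ : ι₁ → Bool} {p₂ : ι₂ → Bool} {E : Matrix ι₁ ι₁ R} {F : Matrix ι₂ ι₂ R}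

theorem mem_parSub {ι M : Type} [AddCommGroup M] [Module R M] {p : ι → Bool} {b : Bool}
    {v : ι → M} : v ∈ parSub R M p b ↔ ∀ i, p i ≠ b → v i = 0 := Iff.rfl

theorem xor_aux₁ : ∀ {a c b : Bool}, a ≠ true → c ≠ b → xor a c ≠ b := by decide

theorem xor_aux₂ : ∀ {a c b : Bool}, xor a c ≠ b → c = b → a ≠ false := by decide

theorem xor_aux₃ : ∀ {a c b : Bool}, xor a c ≠ !b → c = b → a ≠ true := by decide

omit [DecidableEq ι₁] in
theorem mulVec_mem_parSub (hE : OddM p₁ p₁ E) {b : Bool} {v : ι₁ → R} (hv : v ∈ parSub R R p₁ b) :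
    E *ᵥ v ∈ parSub R R p₁ (!b) := by
  intro i hi
  refine Finset.sum_eq_zero fun j _ => ?_
  change E i j * v j = 0
  by_cases h : p₁ j = b
  · rw [hE i j (by rw [h]; cases b <;> simpa using hi), zero_mul]
  · rw [hv j h, mul_zero]

theorem tens_mulVec (v : ι₁ × ι₂ → R) (i : ι₁) (j : ι₂) :
    (tens p₁ E F *ᵥ v) (i, j) =
      (E *ᵥ fun i' => v (i', j)) i + ∑ j', F j j' * ((sg (p₁ i) : ℤ) * v (i, j')) := by
  rw [tens, add_mulVec, Pi.add_apply]
  simp only [mulVec, dotProduct, Fintype.sum_prod_type,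
    kroneckerMap_apply, SM, Matrix.one_apply, diagonal_apply]
  congr 1
  · refine Finset.sum_congr rfl fun i' _ => ?_
    simp
  · rw [Finset.sum_comm]
    refine Finset.sum_congr rfl fun j' _ => ?_
    simp only [ite_mul, zero_mul, Finset.sum_ite_eq, Finset.mem_univ, if_true]
    ring

omit [Fintype ι₁] in
theorem sg_ne {a b : Bool} (h : a ≠ b) : ((sg a : ℤ) : R) + ((sg b : ℤ) : R) = 0 := by
  cases a <;> cases b <;> simp_all [sg]

theorem SM_anti (hE : OddM p₁ p₁ E) : E * SM R p₁ + SM R p₁ * E = 0 := by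
  ext i j
  simp only [SM, Matrix.add_apply, mul_diagonal, diagonal_mul, Matrix.zero_apply]
  by_cases h : p₁ i = p₁ j
  · rw [hE i j h]; simp
  · rw [mul_comm, ← add_mul, add_comm, sg_ne h, zero_mul]

theorem SM_mul_SM : SM R p₁ * SM R p₁ = 1 := by
  rw [SM, diagonal_mul_diagonal, ← diagonal_one]
  congr 1
  ext i
  cases p₁ i <;> simp [sg]

theorem tens_sq {f g : R} (hE : OddM p₁ p₁ E) (h₁ : E * E = f • (1 : Matrix ι₁ ι₁ R))
    (h₂ : F * F = g • (1 : Matrix ι₂ ι₂ R)) :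
    tens p₁ E F * tens p₁ E F = (f + g) • (1 : Matrix (ι₁ × ι₂) (ι₁ × ι₂) R) := by
  simp only [tens, Matrix.add_mul, Matrix.mul_add, ← mul_kronecker_mul, Matrix.one_mul,
    Matrix.mul_one, h₁, h₂, SM_mul_SM]
  rw [add_assoc, ← add_assoc ((SM R p₁ * E) ⊗ₖ F), ← add_kronecker, add_comm (SM R p₁ * E),
    SM_anti hE, zero_kronecker, zero_add, smul_kronecker, kronecker_smul, one_kronecker_one,
    add_smul]

omit [Fintype ι₁] [Fintype ι₂] in
theorem tens_odd (hE : OddM p₁ p₁ E) (hF : OddM p₂ p₂ F) :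
    OddM (tpar p₁ p₂) (tpar p₁ p₂) (tens p₁ E F) := by
  rintro ⟨i, j⟩ ⟨i', j'⟩ h
  simp only [tpar] at h
  simp only [tens, Matrix.add_apply, kroneckerMap_apply, SM, Matrix.one_apply, diagonal_apply]
  by_cases hi : i = i'
  · subst hi
    rw [hE i i rfl, hF j j' (by simpa using h)]; simp
  · by_cases hj : j = j'
    · subst hj
      rw [hE i i' (by simpa using h)]; simp [hi]
    · simp [hi, hj]

section

variable {X : Type} [AddCommGroup X] [Module R X]

/-- Apply `q` to every column. -/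
def colMap (ι₂ : Type) (q : (ι₁ → R) →ₗ[R] X) : (ι₁ × ι₂ → R) →ₗ[R] (ι₂ → X) :=
  LinearMap.pi fun j => q ∘ₗ LinearMap.funLeft R R fun i => (i, j)

omit [Fintype ι₁] [DecidableEq ι₁] [Fintype ι₂] [DecidableEq ι₂] in
theorem colMap_apply (q : (ι₁ → R) →ₗ[R] X) (v : ι₁ × ι₂ → R) (j : ι₂) :
    colMap ι₂ q v j = q fun i => v (i, j) := rfl

theorem tens_homology {f : R} (hE : OddM p₁ p₁ E) (hF : OddM p₂ p₂ F)
    (h₁ : E * E = f • (1 : Matrix ι₁ ι₁ R)) (h₂ : F * F = (-f) • (1 : Matrix ι₂ ι₂ R))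
    (hinj : ∀ v, E *ᵥ v = 0 → v = 0) (q : (ι₁ → R) →ₗ[R] X) (hq : Function.Surjective q)
    (hker : ∀ v, q v = 0 ↔ ∃ u ∈ parSub R R p₁ true, ∃ w ∈ parSub R R p₁ true, v = u + E *ᵥ w)
    (b : Bool) :
    Nonempty (Hb (tpar p₁ p₂) (tens p₁ E F) b ≃ₗ[R]
      (↥(LinearMap.ker (actM X F) ⊓ parSub R X p₂ b) ⧸
        ((parSub R X p₂ (!b)).map (actM X F)).submoduleOf
          (LinearMap.ker (actM X F) ⊓ parSub R X p₂ b))) := by
  have hT : ∀ v, tens p₁ E F *ᵥ (tens p₁ E F *ᵥ v) = 0 := by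
    intro v
    rw [mulVec_mulVec, tens_sq hE h₁ h₂, add_neg_cancel, zero_smul, zero_mulVec]
  have hTo := tens_odd (p₂ := p₂) hE hF
  have q_odd : ∀ u ∈ parSub R R p₁ true, q u = 0 := fun u hu =>
    (hker u).mpr ⟨u, hu, 0, zero_mem _, by simp⟩
  have split : ∀ y : ι₁ → R, ∃ y₀ ∈ parSub R R p₁ false, ∃ y₁ ∈ parSub R R p₁ true, y = y₀ + y₁ :=
    fun y => ⟨fun i => if p₁ i then 0 else y i, fun i hi => by simp [hi],
      fun i => if p₁ i then y i else 0, fun i hi => by simp [hi], by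
        ext i; by_cases h : p₁ i <;> simp [h]⟩
  have qE : ∀ y, q (E *ᵥ y) = 0 := by
    intro y
    obtain ⟨y₀, h₀, y₁, h₁, rfl⟩ := split y
    exact (hker _).mpr ⟨E *ᵥ y₀, mulVec_mem_parSub hE h₀, y₁, h₁, mulVec_add _ _ _⟩
  have qS : ∀ y : ι₁ → R, q (fun i => ((sg (p₁ i) : ℤ) : R) * y i) = q y := by
    intro y
    rw [← sub_eq_zero, ← map_sub]
    refine q_odd _ fun i hi => ?_
    simp [sg, hi]
  have hQT : ∀ v, colMap ι₂ q (tens p₁ E F *ᵥ v) = actM X F (colMap ι₂ q v) := by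
    intro v
    ext j
    rw [colMap_apply, actM_apply]
    have : (fun i => (tens p₁ E F *ᵥ v) (i, j)) = (E *ᵥ fun i' => v (i', j)) +
        ∑ j', F j j' • fun i => ((sg (p₁ i) : ℤ) : R) * v (i, j') := by
      ext i
      simp [tens_mulVec]
    rw [this, map_add, qE, zero_add, map_sum]
    refine Finset.sum_congr rfl fun j' _ => ?_
    rw [map_smul, qS, colMap_apply]
  have hQp : ∀ b, ∀ v ∈ parSub R R (tpar p₁ p₂) b, colMap ι₂ q v ∈ parSub R X p₂ b := by
    intro b v hv j hj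
    exact q_odd _ fun i hi => hv (i, j) (xor_aux₁ hi hj)
  have hlift : ∀ b, ∀ y ∈ parSub R X p₂ b, ∃ v ∈ parSub R R (tpar p₁ p₂) b, colMap ι₂ q v = y := by
    intro b y hy
    have : ∀ j, ∃ z ∈ parSub R R p₁ false, q z = y j := by
      intro j
      obtain ⟨z, hz⟩ := hq (y j)
      obtain ⟨y₀, h₀, y₁, h₁, rfl⟩ := split z
      exact ⟨y₀, h₀, by rw [← hz, map_add, q_odd _ h₁, add_zero]⟩
    choose z hz hzq using this
    refine ⟨fun x => if p₂ x.2 = b then z x.2 x.1 else 0, ?_, ?_⟩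
    · rintro ⟨i, j⟩ hx
      by_cases h : p₂ j = b
      · simp only [h, if_true]
        exact hz j i (xor_aux₂ hx h)
      · simp [h]
    · ext j
      rw [colMap_apply]
      by_cases h : p₂ j = b
      · simp only [h, if_true]; exact hzq j
      · simp only [h, if_false]; rw [hy j h]; exact map_zero q
  have hacyc : ∀ b, ∀ v ∈ parSub R R (tpar p₁ p₂) b, tens p₁ E F *ᵥ v = 0 → colMap ι₂ q v = 0 →
      ∃ w ∈ parSub R R (tpar p₁ p₂) (!b), colMap ι₂ q w = 0 ∧ tens p₁ E F *ᵥ w = v := by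
    intro b v hv hTv hQv
    have : ∀ j, ∃ u ∈ parSub R R p₁ true, ∃ w ∈ parSub R R p₁ true,
        (fun i => v (i, j)) = u + E *ᵥ w ∧ (p₂ j ≠ b → w = 0) := by
      intro j
      by_cases h : p₂ j = b
      · obtain ⟨u, hu, w, hw, h'⟩ := (hker _).mp (congrFun hQv j)
        exact ⟨u, hu, w, hw, h', fun h'' => absurd h h''⟩
      · exact ⟨fun i => v (i, j), fun i hi => hv (i, j) (xor_aux₁ hi h), 0, zero_mem _, by simp,
          fun _ => rfl⟩
    choose u hu w hw huw hw0 using this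
    have hwp : (fun x : ι₁ × ι₂ => w x.2 x.1) ∈ parSub R R (tpar p₁ p₂) (!b) := by
      rintro ⟨i, j⟩ hx
      by_cases h : p₂ j = b
      · exact hw j i (xor_aux₃ hx h)
      · simp [hw0 j h]
    refine ⟨fun x => w x.2 x.1, hwp, funext fun j => q_odd _ (hw j), ?_⟩
    have hodd : ∀ j, (fun i => (v - tens p₁ E F *ᵥ fun x => w x.2 x.1) (i, j)) ∈
        parSub R R p₁ true := by
      intro j i hi
      have h3 := congrFun (huw j) i
      simp only [Pi.add_apply, hu j i hi, zero_add] at h3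
      simp only [Pi.sub_apply, tens_mulVec, h3, fun j' => hw j' i hi, mul_zero,
        Finset.sum_const_zero, add_zero, sub_self]
    have hz : tens p₁ E F *ᵥ (v - tens p₁ E F *ᵥ fun x => w x.2 x.1) = 0 := by
      rw [mulVec_sub, hTv, hT, sub_zero]
    symm
    rw [← sub_eq_zero]
    ext ⟨i, j⟩
    refine congrFun (hinj (fun i => (v - tens p₁ E F *ᵥ fun x => w x.2 x.1) (i, j)) ?_) i
    ext i
    by_cases hi : p₁ i = false
    · have h3 := congrFun hz (i, j)
      rw [tens_mulVec, Finset.sum_eq_zero (fun j' _ => by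
        rw [show (v - tens p₁ E F *ᵥ fun x => w x.2 x.1) (i, j') = 0 from
          hodd j' i (by simp [hi]), mul_zero, mul_zero]), add_zero] at h3
      exact h3
    · exact mulVec_mem_parSub hE (hodd j) i hi
  refine sq_equiv (colMap ι₂ q) ?_ ?_ ?_ ?_
  · rintro v ⟨h3, h4⟩
    refine ⟨?_, hQp b v h4⟩
    change actM X F _ = 0
    rw [← hQT, show tens p₁ E F *ᵥ v = 0 from h3, map_zero]
  · rintro _ ⟨v, hv, rfl⟩
    exact ⟨_, hQp _ v hv, (hQT v).symm⟩
  · rintro v ⟨h3, h4⟩ ⟨y, hy, h5⟩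
    obtain ⟨y', hy', rfl⟩ := hlift _ y hy
    obtain ⟨w, hw, -, h6⟩ := hacyc b (v - tens p₁ E F *ᵥ y')
      (sub_mem h4 (by simpa using mulVec_mem_parSub hTo hy'))
      (by rw [mulVec_sub, show tens p₁ E F *ᵥ v = 0 from h3, hT, sub_zero])
      (by rw [map_sub, hQT, h5, sub_self])
    refine ⟨w + y', add_mem hw hy', ?_⟩
    rw [mulVecLin_apply, mulVec_add, h6, sub_add_cancel]
  · rintro y ⟨h3, h4⟩
    obtain ⟨y', hy', rfl⟩ := hlift _ y h4
    obtain ⟨w, hw, h5, h6⟩ := hacyc (!b) (tens p₁ E F *ᵥ y') (mulVec_mem_parSub hTo hy') (hT _)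
      (by rw [hQT]; exact h3)
    refine ⟨y' - w, ⟨?_, sub_mem hy' (by simpa using hw)⟩, ?_⟩
    · change tens p₁ E F *ᵥ _ = 0
      rw [mulVec_sub, h6, sub_self]
    · rw [map_sub, h5, sub_zero, sub_self]
      exact zero_mem _

end

end Pool.Agent.P.MP_f43029_ag
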