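import Pool.Agent.P.MP_f43029_ag.CAHml

/-!
`Tor_1` and `Tor_2` after a flat local base change, computed from a periodic resolution.
-/

set_option autoImplicit false

namespace Pool.Agent.P.MP_f43029_ag

open CategoryTheory IsLocalRing TensorProduct

theorem tor_equiv {A : Type} [CommRing A] (X N : ModuleCat.{0} A) (P : ProjectiveResolution N)
    (i : ℕ) : Nonempty ((((Tor (ModuleCat.{0} A) (i + 1)).obj X).obj N) ≃ₗ[A]
      Hml ((P.complex.d (i + 2) (i + 1)).hom.lTensor X) ((P.complex.d (i + 1) i).hom.lTensor X)) := by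
  let K := (((MonoidalCategory.tensoringLeft (ModuleCat.{0} A)).obj X).mapHomologicalComplex
    (ComplexShape.down ℕ)).obj P.complex
  let e₁ := P.isoLeftDerivedObj ((MonoidalCategory.tensoringLeft (ModuleCat.{0} A)).obj X) (i + 1)
  let e₂ := K.homologyIsoSc' (i + 2) (i + 1) i (by simp) (by simp)
  let e₃ := (K.sc' (i + 2) (i + 1) i).moduleCatHomologyIso
  refine ⟨(e₁ ≪≫ e₂ ≪≫ e₃).toLinearEquiv ≪≫ₗ Submodule.quotEquivOfEq _ _ ?_⟩
  ext x
  constructor
  · rintro ⟨u, rfl⟩
    exact ⟨u, rfl⟩
  · rintro ⟨u, hu⟩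
    exact ⟨u, Subtype.ext hu⟩

theorem isRes_of_resolution {A : Type} [CommRing A] (N : ModuleCat.{0} A)
    (P : ProjectiveResolution N) :
    IsRes (N := N) (P.π.f 0).hom (P.complex.d 1 0).hom (P.complex.d 2 1).hom
      (P.complex.d 3 2).hom := by
  have hp : ∀ n, Module.Projective A (P.complex.X n) := fun n =>
    (IsProjective.iff_projective (R := A) (P.complex.X n)).mpr (P.projective n)
  refine ⟨hp 0, hp 1, hp 2, hp 3, (ModuleCat.epi_iff_surjective (P.π.f 0)).mp inferInstance,
    (ShortComplex.ShortExact.moduleCat_exact_iff_function_exact _).mp P.exact₀,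
    (ShortComplex.ShortExact.moduleCat_exact_iff_function_exact _).mp (P.exact_succ 0),
    (ShortComplex.ShortExact.moduleCat_exact_iff_function_exact _).mp (P.exact_succ 1)⟩

/-- A matrix acting on vectors with entries in a module. -/
def actM {R ι ι' : Type} [CommRing R] [Fintype ι'] (X : Type) [AddCommGroup X] [Module R X]
    (F : Matrix ι ι' R) : (ι' → X) →ₗ[R] (ι → X) :=
  LinearMap.pi fun i => ∑ j, F i j • LinearMap.proj j

theorem actM_apply {R ι ι' : Type} [CommRing R] [Fintype ι'] {X : Type} [AddCommGroup X]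
    [Module R X] (F : Matrix ι ι' R) (u : ι' → X) (i : ι) : actM X F u i = ∑ j, F i j • u j := by
  simp [actM]

theorem hml_lTensor_baseChange {A : Type} (B : Type) [CommRing A] [CommRing B] [Algebra A B]
    {U V W : Type} [AddCommGroup U] [Module A U] [AddCommGroup V] [Module A V] [AddCommGroup W]
    [Module A W] (X : Type) [AddCommGroup X] [Module A X] (g : U →ₗ[A] V) (f : V →ₗ[A] W) :
    Nonempty (Hml ((g.lTensor X).baseChange B) ((f.lTensor X).baseChange B) ≃ₗ[B]
      Hml (S := B) (U := (B ⊗[A] X) ⊗[B] (B ⊗[A] U)) (V := (B ⊗[A] X) ⊗[B] (B ⊗[A] V))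
        (W := (B ⊗[A] X) ⊗[B] (B ⊗[A] W))
        ((g.baseChange B).lTensor (B ⊗[A] X)) ((f.baseChange B).lTensor (B ⊗[A] X))) := by
  have key : ∀ {U V : Type} [AddCommGroup U] [Module A U] [AddCommGroup V] [Module A V]
      (g : U →ₗ[A] V) (u : B ⊗[A] (X ⊗[A] U)),
      AlgebraTensorModule.distribBaseChange A B X V ((g.lTensor X).baseChange B u) =
        (g.baseChange B).lTensor (B ⊗[A] X) (AlgebraTensorModule.distribBaseChange A B X U u) := by
    intro U V _ _ _ _ g u
    induction u using TensorProduct.induction_on with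
    | zero => simp
    | add x y hx hy => simp only [map_add, hx, hy]
    | tmul b y =>
      induction y using TensorProduct.induction_on with
      | zero => simp
      | add x y hx hy => simp only [tmul_add, map_add, hx, hy]
      | tmul x u => simp
  exact hml_congr _ _ _ (key g) (key f)

theorem hml_lTensor_congr {B : Type} [CommRing B] {U V W X Y : Type} [AddCommGroup U] [Module B U]
    [AddCommGroup V] [Module B V] [AddCommGroup W] [Module B W] [AddCommGroup X] [Module B X]
    [AddCommGroup Y] [Module B Y] (φ : X ≃ₗ[B] Y) (g : U →ₗ[B] V) (f : V →ₗ[B] W) :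
    Nonempty (Hml (g.lTensor X) (f.lTensor X) ≃ₗ[B] Hml (g.lTensor Y) (f.lTensor Y)) := by
  have key : ∀ {U V : Type} [AddCommGroup U] [Module B U] [AddCommGroup V] [Module B V]
      (g : U →ₗ[B] V) (u : X ⊗[B] U),
      φ.rTensor V (g.lTensor X u) = g.lTensor Y (φ.rTensor U u) := by
    intro U V _ _ _ _ g u
    induction u using TensorProduct.induction_on with
    | zero => simp
    | add x y hx hy => simp only [map_add, hx, hy]
    | tmul x u => simp
  exact hml_congr _ _ _ (key g) (key f)

theorem hml_lTensor_actM {B : Type} [CommRing B] {n : ℕ} (X : Type) [AddCommGroup X] [Module B X]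
    (c e : Matrix (Fin n) (Fin n) B) :
    Nonempty (Hml (c.mulVecLin.lTensor X) (e.mulVecLin.lTensor X) ≃ₗ[B] Hml (actM X c) (actM X e)) := by
  have key : ∀ (c : Matrix (Fin n) (Fin n) B) (u : X ⊗[B] (Fin n → B)),
      piScalarRight B B X (Fin n) (c.mulVecLin.lTensor X u) =
        actM X c (piScalarRight B B X (Fin n) u) := by
    intro c u
    induction u using TensorProduct.induction_on with
    | zero => simp
    | add x y hx hy => simp only [map_add, hx, hy]
    | tmul x v =>
      ext i
      simp [actM_apply, Matrix.mulVec, dotProduct, Finset.sum_smul, mul_smul]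
  exact hml_congr _ _ _ (key c) (key e)

theorem length_hml_map {R B : Type} [CommRing R] [CommRing B] [Algebra R B]
    (hs : Function.Surjective (algebraMap R B)) {n : ℕ} (X : Type) [AddCommGroup X] [Module B X]
    [Module R X] [IsScalarTower R B X] (c e : Matrix (Fin n) (Fin n) R) :
    Module.length B (Hml (actM X (c.map (algebraMap R B))) (actM X (e.map (algebraMap R B)))) =
      Module.length R (Hml (actM X c) (actM X e)) := by
  have key : ∀ (c : Matrix (Fin n) (Fin n) R) (u : Fin n → X),
      actM X (c.map (algebraMap R B)) u = actM X c u := by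
    intro c u; ext i; simp [actM_apply]
  rw [← Module.length_eq_of_surjective (S := R) hs]
  let φ : LinearMap.ker (actM X (e.map (algebraMap R B))) ≃ₗ[R] LinearMap.ker (actM X e) :=
    { toFun := fun x => ⟨x.1, (key e x.1).symm.trans x.2⟩
      invFun := fun x => ⟨x.1, (key e x.1).trans x.2⟩
      map_add' := fun _ _ => rfl
      map_smul' := fun _ _ => rfl
      left_inv := fun _ => rfl
      right_inv := fun _ => rfl }
  refine LinearEquiv.length_eq ((Submodule.Quotient.restrictScalarsEquiv R _).symm ≪≫ₗ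
    Submodule.Quotient.equiv _ _ φ ?_)
  ext x
  constructor
  · rintro ⟨y, ⟨u, hu⟩, rfl⟩
    exact ⟨u, (key c u).symm.trans hu⟩
  · rintro ⟨u, hu⟩
    exact ⟨φ.symm x, ⟨u, (key c u).trans hu⟩, rfl⟩

theorem length_tor {A R B : Type} [CommRing A] [CommRing R] [CommRing B] [IsLocalRing A]
    [IsLocalRing B] [Algebra A B] [Module.Flat A B] [Algebra R B]
    (hm : (maximalIdeal A).map (algebraMap A B) = maximalIdeal B)
    (hs : Function.Surjective (algebraMap R B)) (X N : ModuleCat.{0} A) {n : ℕ}
    (c e : Matrix (Fin n) (Fin n) R) (ρ : (Fin n → B) →ₗ[B] B ⊗[A] N)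
    (hres : IsRes ρ (c.map (algebraMap R B)).mulVecLin (e.map (algebraMap R B)).mulVecLin
      (c.map (algebraMap R B)).mulVecLin)
    (Y : Type) [AddCommGroup Y] [Module B Y] [Module R Y] [IsScalarTower R B Y]
    (φ : B ⊗[A] X ≃ₗ[B] Y) :
    Module.length A (((Tor (ModuleCat.{0} A) 1).obj X).obj N) =
      Module.length R (Hml (actM Y e) (actM Y c)) ∧
    Module.length A (((Tor (ModuleCat.{0} A) 2).obj X).obj N) =
      Module.length R (Hml (actM Y c) (actM Y e)) := by
  have : IsLocalHom (algebraMap A B) :=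
    ((IsLocalRing.local_hom_TFAE (algebraMap A B)).out 0 2).mpr hm.le
  have hl : ∀ (T : Type) [AddCommGroup T] [Module A T],
      Module.length A T = Module.length B (B ⊗[A] T) := by
    intro T _ _
    rw [IsLocalRing.length_baseChange, hm]
    have : IsSimpleModule B (B ⧸ maximalIdeal B) :=
      isSimpleModule_iff_isCoatom.mpr (Ideal.isMaximal_def.mp inferInstance)
    rw [Module.length_eq_one B (B ⧸ maximalIdeal B), mul_one]
  let P := ProjectiveResolution.of N
  have hP := isRes_of_resolution N P
  obtain ⟨⟨e₁⟩, ⟨e₂⟩⟩ := (hP.baseChange B).hml_equiv hres (B ⊗[A] X)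
  have z₁ : (P.complex.d 1 0).hom.lTensor X ∘ₗ (P.complex.d 2 1).hom.lTensor X = 0 := by
    rw [← LinearMap.lTensor_comp, hP.e₁.linearMap_comp_eq_zero, LinearMap.lTensor_zero]
  have z₂ : (P.complex.d 2 1).hom.lTensor X ∘ₗ (P.complex.d 3 2).hom.lTensor X = 0 := by
    rw [← LinearMap.lTensor_comp, hP.e₂.linearMap_comp_eq_zero, LinearMap.lTensor_zero]
  constructor
  · rw [(tor_equiv X N P 0).some.length_eq, hl, (hml_baseChange B _ _ z₁).some.length_eq,
      (hml_lTensor_baseChange B X _ _).some.length_eq, e₁.length_eq,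
      (hml_lTensor_congr φ _ _).some.length_eq,
      (hml_lTensor_actM _ _ _).some.length_eq, length_hml_map hs]
  · rw [(tor_equiv X N P 1).some.length_eq, hl, (hml_baseChange B _ _ z₂).some.length_eq,
      (hml_lTensor_baseChange B X _ _).some.length_eq, e₂.length_eq,
      (hml_lTensor_congr φ _ _).some.length_eq,
      (hml_lTensor_actM _ _ _).some.length_eq, length_hml_map hs]

end Pool.Agent.P.MP_f43029_ag
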