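import Pool.Agent.P.MP_f43029_ag.Mat

/-! Canonical anticommutation relations and the Koszul complex.
Sketch. `(ext i * ext j) S T = ∑ U, ext i S U * ext j U T`, only `U = insert j T` contributes. Use
`sg {i} (insert j T) = sg {i} {j} * sg {i} T` (`sg_union_right`), `sg {i} {j} = -sg {j} {i}` for
`i ≠ j` (`sg_swap`, `sg_cases`), `sg_mul_self`. The relations for `con` are transposes. Alternatively
identify `ext i *ᵥ v` with left multiplication by `Gr.gen i`. `MF` for `Kos`: `Kos * Kos` is a double
sum, symmetric times antisymmetric (use `con i * con i = 0` and pair `(i,j)` with `(j,i)`, e.g. by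
induction on a finite set of indices); the homotopy for `X i` is `ext i`. -/

open Finset Matrix
open scoped Kronecker

noncomputable section

universe u

namespace Pool.Agent.Theta

variable {n : ℕ}

private theorem Car_ext (i : Fin n) (S T : Finset (Fin n)) :
    ext i S T = if i ∉ T ∧ S = insert i T then sg {i} T else 0 := rfl

private theorem Car_con (i : Fin n) (S T : Finset (Fin n)) :
    con i S T = if i ∉ S ∧ T = insert i S then sg {i} S else 0 := rfl

private theorem Car_mul_ext (A : Matrix (Finset (Fin n)) (Finset (Fin n)) ℤ) (j : Fin n)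
    (S T : Finset (Fin n)) :
    (A * ext j) S T = if j ∈ T then 0 else A S (insert j T) * sg {j} T := by
  rw [Matrix.mul_apply, sum_eq_single (insert j T)]
  · by_cases h : j ∈ T <;> simp [Car_ext, h]
  · intro U _ hU
    simp [Car_ext, hU]
  · simp

private theorem Car_mul_con (A : Matrix (Finset (Fin n)) (Finset (Fin n)) ℤ) (j : Fin n)
    (S T : Finset (Fin n)) :
    (A * con j) S T = if j ∈ T then A S (T.erase j) * sg {j} (T.erase j) else 0 := by
  rw [Matrix.mul_apply, sum_eq_single (T.erase j)]
  · by_cases h : j ∈ T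
    · rw [Car_con, if_pos ⟨notMem_erase j T, (insert_erase h).symm⟩, if_pos h]
    · rw [Car_con, if_neg (fun h' => h (by rw [h'.2]; exact mem_insert_self _ _)), if_neg h,
        mul_zero]
  · intro U _ hU
    rw [Car_con, if_neg (fun h' => hU (by rw [h'.2, erase_insert h'.1])), mul_zero]
  · simp

private theorem Car_sg_insert (i : Fin n) {j : Fin n} {T : Finset (Fin n)} (h : j ∉ T) :
    sg {i} (insert j T) = sg {i} {j} * sg {i} T := by
  rw [insert_eq, sg_union_right _ (disjoint_singleton_left.2 h)]

private theorem Car_sg_swap {i j : Fin n} (h : i ≠ j) : sg {i} {j} * sg {j} {i} = -1 := by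
  rw [sg_swap (disjoint_singleton.2 h)]
  simp

private theorem Car_sg_anti {i j : Fin n} (h : i ≠ j) : sg {i} {j} = -sg {j} {i} := by
  linear_combination sg {j} {i} * Car_sg_swap h - sg {i} {j} * sg_mul_self {j} {i}

private theorem Car_ext_con (i : Fin n) :
    ext i * con i = diagonal fun S : Finset (Fin n) => if i ∈ S then 1 else 0 := by
  ext S T
  rw [Car_mul_con, Car_ext, diagonal_apply]
  by_cases h : i ∈ T
  · by_cases hS : S = T
    · subst hS
      rw [if_pos h, if_pos ⟨notMem_erase i S, (insert_erase h).symm⟩, sg_mul_self, if_pos rfl,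
        if_pos h]
    · rw [if_pos h, if_neg (fun h' => hS (by rw [h'.2, insert_erase h])), zero_mul, if_neg hS]
  · by_cases hS : S = T
    · rw [if_neg h, if_pos hS, hS, if_neg h]
    · rw [if_neg h, if_neg hS]

private theorem Car_sq {S ι : Type*} [Ring S] (a : ι → S) (h1 : ∀ i, a i * a i = 0)
    (h2 : ∀ i j, a i * a j + a j * a i = 0) (s : Finset ι) :
    (∑ i ∈ s, a i) * ∑ i ∈ s, a i = 0 := by
  classical
  induction s using Finset.induction_on with
  | empty => simp
  | insert i s hi ih =>
    have h3 : a i * ∑ j ∈ s, a j + (∑ j ∈ s, a j) * a i = 0 := by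
      rw [mul_sum, sum_mul, ← sum_add_distrib]
      exact sum_eq_zero fun j _ => h2 i j
    rw [sum_insert hi, add_mul, mul_add, mul_add, h1, ih, zero_add, add_zero, h3]

private theorem Car_con_ext (i : Fin n) :
    con i * ext i = diagonal fun S : Finset (Fin n) => if i ∈ S then 0 else 1 := by
  ext S T
  rw [Car_mul_ext, Car_con, diagonal_apply]
  by_cases hS : S = T
  · subst hS
    by_cases h : i ∈ S
    · simp [h]
    · rw [if_neg h, if_pos ⟨h, rfl⟩, sg_mul_self, if_pos rfl, if_neg h]
  · by_cases h : i ∈ T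
    · rw [if_pos h, if_neg hS]
    · rw [if_neg h, if_neg (fun h' => hS (by rw [← erase_insert h, h'.2, erase_insert h'.1])),
        zero_mul, if_neg hS]

theorem ext_mul_ext_self (i : Fin n) : ext i * ext i = 0 := by
  ext S T
  rw [Car_mul_ext, Car_ext]
  simp

theorem ext_anticomm (i j : Fin n) : ext i * ext j + ext j * ext i = 0 := by
  by_cases hij : i = j
  · rw [hij, ext_mul_ext_self, add_zero]
  ext S T
  rw [Matrix.add_apply, Car_mul_ext, Car_mul_ext, Car_ext, Car_ext, Matrix.zero_apply]
  by_cases hi : i ∈ T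
  · simp [hi]
  by_cases hj : j ∈ T
  · simp [hj]
  rw [if_neg hi, if_neg hj, insert_comm j i]
  by_cases hS : S = insert i (insert j T)
  · rw [if_pos ⟨by simp [hi, hij], hS⟩, if_pos ⟨by simp [hj, Ne.symm hij], hS⟩,
      Car_sg_insert i hj, Car_sg_insert j hi, Car_sg_anti hij]
    ring
  · simp [hS]

theorem con_mul_con_self (i : Fin n) : con i * con i = 0 := by
  rw [con, ← transpose_mul, ext_mul_ext_self, transpose_zero]

theorem con_anticomm (i j : Fin n) : con i * con j + con j * con i = 0 := by
  rw [con, con, ← transpose_mul, ← transpose_mul, ← transpose_add, ext_anticomm, transpose_zero]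

theorem con_ext (i j : Fin n) : con i * ext j + ext j * con i = if i = j then 1 else 0 := by
  by_cases hij : i = j
  · subst hij
    rw [if_pos rfl, Car_ext_con, Car_con_ext, diagonal_add, ← diagonal_one]
    congr 1
    funext S
    split_ifs <;> simp
  rw [if_neg hij]
  ext S T
  rw [Matrix.add_apply, Car_mul_ext, Car_mul_con, Car_ext, Car_con, Matrix.zero_apply]
  by_cases hi : i ∈ T
  · obtain ⟨U, hU, rfl⟩ : ∃ U, i ∉ U ∧ T = insert i U :=
      ⟨T.erase i, notMem_erase i T, (insert_erase hi).symm⟩
    rw [if_pos hi, erase_insert hU, insert_comm j i]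
    by_cases hj : j ∈ U
    · simp [hj]
    have hi' : i ∉ insert j U := by simp [hU, hij]
    rw [if_neg (by simp [hj, Ne.symm hij])]
    by_cases hS : S = insert j U
    · subst hS
      rw [if_pos ⟨hi', rfl⟩, if_pos ⟨hj, rfl⟩, Car_sg_insert i hj, Car_sg_insert j hU]
      linear_combination sg {i} U * sg {j} U * Car_sg_swap hij
    · rw [if_neg (fun h => hS (by rw [← erase_insert hi', h.2, erase_insert h.1])),
        if_neg (fun h => hS h.2), zero_mul, zero_mul, add_zero]
  · have h1 : ¬(i ∉ S ∧ insert j T = insert i S) := fun h => by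
      have h2 : i ∈ insert j T := h.2 ▸ mem_insert_self i S
      simp [hi, hij] at h2
    rw [if_neg hi, if_neg h1]
    simp

theorem con_mul_ext_self (i : Fin n) :
    con i * ext i = diagonal fun S : Finset (Fin n) => if i ∈ S then 0 else 1 :=
  Car_con_ext i

theorem ext_ne_zero {i : Fin n} {S U : Finset (Fin n)} (h : ext i S U ≠ 0) :
    S.card = U.card + 1 := by
  rw [Car_ext] at h
  split_ifs at h with h1
  · rw [h1.2, card_insert_of_notMem h1.1]
  · exact absurd rfl h

theorem con_ne_zero {i : Fin n} {S U : Finset (Fin n)} (h : con i S U ≠ 0) :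
    S.card + 1 = U.card :=
  (ext_ne_zero (S := U) (U := S) h).symm

theorem od_ext (i : Fin n) : Od (eL n) (ext i) := by
  intro S U h
  by_contra h0
  refine h ?_
  rw [eL, eL, ext_ne_zero h0, pow_succ, mul_comm]

theorem od_con (i : Fin n) : Od (eL n) (con i) := by
  intro S U h
  by_contra h0
  refine h ?_
  rw [eL, eL, ← con_ne_zero h0, pow_succ, mul_comm _ (-1), ← mul_assoc]
  simp

theorem Kos_ext (k : Type*) [Field k] (i : Fin n) :
    Kos n k * (ext i).map (Int.castRingHom (PS n k)) +
      (ext i).map (Int.castRingHom (PS n k)) * Kos n k =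
      (MvPowerSeries.X i : PS n k) • (1 : Matrix (Finset (Fin n)) (Finset (Fin n)) (PS n k)) := by
  rw [Kos, sum_mul, mul_sum, ← sum_add_distrib, sum_eq_single i]
  · rw [smul_mul_assoc, mul_smul_comm, ← smul_add, ← Matrix.map_mul, ← Matrix.map_mul,
      ← Matrix.map_add _ (map_add _), con_ext, if_pos rfl, Matrix.map_one _ (map_zero _) (map_one _)]
  · intro j _ hj
    rw [smul_mul_assoc, mul_smul_comm, ← smul_add, ← Matrix.map_mul, ← Matrix.map_mul,
      ← Matrix.map_add _ (map_add _), con_ext, if_neg hj, Matrix.map_zero _ (map_zero _), smul_zero]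
  · simp

theorem mf_Kos (n : ℕ) (k : Type*) [Field k] : MF (eL n) (Kos n k) 0 := by
  refine ⟨fun S U h => ?_, ?_, 1, fun i => ⟨_, by rw [pow_one]; exact Kos_ext k i⟩⟩
  · rw [Kos, Matrix.sum_apply]
    refine sum_eq_zero fun i _ => ?_
    rw [Matrix.smul_apply, Matrix.map_apply, od_con i S U h, map_zero, smul_zero]
  · rw [zero_smul, Kos]
    refine Car_sq _ (fun i => ?_) (fun i j => ?_) _
    · rw [smul_mul_smul_comm, ← Matrix.map_mul, con_mul_con_self, Matrix.map_zero _ (map_zero _),
        smul_zero]
    · rw [smul_mul_smul_comm, smul_mul_smul_comm, mul_comm (MvPowerSeries.X j), ← smul_add,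
        ← Matrix.map_mul, ← Matrix.map_mul, ← Matrix.map_add _ (map_add _), con_anticomm,
        Matrix.map_zero _ (map_zero _), smul_zero]

theorem c0_Kos (n : ℕ) (k : Type*) [Field k] : c0 (Kos n k) = 0 := by
  ext S U
  rw [c0, Matrix.map_apply, Kos, Matrix.sum_apply, map_sum]
  refine sum_eq_zero fun i _ => ?_
  rw [Matrix.smul_apply, smul_eq_mul, map_mul, MvPowerSeries.constantCoeff_X, zero_mul]

end Pool.Agent.Theta
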