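import Pool.Agent.P.MP_f43029_ag.Co
import Pool.Agent.P.MP_f43029_ag.Mat

/-! Parity of the Chern character form.
Sketch. Call a matrix `Y` of forms totally even if `Y i j J = 0` unless `ε i * ε j = (-1) ^ |J|`; such
matrices are closed under products (`Matrix.mul_apply`, `Gr.sum_apply`, `Gr.mul_apply`; `ε l * ε l = 1`), and contain `1` and
`curv u ε A φ` (`A * A` is even by `Par.mul`, `dO (of0 c)` has degree one by `Gr.proj_one_dd_of0`). -/

open Finset Matrix
open scoped Kronecker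

noncomputable section

universe u

namespace Pool.Agent.Theta

variable {n : ℕ} {K : Type*} [CommRing K] [Algebra ℚ K]
variable {ι κ : Type*} [Fintype ι] [DecidableEq ι] [Fintype κ] [DecidableEq κ]

section generic

variable {G C : Type*} [Fintype G] [DecidableEq G] [CommRing C] {ε : ι → ℤˣ}

/-- Totally even matrices of forms. -/
def ChernA_Te (ε : ι → ℤˣ) (Y : Matrix ι ι (Gr G C)) : Prop :=
  ∀ i j J, ε i * ε j ≠ (-1) ^ J.card → Y i j J = 0

omit [Fintype ι] in
theorem ChernA_one : ChernA_Te ε (1 : Matrix ι ι (Gr G C)) := by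
  intro i j J h
  rw [one_apply]
  split_ifs with e
  · subst e
    refine if_neg fun e => h ?_
    rw [e, Int.units_mul_self, card_empty, pow_zero]
  · rfl

omit [DecidableEq ι] in
theorem ChernA_mul {Y Z : Matrix ι ι (Gr G C)} (hY : ChernA_Te ε Y) (hZ : ChernA_Te ε Z) :
    ChernA_Te ε (Y * Z) := by
  intro i j J h
  rw [mul_apply, Gr.sum_apply]
  refine sum_eq_zero fun l _ => ?_
  rw [Gr.mul_apply]
  refine sum_eq_zero fun T hT => ?_
  by_cases h1 : ε i * ε l = (-1) ^ T.card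
  · rw [hZ l j (J \ T) fun h2 => h ?_, mul_zero, mul_zero]
    rw [← card_sdiff_add_card_eq_card (mem_powerset.1 hT), pow_add, ← h1, ← h2,
      mul_comm (ε l * ε j), mul_assoc, ← mul_assoc (ε l), Int.units_mul_self, one_mul]
  · rw [hY i l T h1, zero_mul, mul_zero]

theorem ChernA_pow {Y : Matrix ι ι (Gr G C)} (hY : ChernA_Te ε Y) (m : ℕ) :
    ChernA_Te ε (Y ^ m) := by
  induction m with
  | zero => exact ChernA_one
  | succ m ih => exact pow_succ Y m ▸ ChernA_mul ih hY

end generic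

omit [Algebra ℚ K] in
theorem ChernA_curv (u : Kˣ) {ε : ι → ℤˣ} {A : Matrix ι ι (Co n K)} (hA : Od ε A) (φ : Co n K) :
    ChernA_Te ε (curv u ε A φ) := by
  intro i j J h
  change (Gr.of0 ((A * A) i j - φ * (1 : Matrix ι ι (Co n K)) i j) : Om n K) J +
    cst (u : K) * ((ε i : ℤ) • dO (Gr.of0 (A i j)) J) = 0
  have h1 : (Gr.of0 ((A * A) i j - φ * (1 : Matrix ι ι (Co n K)) i j) : Om n K) J = 0 := by
    rw [Gr.of0_apply]
    split_ifs with e
    · subst e
      have h2 : ε i ≠ ε j := fun e => h (by rw [e, Int.units_mul_self, card_empty, pow_zero])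
      rw [Par.mul hA hA i j (by simpa using h2), one_apply_ne fun e => h2 (congrArg ε e), mul_zero,
        sub_zero]
    · rfl
  have h2 : dO (Gr.of0 (A i j)) J = 0 := by
    rw [dO, ← Gr.proj_one_dd_of0, Gr.proj_apply]
    split_ifs with e
    · rw [hA i j fun h3 => h (by rw [h3, e, mul_assoc, Int.units_mul_self, mul_one, pow_one]),
        map_zero, map_zero]
      rfl
    · rfl
  rw [h1, h2, smul_zero, mul_zero, add_zero]

theorem curv_pow_apply_eq_zero (u : Kˣ) {ε : ι → ℤˣ} {A : Matrix ι ι (Co n K)} (hA : Od ε A)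
    (φ : Co n K) (m : ℕ) (i j : ι) (J : Finset (Gen n)) (h : ε i * ε j ≠ (-1) ^ J.card) :
    (curv u ε A φ ^ m) i j J = 0 :=
  ChernA_pow (ChernA_curv u hA φ) m i j J h

theorem inv_curv_pow (u : Kˣ) {ε : ι → ℤˣ} {A : Matrix ι ι (Co n K)} (hA : Od ε A)
    (φ : Co n K) (m : ℕ) (i j : ι) : Gr.inv ((curv u ε A φ ^ m) i j) =
      ((ε i * ε j : ℤˣ) : ℤ) • (curv u ε A φ ^ m) i j := by
  refine Gr.ext fun J => ?_
  rw [Gr.inv_apply, Gr.zsmul_apply]
  by_cases h : ε i * ε j = (-1) ^ J.card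
  · rw [h, zsmul_eq_mul]
    simp
  · rw [curv_pow_apply_eq_zero u hA φ m i j J h, mul_zero, smul_zero]

theorem ev_ch (u : Kˣ) {ε : ι → ℤˣ} {A : Matrix ι ι (Co n K)} (hA : Od ε A) (φ : Co n K) (m : ℕ) :
    Ev (ch u ε A φ m) := by
  intro J hJ
  rw [ch, Gr.smul_apply, str, Gr.sum_apply, sum_eq_zero fun i _ => ?_, mul_zero]
  rw [Gr.zsmul_apply, curv_pow_apply_eq_zero u hA φ m i i J ?_, smul_zero]
  rw [Int.units_mul_self, hJ.neg_one_pow]
  decide

end Pool.Agent.Theta
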