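import Pool.Agent.P.MP_f43029_ag.Co

/-! Operations on closed sequences.
Sketch. `closed_conv`: `Gr.dd_mul`, `Gr.inv_of_ev`, `Finset.Nat.antidiagonal_succ` and
`antidiagonal_succ'` (or `Finset.Nat.sum_antidiagonal_succ`, `sum_antidiagonal_succ'`); an even form commutes
with `dO (of0 φ')` (`Gr.comm_of_ev`). `closed_proj`: `Gr.proj_succ_dd`, `Gr.proj_succ_mul`,
`Gr.proj_one_dd_of0`, `Gr.proj_smul`. -/

open Finset Matrix
open scoped Kronecker

noncomputable section

universe u

namespace Pool.Agent.Theta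

variable {n : ℕ} {K : Type*} [CommRing K]

private theorem chernB_sub (b : Bool) :
    (JV fun _ : Fin n => b) ⊆ killed (patS (fun _ => !b) .zero) := by
  intro x hx
  obtain ⟨i, -, rfl⟩ := mem_image.1 hx
  refine mem_image.2 ⟨_, mem_filter.2 ⟨mem_univ _, .inl ?_⟩, rfl⟩
  cases b <;> rfl

private theorem chernB_zero {pat : Var n → Mode} {ω : Om n K} (h : evO pat ω = ω)
    {T : Finset (Gen n)} (hT : ¬ Disjoint T (killed pat)) : ω T = 0 := by
  rw [← h]
  exact if_neg hT

theorem closed_conv {u : Kˣ} {φ φ' : Co n K} {ω ω' : ℕ → Om n K} (h : Closed u φ ω)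
    (he : ∀ m, Ev (ω m)) (h' : Closed u φ' ω') : Closed u (φ + φ') (conv ω ω') := by
  have e : ∀ m, dO (conv ω ω' m) = ∑ x ∈ antidiagonal m, dO (ω x.1) * ω' x.2 +
      ∑ x ∈ antidiagonal m, ω x.1 * dO (ω' x.2) := fun m => by
    rw [conv, map_sum, ← sum_add_distrib]
    exact sum_congr rfl fun x _ => by rw [dO, Gr.dd_mul (isDer_der (n := n) (K := K)), Gr.inv_of_ev (he _)]
  refine ⟨by simp [e, h.1, h'.1], fun m => ?_⟩
  rw [e, Finset.Nat.sum_antidiagonal_succ, Finset.Nat.sum_antidiagonal_succ', h.1, h'.1, zero_mul,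
    mul_zero, zero_add, zero_add, map_add, map_add, add_mul, smul_add, conv, mul_sum, mul_sum,
    smul_sum, smul_sum]
  refine congrArg₂ _ (sum_congr rfl fun x _ => ?_) (sum_congr rfl fun x _ => ?_)
  · rw [h.2, smul_mul_assoc, mul_assoc]
  · rw [h'.2, mul_smul_comm, ← mul_assoc, Gr.comm_of_ev (he _), mul_assoc]

theorem closed_proj {u : Kˣ} {φ : Co n K} {ω : ℕ → Om n K} (h : Closed u φ ω) (r : ℕ) :
    Closed u φ fun m => Gr.proj r (ω m) := by
  refine ⟨?_, fun m => ?_⟩
  · rw [dO, ← Gr.proj_succ_dd, ← dO, h.1, map_zero]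
  · rw [dO, ← Gr.proj_succ_dd, ← dO, h.2, Gr.proj_smul, dO,
      Gr.proj_succ_mul (Gr.proj_one_dd_of0 _ _)]

/-- A product whose second factor has no `ds` of family `b` and whose first factor has too small
a degree has no top component. -/
theorem mul_top_eq_zero_of_lt (b : Bool) {a : ℕ} (ha : a < n) (ω ω' : Om n K)
    (h' : evO (patS (fun _ => !b) .zero) ω' = ω') :
    (Gr.proj a ω * ω' : Om n K) (JX n ∪ JV fun _ => b) = 0 := by
  rw [Gr.mul_apply]
  refine sum_eq_zero fun T _ => ?_
  rw [Gr.proj_apply]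
  split_ifs with hT
  · rw [chernB_zero h', mul_zero, mul_zero]
    intro hd
    have h1 : (JV fun _ : Fin n => b) ⊆ T := fun x hx => by
      by_contra hx'
      exact disjoint_left.1 hd (mem_sdiff.2 ⟨mem_union_right _ hx, hx'⟩) (chernB_sub b hx)
    have h2 := card_le_card h1
    rw [JV, card_image_of_injective _ (fun i j e => by simpa using e), card_fin] at h2
    omega
  · rw [zero_mul, mul_zero]

/-- A product whose first factor has no `ds` of family `b` and too large a degree has no top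
component. -/
theorem mul_top_eq_zero_of_gt (b : Bool) {a : ℕ} (ha : n < a) (ω ω' : Om n K)
    (h : evO (patS (fun _ => !b) .zero) ω = ω) :
    (Gr.proj a ω * ω' : Om n K) (JX n ∪ JV fun _ => b) = 0 := by
  rw [Gr.mul_apply]
  refine sum_eq_zero fun T hJ => ?_
  rw [Gr.proj_apply]
  split_ifs with hT
  · rw [chernB_zero h, zero_mul, mul_zero]
    intro hd
    have h1 : T ⊆ JX n := fun x hx => (mem_union.1 (mem_powerset.1 hJ hx)).resolve_right
      fun hx' => disjoint_left.1 hd hx (chernB_sub b hx')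
    have h2 := (card_le_card h1).trans card_image_le
    rw [card_fin] at h2
    omega
  · rw [zero_mul, mul_zero]

end Pool.Agent.Theta
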