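import Pool.Agent.P.MP_f43029_ag.ChernA

/-! Multiplicativity of the Chern character form.
Sketch. Let `G`, `G'` be the curvatures. Over the noncommutative ring of forms define
`X (i,a) (j,b) = if a = b then (if ε' a = 1 then G i j else inv (G i j)) else 0` and
`Y (i,a) (j,b) = if i = j then G' a b else 0`. Then `curv (tE ε ε') (tD ε A A') (φ+φ') = X + Y`
(`tD_mul_tD`; `inv` fixes zero-forms and negates one-forms; `dO (of0 (integer * c))`), `X` and `Y`
commute (an entry of `G` is `of0 c + ω` with `ω` a one-form, `ω * g = inv g * ω`, and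
`inv (G' a b) = ε' a * ε' b * G' a b` by `curv_pow_apply_eq_zero` with `m = 1`). `X ^ p` and `Y ^ q` have the same shape
with `G ^ p`, `G' ^ q`; the diagonal entries of `G ^ p` are even, so
`str (X ^ p * Y ^ q) = str (G ^ p) * str (G' ^ q)`. Finish with `Commute.add_pow'` and
`Nat.add_choose_mul_factorial_mul_factorial`. -/

open Finset Matrix
open scoped Kronecker

noncomputable section

universe u

namespace Pool.Agent.Theta

variable {n : ℕ} {K : Type*} [CommRing K] [Algebra ℚ K]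
variable {ι κ : Type*} [Fintype ι] [DecidableEq ι] [Fintype κ] [DecidableEq κ]

section Aux

variable {R : Type*} [Ring R]

/-- A family of matrices acting on the first factor. -/
private def chX (M : κ → Matrix ι ι R) : Matrix (ι × κ) (ι × κ) R :=
  Matrix.of fun x y => if x.2 = y.2 then M x.2 x.1 y.1 else 0

/-- A matrix acting on the second factor. -/
private def chY (ι : Type*) [DecidableEq ι] (N : Matrix κ κ R) : Matrix (ι × κ) (ι × κ) R :=
  Matrix.of fun x y => if x.1 = y.1 then N x.2 y.2 else 0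

private theorem chX_pow (M : κ → Matrix ι ι R) (p : ℕ) : chX M ^ p = chX fun a => M a ^ p := by
  induction p with
  | zero =>
    ext ⟨i, a⟩ ⟨j, b⟩
    simp only [pow_zero, chX, of_apply, Matrix.one_apply, Prod.mk.injEq]
    by_cases h : a = b <;> simp [h]
  | succ p ih =>
    ext ⟨i, a⟩ ⟨j, b⟩
    rw [pow_succ, ih]
    simp only [pow_succ, chX, of_apply, Matrix.mul_apply, Fintype.sum_prod_type, ite_mul,
      zero_mul, sum_ite_eq, mem_univ, if_true]
    by_cases h : a = b <;> simp [h]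

private theorem chY_pow (N : Matrix κ κ R) (p : ℕ) : chY ι N ^ p = chY ι (N ^ p) := by
  induction p with
  | zero =>
    ext ⟨i, a⟩ ⟨j, b⟩
    simp only [pow_zero, chY, of_apply, Matrix.one_apply, Prod.mk.injEq]
    by_cases h : i = j <;> simp [h]
  | succ p ih =>
    ext ⟨i, a⟩ ⟨j, b⟩
    rw [pow_succ, ih]
    simp only [pow_succ, chY, of_apply, Matrix.mul_apply, Fintype.sum_prod_type_right, ite_mul,
      zero_mul, sum_ite_eq, mem_univ, if_true]
    by_cases h : i = j <;> simp [h]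

private theorem chX_mul_chY (M : κ → Matrix ι ι R) (N : Matrix κ κ R) (x y : ι × κ) :
    (chX M * chY ι N) x y = M x.2 x.1 y.1 * N x.2 y.2 := by
  simp only [chX, chY, of_apply, Matrix.mul_apply, Fintype.sum_prod_type_right, ite_mul,
    zero_mul, sum_ite_eq, mem_univ, if_true, mul_ite, mul_zero, sum_ite_eq']

private theorem chY_mul_chX (M : κ → Matrix ι ι R) (N : Matrix κ κ R) (x y : ι × κ) :
    (chY ι N * chX M) x y = N x.2 y.2 * M y.2 x.1 y.1 := by
  simp only [chX, chY, of_apply, Matrix.mul_apply, Fintype.sum_prod_type, ite_mul,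
    zero_mul, sum_ite_eq, mem_univ, if_true, mul_ite, mul_zero, sum_ite_eq']

end Aux

/-- The identity or the parity involution. -/
private def chW (e : ℤˣ) : Om n K →+* Om n K := if e = 1 then RingHom.id _ else Gr.inv

omit [Algebra ℚ K] in
private theorem chW_fix (e : ℤˣ) {a : Om n K} (h : Gr.inv a = a) : chW e a = a := by
  unfold chW
  split_ifs
  · rfl
  · exact h

omit [Algebra ℚ K] in
private theorem chW_one (e : ℤˣ) {a : Om n K} (h : Gr.proj 1 a = a) : chW e a = (e : ℤ) • a := by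
  unfold chW
  rcases Int.units_eq_one_or e with rfl | rfl
  · simp
  · rw [if_neg (by decide), Gr.inv_of_deg_one h]
    simp

omit [Algebra ℚ K] in
private theorem ch_proj (c x : Co n K) (e : ℤ) :
    Gr.proj 1 (c • (e • dO (Gr.of0 x : Om n K))) = c • (e • dO (Gr.of0 x : Om n K)) := by
  rw [Gr.proj_smul, map_zsmul]
  unfold dO
  rw [Gr.proj_one_dd_of0]

omit [Algebra ℚ K] in
private theorem chW_curv (e : ℤˣ) (u : Kˣ) (ε : ι → ℤˣ) (A : Matrix ι ι (Co n K)) (φ : Co n K)
    (i j : ι) : chW e (curv u ε A φ i j) = Gr.of0 ((A * A - φ • (1 : Matrix ι ι (Co n K))) i j) +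
      (e : ℤ) • ((cst (u : K) : Co n K) • ((ε i : ℤ) • dO (Gr.of0 (A i j)))) := by
  unfold curv
  rw [Matrix.add_apply, map_add, Matrix.map_apply, of_apply,
    chW_fix e (Gr.inv_of0 ((A * A - φ • (1 : Matrix ι ι (Co n K))) i j)),
    chW_one e (ch_proj (cst (u : K)) (A i j) (ε i))]

omit [Algebra ℚ K] in
private theorem curv_tens (u : Kˣ) {ε : ι → ℤˣ} (ε' : κ → ℤˣ) {A : Matrix ι ι (Co n K)}
    (A' : Matrix κ κ (Co n K)) (hA : Od ε A) (φ φ' : Co n K) :
    curv u (tE ε ε') (tD ε A A') (φ + φ') =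
      chX (fun a => (chW (ε' a)).mapMatrix (curv u ε A φ)) + chY ι (curv u ε' A' φ') := by
  ext1 x y
  obtain ⟨i, a⟩ := x
  obtain ⟨j, b⟩ := y
  have h1 : tD ε A A' (i, a) (j, b) = (if a = b then A i j else 0) +
      if i = j then (ε i : ℤ) • A' a b else 0 := by
    simp only [tD, Gam, Matrix.add_apply, kroneckerMap_apply, Matrix.one_apply, diagonal_apply,
      mul_ite, mul_one, mul_zero, ite_mul, zero_mul, zsmul_eq_mul]
  have h2 : (tD ε A A' * tD ε A A' - (φ + φ') • (1 : Matrix (ι × κ) (ι × κ) (Co n K))) (i, a) (j, b) =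
      (if a = b then (A * A - φ • (1 : Matrix ι ι (Co n K))) i j else 0) +
        if i = j then (A' * A' - φ' • (1 : Matrix κ κ (Co n K))) a b else 0 := by
    rw [tD_mul_tD hA]
    simp only [Matrix.add_apply, Matrix.sub_apply, Matrix.smul_apply, kroneckerMap_apply,
      Matrix.one_apply, Prod.mk.injEq, smul_eq_mul]
    by_cases h : a = b <;> by_cases h' : i = j <;> simp [h, h']
    ring
  have h3 : ((ε i : ℤ) * ε' a) * ε i = ε' a := by
    rw [mul_right_comm, Int.units_coe_mul_self, one_mul]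
  rw [Matrix.add_apply]
  simp only [chX, chY, of_apply, RingHom.mapMatrix_apply, Matrix.map_apply, chW_curv]
  rw [curv, curv, Matrix.add_apply, Matrix.add_apply, Matrix.map_apply, Matrix.map_apply, of_apply,
    of_apply, h1, h2]
  simp only [tE, Units.val_mul, map_add, smul_add, apply_ite, map_zero, smul_zero, map_zsmul,
    smul_smul (((ε i : ℤˣ) : ℤ) * ε' a), h3]
  have h4 : ∀ ω : Om n K, (cst (u : K) : Co n K) • (((ε i : ℤˣ) : ℤ) * ε' a) • ω =
      ((ε' a : ℤˣ) : ℤ) • (cst (u : K) : Co n K) • ((ε i : ℤˣ) : ℤ) • ω := fun ω => by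
    rw [mul_comm, mul_smul, smul_comm]
  rw [h4]
  split_ifs <;> abel

private theorem chX_comm (u : Kˣ) (ε : ι → ℤˣ) {ε' : κ → ℤˣ} (A : Matrix ι ι (Co n K))
    {A' : Matrix κ κ (Co n K)} (hA' : Od ε' A') (φ φ' : Co n K) :
    Commute (chX (fun a => (chW (ε' a)).mapMatrix (curv u ε A φ))) (chY ι (curv u ε' A' φ')) := by
  ext1 x y
  rw [chX_mul_chY, chY_mul_chX]
  simp only [RingHom.mapMatrix_apply, Matrix.map_apply, chW_curv]
  have h := inv_curv_pow u hA' φ' 1 x.2 y.2
  rw [pow_one] at h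
  rw [add_mul, mul_add, Gr.of0_mul, Gr.mul_of0, smul_mul_assoc, mul_smul_comm,
    Gr.comm_of_deg_one (ch_proj (cst (u : K)) (A x.1 y.1) (ε x.1)), h, smul_mul_assoc,
    smul_smul, Units.val_mul, ← mul_assoc, Int.units_coe_mul_self, one_mul]

private theorem str_chX_chY (u : Kˣ) {ε : ι → ℤˣ} (ε' : κ → ℤˣ) {A : Matrix ι ι (Co n K)}
    (hA : Od ε A) (φ : Co n K) (N : Matrix κ κ (Om n K)) (p q : ℕ) :
    str (tE ε ε') (chX (fun a => (chW (ε' a)).mapMatrix (curv u ε A φ)) ^ p * chY ι N ^ q) =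
      str ε (curv u ε A φ ^ p) * str ε' (N ^ q) := by
  unfold str
  rw [chX_pow, chY_pow, sum_mul_sum, Fintype.sum_prod_type]
  refine sum_congr rfl fun i _ => sum_congr rfl fun a _ => ?_
  have h := inv_curv_pow u hA φ p i i
  rw [Int.units_mul_self, Units.val_one, one_smul] at h
  rw [chX_mul_chY, ← map_pow, RingHom.mapMatrix_apply, Matrix.map_apply, chW_fix _ h,
    smul_mul_smul_comm, tE, Units.val_mul]

omit [Algebra ℚ K] [DecidableEq ι] in
private theorem str_sum_nsmul {α : Type*} (ε : ι → ℤˣ) (s : Finset α) (c : α → ℕ)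
    (G : α → Matrix ι ι (Om n K)) : str ε (∑ x ∈ s, c x • G x) = ∑ x ∈ s, c x • str ε (G x) := by
  unfold str
  simp only [Matrix.sum_apply, Matrix.smul_apply, smul_sum]
  rw [sum_comm]
  exact sum_congr rfl fun x _ => sum_congr rfl fun i _ => smul_comm _ _ _

theorem ch_tens (u : Kˣ) {ε : ι → ℤˣ} {ε' : κ → ℤˣ} {A : Matrix ι ι (Co n K)}
    {A' : Matrix κ κ (Co n K)} (hA : Od ε A) (hA' : Od ε' A') (φ φ' : Co n K) :
    ch u (tE ε ε') (tD ε A A') (φ + φ') = conv (ch u ε A φ) (ch u ε' A' φ') := by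
  funext m
  unfold conv ch
  rw [curv_tens u ε' A' hA, (chX_comm u ε A hA' φ φ').add_pow', str_sum_nsmul, smul_sum]
  refine sum_congr rfl fun x hx => ?_
  obtain ⟨p, q⟩ := x
  obtain rfl : p + q = m := mem_antidiagonal.1 hx
  rw [str_chX_chY u ε' hA, smul_mul_smul_comm, ← Nat.cast_smul_eq_nsmul (Co n K), smul_smul,
    ← map_mul, ← map_natCast (cst : K →+* Co n K), ← map_mul]
  have h1 : (((p + q).factorial : ℚ))⁻¹ * ((p + q).choose p : ℕ) =
      (p.factorial : ℚ)⁻¹ * (q.factorial : ℚ)⁻¹ := by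
    have h2 := Nat.add_choose_mul_factorial_mul_factorial q p
    rw [add_comm q p] at h2
    rw [← h2]
    have h3 : (((p + q).choose p : ℕ) : ℚ) ≠ 0 :=
      Nat.cast_ne_zero.2 (Nat.choose_pos (Nat.le_add_right p q)).ne'
    push_cast
    field_simp
  have h4 : (-((u⁻¹ : Kˣ) : K)) ^ (p + q) * algebraMap ℚ K (((p + q).factorial : ℚ)⁻¹) *
      ((p + q).choose p : ℕ) =
      (-((u⁻¹ : Kˣ) : K)) ^ p * algebraMap ℚ K ((p.factorial : ℚ)⁻¹) *
        ((-((u⁻¹ : Kˣ) : K)) ^ q * algebraMap ℚ K ((q.factorial : ℚ)⁻¹)) := by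
    rw [mul_assoc, ← map_natCast (algebraMap ℚ K), ← map_mul, h1, map_mul, pow_add]
    ring
  rw [h4]

end Pool.Agent.Theta
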