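import Pool.Agent.P.MP_f43029_ag.GrB

/-! The coefficient ring: derivatives and substitution.
Sketch. `coeff_pdx` is `AddMonoidAlgebra.coeff_map` (unfold `pdx`). For Leibniz rules use
`MvPolynomial.ext`, `MvPolynomial.coeff_mul` and `Derivation.leibniz`; alternatively
`MvPolynomial.induction_on`. Commutation of `MvPowerSeries.pderiv i` and `j`: compare coefficients
(`MvPowerSeries.coeff_pderiv` or the lemma of Mathlib/RingTheory/MvPowerSeries/Derivative.lean).
`der_sub`: induction on the polynomial (`MvPolynomial.induction_on`: C, add, mul X). -/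

open Finset Matrix
open scoped Kronecker

noncomputable section

universe u

namespace Pool.Agent.Theta

variable {n : ℕ} {K : Type*} [CommRing K]

theorem coeff_pdx (i : Fin n) (g : Co n K) (a : Var n →₀ ℕ) :
    MvPolynomial.coeff a (pdx i g) = MvPowerSeries.pderiv K i (MvPolynomial.coeff a g) := rfl

private theorem Co_swap {σ R : Type*} [CommRing R] (F : (σ →₀ ℕ) → R) (a : σ →₀ ℕ) (i j : σ) :
    F (a + Finsupp.single i 1 + Finsupp.single j 1) *
        (((a + Finsupp.single i 1 : σ →₀ ℕ) j : R) + 1) * ((a i : R) + 1) =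
      F (a + Finsupp.single j 1 + Finsupp.single i 1) *
        (((a + Finsupp.single j 1 : σ →₀ ℕ) i : R) + 1) * ((a j : R) + 1) := by
  by_cases h : i = j
  · rw [h]
  · rw [add_right_comm a, Finsupp.add_apply, Finsupp.add_apply, Finsupp.single_eq_of_ne h,
      Finsupp.single_eq_of_ne (Ne.symm h), add_zero, add_zero, mul_right_comm]

private theorem Co_mixed (i : Fin n) (v : Var n) (g : Co n K) :
    pdx i (MvPolynomial.pderiv v g) = MvPolynomial.pderiv v (pdx i g) := by
  refine MvPolynomial.ext _ _ fun a => ?_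
  rw [coeff_pdx, MvPolynomial.coeff_pderiv, MvPolynomial.coeff_pderiv, coeff_pdx,
    ← Nat.cast_succ, ← nsmul_eq_mul', ← nsmul_eq_mul', map_nsmul]

theorem isDer_der : IsDer (der : Gen n → Co n K →+ Co n K) := by
  classical
  constructor
  · rintro (i | v) a b
    · change pdx i (a * b) = pdx i a * b + a * pdx i b
      refine MvPolynomial.ext _ _ fun m => ?_
      simp only [coeff_pdx, MvPolynomial.coeff_add, MvPolynomial.coeff_mul, map_sum,
        Derivation.leibniz, smul_eq_mul, ← sum_add_distrib]
      exact sum_congr rfl fun x _ => by ring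
    · exact MvPolynomial.pderiv_mul
  · rintro (i | v) (j | w) a
    · change pdx i (pdx j a) = pdx j (pdx i a)
      refine MvPolynomial.ext _ _ fun m => MvPowerSeries.ext fun d => ?_
      simp only [coeff_pdx, MvPowerSeries.coeff_pderiv]
      exact Co_swap (fun d => MvPowerSeries.coeff d (MvPolynomial.coeff m a)) d i j
    · exact Co_mixed i w a
    · exact (Co_mixed j v a).symm
    · change MvPolynomial.pderiv v (MvPolynomial.pderiv w a) =
        MvPolynomial.pderiv w (MvPolynomial.pderiv v a)
      refine MvPolynomial.ext _ _ fun m => ?_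
      simp only [MvPolynomial.coeff_pderiv]
      exact Co_swap (fun d => MvPolynomial.coeff d a) m v w

theorem der_inl_C (i : Fin n) (g : PS n K) :
    der (Sum.inl i) (MvPolynomial.C g : Co n K) = MvPolynomial.C (MvPowerSeries.pderiv K i g) := by
  classical
  refine MvPolynomial.ext _ _ fun m => (coeff_pdx i _ m).trans ?_
  rw [MvPolynomial.coeff_C, MvPolynomial.coeff_C]
  split_ifs
  · rfl
  · exact map_zero _

theorem der_inr_C (v : Var n) (g : PS n K) : der (Sum.inr v) (MvPolynomial.C g : Co n K) = 0 :=
  MvPolynomial.pderiv_C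

theorem der_cst (v : Gen n) (c : K) : der v (cst c : Co n K) = 0 := by
  have e : (cst c : Co n K) = MvPolynomial.C (algebraMap K (PS n K) c) := rfl
  rw [e]
  rcases v with i | v
  · rw [der_inl_C, Derivation.map_algebraMap, map_zero]
  · exact der_inr_C v _

theorem der_inl_X (i : Fin n) (v : Var n) :
    der (Sum.inl i) (MvPolynomial.X v : Co n K) = 0 := by
  classical
  refine MvPolynomial.ext _ _ fun m => (coeff_pdx i _ m).trans ?_
  rw [MvPolynomial.coeff_X', MvPolynomial.coeff_zero]
  split_ifs
  · exact Derivation.map_one_eq_zero _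
  · exact map_zero _

theorem der_inr_X (v v' : Var n) :
    der (Sum.inr v) (MvPolynomial.X v' : Co n K) = if v = v' then 1 else 0 := by
  split_ifs with h
  · subst h
    exact MvPolynomial.pderiv_X_self v
  · exact MvPolynomial.pderiv_X_of_ne (Ne.symm h)

private theorem Co_inl_psiB (i : Fin n) (b : Bool) (N : Fin n → ℕ) :
    der (Sum.inl i) (psiB b N : Co n K) = MvPolynomial.X (some (i, b)) *
      MvPolynomial.C ((N i : PS n K) * MvPowerSeries.X i ^ (N i - 1)) := by
  rw [psiB, map_sum, sum_eq_single i]
  · rw [(isDer_der (n := n) (K := K)).leib, der_inl_X, der_inl_C, zero_mul, zero_add, MvPowerSeries.pderiv_pow,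
      MvPowerSeries.pderiv_X_self, mul_one]
  · intro j _ hj
    rw [(isDer_der (n := n) (K := K)).leib, der_inl_X, der_inl_C, zero_mul, zero_add, MvPowerSeries.pderiv_pow,
      MvPowerSeries.pderiv_X_of_ne hj, mul_zero, map_zero, mul_zero]
  · exact fun h => absurd (mem_univ i) h

private theorem Co_inr_psiB (v : Var n) (b : Bool) (N : Fin n → ℕ) :
    der (Sum.inr v) (psiB b N : Co n K) =
      ∑ i, if v = some (i, b) then MvPolynomial.C (MvPowerSeries.X i ^ N i) else 0 := by
  rw [psiB, map_sum]
  refine sum_congr rfl fun i _ => ?_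
  rw [(isDer_der (n := n) (K := K)).leib, der_inr_X, der_inr_C, mul_zero, add_zero, ite_mul, one_mul, zero_mul]

theorem der_inl_psi (i : Fin n) (N : Fin n × Bool → ℕ) :
    der (Sum.inl i) (psi N : Co n K) = ∑ b : Bool, MvPolynomial.X (some (i, b)) *
      MvPolynomial.C ((N (i, b) : PS n K) * MvPowerSeries.X i ^ (N (i, b) - 1)) := by
  rw [psi, map_add, Co_inl_psiB, Co_inl_psiB, Fintype.sum_bool, add_comm]

theorem der_some_psi (x : Fin n × Bool) (N : Fin n × Bool → ℕ) :
    der (Sum.inr (some x)) (psi N : Co n K) = MvPolynomial.C (MvPowerSeries.X x.1 ^ N x) := by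
  obtain ⟨i, b⟩ := x
  rw [psi, map_add, Co_inr_psiB, Co_inr_psiB]
  cases b <;> simp

theorem der_none_psi (N : Fin n × Bool → ℕ) : der (Sum.inr none) (psi N : Co n K) = 0 := by
  rw [psi, map_add, Co_inr_psiB, Co_inr_psiB]
  simp

theorem sub_C (pat : Var n → Mode) (g : PS n K) :
    sub pat (MvPolynomial.C g : Co n K) = MvPolynomial.C g :=
  MvPolynomial.eval₂Hom_C _ _ g

theorem sub_cst (pat : Var n → Mode) (c : K) : sub pat (cst c : Co n K) = cst c :=
  sub_C pat (algebraMap K (PS n K) c)

theorem sub_X (pat : Var n → Mode) (v : Var n) : sub pat (MvPolynomial.X v : Co n K) =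
    if pat v = .zero then 0 else if pat v = .one then 1 else MvPolynomial.X v :=
  MvPolynomial.eval₂Hom_X' _ _ v

private theorem Co_inl_killed (pat : Var n → Mode) (i : Fin n) :
    (Sum.inl i : Gen n) ∉ killed pat := by
  simp [killed]

private theorem Co_inr_killed (pat : Var n → Mode) (v : Var n) :
    (Sum.inr v : Gen n) ∈ killed pat ↔ pat v = .zero ∨ pat v = .one := by
  simp [killed]

private theorem Co_der_one (v : Gen n) : der v (1 : Co n K) = 0 := by
  rw [← map_one (cst : K →+* Co n K), der_cst]

private theorem Co_sub_X (pat : Var n → Mode) (v : Gen n) (w : Var n) :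
    der v (sub pat (MvPolynomial.X w : Co n K)) =
      if v ∈ killed pat then 0 else sub pat (der v (MvPolynomial.X w)) := by
  rw [sub_X]
  rcases v with i | v
  · rw [der_inl_X, map_zero, ite_self]
    split_ifs
    · exact map_zero _
    · exact Co_der_one _
    · exact der_inl_X i w
  · rw [der_inr_X]
    simp only [Co_inr_killed]
    by_cases h : v = w
    · subst h
      by_cases h0 : pat v = .zero
      · simp [h0]
      · by_cases h1 : pat v = .one
        · simp [h1, Co_der_one]
        · simp [h0, h1, der_inr_X]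
    · rw [if_neg h, map_zero, ite_self]
      split_ifs
      · exact map_zero _
      · exact Co_der_one _
      · rw [der_inr_X, if_neg h]

theorem der_sub (pat : Var n → Mode) (v : Gen n) (g : Co n K) :
    der v (sub pat g) = if v ∈ killed pat then 0 else sub pat (der v g) := by
  induction g using MvPolynomial.induction_on with
  | C a =>
    rw [sub_C]
    rcases v with i | v
    · rw [if_neg (Co_inl_killed pat i), der_inl_C, sub_C]
    · rw [der_inr_C, map_zero, ite_self]
  | add p q hp hq =>
    rw [map_add, map_add, hp, hq]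
    split_ifs
    · exact add_zero _
    · rw [map_add, map_add]
  | mul_X p w hp =>
    rw [map_mul, (isDer_der (n := n) (K := K)).leib, hp, Co_sub_X]
    split_ifs
    · rw [zero_mul, mul_zero, add_zero]
    · rw [(isDer_der (n := n) (K := K)).leib, map_add, map_mul, map_mul]

theorem evO_of0 (pat : Var n → Mode) (g : Co n K) :
    evO pat (Gr.of0 g : Om n K) = Gr.of0 (sub pat g) := by
  refine Gr.ext fun J => ?_
  rw [evO, Gr.ev_apply, Gr.of0_apply, Gr.of0_apply]
  by_cases h : J = ∅
  · rw [if_pos h, if_pos h, if_pos (h ▸ disjoint_empty_left _)]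
  · rw [if_neg h, if_neg h, map_zero, ite_self]

theorem evO_smul (pat : Var n → Mode) (g : Co n K) (ω : Om n K) :
    evO pat (g • ω) = sub pat g • evO pat ω := by
  rw [← Gr.of0_mul, map_mul, evO_of0, Gr.of0_mul]

theorem evO_dO_of0 (pat : Var n → Mode) (g : Co n K) :
    evO pat (dO (Gr.of0 g : Om n K)) = dO (Gr.of0 (sub pat g)) := by
  rw [dO, Gr.dd_of0, Gr.dd_of0, map_sum]
  refine sum_congr rfl fun v _ => ?_
  rw [evO_smul, der_sub]
  refine Gr.ext fun J => ?_
  rw [Gr.smul_apply, Gr.smul_apply, evO, Gr.ev_apply]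
  unfold Gr.gen Gr.bas
  by_cases h : J = {v}
  · subst h
    simp only [disjoint_singleton_left, if_true, map_one]
    split_ifs <;> simp
  · simp [h]

theorem sub_psiB_self (b : Bool) (mt : Mode) (N : Fin n → ℕ) :
    sub (patS (fun _ => b) mt) (psiB b N : Co n K) = psiB b N := by
  rw [psiB, map_sum]
  refine sum_congr rfl fun i _ => ?_
  rw [map_mul, sub_C, sub_X]
  simp [patS]

theorem sub_psiB_not (b : Bool) (mt : Mode) (N : Fin n → ℕ) :
    sub (patS (fun _ => b) mt) (psiB (!b) N : Co n K) = 0 := by
  rw [psiB, map_sum]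
  refine sum_eq_zero fun i _ => ?_
  rw [map_mul, sub_C, sub_X]
  simp [patS]

theorem psi_N2 (N N' : Fin n → ℕ) : (psi (N2 N N') : Co n K) = psiB false N + psiB true N' :=
  rfl

theorem disjoint_killed (f : Fin n → Bool) (mt : Mode) :
    Disjoint (JX n ∪ JV f) (killed (patS f mt)) := by
  refine disjoint_left.2 fun v hv hk => ?_
  rcases mem_union.1 hv with hv | hv
  · obtain ⟨i, -, rfl⟩ := mem_image.1 hv
    exact Co_inl_killed _ i hk
  · obtain ⟨i, -, rfl⟩ := mem_image.1 hv
    rw [Co_inr_killed] at hk
    simp [patS] at hk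

end Pool.Agent.Theta
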