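import Pool.Agent.P.MP_f43029_ag.Mat

/-! Contractions over fields and their lifts.
Sketch. `nh_one_of_exa`: choose a linear `s` with `D s D = D` (generalised inverse, through a
complement of the kernel); with `h = s D s`... or use a complement `L` of `ker D = range D`,
`D : L ≃ range D`, `h` the inverse on `range D` and zero on `L`; pass to matrices by
`LinearMap.toMatrix'`. `nh_of_residue`: clear denominators: every element of `P.ResidueField` is a
fraction (`Ideal.ResidueField` is the fraction field of `T ⧸ P`; `IsLocalization.exist_integer_multiples_of_finite`),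
so there are `s₀ ∉ P` and `h` over `T` with `Y = D h + h D` mapping to `s₀ • 1`. `det Y` maps to
`s₀ ^ card ≠ 0`, so `det Y ∉ P`. `Y` commutes with `D`; the adjugate is a polynomial in `Y`
(Cayley-Hamilton: `Matrix.aeval_self_charpoly`, `Y * (polynomial in Y) = ± det Y`, with
`Polynomial.X_mul_divX_add`, `Matrix.det_eq_sign_charpoly_coeff`), so `h * q(Y)` is a homotopy for `± det Y`.
`nh_one_of_fibre`: lift the contraction over `k` by constants; `Y` has `c0 Y = 1`, `det Y` is a unit. -/

open Finset Matrix
open scoped Kronecker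

noncomputable section

universe u

namespace Pool.Agent.Theta

variable {ι : Type*} [Fintype ι] [DecidableEq ι]

theorem nh_one_of_exa {L : Type*} [Field L] {D : Matrix ι ι L} (hD : D * D = 0) (h : Exa D) :
    Nh D 1 := by
  obtain ⟨g, hg⟩ := (toLin' D).rangeRestrict.exists_rightInverse_of_surjective
    (toLin' D).range_rangeRestrict
  obtain ⟨s, hs⟩ := g.exists_extend
  have e : D * LinearMap.toMatrix' s * D = D := by
    refine toLin'.injective (LinearMap.ext fun v => ?_)
    have h1 := LinearMap.congr_fun hs ⟨_, LinearMap.mem_range_self (toLin' D) v⟩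
    have h2 := congrArg Subtype.val
      (LinearMap.congr_fun hg ⟨_, LinearMap.mem_range_self (toLin' D) v⟩)
    simp only [toLin'_mul, toLin'_toMatrix', LinearMap.comp_apply]
    exact (congrArg (toLin' D) h1).trans h2
  generalize LinearMap.toMatrix' s = S at e
  have e1 : D * (D * S + S * D - 1) = 0 := by
    rw [mul_sub, mul_add, ← mul_assoc, ← mul_assoc, hD, e]
    simp
  have e2 : (D * S + S * D - 1) * D = 0 := by
    rw [sub_mul, add_mul, mul_assoc S, hD, e]
    simp
  have e3 : (D * S + S * D - 1) ^ 2 = 0 := by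
    refine toLin'.injective (LinearMap.ext fun v => ?_)
    obtain ⟨w, hw⟩ := h ((D * S + S * D - 1) *ᵥ v) (by rw [mulVec_mulVec, e1, zero_mulVec])
    rw [toLin'_apply, toLin'_apply, sq, ← mulVec_mulVec, hw, mulVec_mulVec, e2, zero_mulVec,
      zero_mulVec]
  simpa using nh_of_nilpotent (f := 0) (y := 1) (h := S) (by simpa using hD) (by simp) e3

theorem nh_det {T : Type*} [CommRing T] {D : Matrix ι ι T} {f : T}
    (hD : D * D = f • (1 : Matrix ι ι T)) (h : Matrix ι ι T) : Nh D (D * h + h * D).det := by
  have hc : Commute D (D * h + h * D) := by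
    rw [Commute, SemiconjBy, mul_add, add_mul, ← mul_assoc, mul_assoc h, hD, mul_assoc]
    simp [add_comm]
  generalize hY : D * h + h * D = Y at hc
  have h1 := aeval_self_charpoly Y
  rw [← Polynomial.X_mul_divX_add Y.charpoly, map_add, map_mul, Polynomial.aeval_X,
    Polynomial.aeval_C, Algebra.algebraMap_eq_smul_one] at h1
  have h2 : Commute D (Polynomial.aeval Y Y.charpoly.divX) := by
    rw [Polynomial.aeval_eq_sum_range]
    exact Commute.sum_right _ _ _ fun i _ => (hc.pow_right i).smul_right _
  have h3 : Nh D (-Y.charpoly.coeff 0) := ⟨h * Polynomial.aeval Y Y.charpoly.divX, by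
    rw [mul_assoc, ← h2.eq, ← mul_assoc, ← mul_assoc, ← add_mul, hY, neg_smul]
    exact eq_neg_of_add_eq_zero_left h1⟩
  simpa [det_eq_sign_charpoly_coeff] using h3.mul (-(-1) ^ Fintype.card ι)

theorem nh_of_residue {T : Type*} [CommRing T] {D : Matrix ι ι T} {f : T}
    (hD : D * D = f • (1 : Matrix ι ι T)) (P : Ideal T) [P.IsPrime]
    (h : Nh (D.map (algebraMap T P.ResidueField)) 1) : ∃ s, s ∉ P ∧ Nh D s := by
  obtain ⟨h, hh⟩ := h
  obtain ⟨b, hb⟩ := IsLocalization.exist_integer_multiples_of_finite (nonZeroDivisors (T ⧸ P))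
    (fun x : ι × ι => h x.1 x.2)
  obtain ⟨s, hs⟩ := Ideal.Quotient.mk_surjective b.1
  have e : ∀ t : T, algebraMap (T ⧸ P) P.ResidueField (Ideal.Quotient.mk P t) =
      algebraMap T P.ResidueField t := fun t => (IsScalarTower.algebraMap_apply T (T ⧸ P) _ t).symm
  have : ∀ i j, ∃ t, algebraMap T P.ResidueField t = algebraMap T P.ResidueField s * h i j := by
    intro i j
    obtain ⟨a, ha⟩ := hb (i, j)
    obtain ⟨t, rfl⟩ := Ideal.Quotient.mk_surjective a
    exact ⟨t, by rw [← e, ha, ← hs, Algebra.smul_def, e]⟩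
  choose g hg using this
  have h1 : (Matrix.of g).map (algebraMap T P.ResidueField) = algebraMap T P.ResidueField s • h :=
    Matrix.ext hg
  have h2 : (algebraMap T P.ResidueField).mapMatrix (D * Matrix.of g + Matrix.of g * D) =
      algebraMap T P.ResidueField s • (1 : Matrix ι ι P.ResidueField) := by
    rw [map_add, map_mul, map_mul, RingHom.mapMatrix_apply, RingHom.mapMatrix_apply, h1,
      Matrix.mul_smul, Matrix.smul_mul, ← smul_add, hh, one_smul]
  refine ⟨_, fun hP => ?_, nh_det hD (Matrix.of g)⟩
  rw [← Ideal.algebraMap_residueField_eq_zero, RingHom.map_det, h2, det_smul, det_one, mul_one,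
    ← e, hs] at hP
  exact nonZeroDivisors.coe_ne_zero b
    ((map_eq_zero_iff _ (IsFractionRing.injective (T ⧸ P) P.ResidueField)).mp
      (pow_eq_zero_iff' |>.mp hP).1)

theorem nh_one_of_fibre {n : ℕ} {k : Type*} [Field k] {D : Matrix ι ι (PS n k)} (hD : D * D = 0)
    (h : Exa (c0 D)) : Nh D 1 := by
  have h0 : c0 D * c0 D = 0 := by
    rw [c0, ← Matrix.map_mul, hD, Matrix.map_zero _ (map_zero _)]
  obtain ⟨s, hs⟩ := nh_one_of_exa h0 h
  have h1 : (s.map MvPowerSeries.C).map (MvPowerSeries.constantCoeff (σ := Fin n)) = s := by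
    ext i j
    simp
  have h2 : (MvPowerSeries.constantCoeff (σ := Fin n) (R := k)).mapMatrix
      (D * s.map MvPowerSeries.C + s.map MvPowerSeries.C * D) = 1 := by
    rw [map_add, map_mul, map_mul, RingHom.mapMatrix_apply, RingHom.mapMatrix_apply, h1]
    exact hs.trans (one_smul _ _)
  have h3 : IsUnit (D * s.map MvPowerSeries.C + s.map MvPowerSeries.C * D).det := by
    rw [MvPowerSeries.isUnit_iff_constantCoeff, RingHom.map_det, h2, det_one]
    exact isUnit_one
  obtain ⟨a, ha⟩ := h3.exists_left_inv
  exact ha ▸ (nh_det (f := 0) (by simpa using hD) (s.map MvPowerSeries.C)).mul a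

end Pool.Agent.Theta
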