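import Pool.Agent.P.MP_f43029_ag.Defs

/-! Adjoining a unit of prescribed filtration degree.
Sketch. Choose `γ` with `r - 2 w < γ < e - r` (`h02`). On `LaurentPolynomial L` (an
`AddMonoidAlgebra L ℤ`) put `F a = {g | ∀ j, g.coeff j ∈ Q.F (a - γ * j)}`, `io = C ∘ Q.io`,
`u = T 1` (`LaurentPolynomial.isUnit_T`, or build the unit with inverse `T (-1)`). Products:
`AddMonoidAlgebra.coeff_mul`-type formula as a double `Finsupp.sum`, `sum_mem`. A constant `C x` lies in
`F a` iff `x ∈ Q.F a`; `algebraMap ℚ _ q = C (algebraMap ℚ L q)`. -/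

open Finset Matrix
open scoped Kronecker

noncomputable section

universe u

namespace Pool.Agent.Theta

/-- The filtration on Laurent polynomials. -/
def DatL_F {L : Type*} [CommRing L] (F : ℝ → AddSubgroup L) (γ a : ℝ) :
    AddSubgroup (LaurentPolynomial L) where
  carrier := {g | ∀ j : ℤ, g.coeff j ∈ F (a - γ * j)}
  add_mem' := fun {x y} hx hy j => by
    simpa using (F _).add_mem (hx j) (hy j)
  zero_mem' := fun j => by simp
  neg_mem' := fun {x} hx j => by
    simpa using (F _).neg_mem (hx j)

theorem DatL_C {L : Type*} [CommRing L] (F : ℝ → AddSubgroup L) (γ a : ℝ) (x : L) :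
    LaurentPolynomial.C x ∈ DatL_F F γ a ↔ x ∈ F a := by
  constructor
  · intro h
    simpa using h 0
  · intro h j
    rw [LaurentPolynomial.C_apply]
    split_ifs with hj
    · simpa [hj] using h
    · exact zero_mem _

theorem DatL_T {L : Type*} [CommRing L] (F : ℝ → AddSubgroup L) (γ : ℝ) (h : (1 : L) ∈ F 0)
    (i : ℤ) : LaurentPolynomial.T i ∈ DatL_F F γ (γ * i) := by
  intro j
  rw [LaurentPolynomial.T_apply]
  split_ifs with hj
  · rw [hj, sub_self]
    exact h
  · exact zero_mem _

theorem datum_of_preDatum {k W L : Type u} [Field k] [CommRing W] [CommRing L] [Algebra ℚ L]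
    (Q : PreDatum k W L) : Nonempty (Datum k W (LaurentPolynomial L)) := by
  obtain ⟨γ, g1, g2⟩ := exists_between (show Q.r - 2 * Q.w < Q.e - Q.r by linarith [Q.h02])
  have h1 : (1 : L) ∈ Q.F 0 := by simpa using Q.io_mem 1
  refine ⟨{
    red := Q.red
    red_surj := Q.red_surj
    io := LaurentPolynomial.C.comp Q.io
    F := DatL_F Q.F γ
    anti := fun {a b} hab g hg j => Q.anti (by linarith) (hg j)
    mul_mem := fun {a b x y} hx hy j => ?_
    io_mem := fun x => (DatL_C _ _ _ _).2 (Q.io_mem x)
    e := Q.e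
    r := Q.r
    w := Q.w
    γ := γ
    c := Q.c
    ker_mem := fun x hx => (DatL_C _ _ _ _).2 (Q.ker_mem x hx)
    u := ⟨LaurentPolynomial.T 1, LaurentPolynomial.T (-1),
      by rw [← LaurentPolynomial.T_add]; rfl, by rw [← LaurentPolynomial.T_add]; rfl⟩
    u_mem := by simpa using DatL_T Q.F γ h1 1
    uinv_mem := by simpa using DatL_T Q.F γ h1 (-1)
    invfact := fun m => (DatL_C _ _ _ _).2 (Q.invfact m)
    fact := fun a => ?_
    invsucc := fun τ hτ => (Q.invsucc τ hτ).imp fun c' h a => (DatL_C _ _ _ _).2 (h a)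
    h0 := by linarith
    h1 := Q.h1
    h2 := by linarith
    sep := fun z hz => Q.sep z fun a => ?_ }⟩
  · rw [AddMonoidAlgebra.coeff_mul]
    refine sum_mem fun i _ => sum_mem fun l _ => ?_
    dsimp only
    split_ifs with h
    · have e : a + b - γ * j = a - γ * i + (b - γ * l) := by
        rw [← h]
        push_cast
        ring
      rw [e]
      exact Q.mul_mem (hx i) (hy l)
    · exact zero_mem _
  · rw [← map_natCast (LaurentPolynomial.C (R := L))]
    exact (DatL_C _ _ _ _).2 (Q.fact a)
  · have := hz a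
    rw [← map_intCast (LaurentPolynomial.C (R := L))] at this
    exact (DatL_C _ _ _ _).1 this

end Pool.Agent.Theta
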