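import Pool.Agent.P.MP_f43029_ag.Gr

/-! Definitions for the project on MP_f43029_ag (duality for the theta pairing, hypersurfaces
containing a field). -/

open Finset Matrix
open scoped Kronecker

noncomputable section

universe u

namespace Pool.Agent.Theta

/-! ### Matrix factorisations and two-periodic complexes -/

/-- Power series in `n` variables. -/
abbrev PS (n : ℕ) (k : Type*) := MvPowerSeries (Fin n) k

section Mat

variable {ι κ : Type*} {T : Type*}

/-- A matrix from the graded set `(κ, ε')` to `(ι, ε)` has parity `p`. -/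
def Par [Zero T] (p : ℤˣ) (ε : ι → ℤˣ) (ε' : κ → ℤˣ) (A : Matrix ι κ T) : Prop :=
  ∀ i j, ε i ≠ p * ε' j → A i j = 0

/-- Odd square matrices. -/
abbrev Od [Zero T] (ε : ι → ℤˣ) (A : Matrix ι ι T) : Prop := Par (-1) ε ε A

/-- The grading operator. -/
def Gam (T : Type*) [Ring T] [DecidableEq ι] (ε : ι → ℤˣ) : Matrix ι ι T :=
  diagonal fun i => ((ε i : ℤ) : T)

/-- The grading of a tensor product. -/
def tE (ε : ι → ℤˣ) (ε' : κ → ℤˣ) : ι × κ → ℤˣ := fun x => ε x.1 * ε' x.2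

/-- The differential of a tensor product. -/
def tD [CommRing T] [DecidableEq ι] [DecidableEq κ] (ε : ι → ℤˣ) (D : Matrix ι ι T)
    (D' : Matrix κ κ T) : Matrix (ι × κ) (ι × κ) T :=
  D ⊗ₖ (1 : Matrix κ κ T) + Gam T ε ⊗ₖ D'

/-- Multiplication by `c` is null-homotopic. -/
def Nh [CommRing T] [Fintype ι] [DecidableEq ι] (D : Matrix ι ι T) (c : T) : Prop :=
  ∃ h : Matrix ι ι T, D * h + h * D = c • (1 : Matrix ι ι T)

/-- Vectors supported in parity `p`. -/
def Cp (T : Type*) [Semiring T] (M : Type*) [AddCommMonoid M] [Module T M] (ε : ι → ℤˣ)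
    (p : ℤˣ) : Submodule T (ι → M) where
  carrier := {v | ∀ i, ε i ≠ p → v i = 0}
  add_mem' := fun {a b} ha hb i hi => by simp [ha i hi, hb i hi]
  zero_mem' := fun _ _ => rfl
  smul_mem' := fun c a ha i hi => by simp [ha i hi]

end Mat

section Cx

variable {n : ℕ} {k : Type*} [Field k] {ι : Type*} [Fintype ι] [DecidableEq ι]

/-- Supported at the closed point. -/
def Supp (D : Matrix ι ι (PS n k)) : Prop := ∃ N : ℕ, ∀ i, Nh D (MvPowerSeries.X i ^ N)

/-- A matrix factorisation of `f` supported at the closed point. -/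
structure MF (ε : ι → ℤˣ) (D : Matrix ι ι (PS n k)) (f : PS n k) : Prop where
  od : Od ε D
  sq : D * D = f • (1 : Matrix ι ι (PS n k))
  supp : Supp D

/-- Cycles of parity `p`. -/
def Zc (ε : ι → ℤˣ) (D : Matrix ι ι (PS n k)) (p : ℤˣ) : Submodule (PS n k) (ι → PS n k) :=
  Cp (PS n k) (PS n k) ε p ⊓ LinearMap.ker D.mulVecLin

/-- Boundaries of parity `p`. -/
def Bc (ε : ι → ℤˣ) (D : Matrix ι ι (PS n k)) (p : ℤˣ) : Submodule (PS n k) (ι → PS n k) :=
  (Cp (PS n k) (PS n k) ε (-p)).map D.mulVecLin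

/-- Homology of parity `p`. -/
abbrev Hc (ε : ι → ℤˣ) (D : Matrix ι ι (PS n k)) (p : ℤˣ) :=
  ↥(Zc ε D p) ⧸ (Bc ε D p).submoduleOf (Zc ε D p)

/-- The Euler characteristic. -/
def chi (ε : ι → ℤˣ) (D : Matrix ι ι (PS n k)) : ℤ :=
  (Module.finrank k (Hc ε D 1) : ℤ) - Module.finrank k (Hc ε D (-1))

end Cx

/-- The formal properties of an index function on supported complexes. -/
structure IsIndex {n : ℕ} {k : Type*} [Field k] {Q : Type*} [AddCommGroup Q]
    (ρ : ∀ (ι : Type) [Fintype ι] [DecidableEq ι], (ι → ℤˣ) → Matrix ι ι (PS n k) → Q) :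
    Prop where
  reindex : ∀ (ι κ : Type) [Fintype ι] [DecidableEq ι] [Fintype κ] [DecidableEq κ] (e : ι ≃ κ)
    (ε : κ → ℤˣ) (D : Matrix κ κ (PS n k)), MF ε D 0 → ρ ι (ε ∘ e) (D.submatrix e e) = ρ κ ε D
  sum : ∀ (ι κ : Type) [Fintype ι] [DecidableEq ι] [Fintype κ] [DecidableEq κ]
    (ε : ι → ℤˣ) (D : Matrix ι ι (PS n k)) (ε' : κ → ℤˣ) (D' : Matrix κ κ (PS n k)),
    MF ε D 0 → MF ε' D' 0 →
      ρ (ι ⊕ κ) (Sum.elim ε ε') (fromBlocks D 0 0 D') = ρ ι ε D + ρ κ ε' D'
  shift : ∀ (ι : Type) [Fintype ι] [DecidableEq ι] (ε : ι → ℤˣ) (D : Matrix ι ι (PS n k)),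
    MF ε D 0 → ρ ι (-ε) D = -ρ ι ε D
  contr : ∀ (ι : Type) [Fintype ι] [DecidableEq ι] (ε : ι → ℤˣ) (D : Matrix ι ι (PS n k)),
    Od ε D → D * D = 0 → Nh D 1 → ρ ι ε D = 0
  family : ∀ (ι : Type) [Fintype ι] [DecidableEq ι] (ε : ι → ℤˣ)
    (D : Matrix ι ι (Polynomial (PS n k))), Od ε D → D * D = 0 →
    (∃ N : ℕ, ∀ i, Nh D (Polynomial.C (MvPowerSeries.X i ^ N))) →
      ρ ι ε (D.map (Polynomial.evalRingHom 0)) = ρ ι ε (D.map (Polynomial.evalRingHom 1))

/-! ### The Koszul complex -/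

section Kos

variable {n : ℕ}

/-- Exterior multiplication by the `i`-th generator. -/
def ext (i : Fin n) : Matrix (Finset (Fin n)) (Finset (Fin n)) ℤ :=
  fun S T => if i ∉ T ∧ S = insert i T then sg {i} T else 0

/-- Contraction with the `i`-th generator. -/
def con (i : Fin n) : Matrix (Finset (Fin n)) (Finset (Fin n)) ℤ := (ext i)ᵀ

/-- The parity of the exterior algebra. -/
def eL (n : ℕ) : Finset (Fin n) → ℤˣ := fun S => (-1) ^ S.card

/-- The Koszul differential. -/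
def Kos (n : ℕ) (k : Type*) [Field k] : Matrix (Finset (Fin n)) (Finset (Fin n)) (PS n k) :=
  ∑ i, (MvPowerSeries.X i : PS n k) • (con i).map (Int.castRingHom (PS n k))

end Kos

/-- Bookkeeping of parity and degree for maps between spaces of vectors: the map has parity `p`
and lowers the degree by at least `c`. -/
def Rel {k : Type*} [Field k] {a b : Type*} [DecidableEq a] {M M' : Type*} [AddCommGroup M]
    [Module k M] [AddCommGroup M'] [Module k M'] (ea : a → ℤˣ) (da : a → ℤ) (eb : b → ℤˣ)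
    (db : b → ℤ) (p : ℤˣ) (c : ℤ) (T : (a → M) →ₗ[k] (b → M')) : Prop :=
  ∀ (j : a) (x : M) (i : b), T (Pi.single j x) i ≠ 0 → eb i = p * ea j ∧ db i + c ≤ da j

/-! ### The perturbation model -/

section Model

variable {k : Type*} [Field k]

/-- The tensor product of an integer matrix with a linear map between spaces of vectors. -/
def kt {a a' ι κ M M' : Type*} [Fintype a'] [AddCommGroup M] [Module k M] [AddCommGroup M']
    [Module k M'] (B : Matrix a a' ℤ) (T : (ι → M) →ₗ[k] (κ → M')) :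
    (a' × ι → M) →ₗ[k] (a × κ → M') where
  toFun v := fun x => ∑ s, B x.1 s • T (fun i => v (s, i)) x.2
  map_add' v w := by
    funext x
    have : ∀ s, (fun i => v (s, i) + w (s, i)) = (fun i => v (s, i)) + fun i => w (s, i) :=
      fun s => rfl
    simp only [Pi.add_apply, this, map_add, smul_add, sum_add_distrib]
  map_smul' c v := by
    funext x
    have : ∀ s, (fun i => c • v (s, i)) = c • fun i => v (s, i) := fun s => rfl
    simp only [Pi.smul_apply, this, map_smul, RingHom.id_apply, smul_sum, smul_comm c]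

/-- The perturbation series. -/
def hplA {S : Type*} [Ring S] (δ σ : S) (N : ℕ) : S := ∑ j ∈ range N, (-(δ * σ)) ^ j * δ

variable {n : ℕ} {ι β : Type*} [Fintype ι] [Fintype β]

/-- The exterior degree. -/
def dg {β : Type*} (x : Finset (Fin n) × β) : ℤ := x.1.card

/-- A matrix of power series as a `k`-linear map. -/
def mulD (D : Matrix ι ι (PS n k)) : (ι → PS n k) →ₗ[k] (ι → PS n k) :=
  D.mulVecLin.restrictScalars k

/-- Multiplication by a variable as a `k`-linear map. -/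
def mulX (ι : Type*) (i : Fin n) : (ι → PS n k) →ₗ[k] (ι → PS n k) :=
  (LinearMap.lsmul (PS n k) (ι → PS n k) (MvPowerSeries.X i)).restrictScalars k

/-- The differential of `Λ ⊗ C` coming from `C`. -/
def dE (D : Matrix ι ι (PS n k)) : Module.End k (Finset (Fin n) × ι → PS n k) :=
  kt (Gam ℤ (eL n)) (mulD D)

/-- The Koszul perturbation on `Λ ⊗ C`. -/
def deE (n : ℕ) (k : Type*) [Field k] (ι : Type*) : Module.End k (Finset (Fin n) × ι → PS n k) :=
  -∑ i, kt (con i) (mulX ι i)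

/-- The projection of `Λ ⊗ C` to the fibre of `C`. -/
def pE (v : Finset (Fin n) × ι → PS n k) : ι → k :=
  fun i => MvPowerSeries.constantCoeff (v (∅, i))

/-- A homogeneous deformation retraction of a complex onto its homology. -/
structure Retr [DecidableEq ι] [DecidableEq β] (ε : ι → ℤˣ) (D : Matrix ι ι (PS n k))
    (εβ : β → ℤˣ) (I : (β → k) →ₗ[k] (ι → PS n k)) (P : (ι → PS n k) →ₗ[k] (β → k))
    (σ : (ι → PS n k) →ₗ[k] (ι → PS n k)) : Prop where
  relI : Rel εβ 0 ε 0 1 0 I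
  relP : Rel ε 0 εβ 0 1 0 P
  relS : Rel ε 0 ε 0 (-1) 0 σ
  dI : mulD D ∘ₗ I = 0
  Pd : P ∘ₗ mulD D = 0
  PI : P ∘ₗ I = LinearMap.id
  hom : mulD D ∘ₗ σ + σ ∘ₗ mulD D = LinearMap.id - I ∘ₗ P
  sI : σ ∘ₗ I = 0
  Ps : P ∘ₗ σ = 0
  ss : σ ∘ₗ σ = 0

/-- The perturbation series on `Λ ⊗ C`. -/
def aE (σ : (ι → PS n k) →ₗ[k] (ι → PS n k)) : Module.End k (Finset (Fin n) × ι → PS n k) :=
  hplA (deE n k ι) (kt (Gam ℤ (eL n)) σ) (n + 1)

/-- The perturbed differential on `Λ ⊗ H`. -/
def Dbar (I : (β → k) →ₗ[k] (ι → PS n k)) (P : (ι → PS n k) →ₗ[k] (β → k))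
    (σ : (ι → PS n k) →ₗ[k] (ι → PS n k)) : Module.End k (Finset (Fin n) × β → k) :=
  kt 1 P ∘ₗ aE σ ∘ₗ kt 1 I

/-- The perturbed inclusion. -/
def Ibar (I : (β → k) →ₗ[k] (ι → PS n k)) (σ : (ι → PS n k) →ₗ[k] (ι → PS n k)) :
    (Finset (Fin n) × β → k) →ₗ[k] (Finset (Fin n) × ι → PS n k) :=
  kt 1 I - kt (Gam ℤ (eL n)) σ ∘ₗ aE σ ∘ₗ kt 1 I

variable [DecidableEq ι] [DecidableEq β]

/-- An integer matrix on the exterior algebra, acting on `Λ ⊗ H`. -/
def onB (T : Type*) [CommRing T] (β : Type*) [DecidableEq β]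
    (B : Matrix (Finset (Fin n)) (Finset (Fin n)) ℤ) :
    Matrix (Finset (Fin n) × β) (Finset (Fin n) × β) T :=
  B.map (Int.castRingHom T) ⊗ₖ (1 : Matrix β β T)

/-- The differential of the model complex. -/
def DY (Db : Matrix (Finset (Fin n) × β) (Finset (Fin n) × β) k) :
    Matrix (Finset (Fin n) × β) (Finset (Fin n) × β) (PS n k) :=
  Kos n k ⊗ₖ (1 : Matrix β β (PS n k)) + Db.map MvPowerSeries.C

/-- The constant term of a matrix of power series. -/
def c0 {a b : Type*} (A : Matrix a b (PS n k)) : Matrix a b k := A.map MvPowerSeries.constantCoeff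

/-- The intrinsic properties of the perturbed differential. -/
structure ModA (εβ : β → ℤˣ) (Db : Matrix (Finset (Fin n) × β) (Finset (Fin n) × β) k) :
    Prop where
  od : Od (tE (eL n) εβ) Db
  low : ∀ i j, Db i j ≠ 0 → i.1.card + 1 ≤ j.1.card
  sq : Db * Db = 0
  anti : ∀ i, onB k β (con i) * Db + Db * onB k β (con i) = 0
  nil : ∀ i, IsNilpotent (Db * onB k β (ext i) + onB k β (ext i) * Db)

/-- The comparison map from the model complex is a chain map and a quasi-isomorphism on fibres. -/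
structure ModB (ε : ι → ℤˣ) (D : Matrix ι ι (PS n k)) (εβ : β → ℤˣ)
    (Db : Matrix (Finset (Fin n) × β) (Finset (Fin n) × β) k)
    (Φ : Matrix ι (Finset (Fin n) × β) (PS n k)) : Prop where
  par : Par 1 ε (tE (eL n) εβ) Φ
  chain : Φ * DY Db = D * Φ
  inj : ∀ y, Db *ᵥ y = 0 → (∃ c, c0 Φ *ᵥ y = c0 D *ᵥ c) → ∃ y', y = Db *ᵥ y'
  surj : ∀ c, c0 D *ᵥ c = 0 → ∃ y c', Db *ᵥ y = 0 ∧ c = c0 Φ *ᵥ y + c0 D *ᵥ c'

end Model

/-! ### Lifting data -/

/-- A ring `W` over `k`, mapped to a filtered rational algebra `L` (no unit chosen yet). -/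
structure PreDatum (k W L : Type*) [Field k] [CommRing W] [CommRing L] [Algebra ℚ L] where
  red : W →+* k
  red_surj : Function.Surjective red
  io : W →+* L
  F : ℝ → AddSubgroup L
  anti : ∀ {a b : ℝ}, a ≤ b → F b ≤ F a
  mul_mem : ∀ {a b : ℝ} {x y : L}, x ∈ F a → y ∈ F b → x * y ∈ F (a + b)
  io_mem : ∀ x, io x ∈ F 0
  e : ℝ
  r : ℝ
  w : ℝ
  c : ℝ
  ker_mem : ∀ x, red x = 0 → io x ∈ F e
  invfact : ∀ m : ℕ, algebraMap ℚ L ((m.factorial : ℚ)⁻¹) ∈ F (-(r * m))
  fact : ∀ a : ℕ, ((a.factorial : ℕ) : L) ∈ F (w * a - c)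
  invsucc : ∀ τ : ℝ, 0 < τ → ∃ c' : ℝ, ∀ a : ℕ,
    algebraMap ℚ L (((a : ℚ) + 1)⁻¹) ∈ F (-(τ * a) - c')
  h1 : r < e + w
  h02 : 2 * r < e + 2 * w
  sep : ∀ z : ℤ, (∀ a, (z : L) ∈ F a) → z = 0

/-- A ring `W` over `k`, mapped to a filtered rational algebra `K`. -/
structure Datum (k W K : Type*) [Field k] [CommRing W] [CommRing K] [Algebra ℚ K] where
  red : W →+* k
  red_surj : Function.Surjective red
  io : W →+* K
  F : ℝ → AddSubgroup K
  anti : ∀ {a b : ℝ}, a ≤ b → F b ≤ F a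
  mul_mem : ∀ {a b : ℝ} {x y : K}, x ∈ F a → y ∈ F b → x * y ∈ F (a + b)
  io_mem : ∀ x, io x ∈ F 0
  e : ℝ
  r : ℝ
  w : ℝ
  γ : ℝ
  c : ℝ
  ker_mem : ∀ x, red x = 0 → io x ∈ F e
  u : Kˣ
  u_mem : (u : K) ∈ F γ
  uinv_mem : ((u⁻¹ : Kˣ) : K) ∈ F (-γ)
  invfact : ∀ m : ℕ, algebraMap ℚ K ((m.factorial : ℚ)⁻¹) ∈ F (-(r * m))
  fact : ∀ a : ℕ, ((a.factorial : ℕ) : K) ∈ F (w * a - c)
  invsucc : ∀ τ : ℝ, 0 < τ → ∃ c' : ℝ, ∀ a : ℕ,
    algebraMap ℚ K (((a : ℚ) + 1)⁻¹) ∈ F (-(τ * a) - c')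
  h0 : r < e - γ
  h1 : r < e + w
  h2 : r < 2 * w + γ
  sep : ∀ z : ℤ, (∀ a, (z : K) ∈ F a) → z = 0

/-! ### Forms -/

/-- The auxiliary variables: `none` is the parameter `t`, `some (i, b)` are Laplace variables. -/
abbrev Var (n : ℕ) := Option (Fin n × Bool)

/-- The coefficient ring. -/
abbrev Co (n : ℕ) (K : Type*) [CommRing K] := MvPolynomial (Var n) (PS n K)

/-- The odd generators. -/
abbrev Gen (n : ℕ) := Fin n ⊕ Var n

/-- The algebra of forms. -/
abbrev Om (n : ℕ) (K : Type*) [CommRing K] := Gr (Gen n) (Co n K)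

section Forms

variable {n : ℕ} {K : Type*} [CommRing K]

/-- The derivative in a power series variable. -/
def pdx (i : Fin n) : Co n K →+ Co n K :=
  AddMonoidHom.mk'
    (AddMonoidAlgebra.map (MvPowerSeries.pderiv K i).toLinearMap.toAddMonoidHom)
    (AddMonoidAlgebra.map_add _)

/-- All first derivatives. -/
def der : Gen n → Co n K →+ Co n K :=
  Sum.elim pdx fun v => (MvPolynomial.pderiv v).toLinearMap.toAddMonoidHom

/-- The exterior derivative. -/
def dO : Om n K →+ Om n K := Gr.dd der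

/-- Constants. -/
abbrev cst : K →+* Co n K := algebraMap K (Co n K)

/-- How an auxiliary variable is treated: evaluate at `0` or `1`, integrate over the unit interval,
or take the formal Laplace integral. -/
inductive Mode : Type
  | zero | one | int | lap
  deriving DecidableEq

/-- The weight of a power of an auxiliary variable. -/
def wv [Algebra ℚ K] (u : Kˣ) : Mode → ℕ → K
  | .zero, j => if j = 0 then 1 else 0
  | .one, _ => 1
  | .int, j => algebraMap ℚ K (((j : ℚ) + 1)⁻¹)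
  | .lap, j => ((j.factorial : ℕ) : K) * (u : K) ^ (j + 1)

/-- The pole order in the variable `x i`. -/
def pole (pat : Var n → Mode) (N : Fin n × Bool → ℕ) (a : Var n →₀ ℕ) (i : Fin n) : ℕ :=
  ∑ b : Bool, if pat (some (i, b)) = .lap then N (i, b) * (a (some (i, b)) + 1) else 0

/-- The residue of `g / x ^ E`. -/
def res (E : Fin n → ℕ) : PS n K →+ K :=
  if ∀ i, E i ≠ 0 then
    (MvPowerSeries.coeff (Finsupp.equivFunOnFinite.symm fun i => E i - 1)).toAddMonoidHom
  else 0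

/-- The integration functional on coefficients. -/
def Lap [Algebra ℚ K] (u : Kˣ) (pat : Var n → Mode) (N : Fin n × Bool → ℕ) : Co n K →+ K :=
  (Finsupp.liftAddHom fun a : Var n →₀ ℕ =>
    (AddMonoidHom.mulLeft (∏ v, wv u (pat v) (a v))).comp (res (pole pat N a))).comp
    AddMonoidAlgebra.coeffAddEquiv.toAddMonoidHom

/-- The Laplace exponent of one family of variables. -/
def psiB (b : Bool) (N : Fin n → ℕ) : Co n K :=
  ∑ i, MvPolynomial.X (some (i, b)) * MvPolynomial.C (MvPowerSeries.X i ^ N i)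

/-- The full Laplace exponent. -/
def psi (N : Fin n × Bool → ℕ) : Co n K :=
  psiB false (fun i => N (i, false)) + psiB true fun i => N (i, true)

/-- Substitute the evaluated variables. -/
def sub (pat : Var n → Mode) : Co n K →+* Co n K :=
  MvPolynomial.eval₂Hom MvPolynomial.C fun v =>
    if pat v = .zero then 0 else if pat v = .one then 1 else MvPolynomial.X v

/-- The generators attached to evaluated variables. -/
def killed (pat : Var n → Mode) : Finset (Gen n) :=
  (univ.filter fun v => pat v = .zero ∨ pat v = .one).image Sum.inr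

/-- Evaluation of forms. -/
def evO (pat : Var n → Mode) : Om n K →+* Om n K := Gr.ev (killed pat) (sub pat)

/-- The pattern that integrates one Laplace variable for each index. -/
def patS (f : Fin n → Bool) (mt : Mode) : Var n → Mode
  | none => mt
  | some x => if x.2 = f x.1 then .lap else .zero

/-- The generators `dx`. -/
def JX (n : ℕ) : Finset (Gen n) := univ.image Sum.inl

/-- The generators `ds` selected by `f`. -/
def JV (f : Fin n → Bool) : Finset (Gen n) := univ.image fun i => Sum.inr (some (i, f i))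

/-- The integral of a sequence of forms. -/
def rho [Algebra ℚ K] (u : Kˣ) (f : Fin n → Bool) (mt : Mode) (N : Fin n × Bool → ℕ)
    (ω : ℕ → Om n K) : ℕ → K := fun m => Lap u (patS f mt) N (ω m (JX n ∪ JV f))

/-- Twisted closedness of a sequence of forms. -/
def Closed (u : Kˣ) (φ : Co n K) (ω : ℕ → Om n K) : Prop :=
  dO (ω 0) = 0 ∧ ∀ m, dO (ω (m + 1)) = (cst ((u⁻¹ : Kˣ) : K) : Co n K) • (dO (Gr.of0 φ) * ω m)

/-- Even forms. -/
def Ev {ι C : Type*} [Zero C] (a : Finset ι → C) : Prop := ∀ J : Finset ι, Odd J.card → a J = 0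

/-- The exponents for the two families of Laplace variables. -/
def N2 (N N' : Fin n → ℕ) : Fin n × Bool → ℕ := fun x => cond x.2 (N' x.1) (N x.1)

/-- Patterns allowed in the Stokes formula. -/
def Good (pat : Var n → Mode) : Prop :=
  pat none ≠ .lap ∧ ∀ x, pat (some x) = .zero ∨ pat (some x) = .lap

/-- Cauchy product of sequences of forms. -/
def conv (ω ω' : ℕ → Om n K) : ℕ → Om n K := fun m => ∑ x ∈ antidiagonal m, ω x.1 * ω' x.2

variable {ι : Type*} [Fintype ι] [DecidableEq ι]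

/-- The curvature of the superconnection `u d + A`, without its scalar part `φ`. -/
def curv (u : Kˣ) (ε : ι → ℤˣ) (A : Matrix ι ι (Co n K)) (φ : Co n K) : Matrix ι ι (Om n K) :=
  (A * A - φ • (1 : Matrix ι ι (Co n K))).map Gr.of0 +
    Matrix.of fun i j => (cst (u : K) : Co n K) • ((ε i : ℤ) • dO (Gr.of0 (A i j)))

/-- The supertrace. -/
def str (ε : ι → ℤˣ) (G : Matrix ι ι (Om n K)) : Om n K := ∑ i, (ε i : ℤ) • G i i

/-- The terms of the Chern character form. -/
def ch [Algebra ℚ K] (u : Kˣ) (ε : ι → ℤˣ) (A : Matrix ι ι (Co n K)) (φ : Co n K) :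
    ℕ → Om n K := fun m =>
  (cst ((-((u⁻¹ : Kˣ) : K)) ^ m * algebraMap ℚ K ((m.factorial : ℚ)⁻¹)) : Co n K) •
    str ε (curv u ε A φ ^ m)

end Forms

/-! ### Bounds -/

section Bounds

variable {n : ℕ} {k W K : Type*} [Field k] [CommRing W] [CommRing K] [Algebra ℚ K]
  (𝒟 : Datum k W K)

/-- The weights of the auxiliary variables. -/
def wt (τ : ℝ) : Var n → ℝ
  | none => -τ
  | some _ => 𝒟.w + 𝒟.γ

/-- The filtration on coefficients. -/
def Bd (τ j : ℝ) : AddSubgroup (Co n K) where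
  carrier := {g | ∀ a b, MvPowerSeries.coeff b (MvPolynomial.coeff a g) ∈
    𝒟.F (j - ∑ v, wt 𝒟 τ v * a v)}
  add_mem' := fun {a b} ha hb x y => by
    simpa using (𝒟.F _).add_mem (ha x y) (hb x y)
  zero_mem' := fun x y => by simp
  neg_mem' := fun {a} ha x y => by
    simpa using (𝒟.F _).neg_mem (ha x y)

/-- The filtration on forms. -/
def BdO (τ β j : ℝ) : AddSubgroup (Om n K) where
  carrier := {ω | ∀ T : Finset (Gen n), ω T ∈ Bd 𝒟 τ (j - β * T.card)}
  add_mem' := fun {a b} ha hb T => (Bd 𝒟 τ _).add_mem (ha T) (hb T)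
  zero_mem' := fun _ => (Bd 𝒟 τ _).zero_mem
  neg_mem' := fun {a} ha T => (Bd 𝒟 τ _).neg_mem (ha T)

/-- Sequences of forms that tend to zero geometrically. -/
def Dec (ω : ℕ → Om n K) : Prop :=
  ∃ τ β η c : ℝ, 0 < τ ∧ 0 ≤ β ∧ 0 < η ∧ ∀ m : ℕ, ω m ∈ BdO 𝒟 τ β (η * m - c)

/-- Sequences whose finite sums tend to zero. -/
def Null : AddSubgroup (ℕ → K) where
  carrier := {a | ∀ j : ℝ, ∃ T₀ : ℕ, ∀ T, T₀ ≤ T → ∑ m ∈ range T, a m ∈ 𝒟.F j}
  add_mem' := fun {a b} ha hb j => by
    obtain ⟨T₁, h₁⟩ := ha j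
    obtain ⟨T₂, h₂⟩ := hb j
    refine ⟨max T₁ T₂, fun T hT => ?_⟩
    simp only [Pi.add_apply, sum_add_distrib]
    exact (𝒟.F j).add_mem (h₁ T (le_of_max_le_left hT)) (h₂ T (le_of_max_le_right hT))
  zero_mem' := fun j => ⟨0, fun T _ => by simp⟩
  neg_mem' := fun {a} ha j => by
    obtain ⟨T₁, h₁⟩ := ha j
    refine ⟨T₁, fun T hT => ?_⟩
    simp only [Pi.neg_apply, sum_neg_distrib]
    exact (𝒟.F j).neg_mem (h₁ T hT)

/-- Power series over `W` as coefficients. -/
def toCo : PS n W →+* Co n K := MvPolynomial.C.comp (MvPowerSeries.map 𝒟.io)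

/-- Polynomial families over `W` as coefficients. -/
def toCoT : Polynomial (PS n W) →+* Co n K :=
  Polynomial.eval₂RingHom (toCo 𝒟) (MvPolynomial.X none)

/-- Reduction of power series. -/
def redS : PS n W →+* PS n k := MvPowerSeries.map 𝒟.red

variable {ι : Type*} [Fintype ι] [DecidableEq ι]

/-- The superconnection term `D + ∑ s i * h i`. -/
def supc (b : Bool) (D : Matrix ι ι (Co n K)) (h : Fin n → Matrix ι ι (Co n K)) :
    Matrix ι ι (Co n K) :=
  D + ∑ i, (MvPolynomial.X (some (i, b)) : Co n K) • h i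

/-- A lift of a matrix factorisation and of homotopies for powers of the variables. -/
structure Lift (ε : ι → ℤˣ) (D : Matrix ι ι (PS n k)) where
  N : Fin n → ℕ
  Dt : Matrix ι ι (PS n W)
  ht : Fin n → Matrix ι ι (PS n W)
  od : Od ε Dt
  odh : ∀ i, Od ε (ht i)
  redD : Dt.map (redS 𝒟) = D
  redh : ∀ i, (Dt * ht i + ht i * Dt).map (redS 𝒟) =
    (MvPowerSeries.X i ^ N i : PS n k) • (1 : Matrix ι ι (PS n k))

variable {𝒟}

/-- The superconnection term of a lift. -/
def Lift.A {ε : ι → ℤˣ} {D : Matrix ι ι (PS n k)} (L : Lift 𝒟 ε D) (b : Bool) :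
    Matrix ι ι (Co n K) :=
  supc b (L.Dt.map (toCo 𝒟)) fun i => (L.ht i).map (toCo 𝒟)

/-- The index sequence of a lift of a complex. -/
def Lift.seq {ε : ι → ℤˣ} {D : Matrix ι ι (PS n k)} (L : Lift 𝒟 ε D) : ℕ → K :=
  rho 𝒟.u (fun _ => false) .zero (fun x => L.N x.1) (ch 𝒟.u ε (L.A false) (psiB false L.N))

variable (𝒟)

open Classical in
/-- The index of a complex. -/
def rhoQ (ι : Type) [Fintype ι] [DecidableEq ι] (ε : ι → ℤˣ) (D : Matrix ι ι (PS n k)) :
    (ℕ → K) ⧸ Null 𝒟 :=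
  if h : Nonempty (Lift 𝒟 ε D) then QuotientAddGroup.mk h.some.seq else 0

end Bounds

/-! ### Presentations -/

/-- The matrix factorisation `(ε, D)` over `R` presents the `A`-module `M` through the
elements `m i` (zero in odd degree). -/
structure Pres {R A : Type*} [CommRing R] [CommRing A] (q : R →+* A) {ι : Type*} [Fintype ι]
    (ε : ι → ℤˣ) (D : Matrix ι ι R) {M : Type*} [AddCommGroup M] [Module A M] (m : ι → M) :
    Prop where
  odd : ∀ i, ε i ≠ 1 → m i = 0
  surj : ∀ x : M, ∃ v : ι → R, x = ∑ i, q (v i) • m i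
  ker : ∀ v : ι → R, ∑ i, q (v i) • m i = 0 ↔ ∃ w : ι → R, ∀ i, ε i = 1 → v i = (D *ᵥ w) i

/-- The matrix `φ` over `R` presents the `A`-module `M` through the generators `m i`. -/
structure Pres0 {R A : Type*} [CommRing R] [CommRing A] (q : R →+* A) {a b : Type*} [Fintype a]
    [Fintype b] (φ : Matrix a b R) {M : Type*} [AddCommGroup M] [Module A M] (m : a → M) :
    Prop where
  surj : ∀ x : M, ∃ v : a → R, x = ∑ i, q (v i) • m i
  ker : ∀ v : a → R, ∑ i, q (v i) • m i = 0 ↔ ∃ w : b → R, v = φ *ᵥ w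

/-- The standard grading of a doubled index set. -/
def e2 (a b : Type*) : a ⊕ b → ℤˣ := Sum.elim (fun _ => 1) fun _ => -1

/-- An exact square matrix: every vector in the kernel is in the image. -/
def Exa {T ι : Type*} [CommRing T] [Fintype ι] (D : Matrix ι ι T) : Prop :=
  ∀ v : ι → T, D *ᵥ v = 0 → ∃ w, v = D *ᵥ w

/-- The modules `Tor`. -/
abbrev TorM (A : Type u) [CommRing A] (M N : Type u) [AddCommGroup M] [Module A M]
    [AddCommGroup N] [Module A N] (i : ℕ) : ModuleCat.{u} A :=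
  ((CategoryTheory.Tor (ModuleCat.{u} A) i).obj (ModuleCat.of A M)).obj (ModuleCat.of A N)

/-- A matrix over `A` acting on vectors with entries in an `A`-module. -/
def act {A : Type*} [CommRing A] {a b : Type*} [Fintype b] (φ : Matrix a b A) (M : Type*)
    [AddCommGroup M] [Module A M] : (b → M) →ₗ[A] (a → M) where
  toFun v := fun i => ∑ j, φ i j • v j
  map_add' v w := by
    funext i
    simp [sum_add_distrib]
  map_smul' c v := by
    funext i
    simp only [Pi.smul_apply, RingHom.id_apply, smul_sum, smul_comm c]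

/-- Homology of a composable pair of linear maps. -/
abbrev Hm {A : Type*} [CommRing A] {X Y Z : Type*} [AddCommGroup X] [Module A X] [AddCommGroup Y]
    [Module A Y] [AddCommGroup Z] [Module A Z] (φ : X →ₗ[A] Y) (ψ : Y →ₗ[A] Z) :=
  ↥(LinearMap.ker ψ) ⧸ (LinearMap.range φ).submoduleOf (LinearMap.ker ψ)

end Pool.Agent.Theta
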