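import Pool.Agent.P.MP_f43029_ag.Defs

/-! Duals commute with flat base change.
Sketch. `Module.FinitePresentation.isBaseChange_map` (finite modules over Noetherian rings are finitely
presented, `Module.finitePresentation_of_finite`), `IsBaseChange.equiv`, and `B ⊗[A] A ≃ B` (`AlgebraTensorModule.rid`,
`LinearEquiv.congrRight` or `arrowCongr`). -/

open Finset Matrix
open scoped Kronecker TensorProduct

noncomputable section

universe u

namespace Pool.Agent.Theta

theorem dual_baseChange {A B : Type*} [CommRing A] [IsNoetherianRing A] [CommRing B] [Algebra A B]
    [Module.Flat A B] (M : Type*) [AddCommGroup M] [Module A M] [Module.Finite A M] :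
    Nonempty (B ⊗[A] Module.Dual A M ≃ₗ[B] Module.Dual B (B ⊗[A] M)) := by
  have := Module.finitePresentation_of_finite A M
  exact ⟨(Module.FinitePresentation.isBaseChange_map A M A B).equiv.trans
    (LinearEquiv.congrRight (TensorProduct.AlgebraTensorModule.rid A B B))⟩

end Pool.Agent.Theta
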