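import Pool.Agent.P.MP_f43029_ag.Defs

/-! Calculus of parity and degree, and of the tensor products `kt`.
Sketch. A vector is the sum of its components, `v = ∑ j, Pi.single j (v j)`
(`Finset.univ_sum_single`), so `(S ∘ T) (single j x) i = ∑ l, S (single l (T (single j x) l)) i`;
a nonzero sum has a nonzero term (`Finset.exists_ne_zero_of_sum_ne_zero`), and that term forces
`T (single j x) l ≠ 0`. `Rel.pow_eq_zero`: `Rel.pow` gives a drop of the degree by `N`, which is
impossible, so `T ^ N` kills all `single j x`. The `kt` lemmas are `LinearMap.ext`, `funext`,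
`Finset.sum_comm`; for `kt_comp` note `(fun i => kt B' T' v (s, i)) = ∑ t, B' s t • T' (fun i => v (t, i))`. -/

open Finset Matrix
open scoped Kronecker

noncomputable section

universe u

namespace Pool.Agent.Theta

variable {k : Type*} [Field k] {a b c : Type*} [DecidableEq a] [DecidableEq b]
  {M M' M'' : Type*} [AddCommGroup M] [Module k M] [AddCommGroup M'] [Module k M']
  [AddCommGroup M''] [Module k M'']

theorem Rel.comp [Fintype b] {ea : a → ℤˣ} {da : a → ℤ} {eb : b → ℤˣ} {db : b → ℤ} {ec : c → ℤˣ}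
    {dc : c → ℤ} {p q : ℤˣ} {x y : ℤ} {S : (b → M') →ₗ[k] (c → M'')}
    {T : (a → M) →ₗ[k] (b → M')} (hS : Rel eb db ec dc p x S) (hT : Rel ea da eb db q y T) :
    Rel ea da ec dc (p * q) (x + y) (S ∘ₗ T) := by
  intro j v i h
  rw [LinearMap.comp_apply, ← univ_sum_single (T (Pi.single j v)), map_sum, Finset.sum_apply] at h
  obtain ⟨l, -, hl⟩ := exists_ne_zero_of_sum_ne_zero h
  have h1 := hS l _ i hl
  have h2 := hT j v l fun e => hl (by rw [e, Pi.single_zero, map_zero, Pi.zero_apply])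
  exact ⟨by rw [h1.1, h2.1, mul_assoc], by linarith [h1.2, h2.2]⟩

theorem Rel.mono {ea : a → ℤˣ} {da : a → ℤ} {eb : b → ℤˣ} {db : b → ℤ} {p : ℤˣ} {x y : ℤ}
    {T : (a → M) →ₗ[k] (b → M')} (hT : Rel ea da eb db p x T) (h : y ≤ x) :
    Rel ea da eb db p y T := fun j v i hi =>
  ⟨(hT j v i hi).1, by linarith [(hT j v i hi).2]⟩

theorem Rel.zero (ea : a → ℤˣ) (da : a → ℤ) (eb : b → ℤˣ) (db : b → ℤ) (p : ℤˣ) (x : ℤ) :
    Rel ea da eb db p x (0 : (a → M) →ₗ[k] (b → M')) := fun _ _ _ h => absurd rfl h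

theorem Rel.id (ea : a → ℤˣ) (da : a → ℤ) :
    Rel ea da ea da 1 0 (LinearMap.id : (a → M) →ₗ[k] (a → M)) := by
  intro j v i h
  obtain rfl : i = j := by_contra fun e => h (by simp [e])
  exact ⟨(one_mul _).symm, (add_zero _).le⟩

theorem Rel.add {ea : a → ℤˣ} {da : a → ℤ} {eb : b → ℤˣ} {db : b → ℤ} {p : ℤˣ} {x : ℤ}
    {S T : (a → M) →ₗ[k] (b → M')} (hS : Rel ea da eb db p x S) (hT : Rel ea da eb db p x T) :
    Rel ea da eb db p x (S + T) := by
  intro j v i h
  by_cases h1 : S (Pi.single j v) i = 0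
  · refine hT j v i fun h2 => h ?_
    rw [LinearMap.add_apply, Pi.add_apply, h1, h2, add_zero]
  · exact hS j v i h1

theorem Rel.neg {ea : a → ℤˣ} {da : a → ℤ} {eb : b → ℤˣ} {db : b → ℤ} {p : ℤˣ} {x : ℤ}
    {T : (a → M) →ₗ[k] (b → M')} (hT : Rel ea da eb db p x T) : Rel ea da eb db p x (-T) :=
  fun j v i h => hT j v i (neg_ne_zero.1 h)

theorem Rel.sum {α : Type*} (s : Finset α) {ea : a → ℤˣ} {da : a → ℤ} {eb : b → ℤˣ} {db : b → ℤ}
    {p : ℤˣ} {x : ℤ} {T : α → (a → M) →ₗ[k] (b → M')} (h : ∀ i ∈ s, Rel ea da eb db p x (T i)) :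
    Rel ea da eb db p x (∑ i ∈ s, T i) :=
  Finset.sum_induction T _ (fun _ _ => Rel.add) (Rel.zero _ _ _ _ _ _) h

theorem Rel.pow [Fintype a] {ea : a → ℤˣ} {da : a → ℤ} {x : ℤ} {T : Module.End k (a → M)}
    (hT : Rel ea da ea da 1 x T) (N : ℕ) : Rel ea da ea da 1 (N * x) (T ^ N) := by
  induction N with
  | zero =>
    rw [Nat.cast_zero, zero_mul]
    exact Rel.id ea da
  | succ N ih =>
    have h := ih.comp hT
    rw [one_mul] at h
    rw [Nat.cast_succ, add_one_mul, pow_succ]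
    exact h

theorem Rel.pow_eq_zero [Fintype a] {ea : a → ℤˣ} {da : a → ℤ} {T : Module.End k (a → M)}
    (hT : Rel ea da ea da 1 1 T) {N : ℕ} (h : ∀ i j, da j < da i + N) : T ^ N = 0 := by
  refine LinearMap.ext fun v => ?_
  rw [← univ_sum_single v, map_sum, map_sum]
  refine sum_congr rfl fun j _ => funext fun i => by_contra fun e => ?_
  have h1 := (hT.pow N j (v j) i e).2
  rw [mul_one] at h1
  exact h1.not_gt (h i j)

section Kt

variable {A A' A'' ι κ μ : Type*} [Fintype A'] [Fintype A'']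

theorem kt_apply (B : Matrix A A' ℤ) (T : (ι → M) →ₗ[k] (κ → M')) (v : A' × ι → M) (x : A × κ) :
    kt B T v x = ∑ s, B x.1 s • T (fun i => v (s, i)) x.2 := rfl

theorem kt_comp (B : Matrix A A' ℤ) (B' : Matrix A' A'' ℤ) (T : (κ → M') →ₗ[k] (μ → M''))
    (T' : (ι → M) →ₗ[k] (κ → M')) : kt B T ∘ₗ kt B' T' = kt (B * B') (T ∘ₗ T') := by
  refine LinearMap.ext fun v => funext fun x => ?_
  have e : ∀ s, (fun i => kt B' T' v (s, i)) = ∑ t, B' s t • T' fun i => v (t, i) := fun s =>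
    funext fun i => by rw [kt_apply, Finset.sum_apply]; rfl
  simp only [LinearMap.comp_apply, kt_apply B, kt_apply (B * B'), e, map_sum, map_zsmul,
    Finset.sum_apply, Pi.smul_apply, smul_sum, Matrix.mul_apply, sum_smul, smul_smul]
  exact sum_comm

theorem kt_add_left (B B' : Matrix A A' ℤ) (T : (ι → M) →ₗ[k] (κ → M')) :
    kt (B + B') T = kt B T + kt B' T := LinearMap.ext fun v => funext fun x => by
  simp only [LinearMap.add_apply, Pi.add_apply, kt_apply, Matrix.add_apply, add_smul,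
    sum_add_distrib]

theorem kt_add_right (B : Matrix A A' ℤ) (T T' : (ι → M) →ₗ[k] (κ → M')) :
    kt B (T + T') = kt B T + kt B T' := LinearMap.ext fun v => funext fun x => by
  simp only [LinearMap.add_apply, Pi.add_apply, kt_apply, smul_add, sum_add_distrib]

theorem kt_neg_left (B : Matrix A A' ℤ) (T : (ι → M) →ₗ[k] (κ → M')) : kt (-B) T = -kt B T :=
  LinearMap.ext fun v => funext fun x => by
    simp only [LinearMap.neg_apply, Pi.neg_apply, kt_apply, Matrix.neg_apply, neg_smul,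
      sum_neg_distrib]

theorem kt_neg_right (B : Matrix A A' ℤ) (T : (ι → M) →ₗ[k] (κ → M')) : kt B (-T) = -kt B T :=
  LinearMap.ext fun v => funext fun x => by
    simp only [LinearMap.neg_apply, Pi.neg_apply, kt_apply, smul_neg, sum_neg_distrib]

theorem kt_sub_right (B : Matrix A A' ℤ) (T T' : (ι → M) →ₗ[k] (κ → M')) :
    kt B (T - T') = kt B T - kt B T' := by
  rw [sub_eq_add_neg, kt_add_right, kt_neg_right, sub_eq_add_neg]

theorem kt_zero_left (T : (ι → M) →ₗ[k] (κ → M')) : kt (0 : Matrix A A' ℤ) T = 0 :=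
  LinearMap.ext fun v => funext fun x => by simp [kt_apply]

theorem kt_zero_right (B : Matrix A A' ℤ) : kt B (0 : (ι → M) →ₗ[k] (κ → M')) = 0 :=
  LinearMap.ext fun v => funext fun x => by simp [kt_apply]

theorem kt_one_id [DecidableEq A'] :
    kt (1 : Matrix A' A' ℤ) (LinearMap.id : (ι → M) →ₗ[k] (ι → M)) = LinearMap.id :=
  LinearMap.ext fun v => funext fun x => by simp [kt_apply, one_apply]

theorem Rel.kt {n : ℕ} [DecidableEq ι] {ε : ι → ℤˣ} {ε' : κ → ℤˣ} {p q : ℤˣ} {x : ℤ}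
    {B : Matrix (Finset (Fin n)) (Finset (Fin n)) ℤ} {T : (ι → M) →ₗ[k] (κ → M')}
    (hB : ∀ S U, B S U ≠ 0 → eL n S = p * eL n U ∧ (S.card : ℤ) + x ≤ U.card)
    (hT : Rel ε 0 ε' 0 q 0 T) :
    Rel (tE (eL n) ε) dg (tE (eL n) ε') dg (p * q) x (kt B T) := by
  rintro ⟨U, j⟩ v ⟨S, i⟩ h
  rw [kt_apply] at h
  obtain ⟨s, -, hs⟩ := exists_ne_zero_of_sum_ne_zero h
  by_cases e : s = U
  · subst e
    have e1 : (fun i => (Pi.single (s, j) v : Finset (Fin n) × ι → M) (s, i)) = Pi.single j v :=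
      funext fun i => by simp [Pi.single_apply]
    rw [e1] at hs
    have h1 := hB S s (left_ne_zero_of_smul hs)
    have h2 := hT j v i (right_ne_zero_of_smul hs)
    refine ⟨?_, h1.2⟩
    change eL n S * ε' i = p * q * (eL n s * ε j)
    rw [h1.1, h2.1, mul_mul_mul_comm]
  · have e1 : (fun i => (Pi.single (U, j) v : Finset (Fin n) × ι → M) (s, i)) = 0 :=
      funext fun i => by simp [e]
    rw [e1, map_zero, Pi.zero_apply, smul_zero] at hs
    exact absurd rfl hs

theorem toMatrix'_kt_id {n : ℕ} {β : Type*} [Fintype β] [DecidableEq β]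
    (B : Matrix (Finset (Fin n)) (Finset (Fin n)) ℤ) :
    LinearMap.toMatrix' (kt B (LinearMap.id : (β → k) →ₗ[k] (β → k))) = onB k β B := by
  ext ⟨S, i⟩ ⟨U, j⟩
  rw [LinearMap.toMatrix'_apply, kt_apply, sum_eq_single U]
  · simp [onB, one_apply, Pi.single_apply]
  · intro s _ hs
    simp [hs]
  · simp

end Kt

end Pool.Agent.Theta
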