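import Pool.Agent.P.MP_f43029_ag.Kz
import Pool.Agent.P.MP_f43029_ag.RelC

/-! The projection of `Λ ⊗ C` to the fibre of `C` is a quasi-isomorphism.
Sketch. `deE v (S, i) = -(Kos *ᵥ fun U => v (U, i)) S`, `dE D v (S, i) = eL S • (D *ᵥ fun j => v (S, j)) i`.
`fib_ker`: downward induction: show for `c = n + 1 - r` that every cycle `z` vanishing in degrees
`< c` (with `pE z = 0` if `c = 0`) is a boundary of some `w` with `w (∅, _) = 0`. The degree `c - 1` part of the cycle
condition says that the degree `c` part `z_c` of `z` is a Koszul cycle (`con_ne_zero`); by `koszul_exact` (for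
each `i`) it is `deE w₀`, and `w₀` can be cut down to degree `c + 1`; `z - (dE + deE) w₀` vanishes
in degrees `≤ c`. The other two statements follow with the lift `c ↦ fun (S, i) => if S = ∅ then C (c i) else 0`
and `pE_chain`. -/

open Finset Matrix
open scoped Kronecker

noncomputable section

universe u

namespace Pool.Agent.Theta

variable {n : ℕ} {k : Type*} [Field k] {ι β : Type*} [Fintype ι] [DecidableEq ι] [Fintype β]
  [DecidableEq β]

theorem Fib_Kos (S U : Finset (Fin n)) :
    Kos n k S U = ∑ j, MvPowerSeries.X j * ((con j S U : ℤ) : PS n k) := by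
  simp [Kos, Matrix.sum_apply]

theorem Fib_Kos_zero {S U : Finset (Fin n)} (h : S.card + 1 ≠ U.card) : Kos n k S U = 0 := by
  rw [Fib_Kos]
  refine sum_eq_zero fun j _ => ?_
  rw [show con j S U = 0 from by_contra fun e => h (con_ne_zero e), Int.cast_zero, mul_zero]

omit [DecidableEq ι] in
theorem Fib_apply (D : Matrix ι ι (PS n k)) (z : Finset (Fin n) × ι → PS n k)
    (S : Finset (Fin n)) (i : ι) : (dE D + deE n k ι) z (S, i) =
      ((eL n S : ℤ) : PS n k) * ∑ j, D i j * z (S, j) - ∑ U, Kos n k S U * z (U, i) := by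
  have h1 : dE D z (S, i) = ((eL n S : ℤ) : PS n k) * ∑ j, D i j * z (S, j) := by
    rw [dE, kt_apply, sum_eq_single S (fun U _ hU => by
      rw [Gam, diagonal_apply_ne' _ hU, zero_smul]) fun h => absurd (mem_univ _) h, Gam,
      diagonal_apply_eq, Int.cast_id, zsmul_eq_mul]
    rfl
  have h2 : deE n k ι z (S, i) = -∑ U, Kos n k S U * z (U, i) := by
    rw [deE, LinearMap.neg_apply, Pi.neg_apply, LinearMap.sum_apply, Finset.sum_apply]
    simp only [kt_apply, Fib_Kos, sum_mul]
    rw [sum_comm]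
    refine congrArg _ (sum_congr rfl fun U _ => sum_congr rfl fun j _ => ?_)
    rw [zsmul_eq_mul, mul_comm (MvPowerSeries.X j), mul_assoc]
    rfl
  rw [LinearMap.add_apply, Pi.add_apply, h1, h2, sub_eq_add_neg]

theorem Fib_mat (D : Matrix ι ι (PS n k)) (z : Finset (Fin n) × ι → PS n k) :
    (dE D + deE n k ι) z = tD (eL n) (-Kos n k) D *ᵥ z := by
  funext ⟨S, i⟩
  rw [Fib_apply, tD, add_mulVec, Pi.add_apply, add_comm, sub_eq_add_neg]
  congr 1
  · simp [mulVec, dotProduct, Fintype.sum_prod_type, Gam, diagonal_apply, mul_sum, mul_assoc]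
  · simp [mulVec, dotProduct, Fintype.sum_prod_type, one_apply]

omit [Fintype ι] [DecidableEq ι] in
theorem Fib_sub (z w : Finset (Fin n) × ι → PS n k) : pE (z - w) = pE z - pE w :=
  funext fun _ => map_sub MvPowerSeries.constantCoeff _ _

omit [Fintype ι] [DecidableEq ι] in
theorem Fib_lift (c : ι → k) : ∃ z : Finset (Fin n) × ι → PS n k, pE z = c :=
  ⟨fun x => MvPowerSeries.C (c x.2), funext fun _ => MvPowerSeries.constantCoeff_C _⟩

theorem dE_add_deE_sq {D : Matrix ι ι (PS n k)} (hD : D * D = 0) :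
    (dE D + deE n k ι) * (dE D + deE n k ι) = 0 := by
  have h1 : Od (eL n) (-Kos n k) := fun S U h => by rw [neg_apply, (mf_Kos n k).od S U h, neg_zero]
  refine LinearMap.ext fun z => ?_
  rw [Module.End.mul_apply, Fib_mat, Fib_mat, mulVec_mulVec, tD_mul_tD h1, neg_mul_neg,
    (mf_Kos n k).sq, hD, zero_smul, zero_kronecker, kronecker_zero, add_zero, zero_mulVec]
  rfl

theorem pE_chain (D : Matrix ι ι (PS n k)) (z : Finset (Fin n) × ι → PS n k) :
    pE ((dE D + deE n k ι) z) = c0 D *ᵥ pE z := by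
  funext i
  have h1 : ∀ U, MvPowerSeries.constantCoeff (Kos n k ∅ U) = 0 := fun U =>
    congrFun (congrFun (c0_Kos n k) ∅) U
  rw [pE, Fib_apply]
  simp only [eL, card_empty, pow_zero, Units.val_one, Int.cast_one, one_mul, map_sub, map_sum,
    map_mul, h1, zero_mul, sum_const_zero, sub_zero]
  rfl

theorem Fib_sq {D : Matrix ι ι (PS n k)} (hD : D * D = 0) (z : Finset (Fin n) × ι → PS n k) :
    (dE D + deE n k ι) ((dE D + deE n k ι) z) = 0 :=
  LinearMap.congr_fun (dE_add_deE_sq hD) z

omit [DecidableEq ι] in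
theorem Fib_step {D : Matrix ι ι (PS n k)} {c : ℕ} {z : Finset (Fin n) × ι → PS n k}
    (hz : (dE D + deE n k ι) z = 0) (h0 : pE z = 0) (hc : ∀ S i, S.card < c → z (S, i) = 0) :
    ∃ w : Finset (Fin n) × ι → PS n k, (∀ i, w (∅, i) = 0) ∧
      ∀ S i, S.card < c + 1 → (z - (dE D + deE n k ι) w) (S, i) = 0 := by
  have h1 : ∀ i, ∃ w, (fun U => if U.card = c then z (U, i) else 0) = Kos n k *ᵥ w := by
    intro i
    refine koszul_exact _ (funext fun S => ?_) ?_
    · change ∑ U, Kos n k S U * (if U.card = c then z (U, i) else 0) = 0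
      by_cases h : S.card + 1 = c
      · have h2 := (Fib_apply D z S i).symm.trans (congrFun hz (S, i))
        rw [sum_eq_zero fun j _ => by rw [hc S j (by omega), mul_zero], mul_zero, zero_sub,
          Pi.zero_apply, neg_eq_zero] at h2
        refine (sum_congr rfl fun U _ => ?_).trans h2
        split_ifs with hU
        · rfl
        · rw [Fib_Kos_zero (by omega), zero_mul, zero_mul]
      · refine sum_eq_zero fun U _ => ?_
        split_ifs with hU
        · rw [Fib_Kos_zero (by omega), zero_mul]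
        · exact mul_zero _
    · split_ifs
      · exact congrFun h0 i
      · exact map_zero _
  choose w hw using h1
  refine ⟨fun x => if x.1.card = c + 1 then -w x.2 x.1 else 0, fun i => if_neg (by simp),
    fun S i hS => ?_⟩
  rw [Pi.sub_apply, Fib_apply, sum_eq_zero fun j _ => by rw [if_neg hS.ne, mul_zero], mul_zero,
    zero_sub, sub_neg_eq_add]
  by_cases h : S.card = c
  · have h2 : z (S, i) = ∑ U, Kos n k S U * w i U := (if_pos h).symm.trans (congrFun (hw i) S)
    rw [h2, ← sum_add_distrib]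
    refine sum_eq_zero fun U _ => ?_
    dsimp only
    split_ifs with hU
    · rw [mul_neg, add_neg_cancel]
    · rw [Fib_Kos_zero (by omega), zero_mul, zero_mul, add_zero]
  · rw [hc S i (by omega), zero_add]
    refine sum_eq_zero fun U _ => ?_
    dsimp only
    split_ifs with hU
    · rw [Fib_Kos_zero (by omega), zero_mul]
    · exact mul_zero _

theorem Fib_ind {D : Matrix ι ι (PS n k)} (hD : D * D = 0) (r : ℕ) : ∀ c, n + 1 ≤ c + r →
    ∀ z : Finset (Fin n) × ι → PS n k, (dE D + deE n k ι) z = 0 → pE z = 0 →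
      (∀ S i, S.card < c → z (S, i) = 0) →
        ∃ w : Finset (Fin n) × ι → PS n k, (∀ i, w (∅, i) = 0) ∧ z = (dE D + deE n k ι) w := by
  induction r with
  | zero =>
    refine fun c h z _ _ hc => ⟨0, fun _ => rfl, ?_⟩
    rw [map_zero]
    funext ⟨S, i⟩
    have := S.card_le_univ
    rw [Fintype.card_fin] at this
    exact hc S i (by omega)
  | succ r ih =>
    intro c h z hz h0 hc
    obtain ⟨w, h1, h2⟩ := Fib_step hz h0 hc
    obtain ⟨w', h3, h4⟩ := ih (c + 1) (by omega) _ (by rw [map_sub, hz, Fib_sq hD, sub_zero])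
      (funext fun i => (congrArg _ (h2 ∅ i (by simp))).trans (map_zero _)) h2
    refine ⟨w + w', fun i => by rw [Pi.add_apply, h1, h3, add_zero], ?_⟩
    rw [map_add, ← h4, add_sub_cancel]

theorem fib_ker {D : Matrix ι ι (PS n k)} (hD : D * D = 0) (z : Finset (Fin n) × ι → PS n k)
    (hz : (dE D + deE n k ι) z = 0) (h0 : pE z = 0) :
    ∃ w, pE w = 0 ∧ z = (dE D + deE n k ι) w := by
  obtain ⟨w, h1, h2⟩ := Fib_ind hD (n + 1) 0 (by omega) z hz h0 fun _ _ h => absurd h (by omega)
  exact ⟨w, funext fun i => (congrArg _ (h1 i)).trans (map_zero _), h2⟩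

theorem fib_inj {D : Matrix ι ι (PS n k)} (hD : D * D = 0) (z : Finset (Fin n) × ι → PS n k)
    (hz : (dE D + deE n k ι) z = 0) (h0 : ∃ c, pE z = c0 D *ᵥ c) :
    ∃ w, z = (dE D + deE n k ι) w := by
  obtain ⟨c, hc⟩ := h0
  obtain ⟨y, rfl⟩ := Fib_lift (n := n) c
  obtain ⟨w, -, h⟩ := fib_ker hD (z - (dE D + deE n k ι) y)
    (by rw [map_sub, hz, Fib_sq hD, sub_zero]) (by rw [Fib_sub, pE_chain, hc, sub_self])
  exact ⟨y + w, by rw [map_add, ← h, add_sub_cancel]⟩

theorem fib_surj {D : Matrix ι ι (PS n k)} (hD : D * D = 0) (c : ι → k) (hc : c0 D *ᵥ c = 0) :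
    ∃ z, (dE D + deE n k ι) z = 0 ∧ pE z = c := by
  obtain ⟨y, rfl⟩ := Fib_lift (n := n) c
  obtain ⟨w, h0, h⟩ := fib_ker hD _ (Fib_sq hD y) ((pE_chain D y).trans hc)
  exact ⟨y - w, by rw [map_sub, ← h, sub_self], by rw [Fib_sub, h0, sub_zero]⟩

end Pool.Agent.Theta
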