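import Mathlib

/-! A concrete model of the Grassmann algebra on a finite set of odd generators. -/

open Finset

noncomputable section

namespace Pool.Agent.Theta

variable {ι : Type*} [Fintype ι]

/-- A numbering of the generators. -/
def enc (a : ι) : ℕ := Fintype.equivFin ι a

theorem enc_inj {a b : ι} (h : enc a = enc b) : a = b :=
  (Fintype.equivFin ι).injective (Fin.ext h)

/-- The sign of shuffling `T` past `U`. -/
def sg (T U : Finset ι) : ℤ := ∏ a ∈ T, ∏ b ∈ U, if enc b < enc a then -1 else 1

theorem sg_empty_left (U : Finset ι) : sg ∅ U = 1 := by simp [sg]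

theorem sg_empty_right (T : Finset ι) : sg T ∅ = 1 := by simp [sg]

theorem sg_mul_self (T U : Finset ι) : sg T U * sg T U = 1 := by
  unfold sg
  rw [← prod_mul_distrib]
  refine prod_eq_one fun a _ => ?_
  rw [← prod_mul_distrib]
  refine prod_eq_one fun b _ => ?_
  split_ifs <;> simp

theorem sg_cases (T U : Finset ι) : sg T U = 1 ∨ sg T U = -1 :=
  Int.eq_one_or_neg_one_of_mul_eq_one (sg_mul_self T U)

variable [DecidableEq ι]

theorem sg_union_left {T T' : Finset ι} (h : Disjoint T T') (U : Finset ι) :
    sg (T ∪ T') U = sg T U * sg T' U := by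
  unfold sg
  rw [prod_union h]

theorem sg_union_right (T : Finset ι) {U U' : Finset ι} (h : Disjoint U U') :
    sg T (U ∪ U') = sg T U * sg T U' := by
  unfold sg
  rw [← prod_mul_distrib]
  exact prod_congr rfl fun a _ => prod_union h

omit [DecidableEq ι] in
theorem sg_swap {T U : Finset ι} (h : Disjoint T U) :
    sg T U * sg U T = (-1) ^ (T.card * U.card) := by
  unfold sg
  rw [prod_comm (s := U), ← prod_mul_distrib]
  have : ∀ a ∈ T, ((∏ b ∈ U, if enc b < enc a then (-1 : ℤ) else 1) *
      ∏ b ∈ U, if enc a < enc b then (-1 : ℤ) else 1) = (-1) ^ U.card := by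
    intro a ha
    rw [← prod_mul_distrib, ← prod_const]
    refine prod_congr rfl fun b hb => ?_
    have hne : enc a ≠ enc b := fun e => disjoint_left.mp h ha (enc_inj e ▸ hb)
    rcases lt_or_gt_of_ne hne with h1 | h1
    · simp [h1, h1.not_gt]
    · simp [h1, h1.not_gt]
  rw [prod_congr rfl this, prod_const, ← pow_mul, mul_comm]

/-- The Grassmann algebra: coefficient functions on finite sets of generators. -/
def Gr (ι C : Type*) := Finset ι → C

namespace Gr

variable {C : Type*} [CommRing C]

instance : AddCommGroup (Gr ι C) := inferInstanceAs (AddCommGroup (Finset ι → C))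

instance : Module C (Gr ι C) := inferInstanceAs (Module C (Finset ι → C))

instance : One (Gr ι C) := ⟨fun J => if J = ∅ then 1 else 0⟩

instance : Mul (Gr ι C) :=
  ⟨fun a b J => ∑ T ∈ J.powerset, (sg T (J \ T) : C) * (a T * b (J \ T))⟩

omit [Fintype ι] [DecidableEq ι] [CommRing C] in
@[ext] theorem ext {a b : Gr ι C} (h : ∀ J, a J = b J) : a = b := funext h

omit [Fintype ι] [DecidableEq ι] in
@[simp] theorem add_apply (a b : Gr ι C) (J : Finset ι) : (a + b) J = a J + b J := rfl

omit [Fintype ι] [DecidableEq ι] in
@[simp] theorem sub_apply (a b : Gr ι C) (J : Finset ι) : (a - b) J = a J - b J := rfl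

omit [Fintype ι] [DecidableEq ι] in
@[simp] theorem neg_apply (a : Gr ι C) (J : Finset ι) : (-a) J = -a J := rfl

omit [Fintype ι] [DecidableEq ι] in
@[simp] theorem zero_apply (J : Finset ι) : (0 : Gr ι C) J = 0 := rfl

omit [Fintype ι] [DecidableEq ι] in
@[simp] theorem smul_apply (c : C) (a : Gr ι C) (J : Finset ι) : (c • a) J = c * a J := rfl

omit [Fintype ι] [DecidableEq ι] in
@[simp] theorem zsmul_apply (c : ℤ) (a : Gr ι C) (J : Finset ι) : (c • a) J = c • a J := rfl

omit [Fintype ι] [DecidableEq ι] in
@[simp] theorem nsmul_apply (c : ℕ) (a : Gr ι C) (J : Finset ι) : (c • a) J = c • a J := rfl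

omit [Fintype ι] [DecidableEq ι] in
theorem sum_apply {α : Type*} (s : Finset α) (a : α → Gr ι C) (J : Finset ι) :
    (∑ x ∈ s, a x) J = ∑ x ∈ s, a x J := Finset.sum_apply J s a

omit [Fintype ι] in
theorem one_apply (J : Finset ι) : (1 : Gr ι C) J = if J = ∅ then 1 else 0 := rfl

theorem mul_apply (a b : Gr ι C) (J : Finset ι) :
    (a * b) J = ∑ T ∈ J.powerset, (sg T (J \ T) : C) * (a T * b (J \ T)) := rfl

private theorem gr_one_mul (a : Gr ι C) : 1 * a = a := by
  ext J
  rw [mul_apply, sum_eq_single ∅]
  · simp [one_apply, sg_empty_left]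
  · intro T _ hT
    simp [one_apply, hT]
  · simp

private theorem gr_mul_one (a : Gr ι C) : a * 1 = a := by
  ext J
  rw [mul_apply, sum_eq_single J]
  · simp [one_apply, sg_empty_right]
  · intro T hT hTJ
    have : J \ T ≠ ∅ := fun h =>
      hTJ (Subset.antisymm (mem_powerset.mp hT) (sdiff_eq_empty_iff_subset.mp h))
    simp [one_apply, this]
  · simp

private theorem gr_mul_assoc (a b c : Gr ι C) : a * b * c = a * (b * c) := by
  ext J
  simp only [mul_apply, mul_sum, sum_mul]
  rw [sum_sigma', sum_sigma']
  refine sum_bij' (fun x _ => ⟨x.2, x.1 \ x.2⟩) (fun x _ => ⟨x.1 ∪ x.2, x.1⟩) ?_ ?_ ?_ ?_ ?_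
  · rintro ⟨T, U⟩ h
    simp only [mem_sigma, mem_powerset] at h ⊢
    exact ⟨h.2.trans h.1, sdiff_subset_sdiff h.1 Subset.rfl⟩
  · rintro ⟨T, U⟩ h
    simp only [mem_sigma, mem_powerset] at h ⊢
    exact ⟨union_subset h.1 (h.2.trans sdiff_subset), subset_union_left⟩
  · rintro ⟨T, U⟩ h
    simp only [mem_sigma, mem_powerset] at h
    simp [union_sdiff_of_subset h.2]
  · rintro ⟨T, U⟩ h
    simp only [mem_sigma, mem_powerset] at h
    have hd : Disjoint T U := (disjoint_sdiff.mono_right h.2)
    simp [union_sdiff_cancel_left hd]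
  · rintro ⟨T, U⟩ h
    simp only [mem_sigma, mem_powerset] at h
    have e1 : (J \ U) \ (T \ U) = J \ T := by
      ext x
      simp only [mem_sdiff]
      have := @h.2 x
      tauto
    have e2 : J \ U = (T \ U) ∪ (J \ T) := by
      ext x
      simp only [mem_sdiff, mem_union]
      have h1 := @h.2 x
      have h2 := @h.1 x
      tauto
    have d1 : Disjoint (T \ U) (J \ T) := disjoint_sdiff.mono_left sdiff_subset
    have s1 : sg T (J \ T) = sg U (J \ T) * sg (T \ U) (J \ T) := by
      rw [← sg_union_left disjoint_sdiff, union_sdiff_of_subset h.2]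
    have s2 : sg U (J \ U) = sg U (T \ U) * sg U (J \ T) := by
      rw [← sg_union_right _ d1, ← e2]
    simp only [e1, s1, s2]
    push_cast
    ring

instance : Ring (Gr ι C) :=
  { (inferInstance : AddCommGroup (Gr ι C)), (inferInstance : One (Gr ι C)),
    (inferInstance : Mul (Gr ι C)) with
    left_distrib := fun a b c => by
      ext J
      simp only [mul_apply, add_apply, mul_add, sum_add_distrib]
    right_distrib := fun a b c => by
      ext J
      simp only [mul_apply, add_apply, mul_add, add_mul, sum_add_distrib]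
    zero_mul := fun a => by
      ext J
      simp [mul_apply]
    mul_zero := fun a => by
      ext J
      simp [mul_apply]
    mul_assoc := gr_mul_assoc
    one_mul := gr_one_mul
    mul_one := gr_mul_one }

instance : Algebra C (Gr ι C) :=
  Algebra.ofModule
    (fun c a b => by
      ext J
      simp only [mul_apply, smul_apply, mul_sum]
      exact sum_congr rfl fun T _ => by ring)
    (fun c a b => by
      ext J
      simp only [mul_apply, smul_apply, mul_sum]
      exact sum_congr rfl fun T _ => by ring)

/-- Zero-forms. -/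
abbrev of0 : C →+* Gr ι C := algebraMap C (Gr ι C)

theorem of0_apply (c : C) (J : Finset ι) : (of0 c : Gr ι C) J = if J = ∅ then c else 0 := by
  rw [of0, Algebra.algebraMap_eq_smul_one, smul_apply, one_apply]
  split_ifs <;> simp

theorem of0_mul (c : C) (a : Gr ι C) : of0 c * a = c • a := (Algebra.smul_def c a).symm

theorem mul_of0 (c : C) (a : Gr ι C) : a * of0 c = c • a := by
  rw [← Algebra.commutes, of0_mul]

/-- Basis elements. -/
def bas (S : Finset ι) : Gr ι C := fun J => if J = S then 1 else 0

/-- Generators. -/
def gen (i : ι) : Gr ι C := bas {i}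

/-- The parity involution. -/
def inv : Gr ι C →+* Gr ι C where
  toFun a := fun J => (-1) ^ J.card * a J
  map_one' := by
    ext J
    rw [one_apply]
    split_ifs with h <;> simp [h]
  map_mul' a b := by
    ext J
    simp only [mul_apply, mul_sum]
    refine sum_congr rfl fun T hT => ?_
    rw [← card_sdiff_add_card_eq_card (mem_powerset.mp hT), pow_add]
    ring
  map_zero' := by
    ext J
    simp
  map_add' a b := by
    ext J
    simp [mul_add]

theorem inv_apply (a : Gr ι C) (J : Finset ι) : inv a J = (-1) ^ J.card * a J := rfl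

/-- The reversal. -/
def rev : Gr ι C →+ Gr ι C where
  toFun a := fun J => (-1) ^ (J.card.choose 2) * a J
  map_zero' := by
    ext J
    simp
  map_add' a b := by
    ext J
    simp [mul_add]

theorem rev_apply (a : Gr ι C) (J : Finset ι) :
    rev a J = (-1) ^ (J.card.choose 2) * a J := rfl

variable {C' : Type*} [CommRing C']

/-- Apply an additive map to all coefficients. -/
def cmap (e : C →+ C') : Gr ι C →+ Gr ι C' where
  toFun a := fun J => e (a J)
  map_zero' := by
    ext J
    simp
  map_add' a b := by
    ext J
    simp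

theorem cmap_apply (e : C →+ C') (a : Gr ι C) (J : Finset ι) : cmap e a J = e (a J) := rfl

/-- Apply a ring map to all coefficients and kill the generators in `K`. -/
def ev (K : Finset ι) (e : C →+* C') : Gr ι C →+* Gr ι C' where
  toFun a := fun J => if Disjoint J K then e (a J) else 0
  map_one' := by
    ext J
    simp only [one_apply]
    by_cases h : J = ∅
    · simp [h]
    · simp [h]
  map_mul' a b := by
    ext J
    simp only [mul_apply]
    by_cases h : Disjoint J K
    · rw [if_pos h, map_sum]
      refine sum_congr rfl fun T hT => ?_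
      rw [if_pos (h.mono_left (mem_powerset.mp hT)), if_pos (h.mono_left sdiff_subset)]
      simp
    · rw [if_neg h]
      refine (sum_eq_zero fun T hT => ?_).symm
      by_cases h1 : Disjoint T K
      · have h2 : ¬ Disjoint (J \ T) K := fun h2 => h (by
          rw [← union_sdiff_of_subset (mem_powerset.mp hT)]
          exact disjoint_union_left.mpr ⟨h1, h2⟩)
        simp [h2]
      · simp [h1]
  map_zero' := by
    ext J
    simp
  map_add' a b := by
    ext J
    simp only [add_apply]
    split_ifs <;> simp

theorem ev_apply (K : Finset ι) (e : C →+* C') (a : Gr ι C) (J : Finset ι) :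
    ev K e a J = if Disjoint J K then e (a J) else 0 := rfl

/-- The component of degree `r`. -/
def proj (r : ℕ) : Gr ι C →+ Gr ι C where
  toFun a := fun J => if J.card = r then a J else 0
  map_zero' := by
    ext J
    simp
  map_add' a b := by
    ext J
    simp only [add_apply]
    split_ifs <;> simp

theorem proj_apply (r : ℕ) (a : Gr ι C) (J : Finset ι) :
    proj r a J = if J.card = r then a J else 0 := rfl

/-- The exterior derivative attached to a family of coefficient operators. -/
def dd (δ : ι → C →+ C) : Gr ι C →+ Gr ι C :=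
  ∑ i, (AddMonoidHom.mulLeft (gen i)).comp (cmap (δ i))

theorem dd_eq (δ : ι → C →+ C) (a : Gr ι C) : dd δ a = ∑ i, gen i * cmap (δ i) a := by
  simp [dd, AddMonoidHom.finsetSum_apply]

end Gr

/-- A family of commuting derivations. -/
structure IsDer {ι C : Type*} [CommRing C] (δ : ι → C →+ C) : Prop where
  leib : ∀ i a b, δ i (a * b) = δ i a * b + a * δ i b
  comm : ∀ i j a, δ i (δ j a) = δ j (δ i a)

end Pool.Agent.Theta
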