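import Pool.Agent.P.MP_f43029_ag.Defs

/-! Grassmann algebra: generators, parity, reversal.
Sketch. All by `ext J`, `mul_apply`. `gen_mul`: only `T = {i}` survives, `J \\ {i} = J.erase i`.
`mul_comm_sign`-type facts: reindex the sum by `T ↦ J \\ T` (`Finset.sum_bij'` or
`Finset.sum_powerset...`), and use `sg_swap`, `sg_mul_self` to get
`sg U T = (-1)^(|T||U|) * sg T U`. For `rev_mul` use
`(a+b).choose 2 = a.choose 2 + b.choose 2 + a*b` (induction on `b`, `Nat.choose_succ_succ`). -/

open Finset Matrix
open scoped Kronecker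

noncomputable section

universe u

namespace Pool.Agent.Theta

namespace Gr

variable {ι : Type*} [Fintype ι] [DecidableEq ι] {C : Type*} [CommRing C]

omit [DecidableEq ι] in
private theorem grA_sg {T U : Finset ι} (h : Disjoint T U) :
    (sg U T : C) = (-1) ^ (T.card * U.card) * (sg T U : C) := by
  have h1 : sg U T = (-1) ^ (T.card * U.card) * sg T U := by
    rw [← sg_swap h, mul_comm (sg T U), mul_assoc, sg_mul_self, mul_one]
  rw [h1]
  push_cast
  rfl

private theorem grA_swap (a b : Gr ι C) (J : Finset ι) :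
    (a * b : Gr ι C) J = ∑ T ∈ J.powerset,
      (-1) ^ (T.card * (J \ T).card) * ((sg T (J \ T) : C) * (b T * a (J \ T))) := by
  rw [mul_apply]
  refine sum_bij' (fun T _ => J \ T) (fun T _ => J \ T) ?_ ?_ ?_ ?_ ?_
  · intro T _
    exact mem_powerset.mpr sdiff_subset
  · intro T _
    exact mem_powerset.mpr sdiff_subset
  · intro T hT
    exact Finset.sdiff_sdiff_eq_self (mem_powerset.mp hT)
  · intro T hT
    exact Finset.sdiff_sdiff_eq_self (mem_powerset.mp hT)
  · intro T hT
    rw [Finset.sdiff_sdiff_eq_self (mem_powerset.mp hT),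
      grA_sg (C := C) (T := J \ T) (U := T) sdiff_disjoint]
    ring

private theorem grA_choose (a b : ℕ) : (a + b).choose 2 = a.choose 2 + b.choose 2 + a * b := by
  induction b with
  | zero => simp
  | succ b ih =>
    rw [← add_assoc, Nat.choose_succ_succ' (a + b) 1, Nat.choose_succ_succ' b 1, ih,
      Nat.choose_one_right, Nat.choose_one_right]
    ring

private theorem grA_deg_one {a : Gr ι C} (h : proj 1 a = a) {J : Finset ι} (hJ : J.card ≠ 1) :
    a J = 0 := by
  rw [← h, proj_apply, if_neg hJ]

theorem gen_mul (i : ι) (a : Gr ι C) (J : Finset ι) :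
    (gen i * a : Gr ι C) J = if i ∈ J then (sg {i} (J.erase i) : C) * a (J.erase i) else 0 := by
  rw [mul_apply]
  split_ifs with h
  · rw [sum_eq_single {i}]
    · simp [gen, bas, sdiff_singleton_eq_erase]
    · intro T _ hT
      simp [gen, bas, hT]
    · intro h1
      exact absurd (mem_powerset.mpr (singleton_subset_iff.mpr h)) h1
  · refine sum_eq_zero fun T hT => ?_
    have : T ≠ {i} := by
      rintro rfl
      exact h (singleton_subset_iff.mp (mem_powerset.mp hT))
    simp [gen, bas, this]

theorem inv_of0 (c : C) : inv (of0 c : Gr ι C) = of0 c := by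
  ext J
  rw [inv_apply, of0_apply]
  split_ifs with h <;> simp [h]

theorem inv_gen (i : ι) : inv (gen i : Gr ι C) = -gen i := by
  ext J
  rw [inv_apply, neg_apply, gen, bas]
  split_ifs with h <;> simp [h]

theorem inv_inv (a : Gr ι C) : inv (inv a) = a := by
  ext J
  rw [inv_apply, inv_apply, ← mul_assoc, ← mul_pow]
  simp

theorem inv_smul (c : C) (a : Gr ι C) : inv (c • a) = c • inv a := by
  ext J
  simp only [inv_apply, smul_apply]
  ring

theorem rev_mul (a b : Gr ι C) : rev (a * b) = rev b * rev a := by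
  ext J
  rw [rev_apply, grA_swap, mul_apply, mul_sum]
  refine sum_congr rfl fun T hT => ?_
  have h1 : J.card = T.card + (J \ T).card := by
    rw [← card_sdiff_add_card_eq_card (mem_powerset.mp hT), add_comm]
  have h2 : ((-1 : C) ^ (T.card * (J \ T).card)) * (-1) ^ (T.card * (J \ T).card) = 1 := by
    rw [← mul_pow]
    simp
  rw [rev_apply, rev_apply, h1, grA_choose, pow_add, pow_add]
  linear_combination ((-1) ^ (T.card.choose 2) * (-1) ^ ((J \ T).card.choose 2) *
    ((sg T (J \ T) : C) * (b T * a (J \ T)))) * h2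

theorem rev_of0 (c : C) : rev (of0 c : Gr ι C) = of0 c := by
  ext J
  rw [rev_apply, of0_apply]
  split_ifs with h <;> simp [h]

theorem rev_one : rev (1 : Gr ι C) = 1 := by
  ext J
  rw [rev_apply, one_apply]
  split_ifs with h <;> simp [h]

theorem rev_smul (c : C) (a : Gr ι C) : rev (c • a) = c • rev a := by
  ext J
  simp only [rev_apply, smul_apply]
  ring

theorem rev_of_deg_one {a : Gr ι C} (h : proj 1 a = a) : rev a = a := by
  ext J
  rw [rev_apply]
  by_cases hJ : J.card = 1
  · simp [hJ]
  · simp [grA_deg_one h hJ]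

theorem inv_of_deg_one {a : Gr ι C} (h : proj 1 a = a) : inv a = -a := by
  ext J
  rw [inv_apply, neg_apply]
  by_cases hJ : J.card = 1
  · simp [hJ]
  · simp [grA_deg_one h hJ]

theorem inv_of_ev {a : Gr ι C} (h : Ev a) : inv a = a := by
  ext J
  rw [inv_apply]
  rcases Nat.even_or_odd J.card with hJ | hJ
  · rw [hJ.neg_one_pow, one_mul]
  · rw [h J hJ, mul_zero]

theorem comm_of_ev {a : Gr ι C} (h : Ev a) (b : Gr ι C) : a * b = b * a := by
  ext J
  rw [grA_swap, mul_apply]
  refine sum_congr rfl fun T _ => ?_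
  rcases Nat.even_or_odd (J \ T).card with hJ | hJ
  · rw [(hJ.mul_left _).neg_one_pow, one_mul]
  · rw [h _ hJ]
    simp

theorem comm_of_deg_one {a : Gr ι C} (h : proj 1 a = a) (b : Gr ι C) : a * b = inv b * a := by
  ext J
  rw [grA_swap, mul_apply]
  refine sum_congr rfl fun T _ => ?_
  rw [inv_apply]
  by_cases hJ : (J \ T).card = 1
  · rw [hJ, mul_one]
    ring
  · simp [grA_deg_one h hJ]

theorem ev_proj {a : Gr ι C} (h : Ev a) (r : ℕ) : Ev (proj r a) := by
  intro J hJ
  rw [proj_apply, h J hJ, ite_self]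

theorem proj_of_ev_odd {a : Gr ι C} (h : Ev a) {r : ℕ} (hr : Odd r) : proj r a = 0 := by
  ext J
  rw [proj_apply, zero_apply]
  split_ifs with hJ
  · exact h J (hJ ▸ hr)
  · rfl

theorem proj_rev (r : ℕ) (a : Gr ι C) :
    proj r (rev a) = ((-1 : ℤ) ^ (r.choose 2)) • proj r a := by
  ext J
  rw [zsmul_apply, proj_apply, proj_apply, rev_apply]
  split_ifs with hJ
  · rw [hJ, zsmul_eq_mul]
    push_cast
    rfl
  · simp

theorem proj_smul (r : ℕ) (c : C) (a : Gr ι C) : proj r (c • a) = c • proj r a := by
  ext J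
  simp only [proj_apply, smul_apply]
  split_ifs <;> simp

theorem sum_proj (a : Gr ι C) : ∑ r ∈ range (Fintype.card ι + 1), proj r a = a := by
  ext J
  rw [sum_apply]
  simp only [proj_apply]
  rw [sum_ite_eq, if_pos (mem_range.mpr (Nat.lt_succ_of_le (card_le_univ J)))]

theorem bas_mul_bas {S T : Finset ι} (h : Disjoint S T) :
    (bas S * bas T : Gr ι C) = sg S T • bas (S ∪ T) := by
  ext J
  rw [mul_apply, zsmul_apply]
  by_cases hJ : J = S ∪ T
  · subst hJ
    rw [sum_eq_single S]
    · simp [bas, union_sdiff_cancel_left h]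
    · intro U _ hU
      simp [bas, hU]
    · intro h1
      exact absurd (mem_powerset.mpr subset_union_left) h1
  · have : (bas (S ∪ T) : Gr ι C) J = 0 := by simp [bas, hJ]
    rw [this, smul_zero]
    refine sum_eq_zero fun U hU => ?_
    by_cases h1 : U = S
    · subst h1
      have h2 : J \ U ≠ T := by
        rintro rfl
        exact hJ (union_sdiff_of_subset (mem_powerset.mp hU)).symm
      simp [bas, h2]
    · simp [bas, h1]

theorem gen_mul_gen_self (i : ι) : (gen i * gen i : Gr ι C) = 0 := by
  ext J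
  rw [gen_mul, zero_apply]
  split_ifs with h
  · have : J.erase i ≠ {i} := fun e => notMem_erase i J (e ▸ mem_singleton_self i)
    simp [gen, bas, this]
  · rfl

theorem gen_mul_gen_comm (i j : ι) : (gen i * gen j : Gr ι C) = -(gen j * gen i) := by
  have h : proj 1 (gen i : Gr ι C) = gen i := by
    ext J
    rw [proj_apply, gen, bas]
    split_ifs with h1 h2 h2
    · rfl
    · rfl
    · exact absurd (h2 ▸ card_singleton i) h1
    · rfl
  rw [comm_of_deg_one h, inv_gen, neg_mul]

theorem bas_empty : (bas ∅ : Gr ι C) = 1 := by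
  rfl

end Gr

end Pool.Agent.Theta
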