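import Pool.Agent.P.MP_f43029_ag.GrA

/-! Grassmann algebra: the exterior derivative.
Sketch. `dd_apply` from `dd_eq`, `gen_mul`. `dd_mul`: `cmap (δ i) (a*b) = cmap (δ i) a * b +
a * cmap (δ i) b` (Leibniz; `δ i` kills integer casts since `δ i 1 = 0`), then
`gen i * a = inv a * gen i` (`comm_of_deg_one`, `proj 1 (gen i) = gen i`). `dd_dd`: the double sum
of `gen i * gen j * cmap (δ i) (cmap (δ j) a)` is antisymmetric with zero diagonal
(`Finset.sum_involution` on `univ ×ˢ univ`, or split by `enc i < enc j`). -/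

open Finset Matrix
open scoped Kronecker

noncomputable section

universe u

namespace Pool.Agent.Theta

namespace Gr

variable {ι : Type*} [Fintype ι] [DecidableEq ι] {C : Type*} [CommRing C]

theorem dd_apply (δ : ι → C →+ C) (a : Gr ι C) (J : Finset ι) :
    dd δ a J = ∑ i ∈ J, (sg {i} (J.erase i) : C) * δ i (a (J.erase i)) := by
  rw [dd_eq, sum_apply]
  simp only [gen_mul, cmap_apply]
  rw [← Finset.sum_filter, Finset.filter_mem_eq_inter, Finset.univ_inter]

omit [Fintype ι] [DecidableEq ι] in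
private theorem grB_one {δ : ι → C →+ C} (h : IsDer δ) (i : ι) : δ i 1 = 0 := by
  have := h.leib i 1 1
  rw [mul_one, mul_one, one_mul] at this
  exact left_eq_add.1 this

private theorem grB_int (e : C →+ C) (z : ℤ) (c : C) : e ((z : C) * c) = (z : C) * e c := by
  rw [← zsmul_eq_mul, map_zsmul, zsmul_eq_mul]

private theorem grB_mul {δ : ι → C →+ C} (h : IsDer δ) (i : ι) (a b : Gr ι C) :
    cmap (δ i) (a * b) = cmap (δ i) a * b + a * cmap (δ i) b := by
  ext J
  simp only [cmap_apply, mul_apply, add_apply, map_sum, grB_int]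
  simp only [h.leib, mul_add, Finset.sum_add_distrib]

private theorem grB_gen {δ : ι → C →+ C} (h : IsDer δ) (i j : ι) :
    cmap (δ i) (gen j : Gr ι C) = 0 := by
  ext J
  rw [cmap_apply, gen, bas]
  split_ifs
  · exact grB_one h i
  · exact map_zero _

private theorem grB_proj (i : ι) : proj 1 (gen i : Gr ι C) = gen i := by
  ext J
  rw [proj_apply, gen, bas]
  split_ifs with h1 h2 h2
  · rfl
  · rfl
  · exact (h1 (by rw [h2, card_singleton])).elim
  · rfl

theorem dd_mul {δ : ι → C →+ C} (h : IsDer δ) (a b : Gr ι C) :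
    dd δ (a * b) = dd δ a * b + inv a * dd δ b := by
  simp only [dd_eq, grB_mul h, mul_add, Finset.sum_add_distrib, Finset.sum_mul, Finset.mul_sum,
    ← mul_assoc]
  congr 1
  exact Finset.sum_congr rfl fun i _ => by rw [comm_of_deg_one (grB_proj i) a]

theorem dd_one {δ : ι → C →+ C} (h : IsDer δ) : dd δ (1 : Gr ι C) = 0 := by
  ext J
  rw [dd_apply, zero_apply]
  refine Finset.sum_eq_zero fun i _ => ?_
  rw [one_apply]
  split_ifs
  · rw [grB_one h, mul_zero]
  · rw [map_zero, mul_zero]

theorem dd_dd {δ : ι → C →+ C} (h : IsDer δ) (a : Gr ι C) : dd δ (dd δ a) = 0 := by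
  rw [dd_eq, dd_eq]
  simp only [map_sum, grB_mul h, grB_gen h, zero_mul, zero_add, Finset.mul_sum, ← mul_assoc]
  rw [← Finset.sum_product']
  refine Finset.sum_involution (fun x _ => x.swap) (fun x _ => ?_) (fun x _ hx e => hx ?_)
    (fun x _ => by simp) fun x _ => rfl
  · have e : cmap (δ x.2) (cmap (δ x.1) a) = cmap (δ x.1) (cmap (δ x.2) a) :=
      ext fun J => h.comm _ _ _
    rw [Prod.fst_swap, Prod.snd_swap, gen_mul_gen_comm x.2 x.1, e, neg_mul, add_neg_cancel]
  · rw [show x.2 = x.1 from congrArg Prod.fst e, gen_mul_gen_self, zero_mul]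

theorem inv_dd (δ : ι → C →+ C) (a : Gr ι C) : inv (dd δ a) = -dd δ (inv a) := by
  ext J
  rw [inv_apply, neg_apply, dd_apply, dd_apply, Finset.mul_sum, ← Finset.sum_neg_distrib]
  refine Finset.sum_congr rfl fun i hi => ?_
  have e := grB_int (δ i) ((-1) ^ (J.erase i).card) (a (J.erase i))
  push_cast at e
  rw [inv_apply, e, ← card_erase_add_one hi, pow_succ]
  ring

theorem dd_smul {δ : ι → C →+ C} (h : IsDer δ) {c : C} (hc : ∀ i, δ i c = 0) (a : Gr ι C) :
    dd δ (c • a) = c • dd δ a := by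
  ext J
  rw [smul_apply, dd_apply, dd_apply, Finset.mul_sum]
  refine Finset.sum_congr rfl fun i _ => ?_
  rw [smul_apply, h.leib, hc]
  ring

theorem proj_succ_dd (δ : ι → C →+ C) (r : ℕ) (a : Gr ι C) :
    proj (r + 1) (dd δ a) = dd δ (proj r a) := by
  ext J
  rw [proj_apply, dd_apply, dd_apply]
  split_ifs with h
  · refine Finset.sum_congr rfl fun i hi => ?_
    rw [proj_apply, if_pos (by have := card_erase_add_one hi; omega)]
  · refine (Finset.sum_eq_zero fun i hi => ?_).symm
    rw [proj_apply, if_neg (by have := card_erase_add_one hi; omega), map_zero, mul_zero]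

theorem proj_one_dd_of0 (δ : ι → C →+ C) (c : C) :
    proj 1 (dd δ (of0 c : Gr ι C)) = dd δ (of0 c) := by
  refine (proj_succ_dd δ 0 _).trans (congrArg _ (ext fun J => ?_))
  simp only [proj_apply, of0_apply, card_eq_zero]
  split_ifs <;> rfl

theorem proj_succ_mul {a : Gr ι C} (h : proj 1 a = a) (r : ℕ) (b : Gr ι C) :
    proj (r + 1) (a * b) = a * proj r b := by
  have h0 : ∀ T : Finset ι, T.card ≠ 1 → a T = 0 := fun T hT => by
    rw [← h, proj_apply, if_neg hT]
  ext J
  rw [proj_apply, mul_apply, mul_apply]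
  split_ifs with hJ
  · refine Finset.sum_congr rfl fun T hT => ?_
    have := card_sdiff_add_card_eq_card (mem_powerset.1 hT)
    by_cases h1 : T.card = 1
    · rw [proj_apply, if_pos (by omega)]
    · rw [h0 T h1, zero_mul, zero_mul]
  · refine (Finset.sum_eq_zero fun T hT => ?_).symm
    have := card_sdiff_add_card_eq_card (mem_powerset.1 hT)
    by_cases h1 : T.card = 1
    · rw [proj_apply, if_neg (by omega), mul_zero, mul_zero]
    · rw [h0 T h1, zero_mul, mul_zero]

theorem dd_of0 (δ : ι → C →+ C) (c : C) : dd δ (of0 c : Gr ι C) = ∑ i, δ i c • gen i := by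
  rw [dd_eq]
  refine Finset.sum_congr rfl fun i _ => ?_
  rw [← mul_of0]
  refine congrArg _ (ext fun J => ?_)
  rw [cmap_apply, of0_apply, of0_apply]
  split_ifs
  · rfl
  · exact map_zero _

theorem dd_of0_mul_apply (δ : ι → C →+ C) (c : C) (a : Gr ι C) (J : Finset ι) :
    (dd δ (of0 c : Gr ι C) * a : Gr ι C) J =
      ∑ i ∈ J, (sg {i} (J.erase i) : C) * (δ i c * a (J.erase i)) := by
  rw [dd_of0, Finset.sum_mul, sum_apply]
  simp only [smul_mul_assoc, smul_apply, gen_mul, mul_ite, mul_zero]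
  rw [← Finset.sum_filter, Finset.filter_mem_eq_inter, Finset.univ_inter]
  exact Finset.sum_congr rfl fun i _ => by ring

end Gr

end Pool.Agent.Theta
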