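import Pool.Agent.P.MP_f43029_ag.Defs

/-! The homological perturbation lemma.
Sketch. Put `a = hplA δ σ N`. From `(δ σ) ^ N = 0`: `a = δ - δ σ a` and `a = δ - a σ δ`
(geometric sums; `(δ σ) ^ j δ = δ (σ δ) ^ j`). With `e = I ∘ P = 1 - d σ - σ d` one gets
`d a + a d + a e a = 0`: multiply on the left by the unit `1 + δ σ` (inverse
`∑ (-(δ σ)) ^ j`) and on the right by `1 + σ δ` (unit as `(σ δ) ^ (N+1) = 0`), use
`(1 + δ σ) a = δ = a (1 + σ δ)` and `d δ + δ d + δ δ = 0`. Then with `D' = P a I`,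
`I' = I - σ a I`, `P' = P - P a σ`, `σ' = σ - σ a σ`: `D' D' = 0`, `(d + δ) I' = I' D'`,
`P' (d + δ) = D' P'`, `P' I' = 1` (side conditions), `1 - I' P' = (d + δ) σ' + σ' (d + δ)`. -/

open Finset Matrix
open scoped Kronecker

noncomputable section

universe u

namespace Pool.Agent.Theta

theorem hplA_left {S : Type*} [Ring S] {δ σ : S} {N : ℕ} (h : (δ * σ) ^ N = 0) :
    hplA δ σ N = δ - δ * σ * hplA δ σ N := by
  have h1 := mul_neg_geom_sum (-(δ * σ)) N
  rw [neg_pow (δ * σ) N, h, mul_zero, sub_zero, sub_neg_eq_add] at h1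
  have h2 := congrArg (· * δ) h1
  simp only [one_mul, add_mul, mul_assoc (δ * σ)] at h2
  rw [hplA, ← sum_mul]
  exact eq_sub_of_add_eq h2

theorem hplA_right {S : Type*} [Ring S] {δ σ : S} {N : ℕ} (h : (δ * σ) ^ N = 0) :
    hplA δ σ N = δ - hplA δ σ N * σ * δ := by
  have h1 := geom_sum_mul_neg (-(δ * σ)) N
  rw [neg_pow (δ * σ) N, h, mul_zero, sub_zero, sub_neg_eq_add] at h1
  have h2 := congrArg (· * δ) h1
  simp only [one_mul, mul_add, mul_one, add_mul, ← mul_assoc] at h2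
  rw [hplA, ← sum_mul]
  exact eq_sub_of_add_eq h2

theorem hplA_anti {S : Type*} [Ring S] {δ σ x : S} (N : ℕ) (h : x * δ = -(δ * x))
    (h' : x * σ = -(σ * x)) : x * hplA δ σ N = -(hplA δ σ N * x) := by
  have hc : Commute x (δ * σ) := by
    change x * (δ * σ) = δ * σ * x
    rw [← mul_assoc, h, neg_mul, mul_assoc, h', mul_neg, neg_neg, mul_assoc]
  rw [hplA, mul_sum, sum_mul, ← sum_neg_distrib]
  refine sum_congr rfl fun j _ => ?_
  rw [← mul_assoc, (hc.neg_right.pow_right j).eq, mul_assoc, h, mul_neg, mul_assoc]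

private theorem hpl_key {S : Type*} [Ring S] {d δ σ a : S} (hd : d * d = 0)
    (hδ : (d + δ) * (d + δ) = 0) (hl : a = δ - δ * σ * a) (hr : a = δ - a * σ * δ) :
    a * (1 - (d * σ + σ * d)) * a = -(d * a) - a * d := by
  have l1 : (1 + δ * σ) * a = δ := by
    rw [add_mul, one_mul]
    exact add_eq_of_eq_sub hl
  have r1 : a * (1 + σ * δ) = δ := by
    rw [mul_add, mul_one, ← mul_assoc]
    exact add_eq_of_eq_sub hr
  have l2 : (1 - a * σ) * (1 + δ * σ) = 1 := by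
    have : (1 - a * σ) * (1 + δ * σ) = 1 + (δ - a * (1 + σ * δ)) * σ := by noncomm_ring
    rw [this, r1, sub_self, zero_mul, add_zero]
  have r2 : (1 + σ * δ) * (1 - σ * a) = 1 := by
    have : (1 + σ * δ) * (1 - σ * a) = 1 + σ * (δ - (1 + δ * σ) * a) := by noncomm_ring
    rw [this, l1, sub_self, mul_zero, add_zero]
  have h0 : (1 + δ * σ) * (d * a + a * d + a * (1 - (d * σ + σ * d)) * a) * (1 + σ * δ) = 0 := by
    have : (1 + δ * σ) * (d * a + a * d + a * (1 - (d * σ + σ * d)) * a) * (1 + σ * δ) =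
        (1 + δ * σ) * d * (a * (1 + σ * δ)) + (1 + δ * σ) * a * d * (1 + σ * δ) +
          (1 + δ * σ) * a * (1 - (d * σ + σ * d)) * (a * (1 + σ * δ)) := by
      simp only [mul_add (1 + δ * σ), add_mul _ _ (1 + σ * δ), mul_assoc]
    rw [this, l1, r1, ← hδ, ← sub_zero ((d + δ) * (d + δ)), ← hd]
    noncomm_ring
  have h1 := congrArg (fun t => (1 - a * σ) * t * (1 - σ * a)) h0
  simp only [mul_zero, zero_mul] at h1
  rw [← mul_assoc, ← mul_assoc, l2, one_mul, mul_assoc, r2, mul_one] at h1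
  rw [eq_neg_of_add_eq_zero_right h1, neg_add, sub_eq_add_neg]

theorem hpl {k E H : Type*} [CommRing k] [AddCommGroup E] [Module k E] [AddCommGroup H]
    [Module k H] {d δ σ : Module.End k E} {I : H →ₗ[k] E} {P : E →ₗ[k] H} {N : ℕ}
    (hd : d * d = 0) (hδ : (d + δ) * (d + δ) = 0) (dI : d ∘ₗ I = 0) (Pd : P ∘ₗ d = 0)
    (PI : P ∘ₗ I = LinearMap.id) (hom : d * σ + σ * d = 1 - I ∘ₗ P) (sI : σ ∘ₗ I = 0)
    (Ps : P ∘ₗ σ = 0) (ss : σ * σ = 0) (nil : (δ * σ) ^ N = 0) :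
    (P ∘ₗ hplA δ σ N ∘ₗ I) ∘ₗ (P ∘ₗ hplA δ σ N ∘ₗ I) = 0 ∧
    (d + δ) ∘ₗ (I - σ ∘ₗ hplA δ σ N ∘ₗ I) =
      (I - σ ∘ₗ hplA δ σ N ∘ₗ I) ∘ₗ (P ∘ₗ hplA δ σ N ∘ₗ I) ∧
    (∀ y, (∃ z, (I - σ ∘ₗ hplA δ σ N ∘ₗ I) y = (d + δ) z) →
      ∃ y', y = (P ∘ₗ hplA δ σ N ∘ₗ I) y') ∧
    (∀ z, (d + δ) z = 0 → ∃ y w, (P ∘ₗ hplA δ σ N ∘ₗ I) y = 0 ∧
      z = (I - σ ∘ₗ hplA δ σ N ∘ₗ I) y + (d + δ) w) := by
  have hl := hplA_left nil
  have hr := hplA_right nil
  have hk := hpl_key hd hδ hl hr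
  rw [hom, sub_sub_cancel] at hk
  generalize hplA δ σ N = a at *
  have e1 : ∀ y, d (I y) = 0 := LinearMap.congr_fun dI
  have e2 : ∀ z, P (d z) = 0 := LinearMap.congr_fun Pd
  have e3 : ∀ y, P (I y) = y := LinearMap.congr_fun PI
  have e4 : ∀ z, I (P z) = z - (d (σ z) + σ (d z)) := fun z =>
    eq_sub_of_add_eq' (add_eq_of_eq_sub (LinearMap.congr_fun hom z))
  have e5 : ∀ y, σ (I y) = 0 := LinearMap.congr_fun sI
  have e6 : ∀ z, P (σ z) = 0 := LinearMap.congr_fun Ps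
  have e7 : ∀ z, σ (σ z) = 0 := LinearMap.congr_fun ss
  have e8 : ∀ z, a (I (P (a z))) = -d (a z) - a (d z) := LinearMap.congr_fun hk
  have e9 : ∀ z, δ (σ (a z)) = δ z - a z := fun z =>
    eq_sub_of_add_eq' (add_eq_of_eq_sub (LinearMap.congr_fun hl z))
  have e10 : ∀ z, a (σ (δ z)) = δ z - a z := fun z =>
    eq_sub_of_add_eq' (add_eq_of_eq_sub (LinearMap.congr_fun hr z))
  have ch : ∀ z, P ((d + δ) z) - P (a (σ ((d + δ) z))) = P (a (I (P z - P (a (σ z))))) := by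
    intro z
    rw [map_sub I, map_sub a, e8, e4]
    simp only [LinearMap.add_apply, map_add, map_sub, map_neg, e2, e10]
    abel
  refine ⟨LinearMap.ext fun y => ?_, LinearMap.ext fun y => ?_, ?_, fun z hz => ?_⟩
  · simp only [LinearMap.comp_apply, e8, e1, map_sub, map_neg, e2, map_zero, LinearMap.zero_apply,
      neg_zero, sub_zero]
  · simp only [LinearMap.comp_apply, LinearMap.sub_apply, LinearMap.add_apply]
    rw [e8, e4]
    simp only [map_sub, map_neg, e1, e9, map_zero]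
    abel
  · rintro y ⟨z, hz⟩
    refine ⟨P z - P (a (σ z)), ?_⟩
    have := ch z
    rw [← hz] at this
    simpa only [LinearMap.comp_apply, LinearMap.sub_apply, map_sub P, map_sub σ, e3, e5, e6, e7,
      map_zero, sub_zero] using this
  · refine ⟨P z - P (a (σ z)), σ z - σ (a (σ z)), ?_, ?_⟩
    · have := ch z
      rw [hz] at this
      simpa only [LinearMap.comp_apply, map_zero, sub_zero] using this.symm
    · have hz' : d z = -δ z := eq_neg_of_add_eq_zero_left hz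
      simp only [LinearMap.comp_apply, LinearMap.sub_apply, LinearMap.add_apply, map_sub]
      rw [e8, e4 z, e4 (a (σ z))]
      simp only [map_add, map_sub, map_neg, hz', e9, e10]
      abel

end Pool.Agent.Theta
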