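import Pool.Agent.P.MP_f43029_ag.Defs

/-! Combining contractions. -/

open Finset Matrix
open scoped Kronecker

noncomputable section

universe u

namespace Pool.Agent.Theta

/-- Contractions of commuting pieces combine. Induction on `s`: carry along that `κ` anticommutes
with `δ j` for `j ∉ s` and use `κ + (∏ over s of Q) * κ₀ j` for `insert j s`. -/
theorem contraction_sum {S α : Type*} [Ring S] [DecidableEq α] (δ κ₀ Q : α → S)
    (h1 : ∀ i, δ i * κ₀ i + κ₀ i * δ i = 1 - Q i)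
    (h2 : ∀ i j, i ≠ j → δ i * κ₀ j + κ₀ j * δ i = 0)
    (h3 : ∀ i j, i ≠ j → δ i * Q j = Q j * δ i) (h4 : ∀ i, δ i * Q i = 0) (h5 : ∀ i, Q i * δ i = 0)
    (h6 : ∀ i j, Commute (Q i) (Q j)) (s : Finset α) :
    ∃ κ : S, (∑ i ∈ s, δ i) * κ + κ * ∑ i ∈ s, δ i =
      1 - s.noncommProd Q fun i _ j _ _ => h6 i j := by
  suffices H : ∃ κ P : S, P = (s.noncommProd Q fun i _ j _ _ => h6 i j) ∧
      (∀ l ∉ s, δ l * κ + κ * δ l = 0) ∧ (∀ l ∉ s, δ l * P = P * δ l) ∧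
      (∀ l, Q l * P = P * Q l) ∧ P * ∑ i ∈ s, δ i = 0 ∧ (∑ i ∈ s, δ i) * P = 0 ∧
      (∑ i ∈ s, δ i) * κ + κ * ∑ i ∈ s, δ i = 1 - P by
    obtain ⟨κ, P, rfl, -, -, -, -, -, h⟩ := H
    exact ⟨κ, h⟩
  induction s using Finset.induction_on with
  | empty => exact ⟨0, 1, rfl, by simp, by simp, by simp, by simp, by simp, by simp⟩
  | insert j s hj ih =>
    obtain ⟨κ, P, hP, a1, a2, a3, a4, a5, a6⟩ := ih
    have a7 : κ₀ j * ∑ i ∈ s, δ i = -((∑ i ∈ s, δ i) * κ₀ j) := by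
      rw [mul_sum, sum_mul, ← sum_neg_distrib]
      exact sum_congr rfl fun i hi =>
        eq_neg_of_add_eq_zero_right (h2 i j (ne_of_mem_of_not_mem hi hj))
    rw [sum_insert hj]
    generalize ∑ i ∈ s, δ i = D at *
    refine ⟨κ + P * κ₀ j, Q j * P, ?_, fun l hl => ?_, fun l hl => ?_, fun l => ?_, ?_, ?_, ?_⟩
    · rw [hP]
      exact (noncommProd_insert_of_notMem s j Q _ hj).symm
    · rw [mem_insert, not_or] at hl
      have : δ l * (κ + P * κ₀ j) + (κ + P * κ₀ j) * δ l =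
          δ l * κ + κ * δ l + (δ l * P * κ₀ j + P * κ₀ j * δ l) := by noncomm_ring
      rw [this, a1 l hl.2, a2 l hl.2, mul_assoc, mul_assoc, ← mul_add, h2 l j hl.1, mul_zero,
        add_zero]
    · rw [mem_insert, not_or] at hl
      rw [← mul_assoc, h3 l j hl.1, mul_assoc, a2 l hl.2, mul_assoc]
    · rw [← mul_assoc, (h6 l j).eq, mul_assoc, a3 l, mul_assoc]
    · rw [mul_add, mul_assoc _ P D, a4, a3 j, mul_assoc, h5, mul_zero, mul_zero, add_zero]
    · rw [add_mul, ← mul_assoc, h4, a3 j, ← mul_assoc, a5, zero_mul, zero_mul, add_zero]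
    · have : (δ j + D) * (κ + P * κ₀ j) + (κ + P * κ₀ j) * (δ j + D) =
          δ j * κ + κ * δ j + (D * κ + κ * D) + (δ j * P * κ₀ j + P * (κ₀ j * δ j)) +
            (D * P * κ₀ j + P * (κ₀ j * D)) := by noncomm_ring
      rw [this, a1 j hj, a6, a2 j hj, mul_assoc P, ← mul_add, h1, a5, a7, mul_neg, ← mul_assoc, a4,
        a3 j]
      noncomm_ring

end Pool.Agent.Theta
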