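import Pool.Agent.P.MP_f43029_ag.Mat

/-! Formal consequences of the axioms of an index function.
Sketch. `cone`: the family `fromBlocks (D.map C) (X • Fm.map C) 0 (D'.map C)` over `(PS n k)[X]`;
with a common exponent `N` and `h₀ = fromBlocks h 0 0 h'` the commutator is `X i ^ N • 1 + ν` with
`ν` strictly upper triangular, `ν ^ 2 = 0`; `nh_of_nilpotent`. `mf_cone` is the same computation
without the parameter. `tens_const`: induction on `β` (`Fintype.induction_empty_option`, or first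
`β = Fin m` by induction and then `reindex`); `ι × Option β ≃ ι ⊕ ι × β`; the summand for one
point `b` has grading `ε` or `-ε` (`shift`); the empty case by `contr`. -/

open Finset Matrix
open scoped Kronecker

noncomputable section

universe u

namespace Pool.Agent.Theta

variable {n : ℕ} {k : Type*} [Field k] {Q : Type*} [AddCommGroup Q]
  {ρ : ∀ (ι : Type) [Fintype ι] [DecidableEq ι], (ι → ℤˣ) → Matrix ι ι (PS n k) → Q}
  {ι κ β : Type} [Fintype ι] [DecidableEq ι] [Fintype κ] [DecidableEq κ] [Fintype β] [DecidableEq β]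

section

variable {T : Type*} [CommRing T] {ε : ι → ℤˣ} {ε' : κ → ℤˣ} {D : Matrix ι ι T}
  {D' : Matrix κ κ T} {Fm : Matrix ι κ T}

omit [Fintype ι] [DecidableEq ι] [Fintype κ] [DecidableEq κ] in
theorem IdxA_od (h : Od ε D) (h' : Od ε' D') (hF : Par (-1) ε ε' Fm) :
    Od (Sum.elim ε ε') (fromBlocks D Fm 0 D') := by
  rintro (i | i) (j | j) e
  · exact h i j e
  · exact hF i j e
  · rfl
  · exact h' i j e

omit [DecidableEq ι] [DecidableEq κ] in
theorem IdxA_sq (h : D * D = 0) (h' : D' * D' = 0) (hc : D * Fm + Fm * D' = 0) :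
    fromBlocks D Fm 0 D' * fromBlocks D Fm 0 D' = 0 := by
  simp [fromBlocks_multiply, h, h', hc]

theorem IdxA_nh (hs : fromBlocks D Fm 0 D' * fromBlocks D Fm 0 D' = 0) {y : T} (h : Nh D y)
    (h' : Nh D' y) : Nh (fromBlocks D Fm 0 D') (y ^ 2) := by
  obtain ⟨g, hg⟩ := h
  obtain ⟨g', hg'⟩ := h'
  refine nh_of_nilpotent (f := 0) (h := fromBlocks g 0 0 g')
    (ν := fromBlocks 0 (Fm * g' + g * Fm) 0 0) (hs.trans (zero_smul _ _).symm) ?_ ?_
  · rw [← fromBlocks_one, fromBlocks_smul]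
    simp [fromBlocks_multiply, fromBlocks_add, hg, hg']
  · simp [pow_two, fromBlocks_multiply]

end

theorem IdxA_common {ε : ι → ℤˣ} {ε' : κ → ℤˣ} {D : Matrix ι ι (PS n k)}
    {D' : Matrix κ κ (PS n k)} (h : MF ε D 0) (h' : MF ε' D' 0) :
    ∃ N : ℕ, ∀ i, Nh D (MvPowerSeries.X i ^ N) ∧ Nh D' (MvPowerSeries.X i ^ N) := by
  obtain ⟨N, hN⟩ := h.supp
  obtain ⟨N', hN'⟩ := h'.supp
  refine ⟨N + N', fun i => ⟨?_, ?_⟩⟩
  · rw [add_comm, pow_add]
    exact (hN i).mul _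
  · rw [pow_add]
    exact (hN' i).mul _

theorem IdxA_kron {ε : ι → ℤˣ} {D : Matrix ι ι (PS n k)} (h : MF ε D 0) (εβ : β → ℤˣ) :
    MF (tE ε εβ) (D ⊗ₖ (1 : Matrix β β (PS n k))) 0 := by
  obtain ⟨N, hN⟩ := h.supp
  refine ⟨od_kron_one εβ h.od, ?_, N, fun i => ?_⟩
  · rw [← mul_kronecker_mul, h.sq, zero_smul, zero_smul, zero_kronecker]
  · obtain ⟨g, hg⟩ := hN i
    refine ⟨g ⊗ₖ (1 : Matrix β β (PS n k)), ?_⟩
    rw [← mul_kronecker_mul, ← mul_kronecker_mul, Matrix.mul_one, ← add_kronecker, hg,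
      smul_kronecker, one_kronecker_one]

theorem mf_cone {ε : ι → ℤˣ} {ε' : κ → ℤˣ} {D : Matrix ι ι (PS n k)} {D' : Matrix κ κ (PS n k)}
    {Fm : Matrix ι κ (PS n k)} (h : MF ε D 0) (h' : MF ε' D' 0) (hF : Par (-1) ε ε' Fm)
    (hc : D * Fm + Fm * D' = 0) : MF (Sum.elim ε ε') (fromBlocks D Fm 0 D') 0 := by
  have h1 : D * D = 0 := h.sq.trans (zero_smul _ _)
  have h2 : D' * D' = 0 := h'.sq.trans (zero_smul _ _)
  obtain ⟨N, hN⟩ := IdxA_common h h'
  refine ⟨IdxA_od h.od h'.od hF, (IdxA_sq h1 h2 hc).trans (zero_smul _ _).symm, N * 2, fun i => ?_⟩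
  rw [pow_mul]
  exact IdxA_nh (IdxA_sq h1 h2 hc) (hN i).1 (hN i).2

theorem IsIndex.cone (hρ : IsIndex ρ) {ε : ι → ℤˣ} {ε' : κ → ℤˣ} {D : Matrix ι ι (PS n k)}
    {D' : Matrix κ κ (PS n k)} {Fm : Matrix ι κ (PS n k)} (h : MF ε D 0) (h' : MF ε' D' 0)
    (hF : Par (-1) ε ε' Fm) (hc : D * Fm + Fm * D' = 0) :
    ρ (ι ⊕ κ) (Sum.elim ε ε') (fromBlocks D Fm 0 D') = ρ ι ε D + ρ κ ε' D' := by
  let c : PS n k →+* Polynomial (PS n k) := Polynomial.C
  have h1 : D.map c * D.map c = 0 := by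
    rw [← Matrix.map_mul, h.sq, zero_smul, Matrix.map_zero _ (map_zero c)]
  have h2 : D'.map c * D'.map c = 0 := by
    rw [← Matrix.map_mul, h'.sq, zero_smul, Matrix.map_zero _ (map_zero c)]
  have h3 : D.map c * ((Polynomial.X : Polynomial (PS n k)) • Fm.map c) +
      ((Polynomial.X : Polynomial (PS n k)) • Fm.map c) * D'.map c = 0 := by
    rw [Matrix.mul_smul, Matrix.smul_mul, ← smul_add, ← Matrix.map_mul, ← Matrix.map_mul,
      ← Matrix.map_add _ (map_add c), hc, Matrix.map_zero _ (map_zero c), smul_zero]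
  obtain ⟨N, hN⟩ := IdxA_common h h'
  have key := hρ.family _ _ _ (IdxA_od (h.od.map c) (h'.od.map c) ((hF.map c).smul Polynomial.X))
    (IdxA_sq h1 h2 h3) ⟨N * 2, fun i => by
      rw [pow_mul, map_pow]
      exact IdxA_nh (IdxA_sq h1 h2 h3) ((hN i).1.map c) ((hN i).2.map c)⟩
  have e0 : (fromBlocks (D.map c) ((Polynomial.X : Polynomial (PS n k)) • Fm.map c) 0
      (D'.map c)).map (Polynomial.evalRingHom 0) = fromBlocks D 0 0 D' := by
    ext (i | i) (j | j) : 2 <;> simp [c]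
  have e1 : (fromBlocks (D.map c) ((Polynomial.X : Polynomial (PS n k)) • Fm.map c) 0
      (D'.map c)).map (Polynomial.evalRingHom 1) = fromBlocks D Fm 0 D' := by
    ext (i | i) (j | j) : 2 <;> simp [c]
  rw [e0, e1] at key
  rw [← key, hρ.sum _ _ _ _ _ _ h h']

theorem IsIndex.tens_const (hρ : IsIndex ρ) {ε : ι → ℤˣ} {D : Matrix ι ι (PS n k)} (h : MF ε D 0)
    (εβ : β → ℤˣ) : ρ (ι × β) (tE ε εβ) (D ⊗ₖ (1 : Matrix β β (PS n k))) =
      (∑ b, (εβ b : ℤ)) • ρ ι ε D := by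
  refine Fintype.induction_empty_option (P := fun β _ => ∀ (_ : DecidableEq β) (εβ : β → ℤˣ),
    ρ (ι × β) (tE ε εβ) (D ⊗ₖ (1 : Matrix β β (PS n k))) = (∑ b, (εβ b : ℤ)) • ρ ι ε D)
    ?_ ?_ ?_ β _ εβ
  · intro α β _ e ih _ εβ
    classical
    let _ : Fintype α := Fintype.ofEquiv β e.symm
    have e1 : (D ⊗ₖ (1 : Matrix β β (PS n k))).submatrix ((Equiv.refl ι).prodCongr e)
        ((Equiv.refl ι).prodCongr e) = D ⊗ₖ (1 : Matrix α α (PS n k)) := by
      ext ⟨i, a⟩ ⟨j, b⟩ : 2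
      simp [Matrix.one_apply]
    rw [← hρ.reindex _ _ ((Equiv.refl ι).prodCongr e) _ _ (IdxA_kron h εβ), e1,
      ← e.sum_comp fun b => (εβ b : ℤ)]
    exact ih _ (εβ ∘ e)
  · intro _ εβ
    rw [Finset.univ_eq_empty, sum_empty, zero_smul]
    exact hρ.contr _ _ _ (IdxA_kron h εβ).od (Subsingleton.elim _ _) ⟨0, Subsingleton.elim _ _⟩
  · intro α _ ih _ εβ
    classical
    let e : ι ⊕ ι × α ≃ ι × Option α :=
      { toFun := Sum.elim (fun i => (i, none)) fun x => (x.1, some x.2)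
        invFun := fun x => x.2.elim (Sum.inl x.1) fun b => Sum.inr (x.1, b)
        left_inv := by rintro (i | x) <;> rfl
        right_inv := by rintro ⟨i, _ | b⟩ <;> rfl }
    have e1 : (D ⊗ₖ (1 : Matrix (Option α) (Option α) (PS n k))).submatrix e e =
        fromBlocks D 0 0 (D ⊗ₖ (1 : Matrix α α (PS n k))) := by
      ext (i | i) (j | j) : 2 <;> simp [e, Matrix.one_apply]
    have e2 : tE ε εβ ∘ e = Sum.elim (fun i => ε i * εβ none) (tE ε (εβ ∘ some)) := by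
      funext x
      rcases x with i | x <;> rfl
    have e3 : MF (fun i => ε i * εβ none) D 0 ∧
        ρ ι (fun i => ε i * εβ none) D = (εβ none : ℤ) • ρ ι ε D := by
      rcases Int.units_eq_one_or (εβ none) with h1 | h1
      · simpa [h1] using h
      · have e4 : (fun i => ε i * εβ none) = -ε := funext fun i => by simp [h1]
        rw [e4, hρ.shift _ _ _ h, h1]
        exact ⟨h.neg, by simp⟩
    rw [← hρ.reindex _ _ e _ _ (IdxA_kron h εβ), e1, e2,
      hρ.sum _ _ _ _ _ _ e3.1 (IdxA_kron h _), e3.2, ih, Fintype.sum_option, add_smul]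
    rfl

end Pool.Agent.Theta
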