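import Pool.Agent.P.MP_f43029_ag.Car

/-! Deforming the model complex to a sum of Koszul complexes.
Sketch. For a matrix `Z` over `k` on `Λ × β` and an integer shift `c` put
`sc c Z i j = C (C (Z i j)) * X ^ (|j.1| + c - |i.1|)` (natural subtraction) in `(PS n k)[X]`. If
`Z i j ≠ 0 → |i.1| ≤ |j.1| + c` and likewise for `Z'`, `c'`, then `sc c Z * sc c' Z' = sc (c+c') (Z * Z')`.
It is convenient to use one normalisation: `Dt = (Kos ⊗ₖ 1).map C + sc 0 Db`. Here `X • onB (con i) = sc 0 (onB (con i))`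
and `onB (ext i) = sc 1 (onB (ext i))`, so `sc 0 Db ^ 2 = 0`; `X •` the anticommutator of `onB (con i)` and `sc 0 Db` is
`sc 0 0 = 0` and `X` is regular; the anticommutator of `sc 0 Db` and `onB (ext i)` is `νt = sc 1 ν`, with
`νt ^ N = sc N (ν ^ N) = 0`. So `Dt * Dt = 0`, `Dt * e + e * Dt = X i • 1 + νt` (`Kos_ext`),
`nh_of_nilpotent`, and a common exponent by `Nh.mul`. At `0` the family is `Kos ⊗ₖ 1` (`low`), at `1` it is
`DY Db`; `MF` for `DY Db` by `Nh.map`. -/

open Finset Matrix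
open scoped Kronecker

noncomputable section

universe u

namespace Pool.Agent.Theta

variable {n : ℕ} {k : Type*} [Field k] {Q : Type*} [AddCommGroup Q]
  {ρ : ∀ (ι : Type) [Fintype ι] [DecidableEq ι], (ι → ℤˣ) → Matrix ι ι (PS n k) → Q}
  {ι κ β : Type} [Fintype ι] [DecidableEq ι] [Fintype κ] [DecidableEq κ] [Fintype β] [DecidableEq β]

section Aux

variable {T : Type*} [CommRing T] {φ : k →+* T} {t : T} {d : ι → ℕ} {c c' : ℕ}
  {A A' : Matrix ι ι T} {Z Z' : Matrix ι ι k}

private def IdxR (φ : k →+* T) (t : T) (d : ι → ℕ) (c : ℕ) (A : Matrix ι ι T) (Z : Matrix ι ι k) :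
    Prop :=
  diagonal (fun i => t ^ d i) * A = t ^ c • (Z.map φ * diagonal fun i => t ^ d i)

private theorem IdxR.mul (h : IdxR φ t d c A Z) (h' : IdxR φ t d c' A' Z') :
    IdxR φ t d (c + c') (A * A') (Z * Z') := by
  unfold IdxR at *
  rw [← Matrix.mul_assoc, h, smul_mul_assoc, Matrix.mul_assoc, h', mul_smul_comm, smul_smul,
    ← pow_add, Matrix.map_mul, Matrix.mul_assoc]

private theorem IdxR.add (h : IdxR φ t d c A Z) (h' : IdxR φ t d c A' Z') :
    IdxR φ t d c (A + A') (Z + Z') := by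
  unfold IdxR at *
  rw [mul_add, h, h', Matrix.map_add _ (map_add φ), add_mul, smul_add]

private theorem IdxR.pow (h : IdxR φ t d c A Z) (N : ℕ) : IdxR φ t d (c * N) (A ^ N) (Z ^ N) := by
  induction N with
  | zero => simp [IdxR]
  | succ N ih => simpa only [pow_succ, mul_add, mul_one] using ih.mul h

private theorem IdxR.zero (ht : IsRegular t) (h : IdxR φ t d c A Z) (hZ : Z = 0) : A = 0 := by
  ext i j
  have h1 := congrFun (congrFun h i) j
  rw [hZ, Matrix.map_zero _ (map_zero φ), zero_mul, smul_zero, diagonal_mul] at h1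
  exact (ht.pow (d i)).left (h1.trans (mul_zero _).symm)

private theorem IdxR.of (e : ι → ι → ℕ) (h : ∀ i j, A i j = t ^ e i j * φ (Z i j))
    (h' : ∀ i j, Z i j ≠ 0 → d i + e i j = c + d j) : IdxR φ t d c A Z := by
  ext i j
  rw [diagonal_mul, Matrix.smul_apply, mul_diagonal, h, map_apply, smul_eq_mul]
  by_cases hz : Z i j = 0
  · simp [hz]
  · rw [← mul_assoc, ← pow_add, h' i j hz, pow_add]
    ring

omit [Fintype β] in
private theorem IdxB_map {T' : Type*} [CommRing T'] (e : T →+* T')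
    (B : Matrix (Finset (Fin n)) (Finset (Fin n)) ℤ) : (onB T β B).map e = onB T' β B := by
  ext x y
  simp [onB, one_apply, apply_ite e]

omit [Fintype β] in
private theorem IdxB_ne {B : Matrix (Finset (Fin n)) (Finset (Fin n)) ℤ}
    {x y : Finset (Fin n) × β} (h : onB T β B x y ≠ 0) : B x.1 y.1 ≠ 0 := fun e => by
  simp [onB, e] at h

omit [Fintype β] in
private theorem IdxB_Kos : Kos n k ⊗ₖ (1 : Matrix β β (PS n k)) =
    ∑ i, (MvPowerSeries.X i : PS n k) • onB (PS n k) β (con i) := by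
  refine Matrix.ext fun x y => ?_
  simp [Kos, onB, Matrix.sum_apply, sum_mul, mul_assoc]

end Aux

theorem model_family {εβ : β → ℤˣ} {Db : Matrix (Finset (Fin n) × β) (Finset (Fin n) × β) k}
    (h : ModA εβ Db) : ∃ Dt : Matrix (Finset (Fin n) × β) (Finset (Fin n) × β) (Polynomial (PS n k)),
      Od (tE (eL n) εβ) Dt ∧ Dt * Dt = 0 ∧
      (∃ N : ℕ, ∀ i, Nh Dt (Polynomial.C (MvPowerSeries.X i ^ N))) ∧
      Dt.map (Polynomial.evalRingHom 0) = Kos n k ⊗ₖ (1 : Matrix β β (PS n k)) ∧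
      Dt.map (Polynomial.evalRingHom 1) = DY Db := by
  obtain ⟨φ, hφ⟩ : ∃ φ : k →+* Polynomial (PS n k), φ = Polynomial.C.comp MvPowerSeries.C :=
    ⟨_, rfl⟩
  obtain ⟨d, hd⟩ : ∃ d : Finset (Fin n) × β → ℕ, d = fun x => x.1.card := ⟨_, rfl⟩
  obtain ⟨D0, hD0⟩ : ∃ D0 : Matrix (Finset (Fin n) × β) (Finset (Fin n) × β) (Polynomial (PS n k)),
    D0 = Matrix.of fun i j => Polynomial.X ^ (d j - d i) * φ (Db i j) := ⟨_, rfl⟩
  obtain ⟨Kt, hKt⟩ : ∃ Kt : Matrix (Finset (Fin n) × β) (Finset (Fin n) × β) (Polynomial (PS n k)),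
    Kt = (Kos n k ⊗ₖ (1 : Matrix β β (PS n k))).map Polynomial.C := ⟨_, rfl⟩
  have hX : IsRegular (Polynomial.X : Polynomial (PS n k)) := Polynomial.isRegular_X
  have r0 : IdxR φ Polynomial.X d 0 D0 Db := IdxR.of (fun i j => d j - d i)
    (fun _ _ => by rw [hD0, of_apply]) fun i j hz => by
      have := h.low i j hz
      simp only [hd]
      omega
  have r1 : ∀ i, IdxR φ Polynomial.X d 1 (onB _ β (ext i)) (onB k β (ext i)) := fun i =>
    IdxR.of (fun _ _ => 0) (fun x y => by rw [← IdxB_map φ, pow_zero, one_mul, map_apply])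
      fun x y hz => by
        have := ext_ne_zero (IdxB_ne hz)
        simp only [hd]
        omega
  have r2 : ∀ i, IdxR φ Polynomial.X d 0 ((Polynomial.X : Polynomial (PS n k)) • onB _ β (con i))
      (onB k β (con i)) := fun i =>
    IdxR.of (fun _ _ => 1) (fun x y => by rw [← IdxB_map φ, pow_one]; rfl) fun x y hz => by
      have := con_ne_zero (IdxB_ne hz)
      simp only [hd]
      omega
  have hK : Kt = ∑ i, Polynomial.C (MvPowerSeries.X i : PS n k) • onB _ β (con i) := by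
    refine Matrix.ext fun x y => ?_
    simp only [hKt, IdxB_Kos, map_apply, Matrix.sum_apply, Matrix.smul_apply, smul_eq_mul, map_sum,
      map_mul, ← IdxB_map (T := PS n k) Polynomial.C]
  have a1 : ∀ i, onB _ β (con i) * D0 + D0 * onB _ β (con i) = 0 := fun i => by
    have h1 := (((r2 i).mul r0).add (r0.mul (r2 i))).zero hX (h.anti i)
    rw [smul_mul_assoc, mul_smul_comm, ← smul_add] at h1
    refine Matrix.ext fun x y => ?_
    exact hX.left ((congrFun (congrFun h1 x) y).trans (mul_zero _).symm)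
  have a2 : Kt * D0 + D0 * Kt = 0 := by
    rw [hK, sum_mul, mul_sum, ← sum_add_distrib]
    refine sum_eq_zero fun i _ => ?_
    rw [smul_mul_assoc, mul_smul_comm, ← smul_add, a1, smul_zero]
  have a3 : Kt * Kt = 0 := by
    rw [hKt, ← Matrix.map_mul, ← mul_kronecker_mul, (mf_Kos n k).sq, zero_smul, zero_kronecker,
      Matrix.map_zero _ (map_zero _)]
  have sq : (Kt + D0) * (Kt + D0) = 0 := by
    rw [add_mul, mul_add, mul_add, a3, (r0.mul r0).zero hX h.sq, zero_add, add_zero, a2]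
  have a4 : ∀ i, Kt * onB _ β (ext i) + onB _ β (ext i) * Kt =
      Polynomial.C (MvPowerSeries.X i : PS n k) • 1 := fun i => by
    rw [hKt, ← IdxB_map (T := PS n k) Polynomial.C, ← Matrix.map_mul, ← Matrix.map_mul,
      ← Matrix.map_add _ (map_add _), onB, ← mul_kronecker_mul, ← mul_kronecker_mul, mul_one,
      ← add_kronecker, Kos_ext, smul_kronecker, one_kronecker_one]
    refine Matrix.ext fun x y => ?_
    simp [one_apply, apply_ite Polynomial.C]
  have a5 : ∀ i, ∃ N : ℕ, Nh (Kt + D0) (Polynomial.C (MvPowerSeries.X i : PS n k) ^ N) := fun i => by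
    obtain ⟨N, hN⟩ := h.nil i
    have r3 := (r0.mul (r1 i)).add (Nat.add_comm 1 0 ▸ (r1 i).mul r0)
    refine ⟨N, nh_of_nilpotent (f := 0) (h := onB _ β (ext i)) (by rw [sq, zero_smul]) ?_
      ((r3.pow N).zero hX hN)⟩
    rw [← a4, add_mul, mul_add, add_add_add_comm]
  choose N hN using a5
  have a6 : Od (tE (eL n) εβ) Kt := by
    rw [hKt]
    exact (od_kron_one εβ (mf_Kos n k).od).map _
  refine ⟨Kt + D0, a6.add fun i j e => ?_, sq, ⟨∑ i, N i, fun i => ?_⟩, ?_, ?_⟩
  · rw [hD0, of_apply, h.od i j e, map_zero, mul_zero]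
  · rw [← Nat.sub_add_cancel (single_le_sum (fun j _ => Nat.zero_le (N j)) (mem_univ i)), map_pow,
      pow_add]
    exact (hN i).mul _
  · refine Matrix.ext fun x y => ?_
    by_cases hz : Db x y = 0
    · simp [hKt, hD0, hz]
    · have h1 : d y - d x ≠ 0 := by
        have := h.low x y hz
        simp only [hd]
        omega
      simp [hKt, hD0, h1]
  · refine Matrix.ext fun x y => ?_
    simp [hKt, hD0, DY, hφ]

theorem mf_DY {εβ : β → ℤˣ} {Db : Matrix (Finset (Fin n) × β) (Finset (Fin n) × β) k}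
    (h : ModA εβ Db) : MF (tE (eL n) εβ) (DY Db) 0 := by
  obtain ⟨Dt, h1, h2, ⟨N, h3⟩, -, h5⟩ := model_family h
  rw [← h5]
  refine ⟨h1.map _, ?_, N, fun i => ?_⟩
  · rw [← Matrix.map_mul, h2, Matrix.map_zero _ (map_zero _), zero_smul]
  · simpa only [Polynomial.coe_evalRingHom, Polynomial.eval_C] using
      (h3 i).map (Polynomial.evalRingHom 1)

theorem IsIndex.model (hρ : IsIndex ρ) {εβ : β → ℤˣ}
    {Db : Matrix (Finset (Fin n) × β) (Finset (Fin n) × β) k} (h : ModA εβ Db) :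
    ρ _ (tE (eL n) εβ) (DY Db) = ρ _ (tE (eL n) εβ) (Kos n k ⊗ₖ (1 : Matrix β β (PS n k))) := by
  obtain ⟨Dt, h1, h2, h3, h4, h5⟩ := model_family h
  rw [← h5, ← h4]
  exact (hρ.family _ _ Dt h1 h2 h3).symm

end Pool.Agent.Theta
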