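import Pool.Agent.P.MP_f43029_ag.IdxA
import Pool.Agent.P.MP_f43029_ag.IdxB
import Pool.Agent.P.MP_f43029_ag.Contr

/-! A complex and its model have the same index.
Sketch. Let `εY = tE (eL n) εβ`, `Γ = Gam εY`, cone `fromBlocks D (Φ * Γ) 0 (DY Db)` with grading
`Sum.elim ε (-εY)` (`MF.neg`, `Gam_mul_od`, `chain`). Its fibre is
`fromBlocks (c0 D) (c0 Φ * Γ) 0 Db` (`c0_Kos`). Exactness: for a cycle `(c, y)`, `Γ y` is a cycle with
`c0 Φ (Γ y) = c0 D (-c)`, so `Γ y = Db y₁` (`inj`); then `c + c0 Φ y₁` is a cycle of `c0 D`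
(apply `c0` to `chain`), `= c0 Φ y₃ + c0 D c'` (`surj`), and `(c, y)` is the image of
`(c', Γ y₃ - Γ y₁)`. `nh_one_of_fibre`, `contr`, `cone`, `shift`. -/

open Finset Matrix
open scoped Kronecker

noncomputable section

universe u

namespace Pool.Agent.Theta

variable {n : ℕ} {k : Type*} [Field k] {Q : Type*} [AddCommGroup Q]
  {ρ : ∀ (ι : Type) [Fintype ι] [DecidableEq ι], (ι → ℤˣ) → Matrix ι ι (PS n k) → Q}
  {ι κ β : Type} [Fintype ι] [DecidableEq ι] [Fintype κ] [DecidableEq κ] [Fintype β] [DecidableEq β]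

private theorem idxC_exa {d : Matrix ι ι k} {e G : Matrix κ κ k} {F : Matrix ι κ k}
    (hG : G * G = 1) (he : G * e = -(e * G)) (hF : F * e = d * F)
    (inj : ∀ y, e *ᵥ y = 0 → (∃ c, F *ᵥ y = d *ᵥ c) → ∃ y', y = e *ᵥ y')
    (surj : ∀ c, d *ᵥ c = 0 → ∃ y c', e *ᵥ y = 0 ∧ c = F *ᵥ y + d *ᵥ c') :
    Exa (fromBlocks d (F * G) 0 e) := by
  intro v hv
  rw [fromBlocks_mulVec, zero_mulVec, zero_add, ← mulVec_mulVec] at hv
  have h1 : d *ᵥ (v ∘ Sum.inl) + F *ᵥ (G *ᵥ (v ∘ Sum.inr)) = 0 :=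
    funext fun i => congrFun hv (Sum.inl i)
  have h2 : e *ᵥ (v ∘ Sum.inr) = 0 := funext fun i => congrFun hv (Sum.inr i)
  have eG : ∀ y, e *ᵥ (G *ᵥ y) = -(G *ᵥ (e *ᵥ y)) := fun y => by
    rw [mulVec_mulVec, mulVec_mulVec, he, neg_mulVec, neg_neg]
  have GG : ∀ y, G *ᵥ (G *ᵥ y) = y := fun y => by rw [mulVec_mulVec, hG, one_mulVec]
  obtain ⟨y₁, e1⟩ := inj (G *ᵥ (v ∘ Sum.inr)) (by rw [eG, h2, mulVec_zero, neg_zero])
    ⟨-(v ∘ Sum.inl), by rw [mulVec_neg]; exact eq_neg_of_add_eq_zero_right h1⟩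
  obtain ⟨y₃, c', e3, e4⟩ := surj (v ∘ Sum.inl + F *ᵥ y₁) (by
    rw [mulVec_add, mulVec_mulVec, ← hF, ← mulVec_mulVec, ← e1, h1])
  refine ⟨Sum.elim c' (G *ᵥ y₃ - G *ᵥ y₁), ?_⟩
  rw [fromBlocks_mulVec, zero_mulVec, zero_add, ← mulVec_mulVec, Sum.elim_comp_inl,
    Sum.elim_comp_inr, mulVec_sub G, GG, GG, mulVec_sub, mulVec_sub, eG, eG, e3, ← e1, GG,
    mulVec_zero, neg_zero, zero_sub, neg_neg, ← add_sub_assoc, add_comm, ← e4, add_sub_cancel_right,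
    Sum.elim_comp_inl_inr]

theorem IsIndex.compare (hρ : IsIndex ρ) {ε : ι → ℤˣ} {D : Matrix ι ι (PS n k)} {εβ : β → ℤˣ}
    {Db : Matrix (Finset (Fin n) × β) (Finset (Fin n) × β) k}
    {Φ : Matrix ι (Finset (Fin n) × β) (PS n k)} (h : MF ε D 0) (hA : ModA εβ Db)
    (hB : ModB ε D εβ Db Φ) : ρ ι ε D = ρ _ (tE (eL n) εβ) (DY Db) := by
  have hY := mf_DY hA
  have hP : Par (-1) ε (-tE (eL n) εβ) (Φ * Gam (PS n k) (tE (eL n) εβ)) := fun i j hij =>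
    hB.par.mul (par_Gam _) i j (by simpa using hij)
  have hc : D * (Φ * Gam (PS n k) (tE (eL n) εβ)) + Φ * Gam (PS n k) (tE (eL n) εβ) * DY Db = 0 := by
    rw [Matrix.mul_assoc Φ, Gam_mul_od hY.od, Matrix.mul_neg, ← Matrix.mul_assoc,
      ← Matrix.mul_assoc, hB.chain, add_neg_cancel]
  have hM := mf_cone h hY.neg hP hc
  have h1 := hρ.cone h hY.neg hP hc
  have m0 : ∀ {a b c : Type} [Fintype b] (A : Matrix a b (PS n k)) (B : Matrix b c (PS n k)),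
      c0 (A * B) = c0 A * c0 B := fun A B => Matrix.map_mul
  have e1 : c0 (DY Db) = Db := by
    ext i j
    have := congrFun (congrFun (c0_Kos n k) i.1) j.1
    simp only [c0, Matrix.map_apply, Matrix.zero_apply] at this
    simp [c0, DY, this]
  have e2 : c0 (fromBlocks D (Φ * Gam (PS n k) (tE (eL n) εβ)) 0 (DY Db)) =
      fromBlocks (c0 D) (c0 Φ * Gam k (tE (eL n) εβ)) 0 Db := by
    rw [← Gam_map (MvPowerSeries.constantCoeff (σ := Fin n) (R := k)), ← c0, ← m0]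
    conv_rhs => rw [← e1]
    rw [c0, fromBlocks_map, Matrix.map_zero _ (map_zero _)]
    rfl
  have hsq := hM.sq
  rw [zero_smul] at hsq
  have h2 := hρ.contr _ _ _ hM.od hsq (nh_one_of_fibre hsq (e2 ▸ idxC_exa (Gam_mul_Gam _)
    (Gam_mul_od hA.od) (by rw [← m0, ← hB.chain, m0, e1]) hB.inj hB.surj))
  rw [h1, hρ.shift _ _ _ hY] at h2
  exact add_neg_eq_zero.1 h2

end Pool.Agent.Theta
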