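import Pool.Agent.P.MP_f43029_ag.ModA

/-! The intrinsic properties of the perturbed differential.
Sketch. `nil_Dbar`: let `μ = P ∘ mulX i ∘ I`. By induction `μ ^ j = P ∘ (mulX i) ^ j ∘ I` (insert
`I ∘ P = 1 - d σ - σ d`; `mulD D` commutes with `mulX i`, `P d = 0`, `d I = 0`), and
`(mulX i) ^ N = d h + h d` gives `μ ^ N = 0`. Write `Dbar = -∑ j, kt (con j) (μ j) + r` with `r` of drop `2`
(`rel_Dbar_sub`); by `con_ext`, `ν = -kt 1 μ + ν'` with `ν'` of parity `1` and drop `1`
(`kt (ext i) id` has drop `-1`). By induction `ν ^ j - (-kt 1 μ) ^ j` has drop `1`; so `ν ^ N` has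
drop `1` and `(ν ^ N) ^ (n+1) = 0`. `modA`: `LinearMap.toMatrix'` is an algebra isomorphism
(`LinearMap.toMatrixAlgEquiv'`), `toMatrix'_kt_id`, and `toMatrix' T i j = T (Pi.single j 1) i`. -/

open Finset Matrix
open scoped Kronecker

noncomputable section

universe u

namespace Pool.Agent.Theta

variable {n : ℕ} {k : Type*} [Field k] {ι β : Type*} [Fintype ι] [DecidableEq ι] [Fintype β]
  [DecidableEq β]
  {ε : ι → ℤˣ} {D : Matrix ι ι (PS n k)} {εβ : β → ℤˣ} {I : (β → k) →ₗ[k] (ι → PS n k)}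
  {P : (ι → PS n k) →ₗ[k] (β → k)} {σ : (ι → PS n k) →ₗ[k] (ι → PS n k)}

omit [Fintype β] in
private theorem modB_pow (R : Retr ε D εβ I P σ) (i : Fin n) (j : ℕ) (y : β → k) :
    ((P ∘ₗ mulX ι i ∘ₗ I : Module.End k (β → k)) ^ j) y =
      P ((MvPowerSeries.X i ^ j : PS n k) • I y) := by
  have e1 : ∀ y, D *ᵥ I y = 0 := LinearMap.congr_fun R.dI
  have e2 : ∀ z, P (D *ᵥ z) = 0 := LinearMap.congr_fun R.Pd
  have e3 : ∀ y, P (I y) = y := LinearMap.congr_fun R.PI
  have e4 : ∀ z, I (P z) = z - (D *ᵥ σ z + σ (D *ᵥ z)) := fun z =>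
    eq_sub_of_add_eq' (add_eq_of_eq_sub (LinearMap.congr_fun R.hom z))
  induction j generalizing y with
  | zero => rw [pow_zero, pow_zero, one_smul, e3, Module.End.one_apply]
  | succ j ih =>
    rw [pow_succ, Module.End.mul_apply, ih]
    change P ((MvPowerSeries.X i ^ j : PS n k) • I (P ((MvPowerSeries.X i : PS n k) • I y))) = _
    rw [e4, mulVec_smul, e1, smul_zero, map_zero, add_zero, smul_sub, map_sub, ← mulVec_smul, e2,
      sub_zero, smul_smul, pow_succ]

omit [Fintype β] in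
private theorem modB_nil (R : Retr ε D εβ I P σ) (i : Fin n) {N : ℕ}
    (h : Nh D (MvPowerSeries.X i ^ N)) :
    (P ∘ₗ mulX ι i ∘ₗ I : Module.End k (β → k)) ^ N = 0 := by
  obtain ⟨g, hg⟩ := h
  have e1 : ∀ y, D *ᵥ I y = 0 := LinearMap.congr_fun R.dI
  have e2 : ∀ z, P (D *ᵥ z) = 0 := LinearMap.congr_fun R.Pd
  refine LinearMap.ext fun y => ?_
  have h1 : (MvPowerSeries.X i ^ N : PS n k) • I y = D *ᵥ (g *ᵥ I y) := by
    have := congrArg (· *ᵥ I y) hg
    simp only [add_mulVec, ← mulVec_mulVec, e1, mulVec_zero, add_zero, smul_mulVec,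
      one_mulVec] at this
    exact this.symm
  rw [modB_pow R, h1, e2, LinearMap.zero_apply]

omit [Fintype β] [DecidableEq β] in
private theorem modB_kt_pow (μ : Module.End k (β → k)) (j : ℕ) :
    (kt (1 : Matrix (Finset (Fin n)) (Finset (Fin n)) ℤ) μ :
      Module.End k (Finset (Fin n) × β → k)) ^ j = kt 1 (μ ^ j) := by
  induction j with
  | zero =>
    rw [pow_zero, pow_zero]
    exact kt_one_id.symm
  | succ j ih =>
    rw [pow_succ, ih, pow_succ, Module.End.mul_eq_comp, kt_comp, mul_one]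
    rfl

omit [Fintype ι] in
private theorem modB_relX (ε : ι → ℤˣ) (i : Fin n) :
    Rel ε 0 ε 0 1 0 (mulX ι i : (ι → PS n k) →ₗ[k] (ι → PS n k)) := by
  intro j x l h
  have hl : l = j := by
    by_contra hne
    apply h
    change (MvPowerSeries.X i : PS n k) • (Pi.single j x : ι → PS n k) l = 0
    rw [Pi.single_eq_of_ne hne, smul_zero]
  subst hl
  simp

private theorem modB_pert {a : Type*} [Fintype a] [DecidableEq a] {ea : a → ℤˣ} {da : a → ℤ}
    {x y : Module.End k (a → k)} (hx : Rel ea da ea da 1 0 x) (hy : Rel ea da ea da 1 1 y)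
    (j : ℕ) : Rel ea da ea da 1 1 ((x + y) ^ j - x ^ j) := by
  induction j with
  | zero =>
    rw [pow_zero, pow_zero, sub_self]
    exact Rel.zero _ _ _ _ _ _
  | succ j ih =>
    have e : (x + y) ^ (j + 1) - x ^ (j + 1) =
        ((x + y) ^ j - x ^ j) ∘ₗ (x + y) + (x ^ j) ∘ₗ y := by
      rw [← Module.End.mul_eq_comp, ← Module.End.mul_eq_comp, pow_succ, pow_succ, sub_mul,
        mul_add (x ^ j)]
      abel
    rw [e]
    have h1 := ih.comp (hx.add (hy.mono (by norm_num)))
    have h2 := (hx.pow j).comp hy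
    simp only [mul_one, add_zero, mul_zero, zero_add] at h1 h2
    exact h1.add h2

theorem nil_Dbar (R : Retr ε D εβ I P σ) (i : Fin n) {N : ℕ} (h : Nh D (MvPowerSeries.X i ^ N)) :
    IsNilpotent (Dbar I P σ * (kt (ext i) LinearMap.id : Module.End k (Finset (Fin n) × β → k)) +
      (kt (ext i) LinearMap.id : Module.End k (Finset (Fin n) × β → k)) * Dbar I P σ) := by
  set E : Module.End k (Finset (Fin n) × β → k) := kt (ext i) LinearMap.id with hE
  set μ : Fin n → Module.End k (β → k) := fun j => P ∘ₗ mulX ι j ∘ₗ I with hμ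
  set r : Module.End k (Finset (Fin n) × β → k) := Dbar I P σ + ∑ j, kt (con j) (μ j) with hr
  have hrr : Rel (tE (eL n) εβ) dg (tE (eL n) εβ) dg (-1) 2 r := rel_Dbar_sub R
  have hEr : Rel (tE (eL n) εβ) dg (tE (eL n) εβ) dg (-1 * 1) (-1) E := by
    refine Rel.kt (fun S U hSU => ⟨?_, ?_⟩) (Rel.id εβ 0)
    · by_contra hc
      exact hSU (od_ext i S U hc)
    · have := ext_ne_zero hSU
      omega
  have hμr : Rel εβ 0 εβ 0 1 0 (μ i) := by
    have := R.relP.comp ((modB_relX (k := k) ε i).comp R.relI)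
    simpa only [mul_one, add_zero] using this
  set x : Module.End k (Finset (Fin n) × β → k) := -kt 1 (μ i) with hx
  have hxr : Rel (tE (eL n) εβ) dg (tE (eL n) εβ) dg 1 0 x := by
    have : Rel (tE (eL n) εβ) dg (tE (eL n) εβ) dg (1 * 1) 0
        (kt (1 : Matrix (Finset (Fin n)) (Finset (Fin n)) ℤ) (μ i)) := by
      refine Rel.kt (fun S U hSU => ?_) hμr
      have : S = U := by
        by_contra hc
        exact hSU (one_apply_ne hc)
      subst this
      simp
    rw [mul_one] at this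
    exact this.neg
  set y : Module.End k (Finset (Fin n) × β → k) := r ∘ₗ E + E ∘ₗ r with hy
  have hyr : Rel (tE (eL n) εβ) dg (tE (eL n) εβ) dg 1 1 y := by
    have h1 := hrr.comp hEr
    have h2 := hEr.comp hrr
    norm_num at h1 h2
    exact h1.add h2
  have hsum : ∑ j, ((kt (con j) (μ j) : Module.End k (Finset (Fin n) × β → k)) * E +
      E * (kt (con j) (μ j) : Module.End k (Finset (Fin n) × β → k))) = kt 1 (μ i) := by
    rw [sum_eq_single i]
    · rw [hE, Module.End.mul_eq_comp, Module.End.mul_eq_comp, kt_comp, kt_comp,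
        LinearMap.comp_id, LinearMap.id_comp, ← kt_add_left, con_ext, if_pos rfl]
    · intro j _ hj
      rw [hE, Module.End.mul_eq_comp, Module.End.mul_eq_comp, kt_comp, kt_comp,
        LinearMap.comp_id, LinearMap.id_comp, ← kt_add_left, con_ext, if_neg hj, kt_zero_left]
    · intro h1
      exact absurd (mem_univ i) h1
  have hν : Dbar I P σ * E + E * Dbar I P σ = x + y := by
    rw [hx, hy, hr, ← hsum, ← Module.End.mul_eq_comp, ← Module.End.mul_eq_comp, sum_add_distrib,
      add_mul, mul_add, sum_mul, mul_sum]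
    abel
  have hxN : x ^ N = 0 := by
    have h1 : (μ i) ^ N = 0 := modB_nil R i h
    have h2 : x = kt 1 (-μ i) := (kt_neg_right _ _).symm
    rw [h2, modB_kt_pow, neg_pow (μ i), h1, mul_zero, kt_zero_right]
  have hp := modB_pert hxr hyr N
  rw [hxN, sub_zero] at hp
  refine ⟨N * (n + 1), ?_⟩
  rw [hν, pow_mul]
  refine hp.pow_eq_zero fun a b => ?_
  have h1 : b.1.card ≤ n := by simpa using card_le_univ b.1
  simp only [dg]
  push_cast
  omega

theorem modA (R : Retr ε D εβ I P σ) (h : MF ε D 0) :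
    ModA εβ (LinearMap.toMatrix' (Dbar I P σ)) := by
  have hD : D * D = 0 := by rw [h.sq, zero_smul]
  have happ : ∀ i j, LinearMap.toMatrix' (Dbar I P σ) i j = Dbar I P σ (Pi.single j 1) i :=
    fun i j => LinearMap.toMatrix'_apply _ i j
  refine ⟨fun i j hij => ?_, fun i j hij => ?_, ?_, fun i => ?_, fun i => ?_⟩
  · by_contra hc
    rw [happ] at hc
    exact hij (rel_Dbar R j 1 i hc).1
  · rw [happ] at hij
    have := (rel_Dbar R j 1 i hij).2
    simp only [dg] at this
    omega
  · rw [← LinearMap.toMatrix'_comp, (hpl_facts R hD).1, map_zero]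
  · rw [← toMatrix'_kt_id, ← LinearMap.toMatrix'_comp, ← LinearMap.toMatrix'_comp, ← map_add,
      con_Dbar, map_zero]
  · obtain ⟨N, hN⟩ := h.supp
    have := (nil_Dbar R i (hN i)).map LinearMap.toMatrixAlgEquiv'
    rw [map_add, map_mul, map_mul] at this
    rw [← toMatrix'_kt_id]
    exact this

end Pool.Agent.Theta
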