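import Pool.Agent.P.MP_f43029_ag.ModA

/-! The comparison map.
Sketch. `Φ i y = Ibar (single y 1) (∅, i)`. For a vector `y` over `k`,
`Φ *ᵥ (C ∘ y) = fun i => Ibar y (∅, i)` and `c0 Φ *ᵥ y = pE (Ibar y)` (linearity over `k`).
`chain`: evaluate the second statement of `hpl_facts` at `single y 1` and `(∅, i)`:
`dE` contributes `(D * Φ) i y`, `deE` contributes `-∑ j, X j * (kt (con j) id (Ibar (single y 1))) (∅, i)`,
which is `-(Φ * (Kos ⊗ₖ 1)) i y` by `con_Ibar` and `toMatrix'_kt_id`; the right side is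
`(Φ * Db.map C) i y`. `inj`, `surj`: compose `hpl_facts` with `fib_inj`, `fib_surj`, `pE_chain`. -/

open Finset Matrix
open scoped Kronecker

noncomputable section

universe u

namespace Pool.Agent.Theta

variable {n : ℕ} {k : Type*} [Field k] {ι β : Type*} [Fintype ι] [DecidableEq ι] [Fintype β]
  [DecidableEq β]
  {ε : ι → ℤˣ} {D : Matrix ι ι (PS n k)} {εβ : β → ℤˣ} {I : (β → k) →ₗ[k] (ι → PS n k)}
  {P : (ι → PS n k) →ₗ[k] (β → k)} {σ : (ι → PS n k) →ₗ[k] (ι → PS n k)}

private theorem lin_sum {Y X : Type*} [Fintype Y] [DecidableEq Y]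
    (T : (Y → k) →ₗ[k] (X → PS n k)) (v : Y → k) (x : X) :
    ∑ z, T (Pi.single z 1) x * MvPowerSeries.C (v z) = T v x := by
  conv_rhs => rw [pi_eq_sum_univ' v, map_sum, Finset.sum_apply]
  refine sum_congr rfl fun z _ => ?_
  rw [map_smul, Pi.smul_apply, MvPowerSeries.smul_eq_C_mul, mul_comm]

omit [DecidableEq ι] in
private theorem dE_empty (D : Matrix ι ι (PS n k)) (v : Finset (Fin n) × ι → PS n k) (i : ι) :
    dE D v (∅, i) = ∑ l, D i l * v (∅, l) := by
  rw [dE, kt_apply, sum_eq_single ∅]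
  · rw [Gam, diagonal_apply_eq]
    simp only [eL, card_empty, pow_zero, Units.val_one, Int.cast_one, one_smul]
    rfl
  · intro s _ hs
    rw [Gam, diagonal_apply_ne _ hs.symm, zero_smul]
  · simp

omit [Fintype ι] [DecidableEq ι] in
private theorem deE_apply (v : Finset (Fin n) × ι → PS n k) (x : Finset (Fin n) × ι) :
    deE n k ι v x = -∑ j, MvPowerSeries.X j *
      kt (con j) (LinearMap.id : (ι → PS n k) →ₗ[k] (ι → PS n k)) v x := by
  rw [deE, LinearMap.neg_apply, Pi.neg_apply, LinearMap.sum_apply, Finset.sum_apply]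
  congr 1
  refine sum_congr rfl fun j _ => ?_
  rw [kt_apply, kt_apply, mul_sum]
  refine sum_congr rfl fun s _ => ?_
  rw [mul_smul_comm]
  rfl

omit [Fintype β] in
private theorem kos_apply (z y : Finset (Fin n) × β) :
    (Kos n k ⊗ₖ (1 : Matrix β β (PS n k))) z y =
      ∑ j, MvPowerSeries.X j * MvPowerSeries.C (onB k β (con j) z y) := by
  rw [kroneckerMap_apply, Kos, Matrix.sum_apply, sum_mul]
  refine sum_congr rfl fun j _ => ?_
  rw [onB, kroneckerMap_apply, map_mul, Matrix.smul_apply, smul_eq_mul, mul_assoc, map_apply,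
    map_apply, one_apply, one_apply]
  congr 2
  · simp
  · split_ifs <;> simp

omit [Fintype ι] [DecidableEq ι] in
private theorem c0_mulVec (T : (Finset (Fin n) × β → k) →ₗ[k] (Finset (Fin n) × ι → PS n k))
    (y : Finset (Fin n) × β → k) :
    c0 (Matrix.of fun i y => T (Pi.single y 1) (∅, i)) *ᵥ y = pE (T y) := by
  funext i
  rw [pE, ← lin_sum, map_sum]
  refine sum_congr rfl fun z _ => ?_
  rw [map_mul, MvPowerSeries.constantCoeff_C]
  rfl

theorem modB (R : Retr ε D εβ I P σ) (hD : D * D = 0) :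
    ModB ε D εβ (LinearMap.toMatrix' (Dbar I P σ))
      (Matrix.of fun i y => Ibar I σ (Pi.single y 1) (∅, i)) := by
  obtain ⟨-, h2, h3, h4⟩ := hpl_facts R hD
  have h5 : ∀ y, (dE D + deE n k ι) (Ibar I σ y) = Ibar I σ (Dbar I P σ y) :=
    fun y => LinearMap.congr_fun h2 y
  refine ⟨fun i y h => ?_, ?_, fun y hy hc => ?_, fun c hc => ?_⟩
  · by_contra hne
    refine h ?_
    have := (rel_Ibar R y 1 (∅, i) hne).1
    rwa [tE, eL, card_empty, pow_zero, one_mul] at this
  · ext1 i y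
    have a1 := congrFun (h5 (Pi.single y 1)) (∅, i)
    rw [LinearMap.add_apply, Pi.add_apply, dE_empty, deE_apply, ← lin_sum] at a1
    have a2 : ∑ z, Ibar I σ (Pi.single z 1) (∅, i) * (Kos n k ⊗ₖ (1 : Matrix β β (PS n k))) z y =
        ∑ j, MvPowerSeries.X j * kt (con j) (LinearMap.id : (ι → PS n k) →ₗ[k] (ι → PS n k))
          (Ibar I σ (Pi.single y 1)) (∅, i) := by
      simp only [kos_apply, mul_sum]
      rw [sum_comm]
      refine sum_congr rfl fun j _ => ?_
      have a3 := LinearMap.congr_fun (con_Ibar I σ j) (Pi.single y 1)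
      rw [LinearMap.comp_apply, LinearMap.comp_apply] at a3
      rw [a3, ← lin_sum, mul_sum]
      refine sum_congr rfl fun z _ => ?_
      rw [← toMatrix'_kt_id, LinearMap.toMatrix'_apply, mul_left_comm]
    rw [DY, Matrix.mul_add, Matrix.add_apply, mul_apply, mul_apply, mul_apply]
    simp only [of_apply, map_apply, LinearMap.toMatrix'_apply]
    rw [a2, ← a1]
    ring
  · rw [LinearMap.toMatrix'_mulVec] at hy
    rw [c0_mulVec] at hc
    obtain ⟨y', h⟩ := h3 y (fib_inj hD _ (by rw [h5, hy, map_zero]) hc)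
    exact ⟨y', by rw [LinearMap.toMatrix'_mulVec]; exact h⟩
  · obtain ⟨z, hz, rfl⟩ := fib_surj hD c hc
    obtain ⟨y, w, hy, h⟩ := h4 z hz
    refine ⟨y, pE w, by rw [LinearMap.toMatrix'_mulVec]; exact hy, ?_⟩
    rw [c0_mulVec, ← pE_chain, h]
    funext i
    exact map_add _ _ _

end Pool.Agent.Theta
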