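import Pool.Agent.P.MP_f43029_ag.RetrA
import Pool.Agent.P.MP_f43029_ag.FinH

/-! Existence of a homogeneous retraction.
Sketch. `V₀`, `V₁` are the submodules `Cp _ _ ε 1`, `Cp _ _ ε (-1)` (restrict scalars to `k`), `d₀`, `d₁` the
restrictions of `mulD D` (`LinearMap.restrict`, `D` odd). `Hm d₁ d₀ ≃ₗ[k] Hc ε D 1` and
`Hm d₀ d₁ ≃ₗ[k] Hc ε D (-1)` (or just equality of ranks and finiteness through a surjection with the
right kernel); choose bases (`Module.finBasis`, `Basis.equivFun`) to identify them with `Fin a → k`,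
`Fin b → k`. With the masking projections `π p v = fun i => if ε i = p then v i else 0` put
`I y = I₀ (y ∘ inl) + I₁ (y ∘ inr)`, `P v = Sum.elim (P₀ (π 1 v)) (P₁ (π (-1) v))`,
`σ v = σ₀ (π 1 v) + σ₁ (π (-1) v)`. -/

open Finset Matrix
open scoped Kronecker

noncomputable section

universe u

namespace Pool.Agent.Theta

variable {n : ℕ} {k : Type*} [Field k] {ι β : Type*} [Fintype ι] [DecidableEq ι] [Fintype β]
  [DecidableEq β]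

namespace RetrBAux

/-- The part of parity `p` as a vector space. -/
abbrev VV (n : ℕ) (k : Type*) [Field k] {ι : Type*} (ε : ι → ℤˣ) (p : ℤˣ) :
    Submodule k (ι → PS n k) := (Cp (PS n k) (PS n k) ε p).restrictScalars k

omit [DecidableEq ι] in
theorem mul_mem {ε : ι → ℤˣ} {D : Matrix ι ι (PS n k)} (hD : Od ε D) {p q : ℤˣ} (h : q = -p)
    (v : ι → PS n k) (hv : v ∈ VV n k ε p) : mulD D v ∈ VV n k ε q := by
  intro i hi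
  change ∑ j, D i j * v j = 0
  refine sum_eq_zero fun j _ => ?_
  by_cases hj : ε j = p
  · rw [hD i j (by rwa [hj, neg_one_mul, ← h]), zero_mul]
  · rw [hv j hj, mul_zero]

/-- The restricted differential. -/
def dd {ε : ι → ℤˣ} {D : Matrix ι ι (PS n k)} (hD : Od ε D) {p q : ℤˣ} (h : q = -p) :
    VV n k ε p →ₗ[k] VV n k ε q := (mulD D).restrict (mul_mem hD h)

theorem dd_dd {ε : ι → ℤˣ} {D : Matrix ι ι (PS n k)} (hD : MF ε D 0) {p q : ℤˣ} (h : q = -p)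
    (h' : p = -q) : dd hD.od h' ∘ₗ dd hD.od h = 0 := by
  ext1 v
  refine Subtype.ext ?_
  change D *ᵥ (D *ᵥ v.1) = 0
  rw [mulVec_mulVec, hD.sq, zero_smul, zero_mulVec]

omit [DecidableEq ι] in
theorem equiv_Hc {ε : ι → ℤˣ} {D : Matrix ι ι (PS n k)} (hD : Od ε D) {p q : ℤˣ} (h : q = -p)
    (h' : p = -q) : Nonempty (Hm (dd hD h') (dd hD h) ≃ₗ[k] Hc ε D p) := by
  let g : LinearMap.ker (dd hD h) →ₗ[k] Zc ε D p :=
    { toFun := fun z => ⟨z.1.1, z.1.2, congrArg Subtype.val z.2⟩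
      map_add' := fun _ _ => rfl
      map_smul' := fun _ _ => rfl }
  let f : LinearMap.ker (dd hD h) →ₗ[k] Hc ε D p :=
    (((Bc ε D p).submoduleOf (Zc ε D p)).mkQ.restrictScalars k) ∘ₗ g
  have hf : Function.Surjective f := by
    intro x
    obtain ⟨z, rfl⟩ := Submodule.Quotient.mk_surjective _ x
    exact ⟨⟨⟨z.1, z.2.1⟩, Subtype.ext z.2.2⟩, rfl⟩
  have hk : (LinearMap.range (dd hD h')).submoduleOf (LinearMap.ker (dd hD h)) =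
      LinearMap.ker f := by
    ext z
    refine Iff.trans ?_ (Submodule.Quotient.mk_eq_zero ((Bc ε D p).submoduleOf (Zc ε D p))
      (x := g z)).symm
    constructor
    · rintro ⟨w, hw⟩
      exact ⟨w.1, h ▸ w.2, congrArg Subtype.val hw⟩
    · rintro ⟨w, hw, e⟩
      exact ⟨⟨w, h ▸ hw⟩, Subtype.ext e⟩
  exact ⟨(Submodule.quotEquivOfEq _ _ hk).trans (f.quotKerEquivOfSurjective hf)⟩

omit [Fintype ι] [DecidableEq ι] in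
theorem isCompl_VV (ε : ι → ℤˣ) : IsCompl (VV n k ε 1) (VV n k ε (-1)) := by
  constructor
  · rw [Submodule.disjoint_def]
    intro v h1 h2
    funext i
    rcases Int.units_eq_one_or (ε i) with h | h
    · exact h2 i (by rw [h]; decide)
    · exact h1 i (by rw [h]; decide)
  · rw [codisjoint_iff, eq_top_iff]
    intro v _
    refine Submodule.mem_sup.2 ⟨fun i => if ε i = 1 then v i else 0, fun i hi => if_neg hi,
      fun i => if ε i = 1 then 0 else v i, fun i hi => if_pos ?_, ?_⟩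
    · exact (Int.units_eq_one_or (ε i)).resolve_right hi
    · funext i
      simp only [Pi.add_apply]
      split_ifs <;> simp

theorem rel_of {a b : Type*} [DecidableEq a] {M M' : Type*} [AddCommGroup M]
    [Module k M] [AddCommGroup M'] [Module k M'] {ea : a → ℤˣ} {eb : b → ℤˣ} {p : ℤˣ}
    {T : (a → M) →ₗ[k] (b → M')}
    (h1 : ∀ v, (∀ j, ea j ≠ 1 → v j = 0) → ∀ i, eb i ≠ p → T v i = 0)
    (h2 : ∀ v, (∀ j, ea j ≠ -1 → v j = 0) → ∀ i, eb i ≠ -p → T v i = 0) :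
    Rel ea 0 eb 0 p 0 T := by
  intro j x i hi
  refine ⟨?_, by simp⟩
  by_contra hne
  have h0 : ∀ j', ea j' ≠ ea j → (Pi.single j x : a → M) j' = 0 := fun j' hj' => by
    have hne' : j' ≠ j := fun e => hj' (congrArg ea e)
    simp [hne']
  rcases Int.units_eq_one_or (ea j) with h | h
  · rw [h] at h0 hne
    exact hi (h1 _ h0 i (by rwa [mul_one] at hne))
  · rw [h] at h0 hne
    exact hi (h2 _ h0 i (by rwa [mul_neg_one] at hne))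

theorem glue {V H V₀ V₁ H₀ H₁ : Type*} [AddCommGroup V] [Module k V] [AddCommGroup H] [Module k H]
    [AddCommGroup V₀] [Module k V₀] [AddCommGroup V₁] [Module k V₁] [AddCommGroup H₀] [Module k H₀]
    [AddCommGroup H₁] [Module k H₁] (G : (V₀ × V₁) ≃ₗ[k] V) (E : (H₀ × H₁) ≃ₗ[k] H)
    (d : V →ₗ[k] V) {d₀ : V₀ →ₗ[k] V₁} {d₁ : V₁ →ₗ[k] V₀}
    (hd : ∀ x y, d (G (x, y)) = G (d₁ y, d₀ x)) {I₀ : H₀ →ₗ[k] V₀} {P₀ : V₀ →ₗ[k] H₀}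
    {I₁ : H₁ →ₗ[k] V₁} {P₁ : V₁ →ₗ[k] H₁} {σ₀ : V₀ →ₗ[k] V₁} {σ₁ : V₁ →ₗ[k] V₀}
    (h : d₀ ∘ₗ I₀ = 0 ∧ d₁ ∘ₗ I₁ = 0 ∧ P₀ ∘ₗ d₁ = 0 ∧ P₁ ∘ₗ d₀ = 0 ∧
      P₀ ∘ₗ I₀ = LinearMap.id ∧ P₁ ∘ₗ I₁ = LinearMap.id ∧
      d₁ ∘ₗ σ₀ + σ₁ ∘ₗ d₀ = LinearMap.id - I₀ ∘ₗ P₀ ∧
      d₀ ∘ₗ σ₁ + σ₀ ∘ₗ d₁ = LinearMap.id - I₁ ∘ₗ P₁ ∧
      σ₀ ∘ₗ I₀ = 0 ∧ σ₁ ∘ₗ I₁ = 0 ∧ P₁ ∘ₗ σ₀ = 0 ∧ P₀ ∘ₗ σ₁ = 0 ∧
      σ₁ ∘ₗ σ₀ = 0 ∧ σ₀ ∘ₗ σ₁ = 0) :
    ∃ (I : H →ₗ[k] V) (P : V →ₗ[k] H) (σ : V →ₗ[k] V),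
      (∀ x y, I (E (x, y)) = G (I₀ x, I₁ y)) ∧ (∀ x y, P (G (x, y)) = E (P₀ x, P₁ y)) ∧
      (∀ x y, σ (G (x, y)) = G (σ₁ y, σ₀ x)) ∧ d ∘ₗ I = 0 ∧ P ∘ₗ d = 0 ∧
      P ∘ₗ I = LinearMap.id ∧ d ∘ₗ σ + σ ∘ₗ d = LinearMap.id - I ∘ₗ P ∧ σ ∘ₗ I = 0 ∧
      P ∘ₗ σ = 0 ∧ σ ∘ₗ σ = 0 := by
  simp only [LinearMap.ext_iff, LinearMap.comp_apply, LinearMap.zero_apply, LinearMap.id_apply,
    LinearMap.add_apply, LinearMap.sub_apply] at h ⊢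
  obtain ⟨a1, a2, a3, a4, a5, a6, a7, a8, a9, a10, a11, a12, a13, a14⟩ := h
  obtain ⟨I, hI⟩ : ∃ I : H →ₗ[k] V, ∀ x y, I (E (x, y)) = G (I₀ x, I₁ y) :=
    ⟨G.toLinearMap ∘ₗ I₀.prodMap I₁ ∘ₗ E.symm.toLinearMap, fun x y => by simp⟩
  obtain ⟨P, hP⟩ : ∃ P : V →ₗ[k] H, ∀ x y, P (G (x, y)) = E (P₀ x, P₁ y) :=
    ⟨E.toLinearMap ∘ₗ P₀.prodMap P₁ ∘ₗ G.symm.toLinearMap, fun x y => by simp⟩
  obtain ⟨σ, hσ⟩ : ∃ σ : V →ₗ[k] V, ∀ x y, σ (G (x, y)) = G (σ₁ y, σ₀ x) :=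
    ⟨G.toLinearMap ∘ₗ (σ₁ ∘ₗ LinearMap.snd k V₀ V₁).prod (σ₀ ∘ₗ LinearMap.fst k V₀ V₁) ∘ₗ
      G.symm.toLinearMap, fun x y => by simp⟩
  refine ⟨I, P, σ, hI, hP, hσ, E.surjective.forall.2 ?_, G.surjective.forall.2 ?_,
    E.surjective.forall.2 ?_, G.surjective.forall.2 ?_, E.surjective.forall.2 ?_,
    G.surjective.forall.2 ?_, G.surjective.forall.2 ?_⟩ <;> rintro ⟨x, y⟩
  · rw [hI, hd, a1, a2, Prod.mk_zero_zero, map_zero]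
  · rw [hd, hP, a3, a4, Prod.mk_zero_zero, map_zero]
  · rw [hI, hP, a5, a6]
  · rw [hσ, hd, hd, hσ, hP, hI, ← map_add, ← map_sub, Prod.mk_add_mk, Prod.mk_sub_mk, a7, a8]
  · rw [hI, hσ, a9, a10, Prod.mk_zero_zero, map_zero]
  · rw [hσ, hP, a11, a12, Prod.mk_zero_zero, map_zero]
  · rw [hσ, hσ, a13, a14, Prod.mk_zero_zero, map_zero]

omit [Fintype ι] [DecidableEq ι] in
theorem exists_G (ε : ι → ℤˣ) : ∃ G : (VV n k ε 1 × VV n k ε (-1)) ≃ₗ[k] (ι → PS n k),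
    ∀ x y, G (x, y) = x.1 + y.1 :=
  ⟨Submodule.prodEquivOfIsCompl _ _ (isCompl_VV ε), fun _ _ => rfl⟩

theorem exists_E {H₀ H₁ : Type*} [AddCommGroup H₀] [Module k H₀] [AddCommGroup H₁] [Module k H₁]
    {a b : Type*} (e₀ : H₀ ≃ₗ[k] (a → k)) (e₁ : H₁ ≃ₗ[k] (b → k)) :
    ∃ E : (H₀ × H₁) ≃ₗ[k] (a ⊕ b → k),
      (∀ x i, e2 a b i ≠ 1 → E (x, 0) i = 0) ∧ (∀ y i, e2 a b i ≠ -1 → E (0, y) i = 0) ∧
      (∀ v, (∀ i, e2 a b i ≠ 1 → v i = 0) → ∃ x, v = E (x, 0)) ∧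
      ∀ v, (∀ i, e2 a b i ≠ -1 → v i = 0) → ∃ y, v = E (0, y) := by
  have hne : (-1 : ℤˣ) ≠ 1 := by decide
  refine ⟨(e₀.prodCongr e₁).trans (LinearEquiv.sumArrowLequivProdArrow a b k k).symm,
    ?_, ?_, fun v hv => ⟨e₀.symm fun i => v (.inl i), ?_⟩,
    fun v hv => ⟨e₁.symm fun i => v (.inr i), ?_⟩⟩
  · rintro x (i | i) hi
    · exact absurd rfl hi
    · simp
  · rintro x (i | i) hi
    · simp
    · exact absurd rfl hi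
  · funext i
    rcases i with i | i
    · simp
    · simpa using hv (.inr i) hne
  · funext i
    rcases i with i | i
    · simpa using hv (.inl i) hne.symm
    · simp

end RetrBAux

open RetrBAux in
theorem exists_retr {ε : ι → ℤˣ} {D : Matrix ι ι (PS n k)} (h : MF ε D 0) :
    ∃ (a b : ℕ) (I : (Fin a ⊕ Fin b → k) →ₗ[k] (ι → PS n k))
      (P : (ι → PS n k) →ₗ[k] (Fin a ⊕ Fin b → k)) (σ : (ι → PS n k) →ₗ[k] (ι → PS n k)),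
      chi ε D = (a : ℤ) - b ∧ Retr ε D (e2 (Fin a) (Fin b)) I P σ := by
  have q0 : (-1 : ℤˣ) = -1 := rfl
  have q1 : (1 : ℤˣ) = -(-1) := (neg_neg 1).symm
  obtain ⟨c₀⟩ := equiv_Hc h.od q0 q1
  obtain ⟨c₁⟩ := equiv_Hc h.od q1 q0
  obtain ⟨I₀, P₀, I₁, P₁, σ₀, σ₁, H⟩ :=
    split_periodic (dd h.od q0) (dd h.od q1) (dd_dd h q0 q1) (dd_dd h q1 q0)
  have f₀ := finite_Hc h 1
  have f₁ := finite_Hc h (-1)
  obtain ⟨E, E1, E2, E3, E4⟩ := exists_E (c₀.trans (Module.finBasis k (Hc ε D 1)).equivFun)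
    (c₁.trans (Module.finBasis k (Hc ε D (-1))).equivFun)
  obtain ⟨G, hG⟩ := exists_G (n := n) (k := k) ε
  obtain ⟨I, P, σ, hI, hP, hσ, b1, b2, b3, b4, b5, b6, b7⟩ := glue G E (mulD D) (fun x y => by
    rw [hG, hG, map_add, add_comm]
    rfl) H
  have G1 : ∀ x, G (x, 0) = x.1 := fun x => by rw [hG]; exact add_zero _
  have G2 : ∀ y, G (0, y) = y.1 := fun y => by rw [hG]; exact zero_add _
  refine ⟨_, _, I, P, σ, rfl, rel_of (fun v hv => ?_) fun v hv => ?_,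
    rel_of (fun v hv => ?_) fun v hv => ?_, rel_of (fun v hv => ?_) fun v hv => ?_,
    b1, b2, b3, b4, b5, b6, b7⟩
  · obtain ⟨x, rfl⟩ := E3 v hv
    rw [hI, map_zero, G1]
    exact (I₀ x).2
  · obtain ⟨y, rfl⟩ := E4 v hv
    rw [hI, map_zero, G2]
    exact (I₁ y).2
  · have e := hP ⟨v, hv⟩ 0
    rw [G1, map_zero] at e
    rw [e]
    exact E1 _
  · have e := hP 0 ⟨v, hv⟩
    rw [G2, map_zero] at e
    rw [e]
    exact E2 _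
  · have e := hσ ⟨v, hv⟩ 0
    rw [G1, map_zero, G2] at e
    rw [e]
    exact (σ₀ _).2
  · have e := hσ 0 ⟨v, hv⟩
    rw [G2, map_zero, G1] at e
    rw [e, neg_neg]
    exact (σ₁ _).2

end Pool.Agent.Theta
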