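import Pool.Agent.P.MP_f43029_ag.IdxC
import Pool.Agent.P.MP_f43029_ag.ModB
import Pool.Agent.P.MP_f43029_ag.ModC
import Pool.Agent.P.MP_f43029_ag.RetrB

/-! The index theorem.
Sketch. `exists_retr`, `modA`, `modB`, `IsIndex.compare`, `IsIndex.model`,
`IsIndex.tens_const` with `mf_Kos`; `∑ b, e2 b = a - b` (`Fintype.sum_sum_type`). -/

open Finset Matrix
open scoped Kronecker

noncomputable section

universe u

namespace Pool.Agent.Theta

variable {n : ℕ} {k : Type*} [Field k] {Q : Type*} [AddCommGroup Q]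
  {ρ : ∀ (ι : Type) [Fintype ι] [DecidableEq ι], (ι → ℤˣ) → Matrix ι ι (PS n k) → Q}
  {ι κ β : Type} [Fintype ι] [DecidableEq ι] [Fintype κ] [DecidableEq κ] [Fintype β] [DecidableEq β]

theorem IsIndex.eq_chi (hρ : IsIndex ρ) {ε : ι → ℤˣ} {D : Matrix ι ι (PS n k)} (h : MF ε D 0) :
    ρ ι ε D = chi ε D • ρ (Finset (Fin n)) (eL n) (Kos n k) := by
  obtain ⟨a, b, I, P, σ, hchi, R⟩ := exists_retr h
  have hsq : D * D = 0 := by simpa using h.sq
  have hA := modA R h
  rw [hρ.compare h hA (modB R hsq), hρ.model hA, hρ.tens_const (mf_Kos n k), hchi]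
  congr 1
  simp [Fintype.sum_sum_type, e2, sub_eq_add_neg]

end Pool.Agent.Theta
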