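import Pool.Agent.P.MP_f43029_ag.Car
import Pool.Agent.P.MP_f43029_ag.HplC

/-! Exactness of the Koszul complex of the variables.
Sketch. Work in the ring `AddMonoid.End (Finset (Fin n) → PS n k)` (or `Module.End k`). For power
series define coefficientwise `P j g = fun m => if m j = 0 then g m else 0` and
`q j g = fun m => g (m + single j 1)`; then `X j * q j g = g - P j g`, `q j (X j * g) = g`,
`P j (X j * g) = 0`, and `P j`, `q j` commute with multiplication by `X i`, `i ≠ j`
(`MvPowerSeries.coeff_X_mul`-type lemmas, or `X_pow_eq`, `coeff_monomial_mul`). Apply `contraction_sum` with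
`δ j = X j • con j`, `κ₀ j = ext j` composed with `q j` entrywise, `Q j = con j * ext j` composed with `P j`
(`kt` with `ι = Unit` or a direct definition `v ↦ fun S => ∑ U, B S U • φ (v U)`). The product of all `Q j` kills
`v` when `constantCoeff (v ∅) = 0`: show by induction that the product over `s` sends `v` to
`fun S m => if (∀ j ∈ s, j ∉ S ∧ m j = 0) then v S m else 0`. -/

open Finset Matrix
open scoped Kronecker

noncomputable section

universe u

namespace Pool.Agent.Theta

variable {n : ℕ} {k : Type*} [Field k]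

open MvPowerSeries in
private theorem coeff_X_mul' (j : Fin n) (g : PS n k) (m : Fin n →₀ ℕ) :
    coeff m (X j * g) = if m j = 0 then 0 else coeff (m - Finsupp.single j 1) g := by
  rw [X_def, coeff_monomial_mul, one_mul]
  simp only [Finsupp.single_le_iff, Nat.one_le_iff_ne_zero, ne_eq, ite_not]

/-- Division by a variable. -/
private def qd (i : Fin n) : PS n k →+ PS n k :=
  AddMonoidHom.mk' (fun g m => MvPowerSeries.coeff (Finsupp.single i 1 + m) g) fun _ _ => rfl

private theorem coeff_qd (i : Fin n) (g : PS n k) (m : Fin n →₀ ℕ) :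
    MvPowerSeries.coeff m (qd i g) = MvPowerSeries.coeff (Finsupp.single i 1 + m) g := rfl

open MvPowerSeries in
private theorem qd_self (i : Fin n) (g : PS n k) : qd i (X i * g) = g := by
  ext m
  rw [coeff_qd, X_def, coeff_add_monomial_mul, one_mul]

open MvPowerSeries in
private theorem qd_ne {i j : Fin n} (h : j ≠ i) (g : PS n k) : qd i (X j * g) = X j * qd i g := by
  ext m
  rw [coeff_qd, coeff_X_mul', coeff_X_mul', coeff_qd, Finsupp.add_apply, Finsupp.single_eq_of_ne h,
    zero_add]
  split_ifs with h0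
  · rfl
  · rw [add_tsub_assoc_of_le (Finsupp.single_le_iff.2 (Nat.one_le_iff_ne_zero.2 h0))]

open MvPowerSeries in
private theorem coeff_rest (i : Fin n) (g : PS n k) (m : Fin n →₀ ℕ) :
    coeff m (g - X i * qd i g) = if m i = 0 then coeff m g else 0 := by
  rw [map_sub, coeff_X_mul']
  split_ifs with h0
  · exact sub_zero _
  · rw [coeff_qd, add_tsub_cancel_of_le (Finsupp.single_le_iff.2 (Nat.one_le_iff_ne_zero.2 h0)),
      sub_self]

private theorem qd_mulVec {a : Type*} [Fintype a] (i : Fin n) (B : Matrix a a ℤ) (v : a → PS n k)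
    (S : a) : qd i ((B.map (Int.castRingHom (PS n k)) *ᵥ v) S) =
      (B.map (Int.castRingHom (PS n k)) *ᵥ fun U => qd i (v U)) S := by
  simp only [mulVec, dotProduct, map_apply, eq_intCast, map_sum, ← zsmul_eq_mul, map_zsmul]

open MvPowerSeries in
private theorem step (i : Fin n) (v : Finset (Fin n) → PS n k) (hv : Kos n k *ᵥ v = 0) :
    ∃ w, ∀ S m, coeff m ((v - Kos n k *ᵥ w) S) =
      if i ∉ S ∧ m i = 0 then coeff m (v S) else 0 := by
  let c := Int.castRingHom (PS n k)
  let a : Finset (Fin n) → PS n k := fun U => qd i (v U)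
  let p : Finset (Fin n) → PS n k := v - (X i : PS n k) • a
  have h1 : Kos n k *ᵥ a + (con i).map c *ᵥ p = 0 := funext fun S => by
    have h2 := congrArg (qd i) (congrFun hv S)
    rw [Kos, sum_mulVec, Finset.sum_apply, map_sum, ← add_sum_erase _ _ (mem_univ i), smul_mulVec,
      Pi.smul_apply, smul_eq_mul, qd_self, Pi.zero_apply, map_zero,
      sum_congr rfl (g := fun j => (((X j : PS n k) • (con j).map c) *ᵥ a) S) fun j hj => by
        rw [smul_mulVec, smul_mulVec, Pi.smul_apply, Pi.smul_apply, smul_eq_mul, smul_eq_mul,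
          qd_ne (ne_of_mem_erase hj), qd_mulVec]] at h2
    rw [Pi.add_apply, Kos, sum_mulVec, Finset.sum_apply, ← add_sum_erase _ _ (mem_univ i),
      mulVec_sub, mulVec_smul, smul_mulVec, Pi.sub_apply, Pi.zero_apply, ← h2]
    ring
  have h2 := congrArg (· *ᵥ a) (Kos_ext k i)
  simp only [add_mulVec, ← mulVec_mulVec, smul_mulVec, one_mulVec] at h2
  have h3 := congrArg (fun B : Matrix _ _ ℤ => B.map c *ᵥ p) (con_ext i i)
  have h4 := congrArg (fun B : Matrix _ _ ℤ => B.map c *ᵥ p) (con_mul_ext_self i)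
  simp only [if_true, Matrix.map_add _ c.map_add, add_mulVec, Matrix.map_one _ c.map_zero c.map_one,
    one_mulVec] at h3
  rw [diagonal_map c.map_zero] at h4
  rw [h4, Matrix.map_mul, ← mulVec_mulVec, eq_neg_of_add_eq_zero_right h1, mulVec_neg] at h3
  refine ⟨(ext i).map c *ᵥ a, fun S m => ?_⟩
  have h5 : v - Kos n k *ᵥ (ext i).map c *ᵥ a =
      (diagonal fun S => c (if i ∈ S then 0 else 1)) *ᵥ p := by
    rw [eq_sub_of_add_eq h2, eq_sub_of_add_eq h3]
    simp only [p]
    abel
  rw [h5, mulVec_diagonal]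
  by_cases hS : i ∈ S
  · simp [hS]
  · rw [if_neg hS, map_one, one_mul]
    simp only [hS, not_false_eq_true, true_and]
    exact coeff_rest i (v S) m

theorem koszul_exact (v : Finset (Fin n) → PS n k) (hv : Kos n k *ᵥ v = 0)
    (h0 : MvPowerSeries.constantCoeff (v ∅) = 0) : ∃ w, v = Kos n k *ᵥ w := by
  have key : ∀ s : Finset (Fin n), ∃ w, ∀ S m, MvPowerSeries.coeff m ((v - Kos n k *ᵥ w) S) ≠ 0 →
      MvPowerSeries.coeff m (v S) ≠ 0 ∧ ∀ j ∈ s, j ∉ S ∧ m j = 0 := fun s => by
    induction s using Finset.induction_on with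
    | empty => exact ⟨0, fun S m h => ⟨by simpa using h, by simp⟩⟩
    | insert i s _ ih =>
      obtain ⟨w, hw⟩ := ih
      obtain ⟨w', hw'⟩ := step i (v - Kos n k *ᵥ w) (by
        rw [mulVec_sub, hv, mulVec_mulVec, (mf_Kos n k).sq, zero_smul, zero_mulVec, sub_zero])
      refine ⟨w + w', fun S m h => ?_⟩
      rw [mulVec_add, ← sub_sub, hw'] at h
      split_ifs at h with h1
      · exact ⟨(hw S m h).1, forall_mem_insert _ _ _ |>.2 ⟨h1, (hw S m h).2⟩⟩
      · exact absurd rfl h
  obtain ⟨w, hw⟩ := key univ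
  refine ⟨w, sub_eq_zero.1 (funext fun S => MvPowerSeries.ext fun m => by_contra fun h => ?_)⟩
  obtain ⟨h1, h2⟩ := hw S m h
  obtain rfl : S = ∅ := eq_empty_of_forall_notMem fun j => (h2 j (mem_univ j)).1
  obtain rfl : m = 0 := Finsupp.ext fun j => (h2 j (mem_univ j)).2
  exact h1 h0

end Pool.Agent.Theta
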