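import Pool.Agent.P.MP_f43029_ag.LapA

/-! Integration by parts in the power series variables.
Sketch. Additive in `g`; take `g = monomial a c`. Let `E = pole pat N a`, `Wt = ∏ wv`.
`der (inl i) g = monomial a (pderiv i c)`; if all `E j ≠ 0`, its residue is
`E i * coeff (E - 1 + single i 1) c` (coefficient of a derivative). By `der_inl_psi` the second term
is the sum over `b` of `u⁻¹ * monomial (a + single (some (i,b)) 1) (N * X i ^ (N-1) * c)`; for
mode zero the weight `wv zero (a+1)` vanishes; for mode lap the weight is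
`Wt * (a v + 1) * u`, the pole is `E + N (i,b)` at `i`, and
`coeff (m + single i p) (X i ^ p * c) = coeff m c` (`MvPowerSeries.X_pow_eq`,
`coeff_add_monomial_mul`). The sum of `N (i,b) * (a v + 1)` over lap `b` is `E i`. If `E i = 0` all
`N (i,b)` with mode lap vanish; if `E j = 0` for some `j ≠ i` every residue is zero. -/

open Finset Matrix
open scoped Kronecker

noncomputable section

universe u

namespace Pool.Agent.Theta

variable {n : ℕ} {K : Type*} [CommRing K] [Algebra ℚ K]

/-- The common coefficient. -/
private def rc (E : Fin n → ℕ) (i : Fin n) (c : PS n K) : K :=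
  if ∀ j, j ≠ i → E j ≠ 0 then MvPowerSeries.coeff
    (Finsupp.equivFunOnFinite.symm fun j => if j = i then E i else E j - 1) c else 0

omit [Algebra ℚ K] in
private theorem res_pderiv (E : Fin n → ℕ) (i : Fin n) (c : PS n K) :
    res E (MvPowerSeries.pderiv K i c) = E i * rc E i c := by
  unfold res rc
  by_cases h : ∀ j, E j ≠ 0
  · rw [if_pos h, if_pos fun j _ => h j, LinearMap.toAddMonoidHom_coe, MvPowerSeries.coeff_pderiv,
      mul_comm]
    have h1 : E i - 1 + 1 = E i := Nat.sub_add_cancel (Nat.pos_of_ne_zero (h i))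
    congr 1
    · rw [Finsupp.coe_equivFunOnFinite_symm, ← Nat.cast_succ, Nat.succ_eq_add_one, h1]
    · refine congrArg (fun m => MvPowerSeries.coeff m c) (Finsupp.ext fun j => ?_)
      by_cases hj : j = i
      · subst hj
        simp [h1]
      · simp [hj]
  · rw [if_neg h, AddMonoidHom.zero_apply]
    split_ifs with h'
    · have : E i = 0 := by
        by_contra h0
        exact h fun j => if hj : j = i then hj ▸ h0 else h' j hj
      simp [this]
    · simp

omit [Algebra ℚ K] in
private theorem res_shift (E : Fin n → ℕ) (i : Fin n) (p : ℕ) (c : PS n K) :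
    res (E + Pi.single i p) ((p : PS n K) * MvPowerSeries.X i ^ (p - 1) * c) = p * rc E i c := by
  rcases p with _ | p
  · simp
  rw [mul_assoc, ← nsmul_eq_mul, map_nsmul, nsmul_eq_mul]
  congr 1
  unfold res rc
  have e : (∀ j, (E + Pi.single i (p + 1) : Fin n → ℕ) j ≠ 0) ↔ ∀ j, j ≠ i → E j ≠ 0 := by
    refine ⟨fun h j hj => by simpa [hj] using h j, fun h j => ?_⟩
    by_cases hj : j = i
    · subst hj
      simp
    · simpa [hj] using h j hj
  by_cases h : ∀ j, j ≠ i → E j ≠ 0
  · rw [if_pos (e.2 h), if_pos h, LinearMap.toAddMonoidHom_coe, MvPowerSeries.X_pow_eq,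
      ← one_mul (MvPowerSeries.coeff _ c), ← MvPowerSeries.coeff_add_monomial_mul
        (Finsupp.single i (p + 1 - 1))]
    refine congrArg (fun m => MvPowerSeries.coeff m _) (Finsupp.ext fun j => ?_)
    by_cases hj : j = i
    · subst hj
      simp [add_comm]
    · simp [hj]
  · rw [if_neg (mt e.1 h), if_neg h, AddMonoidHom.zero_apply]

private theorem wv_shift (u : Kˣ) (pat : Var n → Mode) (a : Var n →₀ ℕ) (v : Var n) :
    (pat v = .zero → ∏ w, wv u (pat w) ((Finsupp.single v 1 + a : Var n →₀ ℕ) w) = 0) ∧
    (pat v = .lap → ∏ w, wv u (pat w) ((Finsupp.single v 1 + a : Var n →₀ ℕ) w) =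
      u * ((a v + 1 : ℕ) * ∏ w, wv u (pat w) (a w))) := by
  constructor
  · intro h
    exact prod_eq_zero (mem_univ v) (by simp [h, wv])
  · intro h
    have e : ∏ w ∈ {v}ᶜ, wv u (pat w) ((Finsupp.single v 1 + a : Var n →₀ ℕ) w) =
        ∏ w ∈ {v}ᶜ, wv u (pat w) (a w) := prod_congr rfl fun w hw => by
      have : w ≠ v := by simpa using hw
      simp [this]
    rw [Fintype.prod_eq_mul_prod_compl v, Fintype.prod_eq_mul_prod_compl v, e, h]
    simp only [wv, Finsupp.add_apply, Finsupp.single_eq_same, add_comm 1, Nat.factorial_succ]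
    push_cast
    ring

private theorem pole_shift {pat : Var n → Mode} (N : Fin n × Bool → ℕ) (a : Var n →₀ ℕ)
    {i : Fin n} {b : Bool} (h : pat (some (i, b)) = .lap) :
    pole pat N (Finsupp.single (some (i, b)) 1 + a) = pole pat N a + Pi.single i (N (i, b)) := by
  funext j
  by_cases hj : j = i
  · subst hj
    cases b <;> simp [pole, h] <;> ring
  · simp [pole, hj]

theorem Lap_der_inl (u : Kˣ) {pat : Var n → Mode} (hpat : Good pat) (N : Fin n × Bool → ℕ)
    (i : Fin n) (g : Co n K) :
    Lap u pat N (der (Sum.inl i) g - cst ((u⁻¹ : Kˣ) : K) * (der (Sum.inl i) (psi N) * g)) = 0 := by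
  induction g using MvPolynomial.induction_on' with
  | add p q hp hq =>
    rw [map_add, mul_add, mul_add, add_sub_add_comm, map_add, hp, hq, add_zero]
  | monomial a c =>
    have e1 : der (Sum.inl i) (MvPolynomial.monomial a c : Co n K) =
        MvPolynomial.monomial a (MvPowerSeries.pderiv K i c) := by
      refine MvPolynomial.ext _ _ fun m => (coeff_pdx i _ m).trans ?_
      rw [MvPolynomial.coeff_monomial, MvPolynomial.coeff_monomial]
      split_ifs <;> simp
    have e2 : ∀ b : Bool, Lap u pat N (MvPolynomial.X (some (i, b)) *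
        MvPolynomial.C ((N (i, b) : PS n K) * MvPowerSeries.X i ^ (N (i, b) - 1)) *
          MvPolynomial.monomial a c) = u * ((∏ v, wv u (pat v) (a v)) *
            (((if pat (some (i, b)) = .lap then N (i, b) * (a (some (i, b)) + 1) else 0 : ℕ) : K) *
              rc (pole pat N a) i c)) := fun b => by
      rw [mul_assoc, MvPolynomial.C_mul_monomial, MvPolynomial.X, MvPolynomial.monomial_mul,
        one_mul, Lap_monomial]
      rcases hpat.2 (i, b) with h | h
      · rw [(wv_shift u pat a _).1 h, h]
        simp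
      · rw [(wv_shift u pat a _).2 h, pole_shift N a h, res_shift, if_pos h]
        push_cast
        ring
    rw [map_sub, Lap_cst_mul, e1, Lap_monomial, res_pderiv, der_inl_psi, sum_mul, map_sum]
    simp only [e2]
    rw [← mul_sum, Units.inv_mul_cancel_left, ← mul_sum, ← sum_mul, ← Nat.cast_sum]
    exact sub_self _

end Pool.Agent.Theta
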