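import Pool.Agent.P.MP_f43029_ag.LapA

/-! Integration by parts in the auxiliary variables.
Sketch. Additive in `g`; take `g = monomial a c`, `v = some x` (or `none`), `j = a v`.
`MvPolynomial.pderiv_monomial`: `pderiv v g = monomial (a - single v 1) (c * j)`. Split the
products over variables with `Finset.mul_prod_erase`. First statement: `der_some_psi`; the residue
of `X i ^ N * c` at the pole `E` equals the residue of `c` at the pole `E - N` at `i`
(`N ≤ E i`; if `E i = N` both vanish: for `N ≥ 1` since `coeff` of `X i ^ N * c` at an exponent with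
`i`-entry `< N` is zero, for `N = 0` since `E i = 0`). For `j ≥ 1` the two terms cancel
(`j * (j-1)! * u ^ j = u⁻¹ * j ! * u ^ (j+1)`, the pole of `a - single v 1` is `E - N`), and the right side
vanishes as `wv zero j = 0`. For `j = 0` the first term is zero. Second statement: `j * (1/j) = 1`. -/

open Finset Matrix
open scoped Kronecker

noncomputable section

universe u

namespace Pool.Agent.Theta

variable {n : ℕ} {K : Type*} [CommRing K] [Algebra ℚ K]

omit [Algebra ℚ K] in
private theorem lapc_res_shift (E : Fin n → ℕ) (i : Fin n) (m : ℕ) (c : PS n K) :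
    res (fun i' => E i' + if i' = i then m else 0) (MvPowerSeries.X i ^ m * c) = res E c := by
  unfold res
  rw [MvPowerSeries.X_pow_eq]
  by_cases h : ∀ i', E i' ≠ 0
  · rw [if_pos h, if_pos fun i' => ne_of_gt (Nat.add_pos_left (Nat.pos_of_ne_zero (h i')) _)]
    have e : (Finsupp.equivFunOnFinite.symm fun i' => (E i' + if i' = i then m else 0) - 1) =
        Finsupp.single i m + Finsupp.equivFunOnFinite.symm fun i' => E i' - 1 := by
      ext i'
      have := h i'
      simp only [Finsupp.coe_equivFunOnFinite_symm, Finsupp.add_apply, Finsupp.single_apply]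
      by_cases hi : i' = i
      · subst hi
        simp only [if_true]
        omega
      · rw [if_neg hi, if_neg (Ne.symm hi)]
        omega
    simp only [LinearMap.toAddMonoidHom_coe]
    rw [e, MvPowerSeries.coeff_add_monomial_mul, one_mul]
  · rw [if_neg h]
    split_ifs with h'
    · simp only [LinearMap.toAddMonoidHom_coe, AddMonoidHom.zero_apply]
      rw [MvPowerSeries.coeff_monomial_mul, if_neg]
      intro hle
      obtain ⟨i0, h0⟩ := not_forall.1 h
      have h1 : (E i0 + if i0 = i then m else 0) ≠ 0 := h' i0
      have h2 := hle i0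
      simp only [Finsupp.coe_equivFunOnFinite_symm, Finsupp.single_apply] at h2
      by_cases hi : i0 = i
      · subst hi
        simp only [if_true] at h1 h2
        omega
      · rw [if_neg hi] at h1
        omega
    · rfl

omit [Algebra ℚ K] in
private theorem lapc_res_nat (E : Fin n → ℕ) (c : PS n K) (j : ℕ) :
    res E (c * (j : PS n K)) = (j : K) * res E c := by
  rw [mul_comm, ← nsmul_eq_mul, map_nsmul, nsmul_eq_mul]

private theorem lapc_pole_some {pat : Var n → Mode} (N : Fin n × Bool → ℕ) {x : Fin n × Bool}
    (hx : pat (some x) = .lap) {a a' : Var n →₀ ℕ} (h : ∀ v, v ≠ some x → a' v = a v) :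
    pole pat N a' = fun i => pole (Function.update pat (some x) .zero) N a i +
      if i = x.1 then N x * (a' (some x) + 1) else 0 := by
  funext i
  unfold pole
  have e : (if i = x.1 then N x * (a' (some x) + 1) else 0) =
      ∑ b : Bool, if (i, b) = x then N x * (a' (some x) + 1) else 0 := by
    obtain ⟨i0, b0⟩ := x
    by_cases hi : i = i0
    · subst hi
      cases b0 <;> simp
    · simp [hi]
  rw [e, ← Finset.sum_add_distrib]
  refine Finset.sum_congr rfl fun b _ => ?_
  by_cases hb : (i, b) = x
  · subst hb
    simp [hx]
  · have hb' : (some (i, b) : Var n) ≠ some x := fun e => hb (Option.some.inj e)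
    rw [Function.update_of_ne hb', if_neg hb, h _ hb', add_zero]

private theorem lapc_pole_none (pat : Var n → Mode) (N : Fin n × Bool → ℕ) (m : Mode)
    {a a' : Var n →₀ ℕ} (h : ∀ v, v ≠ none → a' v = a v) :
    pole (Function.update pat none m) N a' = pole pat N a := by
  funext i
  unfold pole
  refine Finset.sum_congr rfl fun b _ => ?_
  rw [Function.update_of_ne (Option.some_ne_none _), h _ (Option.some_ne_none _)]

private theorem lapc_prod (u : Kˣ) (pat : Var n → Mode) (v0 : Var n) (m : Mode)
    {a a' : Var n →₀ ℕ} (h : ∀ v, v ≠ v0 → a' v = a v) :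
    ∏ v, wv u (Function.update pat v0 m v) (a' v) =
      wv u m (a' v0) * ∏ v ∈ univ.erase v0, wv u (pat v) (a v) := by
  rw [← Finset.mul_prod_erase univ _ (mem_univ v0), Function.update_self]
  congr 1
  refine Finset.prod_congr rfl fun v hv => ?_
  rw [Function.update_of_ne (ne_of_mem_erase hv), h v (ne_of_mem_erase hv)]

private theorem lapc_off (a : Var n →₀ ℕ) (v0 : Var n) :
    ∀ v, v ≠ v0 → (a - Finsupp.single v0 1 : Var n →₀ ℕ) v = a v := fun v hv => by
  rw [Finsupp.tsub_apply, Finsupp.single_eq_of_ne hv, tsub_zero]

omit [Algebra ℚ K] in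
private theorem lapc_der (v : Var n) (a : Var n →₀ ℕ) (c : PS n K) :
    der (Sum.inr v) (MvPolynomial.monomial a c : Co n K) =
      MvPolynomial.monomial (a - Finsupp.single v 1) (c * a v) :=
  MvPolynomial.pderiv_monomial

theorem Lap_der_lap (u : Kˣ) {pat : Var n → Mode} (N : Fin n × Bool → ℕ) {x : Fin n × Bool}
    (hx : pat (some x) = .lap) (g : Co n K) :
    Lap u pat N (der (Sum.inr (some x)) g -
        cst ((u⁻¹ : Kˣ) : K) * (der (Sum.inr (some x)) (psi N) * g)) =
      -Lap u (Function.update pat (some x) .zero) N g := by
  induction g using MvPolynomial.induction_on' with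
  | add p q hp hq =>
    have e : der (Sum.inr (some x)) (p + q) -
        cst ((u⁻¹ : Kˣ) : K) * (der (Sum.inr (some x)) (psi N) * (p + q)) =
        (der (Sum.inr (some x)) p -
          cst ((u⁻¹ : Kˣ) : K) * (der (Sum.inr (some x)) (psi N) * p)) +
        (der (Sum.inr (some x)) q -
          cst ((u⁻¹ : Kˣ) : K) * (der (Sum.inr (some x)) (psi N) * q)) := by
      rw [map_add]
      ring
    rw [e, map_add, hp, hq, map_add, neg_add]
  | monomial a c =>
    have hp : Function.update pat (some x) .lap = pat := by
      rw [← hx, Function.update_eq_self]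
    have h1 := lapc_prod u pat (some x) .lap (lapc_off a (some x))
    have h2 := lapc_prod u pat (some x) .lap (a := a) (a' := a) fun _ _ => rfl
    have h3 := lapc_prod u pat (some x) .zero (a := a) (a' := a) fun _ _ => rfl
    rw [hp] at h1 h2
    have p1 := lapc_pole_some N hx (lapc_off a (some x))
    have p2 := lapc_pole_some N hx (a := a) (a' := a) fun _ _ => rfl
    have p3 : pole pat N a = fun i => (pole (Function.update pat (some x) .zero) N a i +
        if i = x.1 then N x * a (some x) else 0) + if i = x.1 then N x else 0 := by
      rw [p2]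
      funext i
      split_ifs <;> ring
    rw [map_sub, Lap_cst_mul, lapc_der, der_some_psi, MvPolynomial.C_mul_monomial, Lap_monomial,
      Lap_monomial, Lap_monomial, h1, h2, h3, lapc_res_nat, p1, p3, lapc_res_shift,
      Finsupp.tsub_apply, Finsupp.single_eq_same]
    generalize (∏ v ∈ univ.erase (some x), wv u (pat v) (a v)) = W
    generalize a (some x) = j
    have hu : ((u⁻¹ : Kˣ) : K) * u = 1 := u.inv_mul
    cases j with
    | zero =>
      simp only [wv, mul_zero, ite_self, add_zero, if_true]
      push_cast
      simp only [Nat.factorial_zero, Nat.cast_one]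
      linear_combination (-(W * res (pole (Function.update pat (some x) .zero) N a) c)) * hu
    | succ j =>
      simp only [wv, Nat.add_sub_cancel, Nat.factorial_succ, if_neg (Nat.succ_ne_zero j)]
      push_cast
      generalize res _ c = R
      linear_combination (-((j + 1) * (j.factorial : K) * (u : K) ^ (j + 1) * W * R)) * hu

theorem Lap_der_int (u : Kˣ) {pat : Var n → Mode} (N : Fin n × Bool → ℕ) (h : pat none = .int)
    (g : Co n K) : Lap u pat N (der (Sum.inr none) g) =
      Lap u (Function.update pat none .one) N g - Lap u (Function.update pat none .zero) N g := by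
  induction g using MvPolynomial.induction_on' with
  | add p q hp hq =>
    rw [map_add, map_add, hp, hq, map_add, map_add]
    ring
  | monomial a c =>
    have hp : Function.update pat none .int = pat := by
      rw [← h, Function.update_eq_self]
    have h1 := lapc_prod u pat none .int (lapc_off a none)
    have h2 := lapc_prod u pat none .one (a := a) (a' := a) fun _ _ => rfl
    have h3 := lapc_prod u pat none .zero (a := a) (a' := a) fun _ _ => rfl
    have p1 := lapc_pole_none pat N .int (lapc_off a none)
    have p2 := lapc_pole_none pat N .one (a := a) (a' := a) fun _ _ => rfl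
    have p3 := lapc_pole_none pat N .zero (a := a) (a' := a) fun _ _ => rfl
    rw [hp] at h1 p1
    rw [lapc_der, Lap_monomial, Lap_monomial, Lap_monomial, h1, h2, h3, lapc_res_nat, p1, p2, p3,
      Finsupp.tsub_apply, Finsupp.single_eq_same]
    generalize (∏ v ∈ univ.erase none, wv u (pat v) (a v)) = W
    generalize res _ c = R
    generalize a none = j
    cases j with
    | zero => simp [wv]
    | succ j =>
      have hj : algebraMap ℚ K (((j : ℚ) + 1)⁻¹) * ((j : K) + 1) = 1 := by
        have e : ((j : K) + 1) = algebraMap ℚ K ((j : ℚ) + 1) := by simp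
        rw [e, ← map_mul, inv_mul_cancel₀ (by positivity), map_one]
      simp only [wv, Nat.add_sub_cancel, if_neg (Nat.succ_ne_zero j)]
      push_cast
      linear_combination (W * R) * hj

end Pool.Agent.Theta
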