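import Pool.Agent.P.MP_f43029_ag.Defs

/-! Elementary facts on graded matrices over a commutative ring.
Sketch. Entrywise computations (`Matrix.mul_apply`, `Finset.sum_eq_zero`; signs are units of `ℤ`,
`Int.units_eq_one_or`). `Matrix.mul_kronecker_mul`, `add_kronecker`, `kronecker_add`. -/

set_option linter.unusedSectionVars false

open Finset Matrix
open scoped Kronecker

noncomputable section

universe u

namespace Pool.Agent.Theta

variable {T : Type*} [CommRing T]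
variable {ι κ : Type*} [Fintype ι] [DecidableEq ι] [Fintype κ] [DecidableEq κ]

theorem Par.mul {a b c : Type*} [Fintype b] {p q : ℤˣ} {εa : a → ℤˣ} {εb : b → ℤˣ}
    {εc : c → ℤˣ} {A : Matrix a b T} {B : Matrix b c T} (hA : Par p εa εb A)
    (hB : Par q εb εc B) : Par (p * q) εa εc (A * B) := by
  intro i j hij
  rw [Matrix.mul_apply]
  refine sum_eq_zero fun x _ => ?_
  by_cases h : εa i = p * εb x
  · rw [hB x j fun e => hij (by rw [h, e, mul_assoc]), mul_zero]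
  · rw [hA i x h, zero_mul]

theorem Par.add {a b : Type*} {p : ℤˣ} {εa : a → ℤˣ} {εb : b → ℤˣ} {A B : Matrix a b T}
    (hA : Par p εa εb A) (hB : Par p εa εb B) : Par p εa εb (A + B) := fun i j h => by
  rw [Matrix.add_apply, hA i j h, hB i j h, add_zero]

theorem Par.smul {a b : Type*} {p : ℤˣ} {εa : a → ℤˣ} {εb : b → ℤˣ} {A : Matrix a b T}
    (hA : Par p εa εb A) (c : T) : Par p εa εb (c • A) := fun i j h => by
  rw [Matrix.smul_apply, hA i j h, smul_zero]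

theorem Par.sum {a b α : Type*} {p : ℤˣ} {εa : a → ℤˣ} {εb : b → ℤˣ} (s : Finset α)
    {A : α → Matrix a b T} (hA : ∀ x ∈ s, Par p εa εb (A x)) : Par p εa εb (∑ x ∈ s, A x) :=
  fun i j h => by
    rw [Matrix.sum_apply]
    exact sum_eq_zero fun x hx => hA x hx i j h

theorem Par.map {T' : Type*} [CommRing T'] {a b : Type*} {p : ℤˣ} {εa : a → ℤˣ} {εb : b → ℤˣ}
    {A : Matrix a b T} (hA : Par p εa εb A) (e : T →+* T') : Par p εa εb (A.map e) :=
  fun i j h => by rw [Matrix.map_apply, hA i j h, map_zero]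

theorem par_Gam (ε : ι → ℤˣ) : Par 1 ε ε (Gam T ε) := fun i j h =>
  diagonal_apply_ne _ fun e => h (by rw [e, one_mul])

theorem od_neg {ε : ι → ℤˣ} {A : Matrix ι ι T} (h : Od ε A) : Od (-ε) A := fun i j hij =>
  h i j fun e => hij (by simp [e])

theorem od_transpose {ε : ι → ℤˣ} {A : Matrix ι ι T} (h : Od ε A) : Od (-ε) Aᵀ := fun i j hij =>
  h j i fun e => hij (by simp [e])

theorem Gam_mul_Gam (ε : ι → ℤˣ) : Gam T ε * Gam T ε = 1 := by
  rw [Gam, diagonal_mul_diagonal, ← diagonal_one]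
  congr 1
  funext i
  rw [← Int.cast_mul, ← Units.val_mul, Int.units_mul_self, Units.val_one, Int.cast_one]

theorem Gam_neg (ε : ι → ℤˣ) : Gam T (-ε) = -Gam T ε := by
  rw [Gam, Gam, diagonal_neg]
  congr 1
  funext i
  simp

theorem Gam_map {T' : Type*} [CommRing T'] (e : T →+* T') (ε : ι → ℤˣ) :
    (Gam T ε).map e = Gam T' ε := by
  rw [Gam, Gam, diagonal_map (map_zero e)]
  congr 1
  funext i
  exact map_intCast e _

theorem Gam_mul_od {ε : ι → ℤˣ} {A : Matrix ι ι T} (h : Od ε A) :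
    Gam T ε * A = -(A * Gam T ε) := by
  ext i j
  rw [Gam, diagonal_mul, Matrix.neg_apply, mul_diagonal]
  by_cases e : ε i = -1 * ε j
  · rw [e]
    simp [mul_comm]
  · simp [h i j e]

theorem MatA_kron {a b c d : Type*} {p q : ℤˣ} {εa : a → ℤˣ} {εb : b → ℤˣ} {εc : c → ℤˣ}
    {εd : d → ℤˣ} {A : Matrix a b T} {B : Matrix c d T} (hA : Par p εa εb A)
    (hB : Par q εc εd B) : Par (p * q) (tE εa εc) (tE εb εd) (A ⊗ₖ B) := by
  rintro ⟨i, x⟩ ⟨j, y⟩ hij
  rw [kroneckerMap_apply]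
  by_cases h : εa i = p * εb j
  · rw [hB x y fun e => hij ?_, mul_zero]
    simp only [tE, h, e]
    exact mul_mul_mul_comm _ _ _ _
  · rw [hA i j h, zero_mul]

theorem MatA_one (ε : ι → ℤˣ) : Par 1 ε ε (1 : Matrix ι ι T) := fun i j h =>
  one_apply_ne fun e => h (by rw [e, one_mul])

theorem od_tD {ε : ι → ℤˣ} {ε' : κ → ℤˣ} {A : Matrix ι ι T} {A' : Matrix κ κ T} (h : Od ε A)
    (h' : Od ε' A') : Od (tE ε ε') (tD ε A A') :=
  Par.add (MatA_kron h (MatA_one ε')) (MatA_kron (par_Gam ε) h')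

theorem od_kron_one {ε : ι → ℤˣ} (ε' : κ → ℤˣ) {A : Matrix ι ι T} (h : Od ε A) :
    Od (tE ε ε') (A ⊗ₖ (1 : Matrix κ κ T)) := MatA_kron h (MatA_one ε')

theorem od_Gam_kron (ε : ι → ℤˣ) {ε' : κ → ℤˣ} {A' : Matrix κ κ T} (h : Od ε' A') :
    Od (tE ε ε') (Gam T ε ⊗ₖ A') := MatA_kron (par_Gam ε) h

theorem MatA_neg_kron {a b c d : Type*} (A : Matrix a b T) (B : Matrix c d T) :
    (-A) ⊗ₖ B = -(A ⊗ₖ B) := by
  ext ⟨i, x⟩ ⟨j, y⟩
  simp

theorem tD_mul_tD {ε : ι → ℤˣ} {A : Matrix ι ι T} (h : Od ε A) (A' : Matrix κ κ T) :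
    tD ε A A' * tD ε A A' =
      (A * A) ⊗ₖ (1 : Matrix κ κ T) + (1 : Matrix ι ι T) ⊗ₖ (A' * A') := by
  simp only [tD, add_mul, mul_add, ← mul_kronecker_mul, Matrix.mul_one, Matrix.one_mul,
    Gam_mul_Gam, Gam_mul_od h, MatA_neg_kron]
  abel

theorem tD_comm_left {ε : ι → ℤˣ} (A : Matrix ι ι T) {h : Matrix ι ι T} (hh : Od ε h)
    (A' : Matrix κ κ T) : tD ε A A' * h ⊗ₖ (1 : Matrix κ κ T) + h ⊗ₖ (1 : Matrix κ κ T) * tD ε A A'
      = (A * h + h * A) ⊗ₖ (1 : Matrix κ κ T) := by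
  simp only [tD, add_mul, mul_add, ← mul_kronecker_mul, Matrix.mul_one, Matrix.one_mul,
    Gam_mul_od hh, MatA_neg_kron, add_kronecker]
  abel

theorem tD_comm_right {ε : ι → ℤˣ} {A : Matrix ι ι T} (hA : Od ε A) (A' h' : Matrix κ κ T) :
    tD ε A A' * Gam T ε ⊗ₖ h' + Gam T ε ⊗ₖ h' * tD ε A A' =
      (1 : Matrix ι ι T) ⊗ₖ (A' * h' + h' * A') := by
  simp only [tD, add_mul, mul_add, ← mul_kronecker_mul, Matrix.mul_one, Matrix.one_mul,
    Gam_mul_Gam, Gam_mul_od hA, MatA_neg_kron, kronecker_add]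
  abel

theorem MatA_kron_map {T' a b c d : Type*} [CommRing T'] (e : T →+* T') (A : Matrix a b T)
    (B : Matrix c d T) : (A ⊗ₖ B).map e = A.map e ⊗ₖ B.map e := by
  ext ⟨i, x⟩ ⟨j, y⟩
  simp

theorem tD_map {T' : Type*} [CommRing T'] (e : T →+* T') (ε : ι → ℤˣ) (A : Matrix ι ι T)
    (A' : Matrix κ κ T) : (tD ε A A').map e = tD ε (A.map e) (A'.map e) := by
  rw [tD, tD, Matrix.map_add _ (map_add e), MatA_kron_map, MatA_kron_map, Gam_map,
    Matrix.map_one _ (map_zero e) (map_one e)]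

end Pool.Agent.Theta
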