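import Pool.Agent.P.MP_f43029_ag.Car
import Pool.Agent.P.MP_f43029_ag.RelC
import Pool.Agent.P.MP_f43029_ag.Hpl

/-! The perturbed data: degrees.
Sketch. `Rel.kt` with `con_ne_zero` (parity `-1`, drop `1`), `Gam` and `1` (parity `1`, drop `0`);
`mulX` has `Rel ε 0 ε 0 1 0`. So `deE * kt Γ σ` has parity `1` and drop `1`; `Rel.pow_eq_zero` with
`N = n + 1` (`dg` lies between `0` and `n`). `hplA_left` gives `aE = deE - deE * σE * aE`; `kt_comp`. -/

open Finset Matrix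
open scoped Kronecker

noncomputable section

universe u

namespace Pool.Agent.Theta

variable {n : ℕ} {k : Type*} [Field k] {ι β : Type*} [Fintype ι] [DecidableEq ι] [Fintype β]
  [DecidableEq β]
  {ε : ι → ℤˣ} {D : Matrix ι ι (PS n k)} {εβ : β → ℤˣ} {I : (β → k) →ₗ[k] (ι → PS n k)}
  {P : (ι → PS n k) →ₗ[k] (β → k)} {σ : (ι → PS n k) →ₗ[k] (ι → PS n k)}

private theorem relc {a b M M' : Type*} [DecidableEq a] [AddCommGroup M] [Module k M]
    [AddCommGroup M'] [Module k M'] {ea : a → ℤˣ} {da : a → ℤ} {eb : b → ℤˣ} {db : b → ℤ}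
    {p q : ℤˣ} {x y : ℤ} {T : (a → M) →ₗ[k] (b → M')} (hT : Rel ea da eb db p x T) (hp : p = q)
    (h : y ≤ x) : Rel ea da eb db q y T := by
  subst hp
  intro j v i hi
  obtain ⟨h1, h2⟩ := hT j v i hi
  exact ⟨h1, by omega⟩

private theorem h_con (i : Fin n) (S U : Finset (Fin n)) (h : con i S U ≠ 0) :
    eL n S = -1 * eL n U ∧ (S.card : ℤ) + 1 ≤ U.card := by
  have e := con_ne_zero h
  refine ⟨?_, by omega⟩
  simp only [eL, ← e, pow_succ]
  simp

private theorem h_Gam (S U : Finset (Fin n)) (h : Gam ℤ (eL n) S U ≠ 0) :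
    eL n S = 1 * eL n U ∧ (S.card : ℤ) + 0 ≤ U.card := by
  have e : S = U := by
    by_contra hne
    exact h (by simp [Gam, diagonal_apply_ne _ hne])
  subst e
  simp

private theorem h_one (S U : Finset (Fin n))
    (h : (1 : Matrix (Finset (Fin n)) (Finset (Fin n)) ℤ) S U ≠ 0) :
    eL n S = 1 * eL n U ∧ (S.card : ℤ) + 0 ≤ U.card := by
  have e : S = U := by
    by_contra hne
    exact h (one_apply_ne hne)
  subst e
  simp

omit [Fintype ι] in
private theorem rel_mulX (ε : ι → ℤˣ) (i : Fin n) : Rel ε 0 ε 0 1 0 (mulX (k := k) ι i) := by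
  intro j x l h
  have e : l = j := by
    by_contra hne
    exact h (by simp [mulX, Pi.single_eq_of_ne hne])
  subst e
  simp

private theorem kt_sum_left {A A' a b M M' α : Type*} [Fintype A'] [AddCommGroup M] [Module k M]
    [AddCommGroup M'] [Module k M'] (s : Finset α) (B : α → Matrix A A' ℤ)
    (T : α → (a → M) →ₗ[k] (b → M')) {A₀ A₁ c d M₀ M₁ : Type*} [Fintype A] [Fintype A₁]
    [AddCommGroup M₀] [Module k M₀] [AddCommGroup M₁] [Module k M₁] (B₀ : Matrix A₀ A ℤ)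
    (T₀ : (b → M') →ₗ[k] (c → M₀)) (B₁ : Matrix A' A₁ ℤ) (T₁ : (d → M₁) →ₗ[k] (a → M)) :
    kt B₀ T₀ ∘ₗ (∑ j ∈ s, kt (B j) (T j)) ∘ₗ kt B₁ T₁ =
      ∑ j ∈ s, kt (B₀ * (B j * B₁)) (T₀ ∘ₗ T j ∘ₗ T₁) := by
  classical
  induction s using Finset.induction_on with
  | empty => simp
  | insert j s hj ih =>
    rw [sum_insert hj, sum_insert hj, LinearMap.add_comp, LinearMap.comp_add, ih, kt_comp, kt_comp]

theorem rel_deE (ε : ι → ℤˣ) :
    Rel (tE (eL n) ε) dg (tE (eL n) ε) dg (-1) 1 (deE n k ι) :=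
  Rel.neg (Rel.sum _ fun i _ => relc (Rel.kt (h_con i) (rel_mulX ε i)) (by simp) le_rfl)

private theorem rel_sE (R : Retr ε D εβ I P σ) :
    Rel (tE (eL n) ε) dg (tE (eL n) ε) dg (-1) 0 (kt (Gam ℤ (eL n)) σ) :=
  relc (Rel.kt h_Gam R.relS) (by simp) le_rfl

private theorem rel_ds (R : Retr ε D εβ I P σ) : Rel (tE (eL n) ε) dg (tE (eL n) ε) dg 1 1
    (deE n k ι * (kt (Gam ℤ (eL n)) σ : Module.End k (Finset (Fin n) × ι → PS n k))) :=
  relc ((rel_deE ε).comp (rel_sE R)) (by simp) (by simp)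

theorem nil_deE (R : Retr ε D εβ I P σ) :
    (deE n k ι * (kt (Gam ℤ (eL n)) σ : Module.End k (Finset (Fin n) × ι → PS n k))) ^ (n + 1) =
      0 := by
  refine Rel.pow_eq_zero (rel_ds R) fun i j => ?_
  have h := card_le_univ j.1
  rw [Fintype.card_fin] at h
  simp only [dg]
  push_cast
  omega

theorem rel_aE (R : Retr ε D εβ I P σ) :
    Rel (tE (eL n) ε) dg (tE (eL n) ε) dg (-1) 1 (aE σ) := by
  refine Rel.sum _ fun j _ => ?_
  refine relc (((rel_ds R).neg.pow j).comp (rel_deE ε)) (by simp) ?_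
  omega

theorem rel_Dbar (R : Retr ε D εβ I P σ) :
    Rel (tE (eL n) εβ) dg (tE (eL n) εβ) dg (-1) 1 (Dbar I P σ) :=
  relc ((Rel.kt h_one R.relP).comp ((rel_aE R).comp (Rel.kt h_one R.relI))) (by simp) (by simp)

theorem rel_Dbar_sub (R : Retr ε D εβ I P σ) : Rel (tE (eL n) εβ) dg (tE (eL n) εβ) dg (-1) 2
    (Dbar I P σ + ∑ j, kt (con j) (P ∘ₗ mulX ι j ∘ₗ I)) := by
  have e1 : aE σ = deE n k ι - deE n k ι * kt (Gam ℤ (eL n)) σ * aE σ := hplA_left (nil_deE R)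
  have e2 : kt (1 : Matrix (Finset (Fin n)) (Finset (Fin n)) ℤ) P ∘ₗ deE n k ι ∘ₗ
      kt (1 : Matrix (Finset (Fin n)) (Finset (Fin n)) ℤ) I =
      -∑ j, kt (con j) (P ∘ₗ mulX ι j ∘ₗ I) := by
    rw [deE, LinearMap.neg_comp, LinearMap.comp_neg, kt_sum_left]
    simp only [Matrix.one_mul, Matrix.mul_one]
  have e3 : Dbar I P σ + ∑ j, kt (con j) (P ∘ₗ mulX ι j ∘ₗ I) =
      -(kt (1 : Matrix (Finset (Fin n)) (Finset (Fin n)) ℤ) P ∘ₗ
        (deE n k ι * kt (Gam ℤ (eL n)) σ * aE σ) ∘ₗ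
          kt (1 : Matrix (Finset (Fin n)) (Finset (Fin n)) ℤ) I) := by
    rw [Dbar]
    conv_lhs => rw [e1]
    rw [LinearMap.sub_comp, LinearMap.comp_sub, e2]
    abel
  rw [e3]
  exact Rel.neg (relc ((Rel.kt h_one R.relP).comp (((rel_ds R).comp (rel_aE R)).comp
    (Rel.kt h_one R.relI))) (by simp) (by simp))

theorem rel_Ibar (R : Retr ε D εβ I P σ) :
    Rel (tE (eL n) εβ) dg (tE (eL n) ε) dg 1 0 (Ibar I σ) := by
  rw [Ibar, sub_eq_add_neg]
  exact (relc (Rel.kt h_one R.relI) (by simp) le_rfl).add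
    (Rel.neg (relc ((rel_sE R).comp ((rel_aE R).comp (Rel.kt h_one R.relI))) (by simp) (by simp)))

end Pool.Agent.Theta
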