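import Pool.Agent.P.MP_f43029_ag.Fib
import Pool.Agent.P.MP_f43029_ag.ModR

/-! The perturbed data: the hypotheses of the perturbation lemma.
Sketch. The hypotheses of `hpl` follow from `kt_comp`, `Gam_mul_Gam`, the fields of `Retr`, `dE_add_deE_sq`, `nil_deE`; for instance
`σE ∘ kt 1 I = kt Γ (σ ∘ I) = 0`. Anticommutation: `kt (con i) id` anticommutes with `deE`
(`con_anticomm`) and with `kt Γ σ` (`Gam_mul_od`, `od_con`), `hplA_anti`. -/

open Finset Matrix
open scoped Kronecker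

noncomputable section

universe u

namespace Pool.Agent.Theta

variable {n : ℕ} {k : Type*} [Field k] {ι β : Type*} [Fintype ι] [DecidableEq ι] [Fintype β]
  [DecidableEq β]
  {ε : ι → ℤˣ} {D : Matrix ι ι (PS n k)} {εβ : β → ℤˣ} {I : (β → k) →ₗ[k] (ι → PS n k)}
  {P : (ι → PS n k) →ₗ[k] (β → k)} {σ : (ι → PS n k) →ₗ[k] (ι → PS n k)}

private theorem kt_id_comm {A κ μ M M' : Type*} [Fintype A] [DecidableEq A] [AddCommGroup M]
    [Module k M] [AddCommGroup M'] [Module k M'] (B : Matrix A A ℤ) (T : (κ → M) →ₗ[k] (μ → M')) :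
    kt B LinearMap.id ∘ₗ kt 1 T = kt 1 T ∘ₗ kt B LinearMap.id := by
  rw [kt_comp, kt_comp, mul_one, one_mul, LinearMap.id_comp, LinearMap.comp_id]

private theorem kt_id_anti {A κ M : Type*} [Fintype A] [AddCommGroup M] [Module k M]
    {B B' : Matrix A A ℤ} (h : B * B' = -(B' * B)) (T : (κ → M) →ₗ[k] (κ → M)) :
    (kt B LinearMap.id * kt B' T : Module.End k (A × κ → M)) = -(kt B' T * kt B LinearMap.id) := by
  rw [Module.End.mul_eq_comp, Module.End.mul_eq_comp, kt_comp, kt_comp, h, kt_neg_left,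
    LinearMap.id_comp, LinearMap.comp_id]

private theorem anti_sum {S α : Type*} [Ring S] [Fintype α] {x : S} {y : α → S}
    (h : ∀ j, x * y j = -(y j * x)) : x * (-∑ j, y j) = -((-∑ j, y j) * x) := by
  rw [mul_neg, neg_mul, neg_neg, mul_sum, sum_mul, ← sum_neg_distrib]
  exact sum_congr rfl fun j _ => by rw [h, neg_neg]

private theorem anti_anti {S : Type*} [Ring S] {x y z : S} (h : x * y = -(y * x))
    (h' : x * z = -(z * x)) : x * (y * z) = y * z * x := by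
  rw [← mul_assoc, h, neg_mul, mul_assoc, h', mul_neg, neg_neg, mul_assoc]

omit [Fintype ι] [DecidableEq ι] in
private theorem con_sig (σ : (ι → PS n k) →ₗ[k] (ι → PS n k)) (i : Fin n) :
    (kt (con i) LinearMap.id * kt (Gam ℤ (eL n)) σ : Module.End k (Finset (Fin n) × ι → PS n k)) =
      -(kt (Gam ℤ (eL n)) σ * kt (con i) LinearMap.id) :=
  kt_id_anti (by rw [Gam_mul_od (od_con i), neg_neg]) σ

omit [Fintype ι] [DecidableEq ι] in
private theorem con_aE (σ : (ι → PS n k) →ₗ[k] (ι → PS n k)) (i : Fin n) :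
    (kt (con i) LinearMap.id * aE σ : Module.End k (Finset (Fin n) × ι → PS n k)) =
      -(aE σ * kt (con i) LinearMap.id) :=
  hplA_anti _ (anti_sum fun j => kt_id_anti (eq_neg_of_add_eq_zero_left (con_anticomm i j)) _)
    (con_sig σ i)

theorem con_Dbar (I : (β → k) →ₗ[k] (ι → PS n k)) (P : (ι → PS n k) →ₗ[k] (β → k))
    (σ : (ι → PS n k) →ₗ[k] (ι → PS n k)) (i : Fin n) :
    kt (con i) LinearMap.id ∘ₗ Dbar I P σ + Dbar I P σ ∘ₗ kt (con i) LinearMap.id = 0 := by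
  have h := con_aE σ i
  rw [Module.End.mul_eq_comp, Module.End.mul_eq_comp] at h
  unfold Dbar
  rw [← LinearMap.comp_assoc, kt_id_comm, LinearMap.comp_assoc, ← LinearMap.comp_assoc (kt 1 I), h,
    LinearMap.neg_comp, LinearMap.comp_neg, LinearMap.comp_assoc, kt_id_comm, LinearMap.comp_assoc,
    LinearMap.comp_assoc, neg_add_cancel]

theorem con_Ibar (I : (β → k) →ₗ[k] (ι → PS n k)) (σ : (ι → PS n k) →ₗ[k] (ι → PS n k))
    (i : Fin n) : kt (con i) LinearMap.id ∘ₗ Ibar I σ = Ibar I σ ∘ₗ kt (con i) LinearMap.id := by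
  have h := anti_anti (con_sig σ i) (con_aE σ i)
  simp only [Module.End.mul_eq_comp] at h
  unfold Ibar
  rw [LinearMap.comp_sub, LinearMap.sub_comp, kt_id_comm, ← LinearMap.comp_assoc (kt 1 I),
    ← LinearMap.comp_assoc (kt 1 I), h, LinearMap.comp_assoc, kt_id_comm,
    LinearMap.comp_assoc (kt (con i) LinearMap.id)]

theorem hpl_facts (R : Retr ε D εβ I P σ) (hD : D * D = 0) :
    Dbar I P σ ∘ₗ Dbar I P σ = 0 ∧ (dE D + deE n k ι) ∘ₗ Ibar I σ = Ibar I σ ∘ₗ Dbar I P σ ∧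
    (∀ y, (∃ z, Ibar I σ y = (dE D + deE n k ι) z) → ∃ y', y = Dbar I P σ y') ∧
    (∀ z, (dE D + deE n k ι) z = 0 →
      ∃ y w, Dbar I P σ y = 0 ∧ z = Ibar I σ y + (dE D + deE n k ι) w) := by
  have hm : mulD D ∘ₗ mulD D = 0 := by
    refine LinearMap.ext fun v => ?_
    change D *ᵥ (D *ᵥ v) = 0
    rw [mulVec_mulVec, hD, zero_mulVec]
  refine hpl (d := dE D) (δ := deE n k ι) (σ := kt (Gam ℤ (eL n)) σ) (I := kt 1 I) (P := kt 1 P)
    (N := n + 1) ?_ (dE_add_deE_sq hD) ?_ ?_ ?_ ?_ ?_ ?_ ?_ (nil_deE R)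
  · rw [dE, Module.End.mul_eq_comp, kt_comp, hm, kt_zero_right]
  · rw [dE, kt_comp, R.dI, kt_zero_right]
  · rw [dE, kt_comp, R.Pd, kt_zero_right]
  · rw [kt_comp, R.PI, mul_one, kt_one_id]
  · rw [dE, Module.End.mul_eq_comp, Module.End.mul_eq_comp, kt_comp, kt_comp, kt_comp, Gam_mul_Gam,
      mul_one, ← kt_add_right, R.hom, kt_sub_right, kt_one_id, Module.End.one_eq_id]
  · rw [kt_comp, R.sI, kt_zero_right]
  · rw [kt_comp, R.Ps, kt_zero_right]
  · rw [Module.End.mul_eq_comp, kt_comp, R.ss, kt_zero_right]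

end Pool.Agent.Theta
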