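import Pool.Agent.P.MP_f43029_ag.ChernT
import Pool.Agent.P.MP_f43029_ag.BdA

/-! The Chern character form of a Koszul complex.
Sketch. `ch_block`: `A * A = φ`, so `curv = u • !![0, dx; -ds, 0]` where `dx = gen (inl i)`,
`ds = gen (inr v)` (`Gr.dd_of0`, `der_inl_C`, `der_inr_X`, ...); `G ^ 2` is diagonal, `G ^ 3 = 0`
(`gen_mul_gen_self`, `gen_mul_gen_comm`), `str 1 = 0`, `str G = 0`,
`str (G ^ 2) = -2 u² dx ds`. `koszul_ch`: induction on `I`; start with `ι = Unit`, all matrices
zero; for `insert j I` take `tD ε D D₂` with `D₂ = !![0, X j; 0, 0]`, homotopies `h i ⊗ₖ 1` for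
`i ≠ j` and `Gam ⊗ₖ !![0, 0; 1, 0]` for `i = j` (`tD_mul_tD`, `tD_comm_left`, `tD_comm_right`); the
superconnection term is `tD ε A A₂`; use `ch_tens`, `ch_block`, `Gr.bas_mul_bas`, `sg_cases`. -/

open Finset Matrix
open scoped Kronecker

noncomputable section

universe u

namespace Pool.Agent.Theta

variable {n : ℕ} {k W K : Type*} [Field k] [CommRing W] [CommRing K] [Algebra ℚ K]
  (𝒟 : Datum k W K)

private theorem zs {C B : Type*} [CommRing C] [Ring B] [Algebra C B] (a : B) : (0 : C) • a = 0 :=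
  zero_smul _ _

private theorem blk {C B : Type*} [CommRing C] [Ring B] [Algebra C B] {x s : B} (hx : x * x = 0)
    (hs : s * s = 0) (hc : s * x = -(x * s)) (c : C) (a : ℕ → C) (h : a 2 * (c ^ 2 * 2) = 1)
    (m : ℕ) : a m • ∑ i, ((![1, -1] : Fin 2 → ℤˣ) i : ℤ) • (!![0, c • x; -(c • s), 0] ^ m) i i =
      if m = 2 then -(x * s) else 0 := by
  have h1 : !![0, c • x; -(c • s), 0] = c • !![0, x; -s, 0] := by simp
  have h2 : !![0, x; -s, 0] ^ 2 = !![-(x * s), 0; 0, x * s] := by simp [pow_two, hc]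
  rw [h1, smul_pow]
  match m with
  | 0 => simp
  | 1 => simp
  | 2 =>
    rw [h2, if_pos rfl]
    conv_rhs => rw [← one_smul C (-(x * s)), ← h, mul_smul, mul_smul, two_smul]
    simp
  | m + 3 =>
    have h3 : !![0, x; -s, 0] ^ 3 = 0 := by
      rw [pow_succ, h2]
      refine Matrix.ext fun a b => ?_
      fin_cases a <;> fin_cases b <;> simp [mul_assoc, hc, hs]
      rw [← mul_assoc, hx, zero_mul]
    rw [pow_add !![0, x; -s, 0] m 3, h3]
    simp

private theorem sgn {B : Type*} [Ring B] {a b c x s : B} {p q r : ℤ} (h : a * x = q • b)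
    (h' : b * s = r • c) : p • a * -(x * s) = -(p * q * r) • c := by
  rw [mul_neg, smul_mul_assoc, ← mul_assoc, h, smul_mul_assoc, h', smul_smul, smul_smul, neg_smul]

omit [Algebra ℚ K] in
private theorem dO_x (i : Fin n) :
    dO (Gr.of0 (MvPolynomial.C (MvPowerSeries.X i)) : Om n K) = Gr.gen (Sum.inl i) := by
  simp [dO, Gr.dd_of0, der_inl_C, der_inr_C, MvPowerSeries.pderiv_X, Pi.single_apply, zs]

omit [Algebra ℚ K] in
private theorem dO_s (v : Var n) : dO (Gr.of0 (MvPolynomial.X v) : Om n K) = Gr.gen (Sum.inr v) := by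
  simp only [dO, Gr.dd_of0, Fintype.sum_sum_type, der_inl_X, der_inr_X, zs, sum_const_zero,
    zero_add, ite_smul, one_smul, sum_ite_eq', mem_univ, if_true]

theorem ch_block (u : Kˣ) (i : Fin n) (v : Var n) (m : ℕ) :
    ch u (![1, -1] : Fin 2 → ℤˣ)
      (!![0, MvPolynomial.C (MvPowerSeries.X i); MvPolynomial.X v, 0] : Matrix (Fin 2) (Fin 2) (Co n K))
      (MvPolynomial.X v * MvPolynomial.C (MvPowerSeries.X i)) m =
      if m = 2 then -(Gr.gen (Sum.inl i) * Gr.gen (Sum.inr v)) else 0 := by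
  have h : curv u (![1, -1] : Fin 2 → ℤˣ) (!![0, MvPolynomial.C (MvPowerSeries.X i);
      MvPolynomial.X v, 0] : Matrix (Fin 2) (Fin 2) (Co n K))
      (MvPolynomial.X v * MvPolynomial.C (MvPowerSeries.X i)) =
      !![0, (cst (u : K) : Co n K) • Gr.gen (Sum.inl i);
        -((cst (u : K) : Co n K) • Gr.gen (Sum.inr v)), 0] := by
    refine Matrix.ext fun a b => ?_
    fin_cases a <;> fin_cases b <;> simp [curv, dO_x, dO_s, mul_comm (MvPolynomial.X v), -zsmul_eq_mul]
  rw [ch, h, str]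
  refine blk (Gr.gen_mul_gen_self _) (Gr.gen_mul_gen_self _) (Gr.gen_mul_gen_comm _ _) _
    (fun m => cst ((-((u⁻¹ : Kˣ) : K)) ^ m * algebraMap ℚ K ((m.factorial : ℚ)⁻¹))) ?_ m
  rw [← map_pow, ← map_ofNat cst 2, ← map_mul, ← map_mul, mul_mul_mul_comm, neg_sq, ← mul_pow,
    Units.inv_mul, ← map_ofNat (algebraMap ℚ K) 2, ← map_mul]
  norm_num

private theorem od_supc {ι : Type*} [Fintype ι] [DecidableEq ι] {ε : ι → ℤˣ}
    {D : Matrix ι ι (PS n W)} {h : Fin n → Matrix ι ι (PS n W)} (hD : Od ε D)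
    (hh : ∀ i, Od ε (h i)) : Od ε (supc false (D.map (toCo 𝒟)) fun i => (h i).map (toCo 𝒟)) :=
  (hD.map _).add (Par.sum _ fun i _ => ((hh i).map _).smul _)

omit [Algebra ℚ K] in
private theorem supc_tD {ι κ : Type*} [Fintype ι] [DecidableEq ι] [Fintype κ] [DecidableEq κ]
    (ε : ι → ℤˣ) (D : Matrix ι ι (Co n K)) (h : Fin n → Matrix ι ι (Co n K))
    (D' : Matrix κ κ (Co n K)) (h' : Fin n → Matrix κ κ (Co n K)) :
    supc false (tD ε D D') (fun i => tD ε (h i) (h' i)) =
      tD ε (supc false D h) (supc false D' h') := by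
  refine Matrix.ext fun a b => ?_
  simp only [supc, tD, Matrix.add_apply, Matrix.sum_apply, Matrix.smul_apply, kroneckerMap_apply,
    smul_eq_mul, mul_add, add_mul, sum_add_distrib, sum_mul, mul_sum, mul_assoc, mul_left_comm]
  abel

theorem koszul_ch (I : Finset (Fin n)) : ∃ (ι : Type) (_ : Fintype ι) (_ : DecidableEq ι)
    (ε : ι → ℤˣ) (D : Matrix ι ι (PS n W)) (h : Fin n → Matrix ι ι (PS n W)) (η : ℤˣ),
    Od ε D ∧ (∀ i, Od ε (h i)) ∧ D * D = 0 ∧
    (∀ i ∈ I, D * h i + h i * D = (MvPowerSeries.X i : PS n W) • (1 : Matrix ι ι (PS n W))) ∧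
    (∀ i ∉ I, h i = 0) ∧
    ∀ m, ch 𝒟.u ε (supc false (D.map (toCo 𝒟)) fun i => (h i).map (toCo 𝒟))
      (∑ i ∈ I, MvPolynomial.X (some (i, false)) * MvPolynomial.C (MvPowerSeries.X i)) m =
      if m = 2 * I.card then
        (η : ℤ) • Gr.bas (I.image Sum.inl ∪ I.image fun i => Sum.inr (some (i, false))) else 0 := by
  induction I using Finset.induction_on with
  | empty =>
    refine ⟨Unit, inferInstance, inferInstance, 1, 0, 0, 1, fun _ _ _ => rfl, fun _ _ _ _ => rfl,
      mul_zero _, by simp, fun _ _ => rfl, fun m => ?_⟩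
    have h : curv 𝒟.u (1 : Unit → ℤˣ) (0 : Matrix Unit Unit (Co n K)) 0 = 0 := by
      refine Matrix.ext fun a b => ?_
      simp [curv]
    have h' : (supc false ((0 : Matrix Unit Unit (PS n W)).map (toCo 𝒟)) fun i =>
        ((0 : Fin n → Matrix Unit Unit (PS n W)) i).map (toCo 𝒟)) = 0 := by simp [supc]
    rw [h', sum_empty, ch, h]
    cases m with
    | zero =>
      rw [pow_zero, pow_zero, Nat.factorial_zero, Nat.cast_one, inv_one, map_one, mul_one, map_one]
      simp [str, Gr.bas_empty]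
    | succ m =>
      rw [zero_pow m.succ_ne_zero, if_neg (by simp), str]
      simp only [Matrix.zero_apply, smul_zero, sum_const_zero]
  | insert j I hj ih =>
    obtain ⟨ι, _, _, ε, D, h, η, h1, h2, h3, h4, h5, h6⟩ := ih
    let E : Fin n → Matrix (Fin 2) (Fin 2) (PS n W) := fun i => if i = j then !![0, 0; 1, 0] else 0
    have hD : Od ![1, -1] (!![0, MvPowerSeries.X j; 0, 0] : Matrix (Fin 2) (Fin 2) (PS n W)) :=
      fun a b => by fin_cases a <;> fin_cases b <;> simp
    have hE : ∀ i, Od ![1, -1] (E i) := fun i a b => by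
      by_cases e : i = j <;> fin_cases a <;> fin_cases b <;> simp [E, e]
    set S : Finset (Gen n) := I.image Sum.inl ∪ I.image fun i => Sum.inr (some (i, false))
    obtain ⟨η₁, e₁⟩ := Int.isUnit_iff.2 (sg_cases S {Sum.inl j})
    obtain ⟨η₂, e₂⟩ := Int.isUnit_iff.2 (sg_cases (S ∪ {Sum.inl j}) {Sum.inr (some (j, false))})
    refine ⟨ι × Fin 2, inferInstance, inferInstance, tE ε ![1, -1],
      tD ε D !![0, MvPowerSeries.X j; 0, 0], fun i => tD ε (h i) (E i), -(η * η₁ * η₂),
      od_tD h1 hD, fun i => od_tD (h2 i) (hE i), ?_, fun i hi => ?_, fun i hi => ?_, fun m => ?_⟩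
    · rw [tD_mul_tD h1, h3]
      refine Matrix.ext fun ⟨a, b⟩ ⟨c, d⟩ => ?_
      fin_cases b <;> fin_cases d <;> simp
    · beta_reduce
      rw [tD.eq_1 ε (h i), mul_add, add_mul, add_add_add_comm, tD_comm_left _ (h2 i),
        tD_comm_right h1]
      rcases mem_insert.1 hi with rfl | hi
      · have : !![0, MvPowerSeries.X i; 0, 0] * E i + E i * !![0, MvPowerSeries.X i; 0, 0] =
            (MvPowerSeries.X i : PS n W) • (1 : Matrix (Fin 2) (Fin 2) (PS n W)) := by
          refine Matrix.ext fun a b => ?_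
          fin_cases a <;> fin_cases b <;> simp [E]
        rw [this]
        simp [h5 i hj, kronecker_smul]
      · simp [h4 i hi, E, ne_of_mem_of_not_mem hi hj, smul_kronecker]
    · rw [mem_insert, not_or] at hi
      simp [tD, E, hi.1, h5 i hi.2]
    · have h7 : (supc false ((!![0, MvPowerSeries.X j; 0, 0] : Matrix _ _ (PS n W)).map (toCo 𝒟))
          fun i => (E i).map (toCo 𝒟)) = !![0, MvPolynomial.C (MvPowerSeries.X j);
            MvPolynomial.X (some (j, false)), 0] := by
        rw [supc, sum_eq_single j (fun i _ hi => by simp [E, hi]) (by simp)]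
        refine Matrix.ext fun a b => ?_
        fin_cases a <;> fin_cases b <;> simp [E, toCo_X]
      simp only [tD_map, supc_tD]
      rw [sum_insert hj, add_comm, ch_tens _ (od_supc 𝒟 h1 h2) (od_supc 𝒟 hD hE), h7, conv]
      simp only [h6, ch_block, ite_zero_mul_ite_zero]
      rw [sum_congr rfl fun x _ => if_congr (Prod.ext_iff (y := (2 * I.card, 2))).symm rfl rfl,
        sum_ite_eq', card_insert_of_notMem hj]
      refine if_congr (by rw [HasAntidiagonal.mem_antidiagonal]; omega) ?_ rfl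
      rw [Gr.gen, Gr.gen, sgn (Gr.bas_mul_bas (by simpa [S])) (Gr.bas_mul_bas (by simpa [S])), ← e₁,
        ← e₂]
      congr 2
      ext x
      simp only [S, image_insert, mem_union, mem_insert, mem_singleton]
      tauto

end Pool.Agent.Theta
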