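import Pool.Agent.P.MP_f43029_ag.RhoA
import Pool.Agent.P.MP_f43029_ag.ChernT
import Pool.Agent.P.MP_f43029_ag.ChernB

/-! The index of a tensor product.
Sketch. `tens_seq`: the matrices `tD ε L.Dt L'.Dt`, `L.ht i ⊗ₖ 1` with exponents `L.N` form a lift
`Lt` of the tensor product (`tD_map`, `tD_comm_left`, `od_tD`, `od_kron_one`); `rhoQ_eq`.
By `ch_tens` the convolution is `ch (tE ε ε') (tD ε (L.A false) (L'.A true)) _`; apply `rho_evO`,
`ch_evO`, `tD_map`, `supc_map_self`, `supc_map_not`, `sub_toCo`, `sub_psiB_self`, `sub_psiB_not`, `rho_congr`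
to see that the two sequences are equal.
`conv_proj`: `c m = ∑ a, proj a (c m)` (`Gr.sum_proj`); for `a < n` the sequence `rho false` of
`conv (proj a c) c'` vanishes (`mul_top_eq_zero_of_lt`); for `a > n` the sequence `rho true`
vanishes (`mul_top_eq_zero_of_gt`), hence `rho false` is null by `s_move` (`closed_proj`,
`closed_conv`, `Gr.ev_proj`, `dec_proj`, `dec_conv`). -/

open Finset Matrix
open scoped Kronecker

noncomputable section

universe u

namespace Pool.Agent.Theta

variable {n : ℕ} {k W K : Type*} [Field k] [CommRing W] [CommRing K] [Algebra ℚ K]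
  (𝒟 : Datum k W K)
variable {ι κ : Type} [Fintype ι] [DecidableEq ι] [Fintype κ] [DecidableEq κ]

omit [Fintype ι] [DecidableEq ι] [Fintype κ] in
private theorem prodA_kron {T T' : Type*} [CommRing T] [CommRing T'] (e : T →+* T')
    (A : Matrix ι ι T) : (A ⊗ₖ (1 : Matrix κ κ T)).map e = A.map e ⊗ₖ (1 : Matrix κ κ T') := by
  ext x y
  simp only [map_apply, kroneckerMap_apply, map_mul, one_apply]
  split_ifs <;> simp

omit [Fintype ι] [DecidableEq ι] in
private theorem prodA_sub (pat : Var n → Mode) (A : Matrix ι ι (PS n W)) :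
    (A.map (toCo 𝒟)).map (sub pat) = A.map (toCo 𝒟) := by
  ext1 i j
  exact sub_toCo 𝒟 pat _

omit [Algebra ℚ K] [Fintype ι] [Fintype κ] in
private theorem prodA_supc (ε : ι → ℤˣ) (b : Bool) (A : Matrix ι ι (Co n K))
    (h : Fin n → Matrix ι ι (Co n K)) (A' : Matrix κ κ (Co n K)) :
    tD ε (supc b A h) A' = supc b (tD ε A A') fun i => h i ⊗ₖ (1 : Matrix κ κ (Co n K)) := by
  ext1 x y
  simp only [tD, supc, Matrix.add_apply, kroneckerMap_apply, Matrix.sum_apply, Matrix.smul_apply,
    smul_eq_mul, add_mul, sum_mul, mul_assoc]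
  ring

theorem tens_seq {ε : ι → ℤˣ} {ε' : κ → ℤˣ} {D : Matrix ι ι (PS n k)} {D' : Matrix κ κ (PS n k)}
    (L : Lift 𝒟 ε D) (L' : Lift 𝒟 ε' D') (f : PS n W)
    (hD : D * D = redS 𝒟 f • (1 : Matrix ι ι (PS n k)))
    (hD' : D' * D' = redS 𝒟 (-f) • (1 : Matrix κ κ (PS n k))) :
    rhoQ 𝒟 (ι × κ) (tE ε ε') (tD ε D D') = QuotientAddGroup.mk
      (rho 𝒟.u (fun _ => false) .zero (N2 L.N L'.N)
        (conv (ch 𝒟.u ε (L.A false) (toCo 𝒟 f + psiB false L.N))
          (ch 𝒟.u ε' (L'.A true) (toCo 𝒟 (-f) + psiB true L'.N)))) := by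
  have hod : Od ε D := L.redD ▸ L.od.map _
  have hsq : tD ε D D' * tD ε D D' = 0 := by
    rw [tD_mul_tD hod, hD, hD', smul_kronecker, kronecker_smul, map_neg, neg_smul, add_neg_cancel]
  let Lt : Lift 𝒟 (tE ε ε') (tD ε D D') :=
    { N := L.N
      Dt := tD ε L.Dt L'.Dt
      ht := fun i => L.ht i ⊗ₖ (1 : Matrix κ κ (PS n W))
      od := od_tD L.od L'.od
      odh := fun i => od_kron_one ε' (L.odh i)
      redD := by rw [tD_map, L.redD, L'.redD]
      redh := fun i => by
        rw [tD_comm_left _ (L.odh i), prodA_kron, L.redh, smul_kronecker, one_kronecker_one] }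
  have h1 : Od ε (L.A false) := od_supc _ (L.od.map _) fun i => (L.odh i).map _
  have h2 : Od ε' (L'.A true) := od_supc _ (L'.od.map _) fun i => (L'.odh i).map _
  have e1 : (tD ε (L.A false) (L'.A true)).map (sub (patS (fun _ => false) .zero)) =
      Lt.A false := by
    have e := supc_map_not false .zero (L'.Dt.map (toCo 𝒟)) fun i => (L'.ht i).map (toCo 𝒟)
    rw [prodA_sub] at e
    rw [tD_map, Lift.A, supc_map_self, show (L'.A true).map _ = _ from e, prodA_supc, prodA_sub]
    simp only [prodA_sub, Lift.A, Lt, tD_map, prodA_kron]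
  have e2 : sub (patS (fun _ => false) .zero)
      (toCo 𝒟 f + psiB false L.N + (toCo 𝒟 (-f) + psiB true L'.N)) = psiB false Lt.N := by
    have e := sub_psiB_not (K := K) false .zero L'.N
    rw [map_add, map_add, map_add, sub_toCo, sub_toCo, sub_psiB_self,
      show sub _ (psiB true L'.N) = 0 from e, map_neg]
    ring
  rw [rhoQ_eq 𝒟 hsq Lt, ← ch_tens _ h1 h2, ← rho_evO]
  simp only [ch_evO, e1, e2]
  exact congrArg _ (rho_congr _ _ _ (fun i => rfl) _)

theorem conv_proj {c c' : ℕ → Om n K} {φ φ' : Co n K} {N : Fin n × Bool → ℕ}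
    (hφ : φ + φ' = psi N) (hc : Closed 𝒟.u φ c) (hc' : Closed 𝒟.u φ' c') (he : ∀ m, Ev (c m))
    (hd : Dec 𝒟 c) (hd' : Dec 𝒟 c') (hs : ∀ m, evO (patS (fun _ => false) .zero) (c m) = c m)
    (hs' : ∀ m, evO (patS (fun _ => true) .zero) (c' m) = c' m) :
    rho 𝒟.u (fun _ => false) .zero N (conv c c') -
      rho 𝒟.u (fun _ => false) .zero N (conv (fun m => Gr.proj n (c m)) c') ∈ Null 𝒟 := by
  obtain ⟨η, hη⟩ := s_move (n := n) 𝒟
  have e : rho 𝒟.u (fun _ => false) .zero N (conv c c') =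
      ∑ a ∈ range (Fintype.card (Gen n) + 1),
        rho 𝒟.u (fun _ => false) .zero N (conv (fun m => Gr.proj a (c m)) c') := by
    funext m
    simp only [Finset.sum_apply, rho, conv]
    rw [← map_sum, ← Gr.sum_apply, sum_comm]
    simp only [← sum_mul, Gr.sum_proj]
  have hn : n ∈ range (Fintype.card (Gen n) + 1) := by
    rw [mem_range, Fintype.card_sum, Fintype.card_fin]
    omega
  rw [e, ← add_sum_erase _ _ hn, add_sub_cancel_left]
  refine sum_mem fun a ha => ?_
  rcases lt_or_gt_of_ne (ne_of_mem_erase ha) with h | h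
  · have : rho 𝒟.u (fun _ => false) .zero N (conv (fun m => Gr.proj a (c m)) c') = 0 := by
      funext m
      simp only [rho, conv]
      rw [Gr.sum_apply, sum_eq_zero fun x _ => mul_top_eq_zero_of_lt false h _ _ (hs' _), map_zero]
      rfl
    rw [this]
    exact zero_mem _
  · have h0 : rho 𝒟.u (fun _ => true) .zero N (conv (fun m => Gr.proj a (c m)) c') = 0 := by
      funext m
      simp only [rho, conv]
      rw [Gr.sum_apply, sum_eq_zero fun x _ => mul_top_eq_zero_of_gt true h _ _ (hs _), map_zero]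
      rfl
    have := hη N (conv (fun m => Gr.proj a (c m)) c')
      (hφ ▸ closed_conv (closed_proj hc a) (fun m => Gr.ev_proj (he m) a) hc')
      (dec_conv 𝒟 (dec_proj 𝒟 a hd) hd')
    rwa [h0, smul_zero, sub_zero] at this

end Pool.Agent.Theta
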