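import Pool.Agent.P.MP_f43029_ag.Defs

/-! Quotients of regular local rings.
Sketch. Let `d = spanFinrank m = dim S`. Since `x ∉ m ^ 2`, its class in the cotangent space is nonzero;
`finrank` of the cotangent space of `S ⧸ (x)` is at most `d - 1` (the map of cotangent spaces
`Ideal.mapCotangent` is surjective and kills the class of `x`; or extend the class of `x` to a basis, lift it
to generators by Nakayama `IsLocalRing.CotangentSpace.span_image_eq_top_iff`, and drop `x`). On the other side
`dim S ≤ dim (S ⧸ (x)) + 1` (`ringKrullDim_le_ringKrullDim_quotSMulTop_succ` or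
`ringKrullDim_le_ringKrullDim_add_card`), and `dim ≤ spanFinrank`
(`ringKrullDim_le_spanFinrank_maximalIdeal`); conclude with
`IsRegularLocalRing.of_spanFinrank_maximalIdeal_le`. -/

open Finset Matrix
open scoped Kronecker

noncomputable section

universe u

namespace Pool.Agent.Theta

open IsLocalRing in
theorem regular_quotient {S : Type*} [CommRing S] [IsRegularLocalRing S] {x : S}
    (hx : x ∈ maximalIdeal S) (hx2 : x ∉ maximalIdeal S ^ 2) :
    IsRegularLocalRing (S ⧸ Ideal.span {x}) ∧
      ringKrullDim (S ⧸ Ideal.span {x}) + 1 = ringKrullDim S := by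
  classical
  obtain ⟨s, hs, hm⟩ := Submodule.FG.exists_span_finset_card_eq_spanFinrank
    (IsNoetherian.noetherian (maximalIdeal S))
  have hd := IsRegularLocalRing.spanFinrank_maximalIdeal (R := S)
  have hne : Ideal.span {x} ≠ ⊤ := by
    rw [Ne, Ideal.span_singleton_eq_top]
    exact hx
  have : Nontrivial (S ⧸ Ideal.span {x}) := Ideal.Quotient.nontrivial_iff.mpr hne
  have : IsLocalRing (S ⧸ Ideal.span {x}) :=
    IsLocalRing.of_surjective' (Ideal.Quotient.mk _) Ideal.Quotient.mk_surjective
  have hmap : (maximalIdeal S).map (Ideal.Quotient.mk (Ideal.span {x})) =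
      maximalIdeal (S ⧸ Ideal.span {x}) :=
    map_maximalIdeal_of_surjective _ Ideal.Quotient.mk_surjective
  obtain ⟨c, -, hc⟩ := Submodule.mem_span_finset.mp (show x ∈ Submodule.span S (s : Set S) by
    rw [hm]; exact hx)
  have hs' : ∀ g ∈ s, g ∈ maximalIdeal S := fun g hg => hm ▸ Submodule.subset_span hg
  obtain ⟨g, hg, hcg⟩ : ∃ g ∈ s, c g ∉ maximalIdeal S := by
    by_contra hcon
    push Not at hcon
    apply hx2
    rw [← hc, pow_two]
    exact Ideal.sum_mem _ fun g hg => Ideal.mul_mem_mul (hcon g hg) (hs' g hg)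
  obtain ⟨u, hu⟩ : IsUnit (c g) := notMem_maximalIdeal.mp hcg
  have hm' : Ideal.span (s : Set S) = maximalIdeal S := hm
  have hsp : Ideal.span (((s.erase g).image (Ideal.Quotient.mk (Ideal.span {x})) :
      Finset (S ⧸ Ideal.span {x})) : Set (S ⧸ Ideal.span {x})) = maximalIdeal _ := by
    rw [← hmap, ← hm', Ideal.map_span, Finset.coe_image]
    refine le_antisymm (Ideal.span_mono (Set.image_mono (by simp))) ?_
    rw [Ideal.span_le]
    rintro _ ⟨y, hy, rfl⟩
    by_cases hyg : y = g
    · subst hyg
      have h1 : y = (↑u⁻¹ : S) * x - (↑u⁻¹ : S) * ∑ z ∈ s.erase y, c z • z := by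
        rw [← hc, ← Finset.add_sum_erase s _ hg, ← hu, smul_eq_mul, mul_add, ← mul_assoc,
          Units.inv_mul, one_mul, add_sub_cancel_right]
      have h2 : Ideal.Quotient.mk (Ideal.span {x}) x = 0 :=
        Ideal.Quotient.eq_zero_iff_mem.mpr (Ideal.subset_span rfl)
      have h3 : Ideal.Quotient.mk (Ideal.span {x}) y = -(Ideal.Quotient.mk _ (↑u⁻¹ : S) *
          ∑ z ∈ s.erase y, Ideal.Quotient.mk (Ideal.span {x}) (c z) *
            Ideal.Quotient.mk (Ideal.span {x}) z) := by
        conv_lhs => rw [h1]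
        simp [h2]
      rw [SetLike.mem_coe, h3]
      exact neg_mem (Ideal.mul_mem_left _ _ (Ideal.sum_mem _ fun z hz =>
        Ideal.mul_mem_left _ _ (Ideal.subset_span ⟨z, hz, rfl⟩)))
    · exact Ideal.subset_span ⟨y, by simp [hyg, hy], rfl⟩
  have h1 : (maximalIdeal (S ⧸ Ideal.span {x})).spanFinrank + 1 ≤ s.card := by
    rw [← hsp, ← Finset.card_erase_add_one hg]
    refine Nat.succ_le_succ ((Submodule.spanFinrank_span_le_ncard_of_finite
      (Finset.finite_toSet _)).trans ?_)
    rw [Set.ncard_coe_finset]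
    exact Finset.card_image_le
  have h2 : ((maximalIdeal (S ⧸ Ideal.span {x})).spanFinrank : WithBot ℕ∞) + 1 ≤ ringKrullDim S := by
    rw [← hd, ← hs]
    exact_mod_cast h1
  have h3 := ringKrullDim_le_ringKrullDim_quotient_add_encard {x}
    (by rw [ringJacobson_eq_maximalIdeal]; simpa using hx)
  rw [Set.encard_singleton] at h3
  refine ⟨IsRegularLocalRing.of_spanFinrank_maximalIdeal_le _
    ((ENat.WithBot.add_le_add_natCast_right_iff (c := 1)).mp (h2.trans h3)), le_antisymm ?_ h3⟩
  exact (add_le_add_left (ringKrullDim_le_spanFinrank_maximalIdeal _) 1).trans h2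

end Pool.Agent.Theta
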