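import Pool.Agent.P.MP_f43029_ag.RegA

/-! Regular local rings are domains with a regular system of parameters.
Sketch. Induction on `d` with `ringKrullDim S = d` (finite: it is `spanFinrank m`), generalising `S`
(same universe). If `d = 0` the maximal ideal is zero, `S` is a field, `rs = []`. Otherwise choose by
prime avoidance (`Ideal.subset_union_prime`/`Ideal.subset_union_prime_finite`, two exceptional ideals allowed)
`x ∈ m` outside `m ^ 2` and outside all minimal primes (`m ≠ m ^ 2` by Nakayama; `m` is not minimal as `d > 0`).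
`S ⧸ (x)` is regular of dimension `d - 1`, so a domain: `(x)` is prime and contains a minimal prime `p`,
`x ∉ p`, so `p = x p`, and `p = 0` by Nakayama. Thus `S` is a domain, `x` is regular, and
`rs = x :: lifts of rs'` (`RingTheory.Sequence.isWeaklyRegular_cons_iff`, `QuotSMulTop.equivQuotTensor` or
`IsWeaklyRegular.cons'`, `isWeaklyRegular_map_algebraMap_iff`). -/

open Finset Matrix
open scoped Kronecker

noncomputable section

universe u

namespace Pool.Agent.Theta

open IsLocalRing RingTheory.Sequence in
private theorem regB_gens (n : ℕ) : ∀ (S : Type u) [CommRing S] [IsLocalRing S] [IsNoetherianRing S]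
    (s : Finset S), s.card ≤ n → Ideal.span (s : Set S) = maximalIdeal S →
    (n : WithBot ℕ∞) ≤ ringKrullDim S →
    IsDomain S ∧ ∃ rs : List S, IsWeaklyRegular S rs ∧ Ideal.ofList rs = maximalIdeal S ∧
      rs.length ≤ n := by
  induction n with
  | zero =>
    intro S _ _ _ s hs hm _
    rw [Nat.le_zero, Finset.card_eq_zero] at hs
    subst hs
    have h0 : maximalIdeal S = ⊥ := by rw [← hm]; simp
    have : (⊥ : Ideal S).IsPrime := h0 ▸ inferInstance
    exact ⟨IsDomain.of_bot_isPrime S, [], IsWeaklyRegular.nil S S, by simp [h0], le_rfl⟩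
  | succ n ih =>
    intro S _ _ _ s hs hm hd
    classical
    have hnm : maximalIdeal S ∉ minimalPrimes S := by
      intro h
      rw [← Ideal.height_eq_zero_iff] at h
      rw [← maximalIdeal_height_eq_ringKrullDim, h] at hd
      norm_cast at hd
    have hjac : maximalIdeal S ≤ Ideal.jacobson ⊥ := maximalIdeal_le_jacobson _
    have hx : ∃ x ∈ maximalIdeal S, x ∉ maximalIdeal S ^ 2 ∧ ∀ q ∈ minimalPrimes S, x ∉ q := by
      by_contra hcon
      push Not at hcon
      have hfin : (insert (maximalIdeal S ^ 2) (minimalPrimes S)).Finite :=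
        (minimalPrimes.finite_of_isNoetherianRing S).insert _
      obtain ⟨J, hJ, hle⟩ := (Ideal.subset_union_prime_finite hfin (f := id)
        (maximalIdeal S ^ 2) (maximalIdeal S ^ 2) (I := maximalIdeal S)
        (fun J hJ h1 _ => (hJ.resolve_left h1).1.1)).mp (by
          intro x hx
          simp only [Set.mem_iUnion, id]
          by_cases h2 : x ∈ maximalIdeal S ^ 2
          · exact ⟨_, Set.mem_insert _ _, h2⟩
          · obtain ⟨q, hq, hxq⟩ := hcon x hx h2
            exact ⟨q, Set.mem_insert_of_mem _ hq, hxq⟩)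
      rcases hJ with rfl | hJ
      · have h0 : maximalIdeal S = ⊥ :=
          Submodule.eq_bot_of_le_smul_of_le_jacobson_bot (maximalIdeal S) _
            (IsNoetherian.noetherian _) (by rw [smul_eq_mul, ← pow_two]; exact hle) hjac
        apply hnm
        refine ⟨⟨inferInstance, bot_le⟩, fun y _ _ => ?_⟩
        rw [h0]; exact bot_le
      · have : J = maximalIdeal S := le_antisymm (le_maximalIdeal hJ.1.1.ne_top) hle
        exact hnm (this ▸ hJ)
    obtain ⟨x, hxm, hx2, hxq⟩ := hx
    have hne : Ideal.span {x} ≠ ⊤ := by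
      rw [Ne, Ideal.span_singleton_eq_top]; exact hxm
    have : Nontrivial (S ⧸ Ideal.span {x}) := Ideal.Quotient.nontrivial_iff.mpr hne
    have : IsLocalRing (S ⧸ Ideal.span {x}) :=
      IsLocalRing.of_surjective' (Ideal.Quotient.mk _) Ideal.Quotient.mk_surjective
    have hmap : (maximalIdeal S).map (Ideal.Quotient.mk (Ideal.span {x})) =
        maximalIdeal (S ⧸ Ideal.span {x}) :=
      map_maximalIdeal_of_surjective _ Ideal.Quotient.mk_surjective
    obtain ⟨c, -, hc⟩ := Submodule.mem_span_finset.mp (show x ∈ Submodule.span S (s : Set S) by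
      change x ∈ Ideal.span _; rw [hm]; exact hxm)
    have hs' : ∀ g ∈ s, g ∈ maximalIdeal S := fun g hg => hm ▸ Ideal.subset_span hg
    obtain ⟨g, hg, hcg⟩ : ∃ g ∈ s, c g ∉ maximalIdeal S := by
      by_contra hcon
      push Not at hcon
      apply hx2
      rw [← hc, pow_two]
      exact Ideal.sum_mem _ fun g hg => Ideal.mul_mem_mul (hcon g hg) (hs' g hg)
    obtain ⟨u, hu⟩ : IsUnit (c g) := notMem_maximalIdeal.mp hcg
    obtain ⟨hdom, rs', hreg', hm', hlen'⟩ := ih (S ⧸ Ideal.span {x})
      ((s.erase g).image (Ideal.Quotient.mk _))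
      (Finset.card_image_le.trans (by rw [Finset.card_erase_of_mem hg]; omega))
      (by
        rw [← hmap, ← hm, Ideal.map_span, Finset.coe_image]
        refine le_antisymm (Ideal.span_mono (Set.image_mono (by simp))) ?_
        rw [Ideal.span_le]
        rintro _ ⟨y, hy, rfl⟩
        by_cases hyg : y = g
        · subst hyg
          have h1 : y = (↑u⁻¹ : S) * x - (↑u⁻¹ : S) * ∑ z ∈ s.erase y, c z • z := by
            rw [← hc, ← Finset.add_sum_erase s _ hg, ← hu, smul_eq_mul, mul_add, ← mul_assoc,
              Units.inv_mul, one_mul, add_sub_cancel_right]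
          have h2 : Ideal.Quotient.mk (Ideal.span {x}) x = 0 :=
            Ideal.Quotient.eq_zero_iff_mem.mpr (Ideal.subset_span rfl)
          have h3 : Ideal.Quotient.mk (Ideal.span {x}) y = - (Ideal.Quotient.mk _ (↑u⁻¹ : S) *
              ∑ z ∈ s.erase y, Ideal.Quotient.mk (Ideal.span {x}) (c z) *
                Ideal.Quotient.mk (Ideal.span {x}) z) := by
            conv_lhs => rw [h1]
            simp [h2]
          rw [SetLike.mem_coe, h3]
          refine neg_mem (Ideal.mul_mem_left _ _ (Ideal.sum_mem _ fun z hz =>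
            Ideal.mul_mem_left _ _ (Ideal.subset_span ⟨z, hz, rfl⟩)))
        · exact Ideal.subset_span ⟨y, by simp [hyg, hy], rfl⟩)
      (by
        have h1 := ringKrullDim_le_ringKrullDim_quotient_add_encard {x}
          (by rw [ringJacobson_eq_maximalIdeal]; simpa using hxm)
        rw [Set.encard_singleton] at h1
        have h2 := hd.trans h1
        rw [Nat.cast_add] at h2
        exact (ENat.WithBot.add_le_add_natCast_right_iff (c := 1)).mp h2)
    have hprime : (Ideal.span {x}).IsPrime := (Ideal.Quotient.isDomain_iff_prime _).mp hdom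
    obtain ⟨q, hq, hqx⟩ := Ideal.exists_minimalPrimes_le (I := ⊥) (J := Ideal.span {x}) bot_le
    have hq0 : q = ⊥ := by
      refine Submodule.eq_bot_of_le_smul_of_le_jacobson_bot (maximalIdeal S) _
        (IsNoetherian.noetherian _) (fun y hy => ?_) hjac
      obtain ⟨z, rfl⟩ := Ideal.mem_span_singleton'.mp (hqx hy)
      have hz : z ∈ q := (hq.1.1.mem_or_mem hy).resolve_right (hxq q hq)
      rw [mul_comm]
      exact Submodule.smul_mem_smul hxm hz
    have : (⊥ : Ideal S).IsPrime := hq0 ▸ hq.1.1
    have : IsDomain S := IsDomain.of_bot_isPrime S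
    have hx0 : x ≠ 0 := fun h => hx2 (h ▸ zero_mem _)
    obtain ⟨rs, rfl⟩ := List.map_surjective_iff.mpr
      (Ideal.Quotient.mk_surjective (I := Ideal.span {x})) rs'
    refine ⟨inferInstance, x :: rs, ?_, ?_, by simpa using hlen'⟩
    · rw [isWeaklyRegular_cons_iff]
      refine ⟨fun a b hab => mul_left_cancel₀ hx0 hab, ?_⟩
      have h1 := (isWeaklyRegular_map_algebraMap_iff (S ⧸ Ideal.span {x}) (S ⧸ Ideal.span {x})
        rs).mp hreg'
      refine ((Submodule.quotEquivOfEq _ _ ?_).isWeaklyRegular_congr rs).mp h1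
      simp [← Submodule.ideal_span_singleton_smul]
    · rw [← Ideal.map_ofList, ← hmap] at hm'
      have h1 := congrArg (Ideal.comap (Ideal.Quotient.mk (Ideal.span {x}))) hm'
      rw [Ideal.comap_map_of_surjective _ Ideal.Quotient.mk_surjective,
        Ideal.comap_map_of_surjective _ Ideal.Quotient.mk_surjective, ← RingHom.ker_eq_comap_bot,
        Ideal.mk_ker] at h1
      rw [Ideal.ofList_cons, sup_comm, h1, sup_eq_left, Ideal.span_le, Set.singleton_subset_iff]
      exact hxm

open IsLocalRing in
theorem regular_sequence (S : Type u) [CommRing S] [IsRegularLocalRing S] :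
    IsDomain S ∧ ∃ rs : List S, RingTheory.Sequence.IsWeaklyRegular S rs ∧
      Ideal.ofList rs = maximalIdeal S := by
  obtain ⟨s, hs, hm⟩ := Submodule.FG.exists_span_finset_card_eq_spanFinrank
    (IsNoetherian.noetherian (maximalIdeal S))
  have hd := IsRegularLocalRing.spanFinrank_maximalIdeal (R := S)
  obtain ⟨h1, rs, hreg, hrs, -⟩ := regB_gens s.card S s le_rfl hm (by rw [hs, hd])
  exact ⟨h1, rs, hreg, hrs⟩

end Pool.Agent.Theta
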