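import Pool.Agent.P.MP_f43029_ag.Defs

/-! Splitting a two-periodic complex of vector spaces.
Sketch. Choose a complement `L₀` of `ker d₀` in `V₀` and a linear section of
`ker d₀ → H₀ = ker d₀ ⧸ range d₁` (`Submodule.exists_isCompl`, `LinearMap.exists_rightInverse_of_surjective`).
Equivalent and shorter: choose `s₁ : V₀ → V₁` with `d₁ s₁ d₁ = d₁` and `s₀` with `d₀ s₀ d₀ = d₀`
(generalised inverses), put `e₀ = (1 - d₁ s₁)(1 - s₀ d₀)`... A direct route: `V₀ = B₀ ⊕ H₀' ⊕ L₀` with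
`B₀ = range d₁`, `B₀ ⊕ H₀' = ker d₀`; `d₀` restricts to an isomorphism `L₀ → B₁`; `σ₁ : V₁ → V₀` is
its inverse on `B₁` and zero on `H₁' ⊕ L₁`; `I₀` is the inverse of `H₀' → H₀`, `P₀` the projection
to `H₀'` followed by `H₀' → H₀`. Prove one half-lemma (for a composable pair with zero composite)
and use it twice. -/

open Finset Matrix
open scoped Kronecker

noncomputable section

universe u

namespace Pool.Agent.Theta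

section half

variable {k X Y : Type*} [Field k] [AddCommGroup X] [Module k X] [AddCommGroup Y] [Module k Y]

private theorem exists_ginv (φ : X →ₗ[k] Y) : ∃ g : Y →ₗ[k] X, ∀ x, φ (g (φ x)) = φ x := by
  obtain ⟨s, hs⟩ := φ.rangeRestrict.exists_rightInverse_of_surjective φ.range_rangeRestrict
  obtain ⟨g, hg⟩ := s.exists_extend
  refine ⟨g, fun x => ?_⟩
  have h1 : g (φ x) = s ⟨φ x, x, rfl⟩ := LinearMap.congr_fun hg ⟨φ x, x, rfl⟩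
  rw [h1]
  exact congrArg Subtype.val (LinearMap.congr_fun hs ⟨φ x, x, rfl⟩)

private theorem half (φ : X →ₗ[k] Y) (ψ : Y →ₗ[k] X) (h0 : ∀ x, ψ (φ x) = 0) (g : Y →ₗ[k] X)
    (hg : ∀ x, φ (g (φ x)) = φ x) (h : X →ₗ[k] Y) (hh : ∀ y, ψ (h (ψ y)) = ψ y) :
    ∃ (I : Hm φ ψ →ₗ[k] Y) (P : Y →ₗ[k] Hm φ ψ), (∀ z, ψ (I z) = 0) ∧ (∀ z, φ (g (I z)) = 0) ∧
      (∀ x, P (φ x) = 0) ∧ (∀ y, P (h (ψ y)) = 0) ∧ (∀ z, P (I z) = z) ∧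
      ∀ y, I (P y) = y - h (ψ y) - φ (g (y - h (ψ y))) := by
  let I : Hm φ ψ →ₗ[k] Y := Submodule.liftQ _
    ((LinearMap.id - φ ∘ₗ g) ∘ₗ (LinearMap.ker ψ).subtype) (by
      rintro ⟨_, hy⟩ ⟨x, rfl⟩
      exact sub_eq_zero.2 (hg x).symm)
  have hI : ∀ y : LinearMap.ker ψ, I (Submodule.Quotient.mk y) = y.1 - φ (g y.1) := fun _ => rfl
  have hm : ∀ y, (LinearMap.id - h ∘ₗ ψ : Y →ₗ[k] Y) y ∈ LinearMap.ker ψ := fun y => by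
    change ψ (y - h (ψ y)) = 0
    rw [map_sub, hh, sub_self]
  let P : Y →ₗ[k] Hm φ ψ := Submodule.mkQ _ ∘ₗ LinearMap.codRestrict _ _ hm
  have hP : ∀ y, P y = Submodule.Quotient.mk ⟨y - h (ψ y), hm y⟩ := fun _ => rfl
  have hPφ : ∀ x, P (φ x) = 0 := fun x => by
    rw [hP, Submodule.Quotient.mk_eq_zero]
    exact ⟨x, by change φ x = φ x - h (ψ (φ x)); rw [h0, map_zero, sub_zero]⟩
  refine ⟨I, P, fun z => ?_, fun z => ?_, hPφ, fun y => ?_, fun z => ?_, fun y => rfl⟩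
  · obtain ⟨y, rfl⟩ := Submodule.Quotient.mk_surjective _ z
    rw [hI, map_sub, h0, sub_zero]
    exact y.2
  · obtain ⟨y, rfl⟩ := Submodule.Quotient.mk_surjective _ z
    rw [hI, map_sub, map_sub, hg, sub_self]
  · rw [hP, Submodule.Quotient.mk_eq_zero]
    exact ⟨0, by change φ 0 = h (ψ y) - h (ψ (h (ψ y))); rw [hh, map_zero, sub_self]⟩
  · obtain ⟨y, rfl⟩ := Submodule.Quotient.mk_surjective _ z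
    have hy : ψ y.1 = 0 := y.2
    rw [hI, map_sub, hPφ, sub_zero, hP]
    exact congrArg _ (Subtype.ext (by change y.1 - h (ψ y.1) = y.1; rw [hy, map_zero, sub_zero]))

end half

theorem split_periodic {k V₀ V₁ : Type*} [Field k] [AddCommGroup V₀] [Module k V₀]
    [AddCommGroup V₁] [Module k V₁] (d₀ : V₀ →ₗ[k] V₁) (d₁ : V₁ →ₗ[k] V₀) (h₀ : d₁ ∘ₗ d₀ = 0)
    (h₁ : d₀ ∘ₗ d₁ = 0) :
    ∃ (I₀ : Hm d₁ d₀ →ₗ[k] V₀) (P₀ : V₀ →ₗ[k] Hm d₁ d₀) (I₁ : Hm d₀ d₁ →ₗ[k] V₁)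
      (P₁ : V₁ →ₗ[k] Hm d₀ d₁) (σ₀ : V₀ →ₗ[k] V₁) (σ₁ : V₁ →ₗ[k] V₀),
      d₀ ∘ₗ I₀ = 0 ∧ d₁ ∘ₗ I₁ = 0 ∧ P₀ ∘ₗ d₁ = 0 ∧ P₁ ∘ₗ d₀ = 0 ∧
      P₀ ∘ₗ I₀ = LinearMap.id ∧ P₁ ∘ₗ I₁ = LinearMap.id ∧
      d₁ ∘ₗ σ₀ + σ₁ ∘ₗ d₀ = LinearMap.id - I₀ ∘ₗ P₀ ∧
      d₀ ∘ₗ σ₁ + σ₀ ∘ₗ d₁ = LinearMap.id - I₁ ∘ₗ P₁ ∧
      σ₀ ∘ₗ I₀ = 0 ∧ σ₁ ∘ₗ I₁ = 0 ∧ P₁ ∘ₗ σ₀ = 0 ∧ P₀ ∘ₗ σ₁ = 0 ∧
      σ₁ ∘ₗ σ₀ = 0 ∧ σ₀ ∘ₗ σ₁ = 0 := by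
  obtain ⟨g₀, e₀⟩ := exists_ginv d₀
  obtain ⟨g₁, e₁⟩ := exists_ginv d₁
  have z₀ : ∀ x, d₁ (d₀ x) = 0 := LinearMap.congr_fun h₀
  have z₁ : ∀ x, d₀ (d₁ x) = 0 := LinearMap.congr_fun h₁
  obtain ⟨I₀, P₀, a1, a2, a3, a4, a5, a6⟩ := half d₁ d₀ z₁ g₁ e₁ g₀ e₀
  obtain ⟨I₁, P₁, b1, b2, b3, b4, b5, b6⟩ := half d₀ d₁ z₀ g₀ e₀ g₁ e₁
  refine ⟨I₀, P₀, I₁, P₁, (LinearMap.id - d₀ ∘ₗ g₀) ∘ₗ g₁ ∘ₗ d₁ ∘ₗ g₁,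
    (LinearMap.id - d₁ ∘ₗ g₁) ∘ₗ g₀ ∘ₗ d₀ ∘ₗ g₀, LinearMap.ext a1, LinearMap.ext b1,
    LinearMap.ext a3, LinearMap.ext b3, LinearMap.ext a5, LinearMap.ext b5, ?_, ?_, ?_, ?_, ?_, ?_,
    ?_, ?_⟩ <;> refine LinearMap.ext fun x => ?_ <;>
    simp only [LinearMap.comp_apply, LinearMap.add_apply, LinearMap.sub_apply, LinearMap.id_apply,
      LinearMap.zero_apply, map_sub, map_zero, a2, a3, a4, a6, b2, b3, b4, b6, e₀, e₁, z₀, z₁,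
      sub_self, sub_zero]
  · abel
  · abel

end Pool.Agent.Theta
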