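import Pool.Agent.P.MP_f43029_ag.Adm
import Pool.Agent.P.MP_f43029_ag.ChernC
import Pool.Agent.P.MP_f43029_ag.ChernD
import Pool.Agent.P.MP_f43029_ag.StokesB

/-! Independence of the index sequence from the homotopies.
Sketch. `lift_exists`: `lift_mat` with `redS_surjective`. `seq_two`: let `ω = ch u ε A (psi (N2 N N'))` with
`A = supc true (supc false D h) h'`, closed by `closed_ch` (`od_supc`), decaying by `adm2` (constant polynomials, `toCoT_C`).
`rho false zero ω = L.seq` by `rho_evO`, `ch_evO`,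
`supc_map_not`, `supc_map_self`, `psi_N2`, `sub_psiB_self`, `sub_psiB_not`, `sub_toCo`, `rho_congr`; likewise
`rho true zero ω = rho true zero (N2 N' N') (ch (L'.A true) (psiB true N'))` only depends on
`L'` (note `supc true (supc false D h) h' = supc false (supc true D h') h`). Apply `s_move` to the
pairs `(L, L')` and `(L', L')` and subtract. -/

open Finset Matrix
open scoped Kronecker

noncomputable section

universe u

namespace Pool.Agent.Theta

variable {n : ℕ} {k W K : Type*} [Field k] [CommRing W] [CommRing K] [Algebra ℚ K]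
  (𝒟 : Datum k W K)
variable {ι κ : Type*} [Fintype ι] [DecidableEq ι] [Fintype κ] [DecidableEq κ]

theorem lift_exists {ε : ι → ℤˣ} {D : Matrix ι ι (PS n k)} (hD : Od ε D) (N : Fin n → ℕ)
    (h : ∀ i, Nh D (MvPowerSeries.X i ^ N i)) : ∃ L : Lift 𝒟 ε D, L.N = N := by
  obtain ⟨Dt, ht, h1, h2, h3, h4⟩ := lift_mat (redS 𝒟) (redS_surjective 𝒟) hD h
  exact ⟨⟨N, Dt, ht, h1, h2, h3, h4⟩, rfl⟩

private theorem map_sub_toCo (pat : Var n → Mode) (M : Matrix ι ι (PS n W)) :
    (M.map (toCo 𝒟)).map (sub pat) = M.map (toCo 𝒟) :=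
  Matrix.ext fun i j => sub_toCo 𝒟 pat (M i j)

private theorem map_toCoT_C (M : Matrix ι ι (PS n W)) :
    (M.map Polynomial.C).map (toCoT 𝒟) = M.map (toCo 𝒟) :=
  Matrix.ext fun i j => toCoT_C 𝒟 (M i j)

private theorem map_red_C (M : Matrix ι ι (PS n W)) :
    (M.map Polynomial.C).map (Polynomial.mapRingHom (redS 𝒟)) =
      (M.map (redS 𝒟)).map Polynomial.C :=
  Matrix.ext fun _ _ => Polynomial.map_C _

private theorem red_h {ε : ι → ℤˣ} {D : Matrix ι ι (PS n k)} (L : Lift 𝒟 ε D) (i : Fin n) :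
    (L.Dt.map Polynomial.C * (L.ht i).map Polynomial.C +
      (L.ht i).map Polynomial.C * L.Dt.map Polynomial.C).map (Polynomial.mapRingHom (redS 𝒟)) =
      (Polynomial.C (MvPowerSeries.X i ^ L.N i) : Polynomial (PS n k)) • (1 : Matrix ι ι _) := by
  rw [← Matrix.map_mul, ← Matrix.map_mul, ← Matrix.map_add _ (map_add _), map_red_C, L.redh]
  ext a b : 1
  by_cases h : a = b <;> simp [Matrix.one_apply, h]

private theorem supc_comm (D : Matrix ι ι (Co n K)) (h h' : Fin n → Matrix ι ι (Co n K)) :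
    supc true (supc false D h) h' = supc false (supc true D h') h := add_right_comm _ _ _

private theorem seq_move : ∃ η : ℤˣ, ∀ {ε : ι → ℤˣ} {D : Matrix ι ι (PS n k)}, D * D = 0 →
    ∀ L L' : Lift 𝒟 ε D, L.Dt = L'.Dt → L.seq - (η : ℤ) • rho 𝒟.u (fun _ => true) .zero
      (fun x => L'.N x.1) (ch 𝒟.u ε (L'.A true) (psiB true L'.N)) ∈ Null 𝒟 := by
  obtain ⟨η, hη⟩ := s_move (n := n) 𝒟
  refine ⟨η, fun {ε D} hD L L' h => ?_⟩
  have hd := adm2 𝒟 ε (L.Dt.map Polynomial.C) (fun i => (L.ht i).map Polynomial.C)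
    (fun i => (L'.ht i).map Polynomial.C) L.N L'.N
    (by rw [← Matrix.map_mul, map_red_C, Matrix.map_mul, L.redD, hD, Matrix.map_zero _ (map_zero _)])
    (red_h 𝒟 L) (fun i => by rw [h]; exact red_h 𝒟 L' i)
  simp only [map_toCoT_C] at hd
  have k := hη _ _ (closed_ch 𝒟.u (od_supc true (od_supc false (L.od.map (toCo 𝒟))
    fun i => (L.odh i).map (toCo 𝒟)) fun i => (L'.odh i).map (toCo 𝒟)) _) hd
  rw [← rho_evO, ← rho_evO 𝒟.u (fun _ => true)] at k
  have e1 := fun D h => supc_map_not (n := n) (K := K) (ι := ι) false .zero D h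
  have e2 := fun D h => supc_map_not (n := n) (K := K) (ι := ι) true .zero D h
  have e3 := sub_psiB_not (n := n) (K := K) false .zero
  have e4 := sub_psiB_not (n := n) (K := K) true .zero
  simp only [Bool.not_false, Bool.not_true] at e1 e2 e3 e4
  simp only [ch_evO] at k
  rw [e1, supc_comm, e2] at k
  simp only [supc_map_self, map_sub_toCo, psi_N2, map_add, sub_psiB_self, e3, e4, add_zero,
    zero_add] at k
  rw [rho_congr 𝒟.u (fun _ => false) .zero (N' := fun x => L.N x.1) fun _ => rfl,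
    rho_congr 𝒟.u (fun _ => true) .zero (N' := fun x => L'.N x.1) fun _ => rfl] at k
  rw [Lift.A, ← h]
  exact k

theorem seq_two {ε : ι → ℤˣ} {D : Matrix ι ι (PS n k)} (hD : D * D = 0) (L L' : Lift 𝒟 ε D)
    (h : L.Dt = L'.Dt) : L.seq - L'.seq ∈ Null 𝒟 := by
  obtain ⟨η, hη⟩ := seq_move (n := n) (ι := ι) 𝒟
  have k := sub_mem (hη hD L L' h) (hη hD L' L' rfl)
  rwa [sub_sub_sub_cancel_right] at k

end Pool.Agent.Theta
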