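import Pool.Agent.P.MP_f43029_ag.BdC
import Pool.Agent.P.MP_f43029_ag.LapB
import Pool.Agent.P.MP_f43029_ag.LapC

/-! The Stokes formula.
Sketch. `stokes`: by induction on `T`, `Closed` gives
`∑ m ∈ range (T+1), (dO (ω m) - u⁻¹ • (dψ * ω m)) = -(u⁻¹ • (dψ * ω T))`. Take the component `J`
(`Gr.dd_apply`, `Gr.dd_of0_mul_apply`), apply `Lap` (additive; the signs are integer casts, use
`zsmul_eq_mul`/`map_zsmul`), and conclude with `tail_small`.
`t_move`: use `stokes` with `pat = patS f .int` and `J = insert (inr none) (JX n ∪ JV f)`. The terms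
`g = inl i` vanish (`Lap_der_inl`); the terms `g = inr (some (i, f i))` vanish by `Lap_der_lap` and
`Lap_zero_of_nopole` (after the update no variable of index `i` has mode lap); the term
`g = inr none` is `±(rho one - rho zero)` by `der_none_psi`, `Lap_der_int` and
`update (patS f .int) none m = patS f m`. -/

open Finset Matrix
open scoped Kronecker

noncomputable section

universe u

namespace Pool.Agent.Theta

variable {n : ℕ} {k W K : Type*} [Field k] [CommRing W] [CommRing K] [Algebra ℚ K]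
  (𝒟 : Datum k W K)

private theorem term_eq (u : Kˣ) (pat : Var n → Mode) (N : Fin n × Bool → ℕ) (ω : Om n K)
    (J : Finset (Gen n)) :
    ∑ g ∈ J, sg {g} (J.erase g) • Lap u pat N (der g (ω (J.erase g)) -
      cst ((u⁻¹ : Kˣ) : K) * (der g (psi N) * ω (J.erase g))) =
    Lap u pat N ((dO ω - (cst ((u⁻¹ : Kˣ) : K) : Co n K) •
      (dO (Gr.of0 (psi N : Co n K)) * ω) : Om n K) J) := by
  rw [Gr.sub_apply, Gr.smul_apply, dO, Gr.dd_apply, Gr.dd_of0_mul_apply, mul_sum,
    ← sum_sub_distrib, map_sum]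
  refine sum_congr rfl fun g _ => ?_
  rw [← map_zsmul, zsmul_eq_mul]
  congr 1
  ring

omit [Algebra ℚ K] in
private theorem tele {u : Kˣ} {φ : Co n K} {ω : ℕ → Om n K} (hc : Closed u φ ω) (T : ℕ) :
    ∑ m ∈ range (T + 1), (dO (ω m) - (cst ((u⁻¹ : Kˣ) : K) : Co n K) • (dO (Gr.of0 φ) * ω m)) =
      -((cst ((u⁻¹ : Kˣ) : K) : Co n K) • (dO (Gr.of0 φ) * ω T)) := by
  induction T with
  | zero => rw [sum_range_one, hc.1, zero_sub]
  | succ T ih =>
    rw [sum_range_succ, ih, hc.2 T]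
    abel

private theorem upd (f : Fin n → Bool) (m m' : Mode) :
    Function.update (patS f m) none m' = patS f m' := by
  funext v
  cases v with
  | none => rw [Function.update_self]; rfl
  | some x => rw [Function.update_of_ne (Option.some_ne_none x)]; rfl

theorem stokes {ω : ℕ → Om n K} {N : Fin n × Bool → ℕ} (hc : Closed 𝒟.u (psi N) ω)
    (hd : Dec 𝒟 ω) {pat : Var n → Mode} (hpat : Good pat) (J : Finset (Gen n)) :
    (fun m => ∑ g ∈ J, sg {g} (J.erase g) • Lap 𝒟.u pat N (der g (ω m (J.erase g)) -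
      cst ((𝒟.u⁻¹ : Kˣ) : K) * (der g (psi N) * ω m (J.erase g)))) ∈ Null 𝒟 := by
  intro j
  obtain ⟨T₀, h⟩ := tail_small 𝒟 hd hpat N J j
  refine ⟨T₀ + 1, fun T hT => ?_⟩
  obtain ⟨T, rfl⟩ : ∃ T', T = T' + 1 := ⟨T - 1, by omega⟩
  simp only [term_eq]
  rw [← map_sum, ← Gr.sum_apply, tele hc, Gr.neg_apply, map_neg]
  exact (𝒟.F j).neg_mem (h T (by omega))

theorem t_move {ω : ℕ → Om n K} {N : Fin n × Bool → ℕ} (hc : Closed 𝒟.u (psi N) ω)
    (hd : Dec 𝒟 ω) (f : Fin n → Bool) : rho 𝒟.u f .one N ω - rho 𝒟.u f .zero N ω ∈ Null 𝒟 := by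
  have hg : Good (patS f .int) := by
    refine ⟨fun h => Mode.noConfusion h, fun x => ?_⟩
    by_cases h : x.2 = f x.1
    · exact Or.inr (if_pos h)
    · exact Or.inl (if_neg h)
  have hn : (Sum.inr none : Gen n) ∉ JX n ∪ JV f := by simp [JX, JV]
  have h := (Null 𝒟).zsmul_mem (stokes 𝒟 hc hd hg (insert (Sum.inr none) (JX n ∪ JV f)))
    (sg {(Sum.inr none : Gen n)} (JX n ∪ JV f))
  refine Eq.mp (congrArg (· ∈ Null 𝒟) (funext fun m => ?_)) h
  rw [Pi.smul_apply, sum_insert hn, erase_insert hn, der_none_psi, zero_mul, mul_zero, sub_zero,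
    Lap_der_int _ _ rfl, upd, upd, sum_eq_zero, add_zero, smul_smul, sg_mul_self, one_smul]
  · rfl
  · intro g hg'
    rcases mem_union.1 hg' with h1 | h1
    · obtain ⟨i, -, rfl⟩ := mem_image.1 h1
      rw [Lap_der_inl _ hg, smul_zero]
    · obtain ⟨i, -, rfl⟩ := mem_image.1 h1
      rw [Lap_der_lap _ _ (x := (i, f i)) (if_pos rfl), Lap_zero_of_nopole _ _ _ i, neg_zero,
        smul_zero]
      intro b hb
      by_cases h2 : b = f i
      · rw [h2, Function.update_self] at hb
        exact Mode.noConfusion hb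
      · rw [Function.update_of_ne (by simpa using h2)] at hb
        exact Mode.noConfusion ((if_neg h2).symm.trans hb)

end Pool.Agent.Theta
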