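import Pool.Agent.P.MP_f43029_ag.Defs

/-! Tor from a free resolution given by square matrices.
Sketch. Build `P : ProjectiveResolution (ModuleCat.of B N)`: the complex `ChainComplex.of (fun _ => ModuleCat.of B (a → B))
(fun i => ModuleCat.ofHom (d i).mulVecLin) _` (put `a = Fin r` into the universe by noting `Fin r → B : Type u`), the
augmentation by `(ChainComplex.toSingle₀Equiv _ _).symm`, quasi-isomorphism degree by degree
(`quasiIsoAt_iff_exactAt'`, `HomologicalComplex.exactAt_iff'`, `ShortComplex.moduleCat_exact_iff`,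
`ChainComplex.quasiIsoAt₀_iff`, `ShortComplex.quasiIso_iff_of_zeros'`; see `ProjectiveResolution.of` in
Mathlib/CategoryTheory/Abelian/Projective/Resolution.lean and `Rep.standardResolution` for models).
`P.isoLeftDerivedObj F (i+1)` identifies Tor with the homology of `M ⊗ P`; `HomologicalComplex.homologyIsoSc'`,
`ShortComplex.moduleCatHomologyIso`, and transport along `M ⊗[B] (a → B) ≃ (a → M)` (`TensorProduct.piScalarRight`), under which
`lTensor M (d i).mulVecLin` becomes `act (d i) M`. -/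

open Finset Matrix
open scoped Kronecker

noncomputable section

universe u

namespace Pool.Agent.Theta

section Aux

open CategoryTheory TensorProduct

private theorem TorA_congr {S U V W U' V' W' : Type*} [CommRing S] [AddCommGroup U] [Module S U]
    [AddCommGroup V] [Module S V] [AddCommGroup W] [Module S W] [AddCommGroup U'] [Module S U']
    [AddCommGroup V'] [Module S V'] [AddCommGroup W'] [Module S W'] {g : U →ₗ[S] V}
    {f : V →ₗ[S] W} {g' : U' →ₗ[S] V'} {f' : V' →ₗ[S] W'} (a : U ≃ₗ[S] U') (b : V ≃ₗ[S] V')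
    (c : W ≃ₗ[S] W') (h1 : ∀ u, b (g u) = g' (a u)) (h2 : ∀ v, c (f v) = f' (b v)) :
    Nonempty (Hm g f ≃ₗ[S] Hm g' f') := by
  have hk : (LinearMap.ker f).map (b : V →ₗ[S] V') = LinearMap.ker f' := by
    ext y
    constructor
    · rintro ⟨v, hv, rfl⟩
      have h3 : f v = 0 := hv
      exact (h2 v).symm.trans (by rw [h3, map_zero])
    · intro hy
      have h3 : f' y = 0 := hy
      refine ⟨b.symm y, c.injective ?_, b.apply_symm_apply y⟩
      rw [h2, b.apply_symm_apply, h3, map_zero]
  refine ⟨Submodule.Quotient.equiv _ _ (b.ofSubmodules _ _ hk) ?_⟩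
  ext y
  constructor
  · rintro ⟨x, ⟨u, hu⟩, rfl⟩
    exact ⟨a u, (h1 u).symm.trans (congrArg b hu)⟩
  · rintro ⟨u, hu⟩
    refine ⟨(b.ofSubmodules _ _ hk).symm y, ⟨a.symm u, b.injective ?_⟩,
      (b.ofSubmodules _ _ hk).apply_symm_apply y⟩
    rw [h1, a.apply_symm_apply, hu]
    exact (b.apply_symm_apply y).symm

private theorem TorA_res {B : Type u} [CommRing B] (X N : ModuleCat.{u} B)
    (P : ProjectiveResolution N) (i : ℕ) :
    Nonempty ((((Tor (ModuleCat.{u} B) (i + 1)).obj X).obj N) ≃ₗ[B]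
      Hm ((P.complex.d (i + 1 + 1) (i + 1)).hom.lTensor X)
        ((P.complex.d (i + 1) i).hom.lTensor X)) := by
  let K := (((MonoidalCategory.tensoringLeft (ModuleCat.{u} B)).obj X).mapHomologicalComplex
    (ComplexShape.down ℕ)).obj P.complex
  let e₁ := P.isoLeftDerivedObj ((MonoidalCategory.tensoringLeft (ModuleCat.{u} B)).obj X) (i + 1)
  let e₂ := K.homologyIsoSc' (i + 1 + 1) (i + 1) i (by simp) (by simp)
  let e₃ := (K.sc' (i + 1 + 1) (i + 1) i).moduleCatHomologyIso
  refine ⟨(e₁ ≪≫ e₂ ≪≫ e₃).toLinearEquiv ≪≫ₗ Submodule.quotEquivOfEq _ _ ?_⟩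
  ext x
  constructor
  · rintro ⟨u, rfl⟩
    exact ⟨u, rfl⟩
  · rintro ⟨u, hu⟩
    exact ⟨u, Subtype.ext hu⟩

private theorem TorA_act {B : Type u} [CommRing B] {r : ℕ} (X : Type u) [AddCommGroup X]
    [Module B X] (c : Matrix (Fin r) (Fin r) B) (u : X ⊗[B] (Fin r → B)) :
    piScalarRight B B X (Fin r) (c.mulVecLin.lTensor X u) =
      act c X (piScalarRight B B X (Fin r) u) := by
  induction u using TensorProduct.induction_on with
  | zero => simp
  | add x y hx hy => simp only [map_add, hx, hy]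
  | tmul x v =>
    ext i
    simp [act, Matrix.mulVec, dotProduct, Finset.sum_smul, mul_smul]

/-- The complex attached to a sequence of matrices. -/
private def TorA_cx {B : Type u} [CommRing B] {r : ℕ} (d : ℕ → Matrix (Fin r) (Fin r) B)
    (hex : ∀ i, Function.Exact (d (i + 1)).mulVecLin (d i).mulVecLin) :
    ChainComplex (ModuleCat.{u} B) ℕ :=
  ChainComplex.of (fun _ => ModuleCat.of B (Fin r → B)) (fun i => ModuleCat.ofHom (d i).mulVecLin)
    fun i => by
      rw [← ModuleCat.ofHom_comp, (hex i).linearMap_comp_eq_zero]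
      rfl

private theorem TorA_d {B : Type u} [CommRing B] {r : ℕ} (d : ℕ → Matrix (Fin r) (Fin r) B)
    (hex : ∀ i, Function.Exact (d (i + 1)).mulVecLin (d i).mulVecLin) (i : ℕ) :
    (TorA_cx d hex).d (i + 1) i = ModuleCat.ofHom (d i).mulVecLin :=
  ChainComplex.of_d (fun _ => ModuleCat.of B (Fin r → B))
    (fun i => ModuleCat.ofHom (d i).mulVecLin) i

private theorem TorA_ex {B : Type u} [CommRing B] {N : Type u} [AddCommGroup N] [Module B N]
    {r : ℕ} (d : ℕ → Matrix (Fin r) (Fin r) B) (π : (Fin r → B) →ₗ[B] N)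
    (h0 : Function.Exact (d 0).mulVecLin π) (h1 : Function.Surjective π)
    (hex : ∀ i, Function.Exact (d (i + 1)).mulVecLin (d i).mulVecLin) :
    ∃ P : ProjectiveResolution (ModuleCat.of B N), P.complex = TorA_cx d hex := by
  have hz : (TorA_cx d hex).d 1 0 ≫ ModuleCat.ofHom π = 0 := by
    rw [TorA_d d hex 0]
    exact ModuleCat.hom_ext h0.linearMap_comp_eq_zero
  refine ⟨⟨TorA_cx d hex, fun n => ?_, (ChainComplex.toSingle₀Equiv _ _).symm
    ⟨ModuleCat.ofHom π, hz⟩, ⟨fun n => ?_⟩⟩, rfl⟩
  · exact (IsProjective.iff_projective (R := B) (Fin r → B)).mp inferInstance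
  · cases n with
    | zero =>
      rw [ChainComplex.quasiIsoAt₀_iff, ShortComplex.quasiIso_iff_of_zeros']
      · refine (ShortComplex.exact_and_epi_g_iff_of_iso (S₂ := ShortComplex.mk
          (ModuleCat.ofHom (d 0).mulVecLin) (ModuleCat.ofHom π)
          (ModuleCat.hom_ext h0.linearMap_comp_eq_zero)) ?_).2
          ⟨(ShortComplex.ShortExact.moduleCat_exact_iff_function_exact _).mpr h0,
            (ModuleCat.epi_iff_surjective _).mpr h1⟩
        refine ShortComplex.isoMk (Iso.refl _) (Iso.refl _) (Iso.refl _) ?_ ?_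
        · exact (Category.id_comp _).trans ((TorA_d d hex 0).symm.trans (Category.comp_id _).symm)
        · have h2 := ChainComplex.toSingle₀Equiv_symm_apply_f_zero (C := TorA_cx d hex)
            (X := ModuleCat.of B N) (ModuleCat.ofHom π) hz
          exact (Category.id_comp _).trans (h2.symm.trans (Category.comp_id _).symm)
      all_goals rfl
    | succ n =>
      rw [quasiIsoAt_iff_exactAt']
      · rw [HomologicalComplex.exactAt_iff' _ (n + 1 + 1) (n + 1) n (by simp) (by simp),
          ShortComplex.ShortExact.moduleCat_exact_iff_function_exact]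
        change Function.Exact ((TorA_cx d hex).d (n + 1 + 1) (n + 1)).hom
          ((TorA_cx d hex).d (n + 1) n).hom
        rw [TorA_d, TorA_d]
        exact hex n
      · apply ChainComplex.exactAt_succ_single_obj

end Aux

theorem tor_equiv {B : Type u} [CommRing B] (M : Type u) [AddCommGroup M] [Module B M]
    {N : Type u} [AddCommGroup N] [Module B N] {r : ℕ} (d : ℕ → Matrix (Fin r) (Fin r) B)
    (g : Fin r → N) (h0 : Pres0 (RingHom.id B) (d 0) g)
    (hex : ∀ i, Function.Exact (d (i + 1)).mulVecLin (d i).mulVecLin) (i : ℕ) :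
    Nonempty (TorM B M N (i + 1) ≃ₗ[B] Hm (act (d (i + 1)) M) (act (d i) M)) := by
  have e0 : ∀ v : Fin r → B, Fintype.linearCombination B g v = ∑ i, (RingHom.id B) (v i) • g i :=
    fun v => Fintype.linearCombination_apply B g v
  obtain ⟨P, hP⟩ := TorA_ex d (Fintype.linearCombination B g)
    (fun v => by
      rw [e0, h0.ker]
      exact ⟨fun ⟨w, hw⟩ => ⟨w, hw.symm⟩, fun ⟨w, hw⟩ => ⟨w, hw.symm⟩⟩)
    (fun x => by
      obtain ⟨v, hv⟩ := h0.surj x
      exact ⟨v, (e0 v).trans hv.symm⟩) hex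
  obtain ⟨e⟩ := TorA_res (ModuleCat.of B M) _ P i
  rw [hP, TorA_d, TorA_d] at e
  obtain ⟨e'⟩ := TorA_congr _ _ _ (TorA_act M (d (i + 1))) (TorA_act M (d i))
  exact ⟨e ≪≫ₗ e'⟩

end Pool.Agent.Theta
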