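import Pool.Agent.P.MP_f43029_ag.Defs

/-! Flat base change for Tor.
Sketch. Let `E = ModuleCat.extendScalars (algebraMap A B)`; for flat `B` it is exact
(`ModuleCat.preservesFiniteLimits_extendScalars_of_flat`, `RingHom.flat_algebraMap_iff`; left adjoint, so it preserves colimits)
and preserves projective objects (its right adjoint preserves epimorphisms). For `P : ProjectiveResolution N`,
`E.mapProjectiveResolution P` resolves `E.obj N`. `isoLeftDerivedObj` on both sides; the natural isomorphism
`E ⋙ tensorLeft (E.obj M) ≅ tensorLeft M ⋙ E` (`extendScalars` is monoidal: `Functor.Monoidal.μIso`, or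
`TensorProduct.AlgebraTensorModule.distribBaseChange`), `NatIso.mapHomologicalComplex`, and
`ShortComplex.mapHomologyIso`/`HomologicalComplex` version. Finally `E.obj X ≅ ModuleCat.of B (B ⊗[A] X)` (the module
structure of `restrictScalars` differs from the given one only up to a linear equivalence) and functoriality of Tor in both variables.
One may instead define the functor `X ↦ ModuleCat.of B (B ⊗[A] X)` by hand. `length_tor`: `IsLocalRing.length_baseChange`,
the length of `B ⧸ maximalIdeal B` is one. -/

open Finset Matrix
open scoped Kronecker TensorProduct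

noncomputable section

universe u

namespace Pool.Agent.Theta

section

open CategoryTheory MonoidalCategory

/-- The base change functor. -/
private def bcF (A B : Type u) [CommRing A] [CommRing B] [Algebra A B] :
    ModuleCat.{u} A ⥤ ModuleCat.{u} B where
  obj X := ModuleCat.of B (B ⊗[A] X)
  map f := ModuleCat.ofHom (f.hom.baseChange B)
  map_id X := by
    rw [ModuleCat.hom_id, LinearMap.baseChange_id, ModuleCat.ofHom_id]
  map_comp f g := by
    rw [ModuleCat.hom_comp, LinearMap.baseChange_comp, ModuleCat.ofHom_comp]

variable {A B : Type u} [CommRing A] [CommRing B] [Algebra A B]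

private theorem bcF_add : (bcF A B).Additive where
  map_add {X Y f g} := by
    change ModuleCat.ofHom ((f.hom + g.hom).baseChange B) = _
    rw [LinearMap.baseChange_add]
    rfl

private theorem bcF_proj : (bcF A B).PreservesProjectiveObjects where
  projective_obj {X} h := by
    have : Module.Projective A X := (IsProjective.iff_projective X).2 h
    exact (IsProjective.iff_projective (B ⊗[A] X)).1 inferInstance

attribute [local instance] bcF_add bcF_proj

private theorem bcF_hom [Module.Flat A B] : (bcF A B).PreservesHomology :=
  Functor.preservesHomology_of_map_exact _ fun S hS => by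
    rw [ShortComplex.ShortExact.moduleCat_exact_iff_function_exact] at hS ⊢
    exact Module.Flat.lTensor_exact B hS

/-- Base change commutes with tensor products. -/
private def bcIso (M : ModuleCat.{u} A) :
    (tensoringLeft _).obj M ⋙ bcF A B ≅ bcF A B ⋙ (tensoringLeft _).obj ((bcF A B).obj M) :=
  NatIso.ofComponents
    (fun X => (TensorProduct.AlgebraTensorModule.distribBaseChange A B M X).toModuleIso)
    fun {X Y} f => by
      apply ModuleCat.hom_ext
      change (TensorProduct.AlgebraTensorModule.distribBaseChange A B M Y).toLinearMap ∘ₗ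
          (f.hom.lTensor M).baseChange B = (f.hom.baseChange B).lTensor (B ⊗[A] M) ∘ₗ
          (TensorProduct.AlgebraTensorModule.distribBaseChange A B M X).toLinearMap
      ext m x
      simp

end

open CategoryTheory MonoidalCategory in
theorem tor_baseChange {A B : Type u} [CommRing A] [CommRing B] [Algebra A B] [Module.Flat A B]
    (M N : Type u) [AddCommGroup M] [Module A M] [AddCommGroup N] [Module A N] (i : ℕ) :
    Nonempty (B ⊗[A] TorM A M N i ≃ₗ[B] TorM B (B ⊗[A] M) (B ⊗[A] N) i) := by
  have := bcF_add (A := A) (B := B)
  have := bcF_proj (A := A) (B := B)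
  have := bcF_hom (A := A) (B := B)
  let P := ProjectiveResolution.of (ModuleCat.of A N)
  let F := (tensoringLeft _).obj (ModuleCat.of A M)
  let G := (tensoringLeft _).obj ((bcF A B).obj (ModuleCat.of A M))
  let e₁ := (bcF A B).mapIso (P.isoLeftDerivedObj F i)
  let e₂ := (((F.mapHomologicalComplex _).obj P.complex).sc i).mapHomologyIso (bcF A B)
  let e₃ := (HomologicalComplex.homologyFunctor _ _ i).mapIso
    ((NatIso.mapHomologicalComplex (bcIso (B := B) (ModuleCat.of A M)) _).app P.complex)
  let e₄ := ((bcF A B).mapProjectiveResolution P).isoLeftDerivedObj G i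
  exact ⟨(e₁ ≪≫ e₂.symm ≪≫ e₃ ≪≫ e₄.symm).toLinearEquiv⟩

open IsLocalRing in
theorem length_tor {A B : Type u} [CommRing A] [IsLocalRing A] [CommRing B] [IsLocalRing B]
    [Algebra A B] [Module.Flat A B] [IsLocalHom (algebraMap A B)]
    (hmax : (maximalIdeal A).map (algebraMap A B) = maximalIdeal B)
    (M N : Type u) [AddCommGroup M] [Module A M] [AddCommGroup N] [Module A N] (i : ℕ) :
    Module.length A (TorM A M N i) = Module.length B (TorM B (B ⊗[A] M) (B ⊗[A] N) i) := by
  obtain ⟨e⟩ := tor_baseChange (A := A) (B := B) M N i
  have h : Module.length B (B ⧸ maximalIdeal B) = 1 := by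
    have : IsSimpleModule B (B ⧸ maximalIdeal B) :=
      isSimpleModule_iff_quot_maximal.2 ⟨_, inferInstance, ⟨LinearEquiv.refl _ _⟩⟩
    exact Module.length_eq_one _ _
  rw [← e.length_eq, IsLocalRing.length_baseChange, hmax, h, mul_one]

end Pool.Agent.Theta
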